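import Pool.Agent.QDF.QCv
import Pool.Agent.BK3.TEq
import Pool.Agent.BK3.Ball

/-! QDF/RhoC. Convergence of `η ρ(k)` on the torus, and the value at `k = 0`.

* `rho_zero`: `rhok ν d π 0 = Ex (Σ_y ‖G 0 y‖²)` (`tw_diag_sum`, `ch 0 = 1`: `fE_ch`/`fb34_ch_zero`-type
  lemma for `ch 0 y`), and `ward` (`BK/Res1.lean`): `Σ_y ‖G 0 y‖² = Im G 0 0/η`; so
  `η Re ρ(0) = Im gb`.
* `rho_conv`: `teq` with `Sml` from `Q_conv`: `‖2i(η + λ²s2γQ)ρ - 2i(Im g - γQ)‖ ≤ λ^(50e)`. With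
  `X = λ²s2(γQ)/η ≥ 0`: `‖ηρ(1+X) - (Im g - γQ)‖ ≤ λ^(50e)/2`, so
  `|Re(ηρ) - (Im g - γQ)/(1+X)| ≤ λ^(50e)`, and for `X, Y ≥ 0`:
  `|a/(1+X) - b/(1+Y)| ≤ |a-b| + |b||X-Y|` with `a = Im g - γQ`, `b = g0(E0)` (bounded: `Ph_le`),
  `Y = DD·x2 ξ`; use `gb_conv` and `Q_conv`. -/

open MeasureTheory Finset Matrix Pool.Agent.BK Pool.Agent.BK3

noncomputable section

namespace Pool.Agent.QDF

theorem rho_zero {ν : Measure ℝ} {R s2 : ℝ} (hν : BLaw ν R s2) (d : ℕ) (π : Par)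
    (hη : 0 < π.eta) : π.eta * (rhok ν d π 0).re = (gb ν d π).im := by
  have h1 := fE_ch hν d π hη 0
  have h2 : ∑ x, (fE ν d π x : ℂ) * ch 0 x = ((∑ x, fE ν d π x : ℝ) : ℂ) := by
    rw [Complex.ofReal_sum]
    refine Finset.sum_congr rfl fun x _ => ?_
    have h3 : ch (0 : Tor d π.n) x = 1 := by
      rw [ch_comm]
      exact fb34_ch_zero x
    rw [h3, mul_one]
  rw [← h1, h2, Complex.ofReal_re, fE_sum hν d π hη]
  field_simp

private lemma rhoc_frac {a b X Y : ℝ} (hX : 0 ≤ X) (hY : 0 ≤ Y) :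
    |a / (1 + X) - b / (1 + Y)| ≤ |a - b| + |b| * |X - Y| := by
  have hX1 : 0 < 1 + X := by linarith
  have hY1 : 0 < 1 + Y := by linarith
  have e1 : a / (1 + X) - b / (1 + Y) = (a - b) / (1 + X) + b * (Y - X) / ((1 + X) * (1 + Y)) := by
    field_simp
    ring
  rw [e1]
  refine (abs_add_le _ _).trans ?_
  apply add_le_add
  · rw [abs_div, abs_of_pos hX1]
    apply div_le_self (abs_nonneg _)
    linarith
  · rw [abs_div, abs_mul, abs_of_pos (mul_pos hX1 hY1), abs_sub_comm Y X]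
    apply div_le_self (by positivity)
    nlinarith [mul_nonneg hX hY]

private lemma rhoc_alg {η A B δ : ℝ} {ρ : ℂ} {X : ℝ} (hη : 0 < η) (hX : 0 ≤ X)
    (hA : A = η * (1 + X))
    (h : ‖2 * Complex.I * (A : ℂ) * ρ - 2 * Complex.I * (B : ℂ)‖ ≤ δ) :
    |η * ρ.re - B / (1 + X)| ≤ δ / 2 := by
  have h1 : 2 * Complex.I * (A : ℂ) * ρ - 2 * Complex.I * (B : ℂ) =
      2 * Complex.I * ((A : ℂ) * ρ - (B : ℂ)) := by ring
  rw [h1, norm_mul, norm_mul, Complex.norm_I] at h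
  norm_num at h
  have h2 : |A * ρ.re - B| ≤ δ / 2 := by
    have h3 := Complex.abs_re_le_norm ((A : ℂ) * ρ - (B : ℂ))
    rw [Complex.sub_re, Complex.re_ofReal_mul, Complex.ofReal_re] at h3
    linarith
  have hX1 : 0 < 1 + X := by linarith
  have h4 : η * ρ.re - B / (1 + X) = (A * ρ.re - B) / (1 + X) := by
    rw [hA]
    field_simp
  rw [h4, abs_div, abs_of_pos hX1]
  refine (div_le_self (abs_nonneg _) (by linarith)).trans h2

theorem rho_conv {ν : Measure ℝ} {R s2 : ℝ} (hν : BLaw ν R s2) (c : Cx) (hc : c.Ok) {s b K ε : ℝ}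
    (hs : 0 < s) (hb : 0 ≤ b) (hK : 0 ≤ K) (hε : 0 < ε) :
    ∃ lam1 : ℝ, 0 < lam1 ∧ lam1 ≤ 1 ∧ ∀ π ∈ c.PT lam1, π.eta ≤ π.lam ^ (2 + s) →
      ∀ E0 : ℝ, |E0 - π.E| ≤ b * π.lam →
        |(gb ν c.d π).im - g0 c.d E0| ≤ ε ∧
        ∀ ξ : Fin c.d → ℝ, (∀ l, |ξ l| ≤ K) →
        ∀ k : Tor c.d π.n, (∀ l, |ang π.n (k l) - π.lam * √π.eta * ξ l| ≤ π.lam ^ 10) →
          |π.eta * (rhok ν c.d π k).re - g0 c.d E0 / (1 + DD c.d s2 E0 * x2 ξ)| ≤ ε := by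
  obtain ⟨C, hC, hPh⟩ := Ph_le hc.d3 0
  have he := hc.e0
  set ε' : ℝ := ε / (4 * (C + 1)) with hε'
  have hε'0 : 0 < ε' := by positivity
  have hε'1 : (C + 1) * ε' = ε / 4 := by
    rw [hε']
    field_simp
  have hε'2 : ε' ≤ ε / 4 := by
    rw [← hε'1]
    nlinarith
  have hε'3 : C * ε' ≤ ε / 4 := by
    rw [← hε'1]
    nlinarith
  obtain ⟨l1, l10, l11, h1⟩ := grid hν c hc
  obtain ⟨l2, l20, l21, h2⟩ := teq hν c hc
  obtain ⟨l3, l30, l31, h3⟩ := Q_conv hν c hc hs hb hK hε'0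
  obtain ⟨l4, l40, l41, h4⟩ := gb_conv hν c hc hs hb hε'0
  obtain ⟨l5, l50, l51, h5⟩ := sm_one (1 / ε') (show 0 < 50 * c.e by positivity)
  refine ⟨min l1 (min l2 (min l3 (min l4 l5))), by positivity,
    (min_le_left _ _).trans l11, ?_⟩
  intro π hπ hη E0 hE0
  have m1 : min l1 (min l2 (min l3 (min l4 l5))) ≤ l1 := min_le_left _ _
  have m2 : min l1 (min l2 (min l3 (min l4 l5))) ≤ l2 :=
    (min_le_right _ _).trans (min_le_left _ _)
  have m3 : min l1 (min l2 (min l3 (min l4 l5))) ≤ l3 :=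
    (min_le_right _ _).trans ((min_le_right _ _).trans (min_le_left _ _))
  have m4 : min l1 (min l2 (min l3 (min l4 l5))) ≤ l4 :=
    (min_le_right _ _).trans ((min_le_right _ _).trans ((min_le_right _ _).trans
      (min_le_left _ _)))
  have m5 : min l1 (min l2 (min l3 (min l4 l5))) ≤ l5 :=
    (min_le_right _ _).trans ((min_le_right _ _).trans ((min_le_right _ _).trans
      (min_le_right _ _)))
  have hL : 0 < π.lam := hπ.1
  have hLl : π.lam ≤ min l1 (min l2 (min l3 (min l4 l5))) := hπ.2.1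
  have hη0 : 0 < π.eta := (rp_pos hL c.A).trans_le hπ.2.2.2.2.2.2.1
  have hS1 := h1 π (c.PT_mono m1 hπ)
  have hS2 : π ∈ c.S ν l2 := ⟨c.PT_mono m2 hπ, hS1.2⟩
  have hg := (h4 π (c.PT_mono m4 hπ) hη E0 hE0).1
  have hg' : |(gb ν c.d π).im - g0 c.d E0| ≤ ε' := by
    have e1 := Complex.abs_im_le_norm (gb ν c.d π - Ph c.d 0 E0)
    rw [Complex.sub_im] at e1
    exact e1.trans hg
  have hδ : π.lam ^ (50 * c.e) ≤ ε' := by
    have e1 := h5 π.lam hL (hLl.trans m5)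
    rw [one_div, inv_mul_le_iff₀ hε'0, mul_one] at e1
    exact e1
  have hg0 : |g0 c.d E0| ≤ C := by
    have e1 := hPh (E0 : ℂ) (by simp)
    exact (Complex.abs_im_le_norm _).trans e1
  refine ⟨hg'.trans (by linarith), ?_⟩
  intro ξ hξ k hk
  obtain ⟨q1, q2, q3, q4, q5, q6⟩ := h3 π (c.PT_mono m3 hπ) hη E0 hE0 ξ hξ k hk
  have hT := h2 π hS2 k q1
  have hs2 := hν.s2_pos
  set G : ℝ := (zt ν s2 c.d π).im * Qk ν s2 c.d π k with hG
  set X : ℝ := π.lam ^ 2 * s2 * G / π.eta with hX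
  have hX0 : 0 ≤ X := by positivity
  have hx2 : 0 ≤ x2 ξ := Finset.sum_nonneg fun l _ => sq_nonneg _
  have hY0 : 0 ≤ DD c.d s2 E0 * x2 ξ := mul_nonneg q6 hx2
  have e1 := rhoc_alg (X := X) hη0 hX0 (by rw [hX]; field_simp) hT
  have e2 := rhoc_frac (a := (gb ν c.d π).im - G) (b := g0 c.d E0) hX0 hY0
  have e3 : |(gb ν c.d π).im - G - g0 c.d E0| ≤ ε' + ε' := by
    have e4 : (gb ν c.d π).im - G - g0 c.d E0 = ((gb ν c.d π).im - g0 c.d E0) + (-G) := by ring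
    rw [e4]
    refine (abs_add_le _ _).trans (add_le_add hg' ?_)
    rw [abs_neg, abs_of_nonneg q2]
    exact q3
  have e5 : |g0 c.d E0| * |X - DD c.d s2 E0 * x2 ξ| ≤ C * ε' :=
    mul_le_mul hg0 q4 (abs_nonneg _) hC.le
  have e6 : π.eta * (rhok ν c.d π k).re - g0 c.d E0 / (1 + DD c.d s2 E0 * x2 ξ) =
      (π.eta * (rhok ν c.d π k).re - ((gb ν c.d π).im - G) / (1 + X)) +
      (((gb ν c.d π).im - G) / (1 + X) - g0 c.d E0 / (1 + DD c.d s2 E0 * x2 ξ)) := by ring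
  rw [e6]
  refine (abs_add_le _ _).trans ?_
  linarith

end Pool.Agent.QDF
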