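import Pool.Agent.QDF.AQ
import Pool.Agent.QDF.RhoC

/-! QDF/AEx. From the high-probability statement to expectations (project QDA).

`G = GG d n lam z V`, `z = π.z`, `η = π.eta`. Hypotheses: `g : ℂ`, `q ≥ 0` (the value `QU`), and the
bad set `{V | ¬ (‖G 0 0 - g‖ ≤ a ∧ |(1/N) Σ_x Σ_y ‖G x y‖² (1 - Re ch k (y - x)) - q| ≤ dl q)}` has
probability at most `p0` (`N = (2n+1)^d`).
* `gb = Ex (G 0 0)`, `‖G 0 0‖ ≤ 1/η` (`norm_Gr_le`), so
  `|Im gb - Im g| ≤ a + (1/η + ‖g‖) p0`.
* `ρ(0) - ρ(k)`: `rhok ν d π k = Ex (Σ_y ch k y ‖G 0 y‖²)` (`tw_diag_sum`, `ch k 0 = 1`), and by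
  translation invariance of the law (`measurePreserving` of `V ↦ V(· + x)`, and
  `Gr H0 (V(·+x)) z 0 y = Gr H0 V z x (x+y)`; see the proofs of translation invariance in
  `BK/TorB.lean`, `BK/Orth*.lean`, `BK3/TorM.lean`, `Gr0_add`)
  `Re ρ(0) - Re ρ(k) = Ex ((1/N) Σ_x Σ_y ‖G x y‖² (1 - Re ch k (y-x)))`. The integrand is between `0` and
  `2 (1/N) Σ_x Im G_xx/η ≤ 2/η²` (`ward`). So
  `|Re ρ(0) - Re ρ(k) - q| ≤ dl q + (2/η² + q) p0`. -/

open MeasureTheory Finset Matrix Pool.Agent.BK Pool.Agent.BK3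

noncomputable section

namespace Pool.Agent.QDF

/-- The normalised Dirichlet form of `‖G‖²` on the plane wave `k`. -/
def dirk (d : ℕ) (π : Par) (V : Tor d π.n → ℝ) (k : Tor d π.n) : ℝ :=
  (1 / (2 * π.n + 1 : ℝ) ^ d) * ∑ x : Tor d π.n, ∑ y : Tor d π.n,
    ‖GG d π.n π.lam π.z V x y‖ ^ 2 * (1 - (ch k (y - x)).re)

private lemma aex_ch_right {d n : ℕ} (k : Tor d n) : ch k (0 : Tor d n) = 1 := by
  unfold ch
  refine Finset.prod_eq_one fun l _ => ?_
  rw [Pi.zero_apply, mul_zero, AddChar.map_zero_eq_one]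

private lemma aex_ch_left {d n : ℕ} (y : Tor d n) : ch (0 : Tor d n) y = 1 := by
  rw [ch_comm, aex_ch_right]

private lemma aex_re {d n : ℕ} (k y : Tor d n) : -1 ≤ (ch k y).re ∧ (ch k y).re ≤ 1 :=
  abs_le.1 ((Complex.abs_re_le_norm _).trans (norm_ch k y).le)

/-- the row form -/
private def aexD (d : ℕ) (π : Par) (k x : Tor d π.n) (V : Tor d π.n → ℝ) : ℝ :=
  ∑ y : Tor d π.n, ‖GG d π.n π.lam π.z V x y‖ ^ 2 * (1 - (ch k (y - x)).re)

private lemma aex_contG {d : ℕ} (π : Par) (hη : 0 < π.eta) (x y : Tor d π.n) :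
    Continuous fun V : Tor d π.n → ℝ => GG d π.n π.lam π.z V x y :=
  (continuous_Gr (RS_H0 d π.n) π.lam (show π.z.im ≠ 0 from hη.ne')).matrix_elem x y

private lemma aexD_cont {d : ℕ} (π : Par) (hη : 0 < π.eta) (k x : Tor d π.n) :
    Continuous (aexD d π k x) := by
  unfold aexD
  refine continuous_finsetSum _ fun y _ => ?_
  exact ((aex_contG π hη x y).norm.pow 2).mul continuous_const

private lemma aexD_nonneg {d : ℕ} (π : Par) (k x : Tor d π.n) (V : Tor d π.n → ℝ) :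
    0 ≤ aexD d π k x V := by
  refine Finset.sum_nonneg fun y _ => mul_nonneg (sq_nonneg _) ?_
  have := (aex_re k (y - x)).2
  linarith

private lemma aex_row {d : ℕ} (π : Par) (hη : 0 < π.eta) (x : Tor d π.n) (V : Tor d π.n → ℝ) :
    ∑ y : Tor d π.n, ‖GG d π.n π.lam π.z V x y‖ ^ 2 ≤ 1 / π.eta ^ 2 := by
  have hz : 0 < π.z.im := hη
  have h1 := ward (RS_H0 d π.n) (fun x => π.lam * V x) hz x
  have h2 : ∑ y : Tor d π.n, ‖GG d π.n π.lam π.z V x y‖ ^ 2 =
      (Gr (H0 d π.n) (fun x => π.lam * V x) π.z x x).im / π.eta := h1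
  rw [h2]
  have h3 := norm_Gr_le (RS_H0 d π.n) (fun x => π.lam * V x) hz x x
  have h4 := (le_abs_self _).trans ((Complex.abs_im_le_norm _).trans h3)
  have h5 : (Gr (H0 d π.n) (fun x => π.lam * V x) π.z x x).im ≤ 1 / π.eta := h4
  rw [div_le_div_iff₀ hη (by positivity)]
  rw [le_div_iff₀ hη] at h5
  nlinarith

private lemma aexD_le {d : ℕ} (π : Par) (hη : 0 < π.eta) (k x : Tor d π.n)
    (V : Tor d π.n → ℝ) : aexD d π k x V ≤ 2 / π.eta ^ 2 := by
  have h1 : aexD d π k x V ≤ ∑ y : Tor d π.n, ‖GG d π.n π.lam π.z V x y‖ ^ 2 * 2 := by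
    refine Finset.sum_le_sum fun y _ => mul_le_mul_of_nonneg_left ?_ (sq_nonneg _)
    have := (aex_re k (y - x)).1
    linarith
  rw [← Finset.sum_mul] at h1
  have h2 := aex_row π hη x V
  have h3 : 2 / π.eta ^ 2 = 1 / π.eta ^ 2 * 2 := by ring
  rw [h3]
  linarith

private lemma aexD_shift {d : ℕ} (π : Par) (k x : Tor d π.n) (V : Tor d π.n → ℝ) :
    aexD d π k x V = aexD d π k 0 (fun u => V (u + x)) := by
  unfold aexD
  rw [← Equiv.sum_comp (Equiv.addRight x)]
  refine Finset.sum_congr rfl fun y _ => ?_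
  rw [Equiv.coe_addRight, add_sub_cancel_right, sub_zero]
  have h := GG_add π.lam π.z V x 0 y
  rw [zero_add] at h
  rw [h]

private lemma aexD_ex {ν : Measure ℝ} [IsProbabilityMeasure ν] {d : ℕ} (π : Par)
    (k x : Tor d π.n) :
    Ex ν (fun V : Tor d π.n → ℝ => aexD d π k x V) =
      Ex ν (fun V : Tor d π.n → ℝ => aexD d π k 0 V) := by
  rw [← Ex_perm ν (Equiv.addRight x) (fun V : Tor d π.n → ℝ => aexD d π k 0 V)]
  congr 1
  funext V
  exact aexD_shift π k x V

private lemma aex_card (d n : ℕ) :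
    ((Finset.univ : Finset (Tor d n)).card : ℝ) = (2 * n + 1 : ℝ) ^ d := by
  rw [Finset.card_univ, Fintype.card_fun, ZMod.card, Fintype.card_fin]
  push_cast
  rfl

private lemma dirk_eq {d : ℕ} (π : Par) (V : Tor d π.n → ℝ) (k : Tor d π.n) :
    dirk d π V k = (1 / (2 * π.n + 1 : ℝ) ^ d) * ∑ x : Tor d π.n, aexD d π k x V := rfl

private lemma dirk_nonneg {d : ℕ} (π : Par) (V : Tor d π.n → ℝ) (k : Tor d π.n) :
    0 ≤ dirk d π V k := by
  rw [dirk_eq]
  exact mul_nonneg (by positivity) (Finset.sum_nonneg fun x _ => aexD_nonneg π k x V)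

private lemma dirk_le {d : ℕ} (π : Par) (hη : 0 < π.eta) (V : Tor d π.n → ℝ)
    (k : Tor d π.n) : dirk d π V k ≤ 2 / π.eta ^ 2 := by
  rw [dirk_eq]
  have h1 : ∑ x : Tor d π.n, aexD d π k x V ≤ ∑ _x : Tor d π.n, 2 / π.eta ^ 2 :=
    Finset.sum_le_sum fun x _ => aexD_le π hη k x V
  rw [Finset.sum_const, nsmul_eq_mul, aex_card] at h1
  have hN : (0 : ℝ) < (2 * (π.n : ℝ) + 1) ^ d := by positivity
  calc (1 / (2 * (π.n : ℝ) + 1) ^ d) * ∑ x : Tor d π.n, aexD d π k x V
      ≤ (1 / (2 * (π.n : ℝ) + 1) ^ d) * ((2 * (π.n : ℝ) + 1) ^ d * (2 / π.eta ^ 2)) :=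
        mul_le_mul_of_nonneg_left h1 (by positivity)
    _ = 2 / π.eta ^ 2 := by
        field_simp

private lemma dirk_cont {d : ℕ} (π : Par) (hη : 0 < π.eta) (k : Tor d π.n) :
    Continuous fun V : Tor d π.n → ℝ => dirk d π V k := by
  simp only [dirk_eq]
  exact continuous_const.mul (continuous_finsetSum _ fun x _ => aexD_cont π hη k x)

/-- splitting an expectation over a small bad set -/
private lemma aex_split {Ω : Type} [MeasurableSpace Ω] (μ : Measure Ω) [IsProbabilityMeasure μ]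
    (f : Ω → ℝ) (good : Ω → Prop) {a B p0 : ℝ} (ha : 0 ≤ a) (hB0 : 0 ≤ B)
    (hB : ∀ V, |f V| ≤ B) (h : (μ {V | ¬ good V}).toReal ≤ p0)
    (hg : ∀ V, good V → |f V| ≤ a) : |∫ V, f V ∂μ| ≤ a + B * p0 := by
  set S : Set Ω := toMeasurable μ {V | ¬ good V} with hS
  have hSm : MeasurableSet S := measurableSet_toMeasurable _ _
  have hSμ : μ.real S ≤ p0 := by
    rw [measureReal_def, hS, measure_toMeasurable]
    exact h
  have hi1 : Integrable (fun _ : Ω => a) μ := integrable_const a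
  have hi2 : Integrable (S.indicator fun _ : Ω => B) μ := (integrable_const B).indicator hSm
  have h1 : ‖∫ V, f V ∂μ‖ ≤ ∫ V, (a + S.indicator (fun _ => B) V) ∂μ := by
    refine norm_integral_le_of_norm_le (hi1.add hi2) (ae_of_all _ fun V => ?_)
    rw [Real.norm_eq_abs]
    by_cases hV : good V
    · have e1 := hg V hV
      have e2 : 0 ≤ S.indicator (fun _ : Ω => B) V := Set.indicator_nonneg (fun _ _ => hB0) V
      show |f V| ≤ a + S.indicator (fun _ => B) V
      linarith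
    · have e1 : V ∈ S := subset_toMeasurable μ _ hV
      show |f V| ≤ a + S.indicator (fun _ => B) V
      rw [Set.indicator_of_mem e1]
      have := hB V
      linarith
  have h2 : ∫ V, (a + S.indicator (fun _ => B) V) ∂μ = a + μ.real S * B := by
    rw [integral_add hi1 hi2, integral_const, integral_indicator_const _ hSm, smul_eq_mul,
      smul_eq_mul]
    simp
  rw [h2, Real.norm_eq_abs] at h1
  have h3 := mul_le_mul_of_nonneg_right hSμ hB0
  linarith

theorem rho_dirk {ν : Measure ℝ} {R s2 : ℝ} (hν : BLaw ν R s2) (d : ℕ) (π : Par) (hη : 0 < π.eta)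
    (k : Tor d π.n) :
    (rhok ν d π 0).re - (rhok ν d π k).re = Ex ν fun V : Tor d π.n → ℝ => dirk d π V k := by
  have hpr : IsProbabilityMeasure ν := hν.prob
  have hint : ∀ x : Tor d π.n, Integrable (fun V : Tor d π.n → ℝ => aexD d π k x V)
      (Measure.pi fun _ : Tor d π.n => ν) := by
    intro x
    refine Integrable.of_bound (aexD_cont π hη k x).aestronglyMeasurable (2 / π.eta ^ 2)
      (ae_of_all _ fun V => ?_)
    rw [Real.norm_eq_abs, abs_of_nonneg (aexD_nonneg π k x V)]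
    exact aexD_le π hη k x V
  -- the right hand side
  have hR : (Ex ν fun V : Tor d π.n → ℝ => dirk d π V k) =
      Ex ν (fun V : Tor d π.n → ℝ => aexD d π k 0 V) := by
    have e1 : (Ex ν fun V : Tor d π.n → ℝ => dirk d π V k) =
        (1 / (2 * π.n + 1 : ℝ) ^ d) * ∑ x : Tor d π.n,
          Ex ν (fun V : Tor d π.n → ℝ => aexD d π k x V) := by
      unfold Ex
      simp only [dirk_eq]
      rw [integral_const_mul, integral_finsetSum _ fun x _ => hint x]
    rw [e1, Finset.sum_congr rfl fun x _ => aexD_ex (ν := ν) π k x, Finset.sum_const,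
      nsmul_eq_mul, aex_card]
    have hN : (0 : ℝ) < (2 * (π.n : ℝ) + 1) ^ d := by positivity
    field_simp
  rw [hR]
  -- the left hand side
  have hre : ∀ l : Tor d π.n, (rhok ν d π l).re =
      ∫ V : Tor d π.n → ℝ, ∑ y : Tor d π.n, ‖GG d π.n π.lam π.z V 0 y‖ ^ 2 * (ch l y).re
        ∂(Measure.pi fun _ : Tor d π.n => ν) := by
    intro l
    have hform : ∀ V : Tor d π.n → ℝ,
        (tw (ch l) (GG d π.n π.lam π.z V) * (GG d π.n π.lam π.z V)ᴴ) 0 0 =
          ∑ y : Tor d π.n, ch l y * ((‖GG d π.n π.lam π.z V 0 y‖ ^ 2 : ℝ) : ℂ) := by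
      intro V
      rw [tw_diag_sum]
      refine Finset.sum_congr rfl fun y _ => ?_
      rw [aex_ch_right, map_one, one_mul]
    have hcont : Continuous fun V : Tor d π.n → ℝ =>
        ∑ y : Tor d π.n, ch l y * ((‖GG d π.n π.lam π.z V 0 y‖ ^ 2 : ℝ) : ℂ) := by
      refine continuous_finsetSum _ fun y _ => continuous_const.mul ?_
      exact Complex.continuous_ofReal.comp ((aex_contG π hη 0 y).norm.pow 2)
    have hi : Integrable (fun V : Tor d π.n → ℝ =>
        ∑ y : Tor d π.n, ch l y * ((‖GG d π.n π.lam π.z V 0 y‖ ^ 2 : ℝ) : ℂ))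
        (Measure.pi fun _ : Tor d π.n => ν) := by
      refine Integrable.of_bound hcont.aestronglyMeasurable (1 / π.eta ^ 2)
        (ae_of_all _ fun V => ?_)
      refine (norm_sum_le _ _).trans (le_trans (le_of_eq ?_) (aex_row π hη 0 V))
      refine Finset.sum_congr rfl fun y _ => ?_
      rw [norm_mul, norm_ch, one_mul, Complex.norm_real, Real.norm_eq_abs,
        abs_of_nonneg (sq_nonneg _)]
    have h1 := Complex.reCLM.integral_comp_comm hi
    unfold rhok Ex
    simp only [hform]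
    change Complex.reCLM (∫ V, _ ∂(Measure.pi fun _ : Tor d π.n => ν)) = _
    rw [← h1]
    refine integral_congr_ae (ae_of_all _ fun V => ?_)
    show (∑ y : Tor d π.n, ch l y * ((‖GG d π.n π.lam π.z V 0 y‖ ^ 2 : ℝ) : ℂ)).re = _
    rw [Complex.re_sum]
    refine Finset.sum_congr rfl fun y _ => ?_
    rw [Complex.re_mul_ofReal, mul_comm]
  have hi2 : ∀ l : Tor d π.n, Integrable (fun V : Tor d π.n → ℝ =>
      ∑ y : Tor d π.n, ‖GG d π.n π.lam π.z V 0 y‖ ^ 2 * (ch l y).re)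
      (Measure.pi fun _ : Tor d π.n => ν) := by
    intro l
    have hcont : Continuous fun V : Tor d π.n → ℝ =>
        ∑ y : Tor d π.n, ‖GG d π.n π.lam π.z V 0 y‖ ^ 2 * (ch l y).re :=
      continuous_finsetSum _ fun y _ => ((aex_contG π hη 0 y).norm.pow 2).mul continuous_const
    refine Integrable.of_bound hcont.aestronglyMeasurable (1 / π.eta ^ 2)
      (ae_of_all _ fun V => ?_)
    refine (norm_sum_le _ _).trans (le_trans ?_ (aex_row π hη 0 V))
    refine Finset.sum_le_sum fun y _ => ?_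
    rw [norm_mul, Real.norm_eq_abs, Real.norm_eq_abs, abs_of_nonneg (sq_nonneg _)]
    calc ‖GG d π.n π.lam π.z V 0 y‖ ^ 2 * |(ch l y).re|
        ≤ ‖GG d π.n π.lam π.z V 0 y‖ ^ 2 * 1 :=
          mul_le_mul_of_nonneg_left (abs_le.2 (aex_re l y)) (sq_nonneg _)
      _ = _ := mul_one _
  rw [hre 0, hre k, ← integral_sub (hi2 0) (hi2 k)]
  unfold Ex
  refine integral_congr_ae (ae_of_all _ fun V => ?_)
  show _ - _ = aexD d π k 0 V
  unfold aexD
  rw [← Finset.sum_sub_distrib]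
  refine Finset.sum_congr rfl fun y _ => ?_
  rw [aex_ch_left, Complex.one_re, sub_zero]
  ring

theorem ex_gb {ν : Measure ℝ} {R s2 : ℝ} (hν : BLaw ν R s2) (d : ℕ) (π : Par) (hη : 0 < π.eta)
    {g : ℂ} {a p0 : ℝ} (ha : 0 ≤ a)
    (h : ((Measure.pi fun _ : Tor d π.n => ν)
      {V | ¬ ‖GG d π.n π.lam π.z V 0 0 - g‖ ≤ a}).toReal ≤ p0) :
    |(gb ν d π).im - g.im| ≤ a + (1 / π.eta + ‖g‖) * p0 := by
  have hpr : IsProbabilityMeasure ν := hν.prob
  have hz : 0 < π.z.im := hη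
  have hb : ∀ V : Tor d π.n → ℝ, ‖GG d π.n π.lam π.z V 0 0‖ ≤ 1 / π.eta :=
    fun V => norm_Gr_le (RS_H0 d π.n) (fun x => π.lam * V x) hz 0 0
  have hi : Integrable (fun V : Tor d π.n → ℝ => GG d π.n π.lam π.z V 0 0)
      (Measure.pi fun _ : Tor d π.n => ν) :=
    Integrable.of_bound (aex_contG π hη 0 0).aestronglyMeasurable (1 / π.eta) (ae_of_all _ hb)
  have h1 := Complex.imCLM.integral_comp_comm hi
  have h2 : (gb ν d π).im = ∫ V : Tor d π.n → ℝ, (GG d π.n π.lam π.z V 0 0).im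
      ∂(Measure.pi fun _ : Tor d π.n => ν) := h1.symm
  have hi2 : Integrable (fun V : Tor d π.n → ℝ => (GG d π.n π.lam π.z V 0 0).im)
      (Measure.pi fun _ : Tor d π.n => ν) := Complex.imCLM.integrable_comp hi
  have h3 : (gb ν d π).im - g.im = ∫ V : Tor d π.n → ℝ,
      ((GG d π.n π.lam π.z V 0 0).im - g.im) ∂(Measure.pi fun _ : Tor d π.n => ν) := by
    rw [integral_sub hi2 (integrable_const _), integral_const, h2]
    simp
  rw [h3]
  refine aex_split (Measure.pi fun _ : Tor d π.n => ν) _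
    (fun V => ‖GG d π.n π.lam π.z V 0 0 - g‖ ≤ a) ha (by positivity) ?_ h ?_
  · intro V
    rw [← Complex.sub_im]
    exact (Complex.abs_im_le_norm _).trans ((norm_sub_le _ _).trans (by linarith [hb V]))
  · intro V hV
    rw [← Complex.sub_im]
    exact (Complex.abs_im_le_norm _).trans hV

theorem ex_rho {ν : Measure ℝ} {R s2 : ℝ} (hν : BLaw ν R s2) (d : ℕ) (π : Par) (hη : 0 < π.eta)
    (k : Tor d π.n) {q dl p0 : ℝ} (hq : 0 ≤ q) (hdl : 0 ≤ dl)
    (h : ((Measure.pi fun _ : Tor d π.n => ν) {V | ¬ |dirk d π V k - q| ≤ dl * q}).toReal ≤ p0) :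
    |((rhok ν d π 0).re - (rhok ν d π k).re) - q| ≤ dl * q + (2 / π.eta ^ 2 + q) * p0 := by
  have hpr : IsProbabilityMeasure ν := hν.prob
  have hi : Integrable (fun V : Tor d π.n → ℝ => dirk d π V k)
      (Measure.pi fun _ : Tor d π.n => ν) := by
    refine Integrable.of_bound (dirk_cont π hη k).aestronglyMeasurable (2 / π.eta ^ 2)
      (ae_of_all _ fun V => ?_)
    rw [Real.norm_eq_abs, abs_of_nonneg (dirk_nonneg π V k)]
    exact dirk_le π hη V k
  rw [rho_dirk hν d π hη k]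
  have h3 : (Ex ν fun V : Tor d π.n → ℝ => dirk d π V k) - q = ∫ V : Tor d π.n → ℝ,
      (dirk d π V k - q) ∂(Measure.pi fun _ : Tor d π.n => ν) := by
    rw [integral_sub hi (integrable_const _), integral_const]
    simp [Ex]
  rw [h3]
  refine aex_split (Measure.pi fun _ : Tor d π.n => ν) _
    (fun V => |dirk d π V k - q| ≤ dl * q) (by positivity) (by positivity) ?_ h ?_
  · intro V
    have e1 := dirk_nonneg π V k
    have e2 := dirk_le π hη V k
    rw [abs_le]
    constructor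
    · have : 0 ≤ 2 / π.eta ^ 2 := by positivity
      linarith
    · linarith
  · intro V hV
    exact hV

end Pool.Agent.QDF
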