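import Pool.Agent.QDF.AEx
import Pool.Agent.BK.LawDefs
import Pool.Agent.APS.TorGood
import Pool.Agent.APS.FatStein
import Pool.Agent.APS.LowHigh
import Pool.Agent.APS.DLap
import Pool.Agent.APS.RefA

/-! QDF/AIn. The input from the flow (project APS, `/team-store/aps2_proof.md`), in the notation of
QDF/BK: deduced from `torus_good` (`Good4` at `r = 1`). -/

open MeasureTheory Finset Matrix

noncomputable section

namespace Pool.Agent.QDF

/-! ### characters -/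

private theorem ain_ch {d n : ℕ} (q x : BK.Tor d n) :
    BK.ch q x = Kin.ch (d := d) (L := 2 * n + 1) q x := by
  unfold BK.ch Kin.ch Kin.ch1 Kin.ang
  refine Finset.prod_congr rfl fun j _ => ?_
  rw [ZMod.stdAddChar_apply, ZMod.toCircle_apply]
  congr 1
  push_cast
  ring

open Pool.Agent.APS in
/-- A Fourier multiplier acts on a character. -/
private theorem ain_mult {d L : ℕ} [NeZero L] (φ : Kin.Tor d L → ℂ) (k x : Kin.Tor d L) :
    (mult φ *ᵥ (Kin.ch k)) x = φ k * Kin.ch k x := by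
  have hN : ((L : ℂ) ^ d) ≠ 0 := pow_ne_zero _ (Nat.cast_ne_zero.2 (NeZero.ne L))
  have h0 : ∀ l : Kin.Tor d L, hat (Kin.ch k) l = if l = k then (L : ℂ) ^ d else 0 := by
    intro l
    have e1 : hat (Kin.ch k) l = ∑ y : Kin.Tor d L, Kin.ch y (k - l) := by
      unfold hat
      refine Finset.sum_congr rfl fun y _ => ?_
      rw [Kin.ch_comm y (k - l), sub_eq_add_neg, Kin.ch_add_left, Kin.ch_neg_left]
    rw [e1, Kin.sum_ch]
    simp only [sub_eq_zero, eq_comm]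
  rw [hat_inv (mult φ *ᵥ (Kin.ch k)) x]
  simp only [hat_mult, h0, mul_ite, mul_zero, ite_mul, zero_mul]
  rw [Finset.sum_ite_eq' Finset.univ k, if_pos (Finset.mem_univ k)]
  field_simp

private theorem ain_n2 {d L : ℕ} [NeZero L] (k : Kin.Tor d L) :
    APS.n2 (Kin.ch k : Kin.Tor d L → ℂ) = (L : ℝ) ^ d := by
  unfold APS.n2
  simp only [Kin.ch_norm, one_pow]
  rw [Finset.sum_const, Finset.card_univ, Fintype.card_fun, ZMod.card, Fintype.card_fin,
    nsmul_eq_mul, mul_one]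
  push_cast
  rfl

private theorem ain_diff {d L : ℕ} [NeZero L] (k x y : Kin.Tor d L) :
    star (Kin.ch k x - Kin.ch k y) * (Kin.ch k x - Kin.ch k y) =
      ((2 * (1 - (Kin.ch k (y - x)).re) : ℝ) : ℂ) := by
  rw [Complex.star_def, ← Complex.normSq_eq_conj_mul_self]
  congr 1
  have h1 : Kin.ch k (y - x) = Kin.ch k y * star (Kin.ch k x) := by
    rw [sub_eq_add_neg, Kin.ch_add_right, Kin.ch_neg_right]
  have h2 : ∀ z : Kin.Tor d L, (Kin.ch k z).re * (Kin.ch k z).re +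
      (Kin.ch k z).im * (Kin.ch k z).im = 1 := by
    intro z
    have := Kin.ch_norm k z
    rw [← Complex.normSq_apply, Complex.normSq_eq_norm_sq, this, one_pow]
  rw [h1, Complex.normSq_apply, Complex.star_def, Complex.mul_re, Complex.conj_re,
    Complex.conj_im, Complex.sub_re, Complex.sub_im]
  have hx := h2 x
  have hy := h2 y
  nlinarith

open Pool.Agent.APS in
/-- The energy of the plane wave `k`. -/
private theorem ain_dir {d L : ℕ} [NeZero L] {D : Fl (Kin.Tor d L)} {rlo rhi : ℝ}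
    (hW : World D rlo rhi) (hq : ∀ k : Kin.Tor d L, k ≠ 0 → 0 < q0 D k)
    (hsym : ∀ (h : Kin.Tor d L → ℝ) (x y : Kin.Tor d L), D.G 1 h x y = D.G 1 h y x)
    (h : Kin.Tor d L → ℝ) {dl : ℝ} (hdl : 0 ≤ dl)
    (hop : OpLe (multR (wu D 1) * (lap (D.SO.f 1 h) - multR (qu D 1)) * multR (wu D 1)) dl)
    (k : Kin.Tor d L) :
    |(∑ x, ∑ y, ‖D.G 1 h x y‖ ^ 2 * (1 - (Kin.ch k (y - x)).re)) - (L : ℝ) ^ d * qu D 1 k| ≤
      dl * ((L : ℝ) ^ d * qu D 1 k) := by
  have het : 0 < D.et 1 := by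
    rw [hW.et_one]
    exact hW.zim
  have hN : (0 : ℝ) < (L : ℝ) ^ d :=
    pow_pos (Nat.cast_pos.2 (Nat.pos_of_ne_zero (NeZero.ne L))) _
  have hqu := qu_nonneg hW het k
  by_cases hk : k = 0
  · have e1 : qu D 1 k = 0 := by
      rw [hk]
      unfold qu
      rw [q0_zero, zero_div]
    have e2 : ∀ z : Kin.Tor d L, (Kin.ch k z).re = 1 := by
      intro z
      rw [hk, Kin.ch_zero_left, Complex.one_re]
    simp [e1, e2]
  have hq0 := hq k hk
  -- the symbol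
  have hwq : wu D 1 k ^ 2 * qu D 1 k = 1 := by
    have h1 := sqrt_wu hW het k
    rw [if_neg hq0.ne'] at h1
    have h2 : (√(qu D 1 k) * wu D 1 k) ^ 2 = 1 := by
      rw [h1, one_pow]
    rw [mul_pow, Real.sq_sqrt hqu] at h2
    linarith
  have hqpos : 0 < qu D 1 k := by
    rcases hqu.lt_or_eq with h1 | h1
    · exact h1
    · rw [← h1, mul_zero] at hwq
      exact absurd hwq (by norm_num)
  set e : Kin.Tor d L → ℂ := Kin.ch k with he
  set X := lap (D.SO.f 1 h) - multR (qu D 1) with hX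
  have hWe : multR (wu D 1) *ᵥ e = ((wu D 1 k : ℝ) : ℂ) • e := by
    funext x
    exact ain_mult (fun k => ((wu D 1 k : ℝ) : ℂ)) k x
  have hQe : multR (qu D 1) *ᵥ e = ((qu D 1 k : ℝ) : ℂ) • e := by
    funext x
    exact ain_mult (fun k => ((qu D 1 k : ℝ) : ℂ)) k x
  have hWh : (multR (wu D 1))ᴴ = multR (wu D 1) := multR_herm _
  -- the form of `W X W`
  have f1 : ip e ((multR (wu D 1) * X * multR (wu D 1)) *ᵥ e) =
      ((wu D 1 k ^ 2 : ℝ) : ℂ) * ip e (X *ᵥ e) := by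
    rw [← Matrix.mulVec_mulVec, ← Matrix.mulVec_mulVec, hWe, Matrix.mulVec_smul,
      Matrix.mulVec_smul]
    have g1 : ∀ u : Kin.Tor d L → ℂ, ip e (((wu D 1 k : ℝ) : ℂ) • u) =
        ((wu D 1 k : ℝ) : ℂ) * ip e u := by
      intro u
      unfold ip
      rw [Finset.mul_sum]
      refine Finset.sum_congr rfl fun x _ => ?_
      rw [Pi.smul_apply, smul_eq_mul]
      ring
    have g2 : ∀ u : Kin.Tor d L → ℂ, ip (((wu D 1 k : ℝ) : ℂ) • e) u =
        ((wu D 1 k : ℝ) : ℂ) * ip e u := by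
      intro u
      unfold ip
      rw [Finset.mul_sum]
      refine Finset.sum_congr rfl fun x _ => ?_
      rw [Pi.smul_apply, smul_eq_mul, star_mul', Complex.star_def, Complex.conj_ofReal]
      ring
    rw [g1, ip_herm _ hWh, hWe, g2]
    push_cast
    ring
  have f2 : ‖ip e ((multR (wu D 1) * X * multR (wu D 1)) *ᵥ e)‖ ≤ dl * (L : ℝ) ^ d := by
    have g1 := opLe_form hdl hop e e
    have g2 : ∑ x, ‖e x‖ ^ 2 = (L : ℝ) ^ d := ain_n2 k
    rw [g2, mul_assoc dl (√_) (√_), Real.mul_self_sqrt hN.le] at g1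
    exact g1
  rw [f1, norm_mul, Complex.norm_real, Real.norm_eq_abs, abs_of_nonneg (sq_nonneg _)] at f2
  have f3 : ‖ip e (X *ᵥ e)‖ ≤ dl * ((L : ℝ) ^ d * qu D 1 k) := by
    have g1 := mul_le_mul_of_nonneg_right f2 hqu
    calc ‖ip e (X *ᵥ e)‖ = wu D 1 k ^ 2 * ‖ip e (X *ᵥ e)‖ * qu D 1 k := by
          rw [mul_right_comm, hwq, one_mul]
      _ ≤ _ := g1
      _ = _ := by ring
  -- the form of `X`
  have f4 : ip e (X *ᵥ e) = (((∑ x, ∑ y, ‖D.G 1 h x y‖ ^ 2 * (1 - (Kin.ch k (y - x)).re)) -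
      (L : ℝ) ^ d * qu D 1 k : ℝ) : ℂ) := by
    have g1 : ip e (X *ᵥ e) = ip e (lap (D.SO.f 1 h) *ᵥ e) - ip e (multR (qu D 1) *ᵥ e) := by
      rw [hX, Matrix.sub_mulVec]
      unfold ip
      rw [← Finset.sum_sub_distrib]
      refine Finset.sum_congr rfl fun x _ => ?_
      rw [Pi.sub_apply]
      ring
    have g2 : ip e (multR (qu D 1) *ᵥ e) = (((L : ℝ) ^ d * qu D 1 k : ℝ) : ℂ) := by
      rw [hQe]
      have g3 : ip e (((qu D 1 k : ℝ) : ℂ) • e) = ((qu D 1 k : ℝ) : ℂ) * ip e e := by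
        unfold ip
        rw [Finset.mul_sum]
        refine Finset.sum_congr rfl fun x _ => ?_
        rw [Pi.smul_apply, smul_eq_mul]
        ring
      rw [g3, ip_self, he, ain_n2 k]
      push_cast
      ring
    have hSs : ∀ x y : Kin.Tor d L, D.SO.f 1 h x y = D.SO.f 1 h y x := by
      intro x y
      change ((‖D.G 1 h x y‖ ^ 2 : ℝ) : ℂ) = ((‖D.G 1 h y x‖ ^ 2 : ℝ) : ℂ)
      rw [hsym h x y]
    have g4 : ip e (lap (D.SO.f 1 h) *ᵥ e) =
        ((∑ x, ∑ y, ‖D.G 1 h x y‖ ^ 2 * (1 - (Kin.ch k (y - x)).re) : ℝ) : ℂ) := by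
      rw [lap_form _ hSs]
      push_cast
      rw [Finset.mul_sum]
      refine Finset.sum_congr rfl fun x _ => ?_
      rw [Finset.mul_sum]
      refine Finset.sum_congr rfl fun y _ => ?_
      rw [he, ain_diff]
      change (1 / 2 : ℂ) * (((‖D.G 1 h x y‖ ^ 2 : ℝ) : ℂ) * _) = _
      push_cast
      ring
    rw [g1, g2, g4]
    push_cast
    ring
  rw [f4, Complex.norm_real, Real.norm_eq_abs] at f3
  exact f3

/-! ### the reference -/

open Pool.Agent.APS in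
private theorem ain_Qf {d n : ℕ} (D : Fl (Kin.Tor d (2 * n + 1))) (hz : 0 < (D.zr 0).im)
    (k : BK.Tor d n) : Qf (D.zr 0) k = q0 D k := by
  have h1 : ∀ y : BK.Tor d n, BK.Gr (BK.H0 d n) 0 (D.zr 0) 0 y = Kin.Mx (D.zr 0) y := by
    intro y
    have := Kin.res_H0T (d := d) (L := 2 * n + 1) (D.zr 0) hz 0 y
    rw [zero_sub, Kin.Mx_neg] at this
    rw [← this]
    rfl
  unfold Qf q0 Kin.ST
  rw [← Finset.sum_sub_distrib]
  refine Finset.sum_congr rfl fun y _ => ?_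
  rw [h1, ain_ch, Kin.ch_zero_left, Complex.one_re]
  ring

open Pool.Agent.APS in
private theorem ain_qu {d n : ℕ} {D : Fl (Kin.Tor d (2 * n + 1))} {rlo rhi : ℝ}
    (hW : World D rlo rhi) (k : BK.Tor d n) :
    qu D 1 k = QU D.s D.z.im (D.zr 0) k := by
  have het0 : 0 < D.et 0 := by
    rw [hW.et_zero]
    have := hW.zim
    have := mul_pos hW.s0 hW.g0im
    linarith
  have hz : 0 < (D.zr 0).im := by
    rw [hW.zr_im]
    exact het0
  unfold qu QU xr
  rw [ain_Qf D hz k, hW.zr_im, hW.et_one, one_pow, mul_one]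
  have hq := hW.q0_nonneg k
  have hs := hW.s0
  have hzi := hW.zim
  have h1 : 0 < D.z.im / D.et 0 + D.s * q0 D k := by positivity
  have h2 : 0 < D.z.im + D.et 0 * D.s * q0 D k := by positivity
  rw [div_eq_div_iff (by positivity) (by positivity)]
  field_simp

/-! ### small numbers -/

private theorem ain_exp (C : ℝ) : ∃ l0 : ℝ, 0 < l0 ∧ l0 ≤ 1 ∧ ∀ lam : ℝ, 0 < lam → lam ≤ l0 →
    Real.exp (-(Real.log (1 / lam) ^ (1 + 1 / 2 : ℝ))) ≤ lam ^ C := by
  refine ⟨Real.exp (-(|C| + 1) ^ 2), Real.exp_pos _, ?_, ?_⟩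
  · rw [Real.exp_le_one_iff]
    have := sq_nonneg (|C| + 1)
    linarith
  · intro lam h0 h1
    have hX : Real.log (1 / lam) = -Real.log lam := by
      rw [one_div, Real.log_inv]
    set X := Real.log (1 / lam) with hXdef
    have hX1 : (|C| + 1) ^ 2 ≤ X := by
      have := Real.log_le_log h0 h1
      rw [Real.log_exp] at this
      linarith
    have hX0 : 0 < X := lt_of_lt_of_le (by positivity) hX1
    have h2 : X ^ (1 + 1 / 2 : ℝ) = X * √X := by
      rw [Real.rpow_add hX0, Real.rpow_one, Real.sqrt_eq_rpow]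
    have h3 : |C| + 1 ≤ √X := by
      rw [← Real.sqrt_sq (show (0 : ℝ) ≤ |C| + 1 by positivity)]
      exact Real.sqrt_le_sqrt hX1
    rw [Real.rpow_def_of_pos h0, h2]
    refine Real.exp_le_exp.2 ?_
    have h4 : Real.log lam = -X := by linarith
    rw [h4]
    have h5 : C ≤ √X := (le_abs_self C).trans (by linarith)
    nlinarith

/-! ### the variance -/

private theorem ain_var {ν : Measure ℝ} {bd sg CT : ℝ} {T T3 : ℝ → ℝ}
    (hS : APS.SteinLaw ν bd sg CT T T3) : ∫ x, x ^ 2 ∂ν = sg := by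
  have hp := hS.prob
  have h1 := hS.i1 (fun x => x) (fun _ => 1) (fun x => hasDerivAt_id x) continuous_const
  have h2 := hS.i2 (fun _ => 1) (fun _ => 0) (fun x => hasDerivAt_const x 1) continuous_const
  have hT : Integrable T ν := by
    refine Integrable.of_bound hS.mT.aestronglyMeasurable CT (ae_of_all _ fun x => ?_)
    rw [Real.norm_eq_abs, abs_of_nonneg (hS.T0 x)]
    exact hS.Tb x
  simp only [mul_one, mul_zero, integral_zero] at h1 h2
  rw [integral_sub hT (integrable_const _), integral_const] at h2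
  simp only [probReal_univ, smul_eq_mul, one_mul] at h2
  have h3 : ∫ x, x ^ 2 ∂ν = ∫ x, x * x ∂ν := by
    refine integral_congr_ae (ae_of_all _ fun x => ?_)
    show x ^ 2 = x * x
    ring
  rw [h3, h1]
  linarith

open Pool.Agent.APS in
theorem aps_in {μ : Measure ℝ} [IsProbabilityMeasure μ] (hμ : BK.FatDensity μ) {v : ℝ}
    (hv : v = ∫ t, (t - ∫ s, s ∂μ) ^ 2 ∂μ) {d : ℕ} (hd : 3 ≤ d) {δ : ℝ} (hδ : 0 < δ)
    (K K1 c0' a' : ℝ) (ha' : 2 < a') :
    ∃ w c0 : ℝ, 0 < w ∧ c0' ≤ c0 ∧ ∀ c1 : ℝ, ∃ lam0 : ℝ, 0 < lam0 ∧ lam0 ≤ 1 ∧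
      ∀ (lam E η : ℝ) (n : ℕ), 0 < lam → lam ≤ lam0 → δ ≤ E → E ≤ 4 * d - δ → lam ^ K ≤ η →
        η ≤ lam ^ a' → lam ^ (-c0) ≤ 2 * (n : ℝ) + 1 → 2 * (n : ℝ) + 1 ≤ lam ^ (-c1) →
        ∃ g : ℂ, 0 < g.im ∧
          g = BK.Gr (BK.H0 d n) 0 ((⟨E, η⟩ : ℂ) + ((lam ^ 2 * v : ℝ) : ℂ) * g) 0 0 ∧
          ((Measure.pi fun _ : BK.Tor d n => μ.map (fun x => x - ∫ t, t ∂μ))
            {V | ¬ ‖BK.GG d n lam ⟨E, η⟩ V 0 0 - g‖ ≤ lam ^ w}).toReal ≤ lam ^ K1 ∧
          ∀ k : BK.Tor d n, ((Measure.pi fun _ : BK.Tor d n => μ.map (fun x => x - ∫ t, t ∂μ))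
            {V | ¬ |dirk d ⟨lam, n, E, η⟩ V k -
                QU (lam ^ 2 * v) η ((⟨E, η⟩ : ℂ) + ((lam ^ 2 * v : ℝ) : ℂ) * g) k| ≤
              lam ^ w * QU (lam ^ 2 * v) η ((⟨E, η⟩ : ℂ) + ((lam ^ 2 * v : ℝ) : ℂ) * g) k}
            ).toReal ≤ lam ^ K1 := by
  have hμ' : APS.FatDensity μ := hμ
  obtain ⟨bd, sg, CT, T, T3, hS, -⟩ := fat_stein μ hμ'
  have hm : Measurable fun x : ℝ => x - ∫ y, y ∂μ := measurable_id.sub_const _
  have hpr : IsProbabilityMeasure (μ.map fun x => x - ∫ y, y ∂μ) := hS.prob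
  have hsg : sg = v := by
    rw [← ain_var hS, hv, integral_map hm.aemeasurable
      (Measurable.aestronglyMeasurable (by fun_prop))]
  rw [hsg] at hS
  have hv0 : 0 < v := hS.sg0
  obtain ⟨rlo, rhi, l1, hrlo, hrhi, hl1, H⟩ :=
    torus_good d hd δ (1 / 2) hδ (by norm_num) (by norm_num) hS
  obtain ⟨C, γ0, hC, hγ0, hlow⟩ := low_facts d hd rlo rhi hrlo
  refine ⟨1 / 20, max c0' (max 10 K), by norm_num, le_max_left _ _, fun c1 => ?_⟩
  obtain ⟨l2, hl2, hl21, h2⟩ := ain_exp K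
  obtain ⟨l3, hl3, hl31, h3⟩ := ain_exp c1
  obtain ⟨l4, hl4, hl41, h4⟩ := ain_exp K1
  -- `lam ^ a' ≤ lam ^ 2 v rlo`
  obtain ⟨l5, hl5, h5⟩ : ∃ l5 : ℝ, 0 < l5 ∧ ∀ lam : ℝ, 0 < lam → lam ≤ l5 →
      lam ^ a' ≤ lam ^ 2 * v * rlo := by
    refine ⟨(v * rlo) ^ (1 / (a' - 2)), by positivity, fun lam h0 h1 => ?_⟩
    have e1 : lam ^ (a' - 2) ≤ v * rlo := by
      have e2 := Real.rpow_le_rpow h0.le h1 (show 0 ≤ a' - 2 by linarith)
      rwa [← Real.rpow_mul (by positivity), one_div_mul_cancel (by linarith),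
        Real.rpow_one] at e2
    have e3 : lam ^ a' = lam ^ 2 * lam ^ (a' - 2) := by
      rw [← Real.rpow_natCast lam 2, ← Real.rpow_add h0]
      norm_num
    rw [e3, mul_assoc]
    exact mul_le_mul_of_nonneg_left e1 (sq_nonneg _)
  obtain ⟨l6, hl6, h6⟩ : ∃ l6 : ℝ, 0 < l6 ∧ ∀ lam : ℝ, 0 < lam → lam ≤ l6 →
      lam ^ 2 * v * (rlo + rhi) ≤ γ0 := by
    refine ⟨√(γ0 / (v * (rlo + rhi))), by positivity, fun lam h0 h1 => ?_⟩
    have e1 : lam ^ 2 ≤ γ0 / (v * (rlo + rhi)) := by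
      have := pow_le_pow_left₀ h0.le h1 2
      rwa [Real.sq_sqrt (by positivity)] at this
    rw [le_div_iff₀ (by positivity)] at e1
    linarith
  refine ⟨min 1 (min (min l1 l2) (min (min l3 l4) (min l5 l6))), by positivity,
    min_le_left _ _, ?_⟩
  intro lam E η n hlam hle hE1 hE2 hη1 hη2 hL1 hL2
  have k0 : lam ≤ 1 := hle.trans (min_le_left _ _)
  have kk := hle.trans (min_le_right _ _)
  have k1 : lam ≤ l1 := kk.trans ((min_le_left _ _).trans (min_le_left _ _))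
  have k2 : lam ≤ l2 := kk.trans ((min_le_left _ _).trans (min_le_right _ _))
  have k34 := kk.trans (min_le_right _ _)
  have k3 : lam ≤ l3 := k34.trans ((min_le_left _ _).trans (min_le_left _ _))
  have k4 : lam ≤ l4 := k34.trans ((min_le_left _ _).trans (min_le_right _ _))
  have k5 : lam ≤ l5 := k34.trans ((min_le_right _ _).trans (min_le_left _ _))
  have k6 : lam ≤ l6 := k34.trans ((min_le_right _ _).trans (min_le_right _ _))
  have hη0 : 0 < η := (Real.rpow_pos_of_pos hlam K).trans_le hη1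
  have hηs : η ≤ lam ^ 2 * v * rlo := hη2.trans (h5 lam hlam k5)
  have hLc : (((2 * n + 1 : ℕ) : ℕ) : ℝ) = 2 * (n : ℝ) + 1 := by push_cast; ring
  have hmono : ∀ {p q : ℝ}, p ≤ q → lam ^ (-p) ≤ lam ^ (-q) := by
    intro p q hpq
    exact Real.rpow_le_rpow_of_exponent_ge hlam k0 (neg_le_neg hpq)
  have hLa : lam ^ (-10 : ℝ) ≤ ((2 * n + 1 : ℕ) : ℝ) := by
    rw [hLc]
    exact (hmono ((le_max_left _ _).trans (le_max_right _ _))).trans hL1
  have hLb : 1 / η ≤ ((2 * n + 1 : ℕ) : ℝ) := by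
    rw [hLc]
    refine le_trans ?_ hL1
    refine le_trans ?_ (hmono ((le_max_right _ _).trans (le_max_right _ _)) :
      lam ^ (-K) ≤ lam ^ (-(max c0' (max 10 K))))
    rw [Real.rpow_neg hlam.le, one_div]
    exact inv_anti₀ (Real.rpow_pos_of_pos hlam K) hη1
  have hLd : (((2 * n + 1 : ℕ) : ℕ) : ℝ) ≤ Real.exp (Real.log (1 / lam) ^ (1 + 1 / 2 : ℝ)) := by
    rw [hLc]
    refine hL2.trans ?_
    have e1 := h3 lam hlam k3
    rw [Real.exp_neg] at e1
    rw [Real.rpow_neg hlam.le]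
    have e2 := inv_anti₀ (inv_pos.2 (Real.exp_pos _)) e1
    rwa [inv_inv] at e2
  obtain ⟨g0, hW, hP⟩ := H (2 * n + 1) E η lam hlam k1 hE1 hE2
    ((h2 lam hlam k2).trans hη1) hηs hLa hLb hLd
  have hzr : (mkD d (2 * n + 1) E η lam v g0).zr 0 =
      (⟨E, η⟩ : ℂ) + ((lam ^ 2 * v : ℝ) : ℂ) * g0 := by
    have e1 : (⟨E, η⟩ : ℂ) = (E : ℂ) + (η : ℂ) * Complex.I := by
      apply Complex.ext <;> simp
    rw [e1]
    show (E : ℂ) + (η : ℂ) * Complex.I + ((lam ^ 2 * v * (1 - 0 ^ 2) : ℝ) : ℂ) * g0 = _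
    norm_num
  have hzr1 : (mkD d (2 * n + 1) E η lam v g0).zr 1 = (⟨E, η⟩ : ℂ) := by
    have e1 : (⟨E, η⟩ : ℂ) = (E : ℂ) + (η : ℂ) * Complex.I := by
      apply Complex.ext <;> simp
    rw [e1]
    show (E : ℂ) + (η : ℂ) * Complex.I + ((lam ^ 2 * v * (1 - 1 ^ 2) : ℝ) : ℂ) * g0 = _
    norm_num
  have het0 : (mkD d (2 * n + 1) E η lam v g0).et 0 ≤ γ0 := by
    rw [hW.et_zero]
    have e1 : (mkD d (2 * n + 1) E η lam v g0).z.im = η := by
      show ((E : ℂ) + (η : ℂ) * Complex.I).im = η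
      simp
    have e2 : (mkD d (2 * n + 1) E η lam v g0).g0.im ≤ rhi :=
      (le_abs_self _).trans ((Complex.abs_im_le_norm _).trans hW.hi)
    have e3 : (mkD d (2 * n + 1) E η lam v g0).s = lam ^ 2 * v := rfl
    rw [e1, e3]
    have e4 : lam ^ 2 * v * (mkD d (2 * n + 1) E η lam v g0).g0.im ≤ lam ^ 2 * v * rhi :=
      mul_le_mul_of_nonneg_left e2 (by positivity)
    have e5 := h6 lam hlam k6
    linarith
  have hq0 := (hlow (2 * n + 1) _ hW het0 1 zero_le_one le_rfl).2.1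
  have hzim : (mkD d (2 * n + 1) E η lam v g0).z.im = η := by
    show ((E : ℂ) + (η : ℂ) * Complex.I).im = η
    simp
  have hG : ∀ V : BK.Tor d n → ℝ, (mkD d (2 * n + 1) E η lam v g0).G 1
      ((mkD d (2 * n + 1) E η lam v g0).hv 1 V) = BK.GG d n lam ⟨E, η⟩ V := by
    intro V
    unfold Fl.G
    rw [hzr1]
    have e1 : (mkD d (2 * n + 1) E η lam v g0).hv 1 V = fun x => lam * V x := by
      funext x
      show lam * 1 * V x = lam * V x
      rw [mul_one]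
    rw [e1]
    rfl
  have hsym : ∀ (h : Kin.Tor d (2 * n + 1) → ℝ) (x y : Kin.Tor d (2 * n + 1)),
      (mkD d (2 * n + 1) E η lam v g0).G 1 h x y =
        (mkD d (2 * n + 1) E η lam v g0).G 1 h y x := by
    intro h x y
    refine Kin.res_symm Kin.H0T_realSym ?_ h x y
    rw [hzr1]
    exact hη0
  have hsmall := h4 lam hlam k4
  have hdl : (0 : ℝ) ≤ lam ^ (1 / 20 : ℝ) := Real.rpow_nonneg hlam.le _
  refine ⟨g0, hW.g0im, ?_, ?_, ?_⟩
  · rw [← hzr]
    have e1 := hW.g00 (0 : Kin.Tor d (2 * n + 1))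
    exact e1.symm
  · refine le_trans ?_ (hP.trans hsmall)
    refine measureReal_mono ?_ (measure_ne_top _ _)
    intro V hV hgood
    refine hV ?_
    have e1 := hgood.1 (0 : Kin.Tor d (2 * n + 1))
    rw [hG V] at e1
    refine e1.trans ?_
    exact Real.rpow_le_rpow_of_exponent_ge hlam k0 (by norm_num)
  · intro k
    refine le_trans ?_ (hP.trans hsmall)
    refine measureReal_mono ?_ (measure_ne_top _ _)
    intro V hV hgood
    refine hV ?_
    have e1 := ain_dir hW hq0 hsym _ hdl hgood.2.2.2 k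
    rw [ain_qu hW k, hzim, hzr] at e1
    simp only [hG V] at e1
    have e3 : (mkD d (2 * n + 1) E η lam v g0).s = lam ^ 2 * v := rfl
    rw [e3, hLc] at e1
    have hN : (0 : ℝ) < (2 * (n : ℝ) + 1) ^ d := by positivity
    set q := QU (lam ^ 2 * v) η ((⟨E, η⟩ : ℂ) + ((lam ^ 2 * v : ℝ) : ℂ) * g0) k with hq
    have e4 : dirk d ⟨lam, n, E, η⟩ V k = (1 / (2 * (n : ℝ) + 1) ^ d) *
        ∑ x : Kin.Tor d (2 * n + 1), ∑ y : Kin.Tor d (2 * n + 1),
          ‖BK.GG d n lam ⟨E, η⟩ V x y‖ ^ 2 * (1 - (Kin.ch k (y - x)).re) := by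
      unfold dirk
      congr 1
      refine Finset.sum_congr rfl fun x _ => Finset.sum_congr rfl fun y _ => ?_
      rw [ain_ch]
      rfl
    rw [e4]
    set S := ∑ x : Kin.Tor d (2 * n + 1), ∑ y : Kin.Tor d (2 * n + 1),
          ‖BK.GG d n lam ⟨E, η⟩ V x y‖ ^ 2 * (1 - (Kin.ch k (y - x)).re) with hSdef
    have e5 : (1 / (2 * (n : ℝ) + 1) ^ d) * S - q =
        (1 / (2 * (n : ℝ) + 1) ^ d) * (S - (2 * (n : ℝ) + 1) ^ d * q) := by
      field_simp
    rw [e5, abs_mul, abs_of_pos (by positivity : (0 : ℝ) < 1 / (2 * (n : ℝ) + 1) ^ d)]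
    calc (1 / (2 * (n : ℝ) + 1) ^ d) * |S - (2 * (n : ℝ) + 1) ^ d * q|
        ≤ (1 / (2 * (n : ℝ) + 1) ^ d) * (lam ^ (1 / 20 : ℝ) * ((2 * (n : ℝ) + 1) ^ d * q)) :=
          mul_le_mul_of_nonneg_left e1 (by positivity)
      _ = lam ^ (1 / 20 : ℝ) * q := by
          field_simp

end Pool.Agent.QDF
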