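import Pool.Agent.QDF.LowE

/-! QDF/AQ. The limit of the reference `Q_U` of the flow (project QDA, all polynomial times).

`z = E + iη`, `s = λ²v`, `g` with `Im g > 0` and `g = (H0 - z - s g)^(-1)(0,0)` exactly on the torus,
`ζ = z + s g`, `γ = Im ζ = η + s Im g`, `Q = Qf ζ k`,
`QU v lam η g ζ k = γ² Q / (η (η + γ s Q))`.
* `γ ≤ 1`: otherwise `‖g‖ ≤ 1/γ < 1` (`norm_Gr_le`), so `γ ≤ η + s < 1`, a contradiction for small `λ`.
* `γ ≥ η ≥ λ^K`, so `(2n+1)γ² ≥ λ^(-(3K+5)+2K) ≥ λ^(-5)`, and `Gr_ph` (`m = 0`, `Pi.single j 0 = 0`):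
  `‖g - Ph d 0 ζ‖ ≤ C λ^5`; by `Ph_le` `‖g‖ ≤ C`, so `‖ζ - E0‖ ≤ bλ + η + λ²vC → 0`, and by `Ph_holder`
  `‖g - Ph d 0 E0‖ → 0`, `‖Ph d m ζ - Ph d m E0‖ → 0` (`m = 0, 2`).
* `E0 ∈ [lo',hi']` for small `λ`, so `g0 d E0 ≥ κ` and `(Ph0-Ph2)(E0).im ≥ 2κ` (`low_E`).
  `γ/λ² = η/λ² + v Im g → v g0(E0)` (`η/λ² ≤ λ^s1`), so `γ ≥ cλ²`.
* `a1 k ≤ d(λ√ηKx + λ^(K+4)) ≤ γ/8` (`√η ≤ λ^(1+s1/2)`), so `Q_asym` applies. With `X = sγQ/η`:
  `X = λ²v/(γ²η) · γ³Q`, and as in `QDF/QCv.lean`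
  `X = λ²v a2/(2γ²η) (Ph0-Ph2)(ζ).im + err`, `a2/(λ²η) = x2 ξ + O(λ)`
  (`|θ_l² - λ²ηξ_l²| ≤ λ^(K+4)(2λ√ηKx + λ^(K+4))`, divided by `λ²η ≥ λ^(2+K)`),
  `|err| ≤ C λ²v/(γ²η)(a2(√γ + 1/(γ²(2n+1))) + a1³/γ) → 0`
  (`a1³/(γ³η)·λ² ≤ C √η/λ ≤ C λ^(s1/2)`; `1/(γ²(2n+1)) ≤ λ^5`). So `X → DD d v E0 · x2 ξ`.
* `η QU = γ²Q/(η + γsQ) = (γ/s) X/(1+X)`, `γ/s → g0(E0)`, `X ≥ 0`, and `X/(1+X) = 1 - 1/(1+X)` is
  1-Lipschitz on `X ≥ 0`. -/

open MeasureTheory Finset Matrix Pool.Agent.BK Pool.Agent.BK3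

noncomputable section

namespace Pool.Agent.QDF

/-- The reference `Q_U(k)` of the flow at the final time. -/
def QU {d n : ℕ} (s η : ℝ) (ζ : ℂ) (k : Tor d n) : ℝ :=
  ζ.im ^ 2 * Qf ζ k / (η * (η + ζ.im * s * Qf ζ k))

/-- the limiting function -/
private def aqF (v : ℝ) (p : ℝ × ℝ) : ℝ :=
  p.1 / v * (v * p.2 / p.1 ^ 2 / (1 + v * p.2 / p.1 ^ 2))

private theorem aq_unif {v a A M ε : ℝ} (hv : 0 < v) (ha : 0 < a) (hε : 0 < ε) :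
    ∃ δ : ℝ, 0 < δ ∧ ∀ G Y G' Y' : ℝ, a ≤ G → G ≤ A → 0 ≤ Y → Y ≤ M → a ≤ G' → G' ≤ A → 0 ≤ Y' →
      Y' ≤ M → |G - G'| < δ → |Y - Y'| < δ → |aqF v (G, Y) - aqF v (G', Y')| < ε := by
  have hc : IsCompact (Set.Icc a A ×ˢ Set.Icc (0 : ℝ) M) := isCompact_Icc.prod isCompact_Icc
  have hcont : ContinuousOn (aqF v) (Set.Icc a A ×ˢ Set.Icc (0 : ℝ) M) := by
    unfold aqF
    have h1 : ∀ p ∈ Set.Icc a A ×ˢ Set.Icc (0 : ℝ) M, p.1 ^ 2 ≠ 0 := by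
      rintro ⟨x, y⟩ ⟨hx, -⟩
      have : 0 < x := ha.trans_le hx.1
      positivity
    have h2 : ∀ p ∈ Set.Icc a A ×ˢ Set.Icc (0 : ℝ) M, 1 + v * p.2 / p.1 ^ 2 ≠ 0 := by
      rintro ⟨x, y⟩ ⟨hx, hy⟩
      have h3 : 0 < x := ha.trans_le hx.1
      have h4 : 0 ≤ y := hy.1
      have h5 : 0 ≤ v * y / x ^ 2 := by positivity
      show 1 + v * y / x ^ 2 ≠ 0
      linarith
    have e1 : ContinuousOn (fun p : ℝ × ℝ => v * p.2 / p.1 ^ 2)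
        (Set.Icc a A ×ˢ Set.Icc (0 : ℝ) M) :=
      ContinuousOn.div (by fun_prop) (by fun_prop) h1
    refine ContinuousOn.mul (by fun_prop) ?_
    exact ContinuousOn.div e1 (continuousOn_const.add e1) h2
  obtain ⟨δ, hδ, h⟩ := Metric.uniformContinuousOn_iff.1
    (hc.uniformContinuousOn_of_continuous hcont) ε hε
  refine ⟨δ, hδ, fun G Y G' Y' a1 a2 a3 a4 b1 b2 b3 b4 d1 d2 => ?_⟩
  have := h (G, Y) ⟨⟨a1, a2⟩, ⟨a3, a4⟩⟩ (G', Y') ⟨⟨b1, b2⟩, ⟨b3, b4⟩⟩ (by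
    rw [Prod.dist_eq, Real.dist_eq, Real.dist_eq]
    exact max_lt d1 d2)
  rwa [Real.dist_eq] at this

/-- facts on one angle -/
private theorem aq_ang {θ x ρ R Kx lam : ℝ} (hR : 0 < R) (hKx : 0 ≤ Kx) (hx : |x| ≤ Kx)
    (h : |θ - R * x| ≤ ρ) (hρ : ρ ≤ lam * R) (hlam : lam ≤ 1) (hl0 : 0 ≤ lam) :
    |θ| ≤ (Kx + 1) * R ∧ |θ ^ 2 - R ^ 2 * x ^ 2| ≤ (2 * Kx + 1) * lam * R ^ 2 := by
  have hρ0 : 0 ≤ ρ := (abs_nonneg _).trans h
  have h1 : |R * x| ≤ R * Kx := by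
    rw [abs_mul, abs_of_pos hR]
    exact mul_le_mul_of_nonneg_left hx hR.le
  have hρR : ρ ≤ R := hρ.trans (by nlinarith)
  have h2 : |θ| ≤ |θ - R * x| + |R * x| := by
    have := abs_add_le (θ - R * x) (R * x)
    simpa using this
  refine ⟨by nlinarith, ?_⟩
  have h3 : θ ^ 2 - R ^ 2 * x ^ 2 = (θ - R * x) * ((θ - R * x) + 2 * (R * x)) := by ring
  have h4 : |(θ - R * x) + 2 * (R * x)| ≤ R + 2 * (R * Kx) := by
    refine (abs_add_le _ _).trans ?_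
    rw [abs_mul 2, abs_two]
    linarith
  rw [h3, abs_mul]
  calc |θ - R * x| * |(θ - R * x) + 2 * (R * x)| ≤ (lam * R) * (R + 2 * (R * Kx)) :=
        mul_le_mul (h.trans hρ) h4 (abs_nonneg _) (by positivity)
    _ = _ := by ring

/-- the sums over the angles -/
private theorem aq_sums {d n : ℕ} {k : Tor d n} {ξ : Fin d → ℝ} {ρ R Kx lam : ℝ} (hR : 0 < R)
    (hKx : 0 ≤ Kx) (hx : ∀ l, |ξ l| ≤ Kx) (h : ∀ l, |ang n (k l) - R * ξ l| ≤ ρ)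
    (hρ : ρ ≤ lam * R) (hlam : lam ≤ 1) (hl0 : 0 ≤ lam) :
    0 ≤ a1 k ∧ a1 k ≤ d * (Kx + 1) * R ∧ 0 ≤ a2 k ∧
      |a2 k / R ^ 2 - x2 ξ| ≤ d * (2 * Kx + 1) * lam ∧ 0 ≤ x2 ξ ∧ x2 ξ ≤ d * Kx ^ 2 := by
  have hk := fun l => aq_ang hR hKx (hx l) (h l) hρ hlam hl0
  refine ⟨Finset.sum_nonneg fun _ _ => abs_nonneg _, ?_, Finset.sum_nonneg fun _ _ => sq_nonneg _,
    ?_, Finset.sum_nonneg fun _ _ => sq_nonneg _, ?_⟩
  · unfold a1
    calc ∑ l, |ang n (k l)| ≤ ∑ _l : Fin d, (Kx + 1) * R := Finset.sum_le_sum fun l _ => (hk l).1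
      _ = _ := by
        rw [Finset.sum_const, Finset.card_univ, Fintype.card_fin, nsmul_eq_mul]
        ring
  · have e : a2 k / R ^ 2 - x2 ξ = (∑ l, (ang n (k l) ^ 2 - R ^ 2 * ξ l ^ 2)) / R ^ 2 := by
      unfold a2 x2
      rw [Finset.sum_sub_distrib, ← Finset.mul_sum]
      field_simp
    rw [e, abs_div, abs_of_pos (by positivity : 0 < R ^ 2), div_le_iff₀ (by positivity)]
    refine (Finset.abs_sum_le_sum_abs _ _).trans ?_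
    calc ∑ l, |ang n (k l) ^ 2 - R ^ 2 * ξ l ^ 2| ≤
        ∑ _l : Fin d, (2 * Kx + 1) * lam * R ^ 2 := Finset.sum_le_sum fun l _ => (hk l).2
      _ = _ := by
        rw [Finset.sum_const, Finset.card_univ, Fintype.card_fin, nsmul_eq_mul]
        ring
  · unfold x2
    calc ∑ l, ξ l ^ 2 ≤ ∑ _l : Fin d, Kx ^ 2 := Finset.sum_le_sum fun l _ => by
          rw [← sq_abs]
          exact pow_le_pow_left₀ (abs_nonneg _) (hx l) 2
      _ = _ := by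
        rw [Finset.sum_const, Finset.card_univ, Fintype.card_fin, nsmul_eq_mul]

/-- the error of the leading term -/
private theorem aq_Y {CQ γ Q A2 A1 D D0 R e' W lam G κ' Gm T w x P dK a4 a3 u : ℝ} (hCQ : 0 < CQ)
    (hγ : 0 < γ) (hR : 0 < R) (hlam : 0 < lam) (hlu : lam ≤ u)
    (hQ : |γ ^ 3 * Q - A2 / 2 * D| ≤ CQ * (A2 * (√γ + e') + A1 ^ 3 / γ))
    (hw : w = A2 / R ^ 2) (hw0 : 0 ≤ w) (hwx : |w - x| ≤ a4 * u) (hwW : w ≤ W) (hx0 : 0 ≤ x)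
    (hxd : x ≤ dK) (hA1 : A1 ≤ T * R) (hA10 : 0 ≤ A1) (hT : 0 ≤ T) (hG : γ = lam ^ 2 * G)
    (hGk : κ' ≤ G) (hκ : 0 < κ') (hGm : G ≤ Gm) (hGm1 : 1 ≤ Gm) (hRu : R ≤ lam ^ 2 * u)
    (he' : e' ≤ u) (he0 : 0 ≤ e') (hD : |D| ≤ P) (hDD : |D - D0| ≤ a3 * u) :
    |γ ^ 3 * Q / R ^ 2 - x * D0 / 2| ≤
      (CQ * (W * (Gm + 1) + T ^ 3 / κ') + a4 * P / 2 + dK * a3 / 2) * u := by
  have hu : 0 < u := hlam.trans_le hlu
  have hG0 : 0 < G := hκ.trans_le hGk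
  have h1 : √γ ≤ Gm * u := by
    rw [hG, Real.sqrt_mul (by positivity), Real.sqrt_sq hlam.le]
    have h2 : √G ≤ Gm := by
      calc √G ≤ √(Gm ^ 2) := Real.sqrt_le_sqrt (by nlinarith)
        _ = Gm := Real.sqrt_sq (by linarith)
    calc lam * √G ≤ u * Gm := mul_le_mul hlu h2 (Real.sqrt_nonneg _) hu.le
      _ = _ := mul_comm _ _
  have h2 : A1 ^ 3 / γ / R ^ 2 ≤ T ^ 3 / κ' * u := by
    have h3 : A1 ^ 3 ≤ (T * R) ^ 3 := pow_le_pow_left₀ hA10 hA1 3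
    have h4 : R / γ ≤ u / κ' := by
      rw [hG, div_le_div_iff₀ (by positivity) hκ]
      calc R * κ' ≤ (lam ^ 2 * u) * G := mul_le_mul hRu hGk hκ.le (by positivity)
        _ = _ := by ring
    calc A1 ^ 3 / γ / R ^ 2 ≤ (T * R) ^ 3 / γ / R ^ 2 := by gcongr
      _ = T ^ 3 * (R / γ) := by field_simp
      _ ≤ T ^ 3 * (u / κ') := mul_le_mul_of_nonneg_left h4 (by positivity)
      _ = _ := by ring
  have h3 : |γ ^ 3 * Q / R ^ 2 - w * D / 2| ≤ CQ * (W * (Gm + 1) + T ^ 3 / κ') * u := by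
    have e1 : γ ^ 3 * Q / R ^ 2 - w * D / 2 = (γ ^ 3 * Q - A2 / 2 * D) / R ^ 2 := by
      rw [hw]
      field_simp
    rw [e1, abs_div, abs_of_pos (by positivity : 0 < R ^ 2)]
    calc |γ ^ 3 * Q - A2 / 2 * D| / R ^ 2 ≤ (CQ * (A2 * (√γ + e') + A1 ^ 3 / γ)) / R ^ 2 := by
          gcongr
      _ = CQ * (w * (√γ + e') + A1 ^ 3 / γ / R ^ 2) := by
          rw [hw]
          ring
      _ ≤ CQ * (W * (Gm * u + u) + T ^ 3 / κ' * u) := by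
          gcongr
          exact hw0.trans hwW
      _ = _ := by ring
  have h4 : |w * D / 2 - x * D0 / 2| ≤ (a4 * P / 2 + dK * a3 / 2) * u := by
    have e1 : w * D / 2 - x * D0 / 2 = (w - x) * D / 2 + x * (D - D0) / 2 := by ring
    rw [e1]
    refine (abs_add_le _ _).trans ?_
    rw [abs_div, abs_div, abs_mul, abs_mul, abs_two, abs_of_nonneg hx0]
    have h5 : |w - x| * |D| ≤ (a4 * u) * P :=
      mul_le_mul hwx hD (abs_nonneg _) ((abs_nonneg _).trans hwx)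
    have h6 : x * |D - D0| ≤ dK * (a3 * u) :=
      mul_le_mul hxd hDD (abs_nonneg _) (hx0.trans hxd)
    linarith
  have h5 := abs_sub_le (γ ^ 3 * Q / R ^ 2) (w * D / 2) (x * D0 / 2)
  linarith

/-- powers of a small number -/
private theorem aq_pow {lam a s : ℝ} (h0 : 0 < lam) (h1 : lam ≤ 1) (h : a ≤ s) :
    lam ^ s ≤ lam ^ a := Real.rpow_le_rpow_of_exponent_ge h0 h1 h

theorem aq_conv {d : ℕ} (hd : 3 ≤ d) {q κF lo' hi' : ℝ} (hF : FreeC d q κF lo' hi')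
    {lo hi v K s1 b Kx ε : ℝ} (hlo : lo' < lo) (hhi : hi < hi') (hv : 0 < v) (hK : 2 ≤ K)
    (hs1 : 0 < s1) (hb : 0 ≤ b) (hKx : 0 ≤ Kx) (hε : 0 < ε) :
    ∃ lam1 : ℝ, 0 < lam1 ∧ lam1 ≤ 1 ∧ ∀ (lam η E : ℝ) (n : ℕ) (g : ℂ), 0 < lam → lam ≤ lam1 →
      lam ^ K ≤ η → η ≤ lam ^ (2 + s1) → lam ^ (-(3 * K + 5)) ≤ 2 * (n : ℝ) + 1 → lo ≤ E →
      E ≤ hi → 0 < g.im →
      g = Gr (H0 d n) 0 ((⟨E, η⟩ : ℂ) + ((lam ^ 2 * v : ℝ) : ℂ) * g) 0 0 →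
      ∀ E0 : ℝ, |E0 - E| ≤ b * lam →
        |g.im - g0 d E0| ≤ ε ∧
        ∀ ξ : Fin d → ℝ, (∀ l, |ξ l| ≤ Kx) → ∀ k : Tor d n,
          (∀ l, |ang n (k l) - lam * √η * ξ l| ≤ lam ^ (K + 4)) →
          0 ≤ η * QU (lam ^ 2 * v) η ((⟨E, η⟩ : ℂ) + ((lam ^ 2 * v : ℝ) : ℂ) * g) k ∧
          |η * QU (lam ^ 2 * v) η ((⟨E, η⟩ : ℂ) + ((lam ^ 2 * v : ℝ) : ℂ) * g) k -
            g0 d E0 * (1 - 1 / (1 + DD d v E0 * x2 ξ))| ≤ ε := by
  obtain ⟨C0, hC0, hG0⟩ := Gr_ph hd 0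
  obtain ⟨P0, hP0, hP0'⟩ := Ph_le hd 0
  obtain ⟨P2, hP2, hP2'⟩ := Ph_le hd 2
  obtain ⟨H0c, hH0, hH0'⟩ := Ph_holder hd 0
  obtain ⟨H2c, hH2, hH2'⟩ := Ph_holder hd 2
  obtain ⟨CQ, hCQ, hQ⟩ := Q_asym hd
  have hκ := hF.kap
  have hκ1 := hF.kap1
  obtain ⟨Cg, hCg⟩ : ∃ Cg : ℝ, Cg = P0 + C0 := ⟨_, rfl⟩
  have hCg0 : 0 < Cg := by rw [hCg]; positivity
  obtain ⟨Cz, hCz⟩ : ∃ Cz : ℝ, Cz = b + 1 + v * Cg := ⟨_, rfl⟩
  have hCz0 : 0 < Cz := by rw [hCz]; positivity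
  obtain ⟨B, hB⟩ : ∃ B : ℝ, B = Cz ^ (1 / 4 : ℝ) := ⟨_, rfl⟩
  have hB0 : 0 < B := by rw [hB]; positivity
  obtain ⟨A1, hA1⟩ : ∃ A1 : ℝ, A1 = C0 + H0c * B := ⟨_, rfl⟩
  have hA10 : 0 < A1 := by rw [hA1]; positivity
  obtain ⟨A2, hA2⟩ : ∃ A2 : ℝ, A2 = 1 + v * A1 := ⟨_, rfl⟩
  have hA20 : 0 < A2 := by rw [hA2]; positivity
  obtain ⟨A3, hA3⟩ : ∃ A3 : ℝ, A3 = (H0c + H2c) * B := ⟨_, rfl⟩
  have hA30 : 0 < A3 := by rw [hA3]; positivity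
  obtain ⟨A4, hA4⟩ : ∃ A4 : ℝ, A4 = d * (2 * Kx + 1) := ⟨_, rfl⟩
  have hA40 : 0 ≤ A4 := by rw [hA4]; positivity
  obtain ⟨dK, hdK⟩ : ∃ dK : ℝ, dK = d * Kx ^ 2 := ⟨_, rfl⟩
  have hdK0 : 0 ≤ dK := by rw [hdK]; positivity
  obtain ⟨Gm, hGm⟩ : ∃ Gm : ℝ, Gm = v * P0 + 1 := ⟨_, rfl⟩
  have hGm0 : 1 ≤ Gm := by
    rw [hGm]
    have : 0 < v * P0 := by positivity
    linarith
  obtain ⟨T, hT⟩ : ∃ T : ℝ, T = d * (Kx + 1) := ⟨_, rfl⟩
  have hT0 : 0 ≤ T := by rw [hT]; positivity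
  obtain ⟨A7, hA7⟩ : ∃ A7 : ℝ, A7 = CQ * ((dK + A4) * (Gm + 1) + T ^ 3 / (v * κF / 2)) +
    A4 * (P0 + P2) / 2 + dK * A3 / 2 := ⟨_, rfl⟩
  have hA70 : 0 ≤ A7 := by
    rw [hA7]
    have : 0 ≤ Gm + 1 := by linarith
    positivity
  obtain ⟨M, hM⟩ : ∃ M : ℝ, M = dK * (P0 + P2) / 2 + 1 := ⟨_, rfl⟩
  have hvκ : 0 < v * κF / 2 := by positivity
  obtain ⟨δ, hδ, hδ'⟩ := aq_unif (A := Gm) (M := M) hv hvκ hε
  obtain ⟨a, ha⟩ : ∃ a : ℝ, a = min (1 / 4) (s1 / 2) := ⟨_, rfl⟩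
  have ha0 : 0 < a := by rw [ha]; exact lt_min (by norm_num) (by positivity)
  have ha1 : a ≤ 1 / 4 := by rw [ha]; exact min_le_left _ _
  have ha2 : a ≤ s1 / 2 := by rw [ha]; exact min_le_right _ _
  obtain ⟨At, hAt⟩ : ∃ At : ℝ, At = 1 + v + b + A1 + A2 + T + A7 := ⟨_, rfl⟩
  have hAt0 : 0 < At := by rw [hAt]; positivity
  obtain ⟨ρ, hρ⟩ : ∃ ρ : ℝ, ρ = min (min (1 / 2) (min (lo - lo') (hi' - hi)))
    (min (v * κF / 16) (min (δ / 2) ε)) := ⟨_, rfl⟩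
  have hρ0 : 0 < ρ := by
    rw [hρ]
    refine lt_min (lt_min (by norm_num) (lt_min (by linarith) (by linarith)))
      (lt_min (by positivity) (lt_min (by positivity) hε))
  have hρ1 : ρ ≤ 1 / 2 := by rw [hρ]; exact (min_le_left _ _).trans (min_le_left _ _)
  have hρ2 : ρ ≤ lo - lo' := by
    rw [hρ]; exact ((min_le_left _ _).trans (min_le_right _ _)).trans (min_le_left _ _)
  have hρ3 : ρ ≤ hi' - hi := by
    rw [hρ]; exact ((min_le_left _ _).trans (min_le_right _ _)).trans (min_le_right _ _)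
  have hρ4 : ρ ≤ v * κF / 16 := by rw [hρ]; exact (min_le_right _ _).trans (min_le_left _ _)
  have hρ5 : ρ ≤ δ / 2 := by
    rw [hρ]; exact ((min_le_right _ _).trans (min_le_right _ _)).trans (min_le_left _ _)
  have hρ6 : ρ ≤ ε := by
    rw [hρ]; exact ((min_le_right _ _).trans (min_le_right _ _)).trans (min_le_right _ _)
  refine ⟨min 1 ((ρ / At) ^ (1 / a)), lt_min one_pos (by positivity), min_le_left _ _, ?_⟩
  intro lam η E n g hlam hlam1 hη1 hη2 hn hE1 hE2 hg hgG E0 hE0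
  have hl1 : lam ≤ 1 := hlam1.trans (min_le_left _ _)
  obtain ⟨u, hu⟩ : ∃ u : ℝ, u = lam ^ a := ⟨_, rfl⟩
  have hu0 : 0 < u := by rw [hu]; positivity
  have hAu : At * u ≤ ρ := by
    have h1 : u ≤ ρ / At := by
      calc u ≤ ((ρ / At) ^ (1 / a)) ^ a := by
            rw [hu]
            exact Real.rpow_le_rpow hlam.le (hlam1.trans (min_le_right _ _)) ha0.le
        _ = ρ / At := by
            rw [← Real.rpow_mul (by positivity), one_div_mul_cancel ha0.ne', Real.rpow_one]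
    rw [le_div_iff₀ hAt0] at h1
    linarith
  have hAsum : At * u = u + v * u + b * u + A1 * u + A2 * u + T * u + A7 * u := by
    rw [hAt]
    ring
  have q1 : 0 < v * u := by positivity
  have q2 : 0 ≤ b * u := by positivity
  have q3 : 0 < A1 * u := by positivity
  have q4 : 0 < A2 * u := by positivity
  have q5 : 0 ≤ T * u := by positivity
  have q6 : 0 ≤ A7 * u := by positivity
  have lu : lam ≤ u := by
    rw [hu]
    calc lam = lam ^ (1 : ℝ) := (Real.rpow_one _).symm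
      _ ≤ _ := aq_pow hlam hl1 (by linarith)
  have lu4 : lam ^ (1 / 4 : ℝ) ≤ u := by
    rw [hu]
    exact aq_pow hlam hl1 ha1
  have lus : lam ^ (s1 / 2) ≤ u := by
    rw [hu]
    exact aq_pow hlam hl1 ha2
  have lus1 : lam ^ s1 ≤ u := by
    rw [hu]
    exact aq_pow hlam hl1 (by linarith)
  have hlh : lam ≤ 1 / 2 := by linarith
  have hll : lam ^ 2 ≤ lam := by nlinarith
  -- eta
  have hη0 : 0 < η := lt_of_lt_of_le (by positivity) hη1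
  have hηs : η ≤ lam ^ 2 * lam ^ s1 := by
    refine hη2.trans (le_of_eq ?_)
    rw [Real.rpow_add hlam, Real.rpow_two]
  have hηu : η ≤ lam ^ 2 * u := hηs.trans (mul_le_mul_of_nonneg_left lus1 (by positivity))
  have hu1 : u ≤ 1 := by linarith
  have hηl : η ≤ lam ^ 2 := hηu.trans (by nlinarith)
  have hr1 : √η ≤ lam * u := by
    have h1 : η ≤ (lam * lam ^ (s1 / 2)) ^ 2 := by
      refine hηs.trans (le_of_eq ?_)
      rw [mul_pow, ← Real.rpow_natCast (lam ^ (s1 / 2)) 2, ← Real.rpow_mul hlam.le]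
      congr 2
      push_cast
      ring
    calc √η ≤ √((lam * lam ^ (s1 / 2)) ^ 2) := Real.sqrt_le_sqrt h1
      _ = lam * lam ^ (s1 / 2) := Real.sqrt_sq (by positivity)
      _ ≤ lam * u := mul_le_mul_of_nonneg_left lus hlam.le
  have hr0 : 0 < √η := Real.sqrt_pos.2 hη0
  have hr2 : √η ^ 2 = η := Real.sq_sqrt hη0.le
  have hr3 : lam ^ (K + 4) ≤ lam * (lam * √η) := by
    have h1 : lam ^ K ≤ √η := by
      calc lam ^ K ≤ lam ^ (K / 2) := aq_pow hlam hl1 (by linarith)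
        _ = √((lam ^ (K / 2)) ^ 2) := (Real.sqrt_sq (by positivity)).symm
        _ = √(lam ^ K) := by
            rw [← Real.rpow_natCast (lam ^ (K / 2)) 2, ← Real.rpow_mul hlam.le]
            congr 2
            push_cast
            ring
        _ ≤ √η := Real.sqrt_le_sqrt hη1
    have h2 : lam ^ (4 : ℝ) ≤ lam ^ (2 : ℝ) := aq_pow hlam hl1 (by norm_num)
    rw [Real.rpow_two] at h2
    calc lam ^ (K + 4) = lam ^ K * lam ^ (4 : ℝ) := Real.rpow_add hlam _ _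
      _ ≤ √η * lam ^ 2 := mul_le_mul h1 h2 (by positivity) hr0.le
      _ = _ := by ring
  -- the spectral parameter
  obtain ⟨ζ, hζ⟩ : ∃ ζ : ℂ, ζ = (⟨E, η⟩ : ℂ) + ((lam ^ 2 * v : ℝ) : ℂ) * g := ⟨_, rfl⟩
  rw [← hζ] at hgG ⊢
  have hS0 : 0 < lam ^ 2 * v := by positivity
  have hγe : ζ.im = η + lam ^ 2 * v * g.im := by
    rw [hζ, Complex.add_im, Complex.im_ofReal_mul]
  obtain ⟨γ, hγ⟩ : ∃ γ : ℝ, γ = ζ.im := ⟨_, rfl⟩
  have hγη : η ≤ ζ.im := by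
    rw [hγe]
    have : 0 < lam ^ 2 * v * g.im := by positivity
    linarith
  have hγ0 : 0 < ζ.im := hη0.trans_le hγη
  have hS1 : η + lam ^ 2 * v ≤ 1 := by
    have : lam ^ 2 * v ≤ lam * v := mul_le_mul_of_nonneg_right hll hv.le
    have h3 : lam * v ≤ u * v := mul_le_mul_of_nonneg_right lu hv.le
    linarith
  have hγ1 : ζ.im ≤ 1 := by
    by_contra hcon
    push Not at hcon
    have h1 : ‖g‖ ≤ 1 / ζ.im := by
      have := norm_Gr_le (RS_H0 d n) 0 hγ0 (0 : Tor d n) 0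
      rwa [← hgG] at this
    have h2 : 1 / ζ.im < 1 := by
      rw [div_lt_one hγ0]
      exact hcon
    have h3 : g.im ≤ 1 := ((le_abs_self _).trans (Complex.abs_im_le_norm g)).trans (h1.trans h2.le)
    have h4 : lam ^ 2 * v * g.im ≤ lam ^ 2 * v * 1 := mul_le_mul_of_nonneg_left h3 hS0.le
    rw [hγe] at hcon
    linarith
  have hn1 : (2 : ℝ) * n + 1 ≥ 8 := by
    have h1 : lam ^ (-(3 : ℝ)) ≤ lam ^ (-(3 * K + 5)) := aq_pow hlam hl1 (by linarith)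
    have h2 : (8 : ℝ) ≤ lam ^ (-(3 : ℝ)) := by
      rw [Real.rpow_neg hlam.le]
      rw [le_inv_comm₀ (by norm_num) (by positivity)]
      have h3 : lam ^ (3 : ℝ) = lam ^ 3 := by
        rw [← Real.rpow_natCast]
        norm_num
      rw [h3]
      calc lam ^ 3 ≤ (1 / 2) ^ 3 := pow_le_pow_left₀ hlam.le hlh 3
        _ = 8⁻¹ := by norm_num
    linarith
  have hn2 : 2 ≤ n := by
    by_contra hcon
    push Not at hcon
    have : (n : ℝ) ≤ 1 := by exact_mod_cast Nat.lt_succ_iff.1 hcon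
    linarith
  have he0 : 0 ≤ 1 / (ζ.im ^ 2 * (2 * (n : ℝ) + 1)) := by positivity
  have he : 1 / (ζ.im ^ 2 * (2 * (n : ℝ) + 1)) ≤ lam := by
    rw [div_le_iff₀ (by positivity)]
    have h1 : lam ^ (2 * K) ≤ ζ.im ^ 2 := by
      calc lam ^ (2 * K) = (lam ^ K) ^ 2 := by
            rw [← Real.rpow_natCast (lam ^ K) 2, ← Real.rpow_mul hlam.le]
            congr 1
            push_cast
            ring
        _ ≤ ζ.im ^ 2 := pow_le_pow_left₀ (by positivity) (hη1.trans hγη) 2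
    have h2 : lam ^ (2 * K) * lam ^ (-(3 * K + 5)) ≤ ζ.im ^ 2 * (2 * (n : ℝ) + 1) :=
      mul_le_mul h1 hn (by positivity) (by positivity)
    have h3 : lam ^ (0 : ℝ) ≤ lam ^ (-(K + 4)) := aq_pow hlam hl1 (by linarith)
    have h4 : lam * (lam ^ (2 * K) * lam ^ (-(3 * K + 5))) = lam ^ (-(K + 4)) := by
      rw [← Real.rpow_add hlam]
      nth_rewrite 1 [← Real.rpow_one lam]
      rw [← Real.rpow_add hlam]
      congr 1
      ring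
    rw [Real.rpow_zero, ← h4] at h3
    exact h3.trans (mul_le_mul_of_nonneg_left h2 hlam.le)
  -- the diagonal
  have hgP : ‖g - Ph d 0 ζ‖ ≤ C0 * lam := by
    have h1 := hG0 n ζ ⟨0, by omega⟩ (by omega) (by simp) hγ0 hγ1
    rw [Int.cast_zero, Pi.single_zero, ← hgG] at h1
    refine h1.trans ?_
    calc C0 / ((2 * n + 1) * ζ.im ^ 2) = C0 * (1 / (ζ.im ^ 2 * (2 * (n : ℝ) + 1))) := by ring
      _ ≤ _ := mul_le_mul_of_nonneg_left he hC0.le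
  have hgn : ‖g‖ ≤ Cg := by
    have h1 : ‖g‖ ≤ ‖Ph d 0 ζ‖ + ‖g - Ph d 0 ζ‖ := norm_le_norm_add_norm_sub' _ _
    have h2 := hP0' ζ hγ0.le
    have h3 : C0 * lam ≤ C0 * 1 := mul_le_mul_of_nonneg_left hl1 hC0.le
    rw [hCg]
    linarith
  have hzE : ‖ζ - (E0 : ℂ)‖ ≤ Cz * lam := by
    have h1 : ζ - (E0 : ℂ) = ((E - E0 : ℝ) : ℂ) + ((η : ℂ) * Complex.I +
        ((lam ^ 2 * v : ℝ) : ℂ) * g) := by
      rw [hζ]
      apply Complex.ext <;> simp <;> ring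
    rw [h1]
    refine (norm_add_le _ _).trans ?_
    have h2 : ‖((E - E0 : ℝ) : ℂ)‖ ≤ b * lam := by
      rw [Complex.norm_real, Real.norm_eq_abs, abs_sub_comm]
      exact hE0
    have h3 : ‖(η : ℂ) * Complex.I + ((lam ^ 2 * v : ℝ) : ℂ) * g‖ ≤ η + lam ^ 2 * v * Cg := by
      refine (norm_add_le _ _).trans ?_
      rw [norm_mul, norm_mul, Complex.norm_I, mul_one, Complex.norm_real, Complex.norm_real,
        Real.norm_of_nonneg hη0.le, Real.norm_of_nonneg hS0.le]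
      have := mul_le_mul_of_nonneg_left hgn hS0.le
      linarith
    have h4 : lam ^ 2 * (v * Cg) ≤ lam * (v * Cg) := mul_le_mul_of_nonneg_right hll (by positivity)
    rw [hCz]
    linarith
  have hz4 : ‖ζ - (E0 : ℂ)‖ ^ (1 / 4 : ℝ) ≤ B * u := by
    calc ‖ζ - (E0 : ℂ)‖ ^ (1 / 4 : ℝ) ≤ (Cz * lam) ^ (1 / 4 : ℝ) :=
          Real.rpow_le_rpow (norm_nonneg _) hzE (by norm_num)
      _ = B * lam ^ (1 / 4 : ℝ) := by rw [Real.mul_rpow hCz0.le hlam.le, hB]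
      _ ≤ _ := mul_le_mul_of_nonneg_left lu4 hB0.le
  have hE0i : 0 ≤ ((E0 : ℂ)).im := by simp
  have hh0 : ‖Ph d 0 ζ - Ph d 0 E0‖ ≤ H0c * B * u := by
    refine (hH0' ζ E0 hγ0.le hE0i).trans ?_
    rw [mul_assoc]
    exact mul_le_mul_of_nonneg_left hz4 hH0.le
  have hh2 : ‖Ph d 2 ζ - Ph d 2 E0‖ ≤ H2c * B * u := by
    refine (hH2' ζ E0 hγ0.le hE0i).trans ?_
    rw [mul_assoc]
    exact mul_le_mul_of_nonneg_left hz4 hH2.le
  have hgE : |g.im - g0 d E0| ≤ A1 * u := by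
    have h1 : g.im - g0 d E0 = (g - Ph d 0 E0).im := by
      rw [Complex.sub_im]
      rfl
    rw [h1]
    refine (Complex.abs_im_le_norm _).trans ?_
    have h2 : ‖g - Ph d 0 E0‖ ≤ ‖g - Ph d 0 ζ‖ + ‖Ph d 0 ζ - Ph d 0 E0‖ :=
      norm_sub_le_norm_sub_add_norm_sub _ _ _
    have h3 : C0 * lam ≤ C0 * u := mul_le_mul_of_nonneg_left lu hC0.le
    rw [hA1]
    linarith
  refine ⟨hgE.trans (by linarith), ?_⟩
  intro ξ hξ k hk
  have hbl : b * lam ≤ b * u := mul_le_mul_of_nonneg_left lu hb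
  have hE0a := abs_le.1 hE0
  obtain ⟨hlow1, hlow2⟩ := low_E hd hF E0 (by linarith [hE0a.1]) (by linarith [hE0a.2])
  obtain ⟨gE, hgEd⟩ : ∃ gE : ℝ, gE = g0 d E0 := ⟨_, rfl⟩
  obtain ⟨D0, hD0⟩ : ∃ D0 : ℝ, D0 = (Ph d 0 E0 - Ph d 2 E0).im := ⟨_, rfl⟩
  obtain ⟨D, hD⟩ : ∃ D : ℝ, D = (Ph d 0 ζ - Ph d 2 ζ).im := ⟨_, rfl⟩
  have hDD : DD d v E0 = D0 / (2 * v * gE ^ 2) := by
    rw [hD0, hgEd]
    rfl
  rw [hDD]
  rw [← hgEd] at hlow1 hgE ⊢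
  rw [← hD0] at hlow2
  have hgEP : gE ≤ P0 := by
    rw [hgEd]
    exact ((le_abs_self _).trans (Complex.abs_im_le_norm _)).trans (hP0' E0 hE0i)
  have hDP : |D| ≤ P0 + P2 := by
    rw [hD]
    refine (Complex.abs_im_le_norm _).trans ((norm_sub_le _ _).trans ?_)
    exact add_le_add (hP0' ζ hγ0.le) (hP2' ζ hγ0.le)
  have hD0P : |D0| ≤ P0 + P2 := by
    rw [hD0]
    refine (Complex.abs_im_le_norm _).trans ((norm_sub_le _ _).trans ?_)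
    exact add_le_add (hP0' E0 hE0i) (hP2' E0 hE0i)
  have hDD0 : |D - D0| ≤ A3 * u := by
    have h1 : D - D0 = ((Ph d 0 ζ - Ph d 0 E0) - (Ph d 2 ζ - Ph d 2 E0)).im := by
      rw [hD, hD0]
      simp only [Complex.sub_im]
      ring
    rw [h1]
    refine (Complex.abs_im_le_norm _).trans ((norm_sub_le _ _).trans ?_)
    rw [hA3]
    linarith
  -- the rescaled width
  obtain ⟨G, hG⟩ : ∃ G : ℝ, G = ζ.im / lam ^ 2 := ⟨_, rfl⟩
  have hγG : ζ.im = lam ^ 2 * G := by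
    rw [hG]
    field_simp
  have hGg : |G - v * gE| ≤ A2 * u := by
    have h1 : G - v * gE = η / lam ^ 2 + v * (g.im - gE) := by
      rw [hG, hγe]
      field_simp
      ring
    have h2 : η / lam ^ 2 ≤ u := by
      rw [div_le_iff₀ (by positivity)]
      linarith
    have h3 : 0 ≤ η / lam ^ 2 := by positivity
    rw [h1]
    refine (abs_add_le _ _).trans ?_
    rw [abs_mul, abs_of_pos hv, abs_of_nonneg h3]
    have h4 := mul_le_mul_of_nonneg_left hgE hv.le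
    rw [hA2]
    linarith
  have hGa := abs_le.1 hGg
  have hvg : v * κF ≤ v * gE := mul_le_mul_of_nonneg_left hlow1 hv.le
  have hvgP : v * gE ≤ v * P0 := mul_le_mul_of_nonneg_left hgEP hv.le
  have hGlo : v * κF / 2 ≤ G := by linarith
  have hGhi : G ≤ Gm := by
    rw [hGm]
    linarith
  have hGpos : 0 < G := hvκ.trans_le hGlo
  -- the angles
  have hR0 : 0 < lam * √η := by positivity
  obtain ⟨R, hR⟩ : ∃ R : ℝ, R = lam * √η := ⟨_, rfl⟩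
  rw [← hR] at hR0 hk hr3
  have hR2 : R ^ 2 = lam ^ 2 * η := by rw [hR, mul_pow, hr2]
  have hRu : R ≤ lam ^ 2 * u := by
    rw [hR]
    calc lam * √η ≤ lam * (lam * u) := mul_le_mul_of_nonneg_left hr1 hlam.le
      _ = _ := by ring
  obtain ⟨s1a, s2a, s3a, s4a, s5a, s6a⟩ := aq_sums hR0 hKx hξ hk hr3 hl1 hlam.le
  rw [← hT] at s2a
  rw [← hA4] at s4a
  rw [← hdK] at s6a
  have ha1γ : a1 k ≤ ζ.im / 8 := by
    have h1 : T * R ≤ T * (lam ^ 2 * u) := mul_le_mul_of_nonneg_left hRu hT0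
    have h2 : lam ^ 2 * (T * u) ≤ lam ^ 2 * (v * κF / 16) :=
      mul_le_mul_of_nonneg_left (by linarith) (by positivity)
    have h3 : lam ^ 2 * (v * κF / 2) ≤ lam ^ 2 * G :=
      mul_le_mul_of_nonneg_left hGlo (by positivity)
    rw [hγG]
    linarith
  have hQk := hQ n ζ hn2 hγ0 hγ1 k ha1γ
  rw [← hD] at hQk
  obtain ⟨Q, hQd⟩ : ∃ Q : ℝ, Q = Qf ζ k := ⟨_, rfl⟩
  rw [← hQd] at hQk
  have hQ0 : 0 ≤ Q := by
    rw [hQd]
    unfold Qf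
    refine Finset.sum_nonneg fun y _ => mul_nonneg (sq_nonneg _) ?_
    have h1 : (ch k y).re ≤ ‖ch k y‖ := Complex.re_le_norm _
    rw [norm_ch] at h1
    linarith
  have hwx : |a2 k / R ^ 2 - x2 ξ| ≤ A4 * u :=
    s4a.trans (mul_le_mul_of_nonneg_left lu hA40)
  have hw0 : 0 ≤ a2 k / R ^ 2 := by positivity
  have hwW : a2 k / R ^ 2 ≤ dK + A4 := by
    have h1 := (abs_le.1 hwx).2
    have h2 : A4 * u ≤ A4 * 1 := mul_le_mul_of_nonneg_left hu1 hA40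
    linarith
  have hY := aq_Y hCQ hγ0 hR0 hlam lu hQk rfl hw0 hwx hwW s5a s6a s2a s1a hT0 hγG hGlo hvκ hGhi
    hGm0 hRu (he.trans lu) he0 hDP hDD0
  rw [← hA7] at hY
  obtain ⟨Y, hYd⟩ : ∃ Y : ℝ, Y = ζ.im ^ 3 * Q / R ^ 2 := ⟨_, rfl⟩
  rw [← hYd] at hY
  have hY0 : 0 ≤ Y := by rw [hYd]; positivity
  have hYa := abs_le.1 hY
  have hD00 : 0 ≤ D0 := by linarith
  have hxD : x2 ξ * D0 ≤ dK * (P0 + P2) :=
    mul_le_mul s6a ((le_abs_self _).trans hD0P) hD00 hdK0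
  have hxD0 : 0 ≤ x2 ξ * D0 / 2 := by positivity
  have hYM : Y ≤ M := by
    rw [hM]
    linarith [hYa.2]
  have key := hδ' G Y (v * gE) (x2 ξ * D0 / 2) hGlo hGhi hY0 hYM (by linarith) (by linarith) hxD0
    (by rw [hM]; linarith) (lt_of_le_of_lt hGg (by linarith)) (lt_of_le_of_lt hY (by linarith))
  have hgE0 : 0 < gE := hκ.trans_le hlow1
  have e1 : η * QU (lam ^ 2 * v) η ζ k = aqF v (G, Y) := by
    unfold QU aqF
    rw [← hQd, hYd, hG, hR2]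
    have hden : 0 < η + ζ.im * (lam ^ 2 * v) * Q := by positivity
    have hden2 : 0 < 1 + v * (ζ.im ^ 3 * Q / (lam ^ 2 * η)) / (ζ.im / lam ^ 2) ^ 2 := by positivity
    field_simp
  have e2 : aqF v (v * gE, x2 ξ * D0 / 2) = gE * (1 - 1 / (1 + D0 / (2 * v * gE ^ 2) * x2 ξ)) := by
    unfold aqF
    have hden : 0 < 1 + D0 / (2 * v * gE ^ 2) * x2 ξ := by positivity
    have hden2 : 0 < 1 + v * (x2 ξ * D0 / 2) / (v * gE) ^ 2 := by positivity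
    have e3 : v * (x2 ξ * D0 / 2) / (v * gE) ^ 2 = D0 / (2 * v * gE ^ 2) * x2 ξ := by
      field_simp
    simp only
    rw [e3]
    field_simp
    ring
  rw [e1, ← e2]
  refine ⟨?_, key.le⟩
  unfold aqF
  positivity

end Pool.Agent.QDF
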