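import Pool.Agent.QDF.Model
import Pool.Agent.Helper3.TG.Ident2
import Pool.Agent.Helper3.TG.Meas
import Pool.Agent.Helper3.Anderson.FinalA

/-! QDF/Avg. The time average is the integral of its energy density; its total mass is one. -/

open MeasureTheory Set Pool.Agent.Helper3.Anderson Pool.Agent.Helper3.TG
open scoped ENNReal

noncomputable section

namespace Pool.Agent.QDF

theorem avg_pow_apply {d : ℕ} {V : Site d → ℝ} (hV : Bdd V) (t : ℝ) (n : ℕ) : ∀ x : Site d,
    (((t • (-Complex.I • schr V hV)) ^ n) (dl 0) : L2 d) x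
      = (-(Complex.I * t)) ^ n * (ham V)^[n] (Pi.single 0 1) x := by
  induction n with
  | zero =>
    intro x
    simp only [pow_zero, Function.iterate_zero, id_eq, one_mul]
    change (dl 0 : L2 d) x = _
    rw [dl_apply, Pi.single_apply]
  | succ n ih =>
    intro x
    rw [pow_succ', Function.iterate_succ_apply']
    change ((t • (-Complex.I • schr V hV)) (((t • (-Complex.I • schr V hV)) ^ n) (dl 0)) : L2 d) x
      = _
    rw [tgm_smul_apply, schr_apply]
    have h : ((((t • (-Complex.I • schr V hV)) ^ n) (dl 0) : L2 d) : Site d → ℂ)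
        = fun y => (-(Complex.I * t)) ^ n * (ham V)^[n] (Pi.single 0 1) y := funext ih
    rw [h]
    have hl : lap (fun y => (-(Complex.I * t)) ^ n * (ham V)^[n] (Pi.single 0 1) y) x
        = (-(Complex.I * t)) ^ n * lap ((ham V)^[n] (Pi.single 0 1)) x := by
      simp only [lap, Finset.mul_sum]
      refine Finset.sum_congr rfl fun j _ => ?_
      ring
    rw [hl]
    simp only [ham]
    ring

theorem avg_evolution_eq {d : ℕ} {V : Site d → ℝ} (hV : Bdd V) (t : ℝ) (x : Site d) :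
    evolution V t x = (evo V hV t : L2 d) x := by
  have h1 := NormedSpace.exp_series_hasSum_exp' (𝕂 := ℂ) (t • (-Complex.I • schr V hV))
  have h2 := (h1.mapL (tgm_ev (dl (0 : Site d)) x)).tsum_eq
  simp only [map_smul, tgm_ev_apply, smul_eq_mul] at h2
  rw [evo, ← h2, evolution]
  refine tsum_congr fun n => ?_
  rw [avg_pow_apply hV t n x]
  ring

theorem average_eq_wT {d : ℕ} {μ : Measure ℝ} [IsProbabilityMeasure μ] {M : ℝ} (hM : 0 ≤ M)
    (hμ : μ (Icc (-M) M)ᶜ = 0) (lam : ℝ) (w : Site d → ℝ) (T : ℝ) :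
    average d μ lam w T = wT d μ M lam hM w T := by
  have hbdd := ae_bdd (d := d) hμ
  have hpot : ∀ ω : Site d → ℝ, (∀ x, |ω x| ≤ M) → (fun x => lam * ω x) = potc M lam ω := by
    intro ω hb
    funext x
    simp only [potc]
    rw [clip_of_abs_le (hb x)]
  unfold average wT
  refine lintegral_congr_ae ?_
  filter_upwards [hbdd] with ω hω
  refine congrArg _ (lintegral_congr fun t => congrArg _ (tsum_congr fun x => ?_))
  rw [hpot ω hω, avg_evolution_eq (bdd_potc hM ω), ENNReal.ofReal_mul' (by positivity),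
    ENNReal.ofReal_pow (norm_nonneg _), ofReal_norm]

theorem average_eq {d : ℕ} {μ : Measure ℝ} [IsProbabilityMeasure μ] {M : ℝ} (hM : 0 ≤ M)
    (hμ : μ (Icc (-M) M)ᶜ = 0) (lam : ℝ) (w : Site d → ℝ) {T : ℝ} (hT : 0 < T) :
    average d μ lam w T = ∫⁻ E : ℝ, wE d μ M lam w T E := by
  rw [average_eq_wT hM hμ, wT_eq hM hT]

/-- the evolution has norm one -/
theorem tsum_evo {d : ℕ} (V : Site d → ℝ) (hV : Bdd V) (t : ℝ) :
    ∑' x : Site d, ‖(evo V hV t : L2 d) x‖ₑ ^ 2 = 1 := by
  have h1 := lp.norm_rpow_eq_tsum (p := 2) (by norm_num) (evo V hV t)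
  rw [norm_evo] at h1
  have h2 : ∑' x : Site d, ‖(evo V hV t : L2 d) x‖ ^ 2 = 1 := by
    have h3 : ∀ x : Site d, ‖(evo V hV t : L2 d) x‖ ^ (ENNReal.toReal 2) =
        ‖(evo V hV t : L2 d) x‖ ^ 2 := by
      intro x
      have : ENNReal.toReal 2 = ((2 : ℕ) : ℝ) := by norm_num
      rw [this, Real.rpow_natCast]
    rw [← tsum_congr h3, ← h1, Real.one_rpow]
  have hs : Summable fun x : Site d => ‖(evo V hV t : L2 d) x‖ ^ 2 := by
    by_contra h
    rw [tsum_eq_zero_of_not_summable h] at h2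
    exact zero_ne_one h2
  have h4 : ∀ x : Site d, ‖(evo V hV t : L2 d) x‖ₑ ^ 2 =
      ENNReal.ofReal (‖(evo V hV t : L2 d) x‖ ^ 2) := by
    intro x
    rw [ENNReal.ofReal_pow (norm_nonneg _), ofReal_norm]
  rw [tsum_congr h4, ← ENNReal.ofReal_tsum_of_nonneg (fun x => by positivity) hs, h2,
    ENNReal.ofReal_one]

theorem average_one {d : ℕ} {μ : Measure ℝ} [IsProbabilityMeasure μ] {M : ℝ} (hM : 0 ≤ M)
    (hμ : μ (Icc (-M) M)ᶜ = 0) (lam : ℝ) {T : ℝ} (hT : 0 < T) :
    average d μ lam (fun _ => 1) T = 1 := by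
  rw [average_eq_wT hM hμ]
  unfold wT
  have hexp : ∫⁻ t in Ioi (0 : ℝ), ENNReal.ofReal (Real.exp (-(2 * t / T))) =
      ENNReal.ofReal (T / 2) := by
    have h0 : ∀ t : ℝ, Real.exp (-(2 * t / T)) = Real.exp ((-(2 / T)) * t) := by
      intro t
      congr 1
      ring
    have hneg : -(2 / T) < 0 := by
      have := div_pos two_pos hT
      linarith
    simp only [h0]
    rw [← ofReal_integral_eq_lintegral_ofReal (integrableOn_exp_mul_Ioi hneg 0)
      (Filter.Eventually.of_forall fun t => (Real.exp_pos _).le), integral_exp_mul_Ioi hneg]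
    congr 1
    rw [mul_zero, Real.exp_zero]
    field_simp
  have h1 : ∀ ω : Site d → ℝ, (ENNReal.ofReal (2 / T) * ∫⁻ t in Ioi (0 : ℝ),
      ENNReal.ofReal (Real.exp (-(2 * t / T))) *
        ∑' x : Site d, ENNReal.ofReal ((fun _ : Site d => (1 : ℝ)) x) *
          ‖(evo (potc M lam ω) (bdd_potc hM ω) t : L2 d) x‖ₑ ^ 2) = 1 := by
    intro ω
    have h2 : ∀ t : ℝ, ENNReal.ofReal (Real.exp (-(2 * t / T))) *
        ∑' x : Site d, ENNReal.ofReal ((fun _ : Site d => (1 : ℝ)) x) *
          ‖(evo (potc M lam ω) (bdd_potc hM ω) t : L2 d) x‖ₑ ^ 2 =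
        ENNReal.ofReal (Real.exp (-(2 * t / T))) := by
      intro t
      have h3 : ∀ x : Site d, ENNReal.ofReal ((fun _ : Site d => (1 : ℝ)) x) *
          ‖(evo (potc M lam ω) (bdd_potc hM ω) t : L2 d) x‖ₑ ^ 2 =
          ‖(evo (potc M lam ω) (bdd_potc hM ω) t : L2 d) x‖ₑ ^ 2 := by
        intro x
        rw [ENNReal.ofReal_one, one_mul]
      rw [tsum_congr h3, tsum_evo, mul_one]
    rw [lintegral_congr h2, hexp, ← ENNReal.ofReal_mul (by positivity)]
    have : 2 / T * (T / 2) = 1 := by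
      field_simp
    rw [this, ENNReal.ofReal_one]
  rw [lintegral_congr h1, lintegral_one]
  exact measure_univ

end Pool.Agent.QDF
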