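import Pool.Agent.QDF.Defs
import Pool.Agent.BK3.Defs

/-! QDF/BLawG. Every bounded law with positive variance, centred, is a `BLaw`.
`R = max 1 (M + |m|)`; compare `exists_bLaw` in `BK3/LawX.lean`. -/

open MeasureTheory Finset Matrix Pool.Agent.BK Pool.Agent.BK3

noncomputable section

namespace Pool.Agent.QDF

theorem bLaw_gen {μ : Measure ℝ} [IsProbabilityMeasure μ] {M : ℝ}
    (hμ : μ (Set.Icc (-M) M)ᶜ = 0) {v : ℝ} (hv : v = ∫ t, (t - ∫ s, s ∂μ) ^ 2 ∂μ) (hv0 : 0 < v) :
    ∃ R : ℝ, BLaw (μ.map (fun x => x - ∫ t, t ∂μ)) R v := by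
  set m := ∫ t, t ∂μ with hm
  have hmeas : Measurable fun x : ℝ => x - m := measurable_id.sub_const m
  have hM : ∀ᵐ t ∂μ, t ∈ Set.Icc (-M) M := hμ
  have hint : Integrable (fun t : ℝ => t) μ := by
    refine Integrable.of_bound (C := M) measurable_id.aestronglyMeasurable ?_
    filter_upwards [hM] with t ht
    exact abs_le.2 ht
  refine ⟨max 1 (|M| + |m|), ?_, le_max_left _ _, ?_, ?_, ?_, hv0⟩
  · exact Measure.isProbabilityMeasure_map hmeas.aemeasurable
  · rw [Measure.map_apply hmeas measurableSet_Icc.compl]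
    refine measure_mono_null ?_ hμ
    intro t ht h
    apply ht
    have h1 : |t - m| ≤ |M| + |m| :=
      (abs_sub t m).trans (add_le_add ((abs_le.2 h).trans (le_abs_self M)) le_rfl)
    exact abs_le.1 (h1.trans (le_max_right _ _))
  · have h1 : ∫ v, v ∂(μ.map (fun x => x - m)) = ∫ t, (t - m) ∂μ :=
      integral_map hmeas.aemeasurable (f := fun v : ℝ => v) measurable_id.aestronglyMeasurable
    rw [h1, integral_sub hint (integrable_const m)]
    simp [hm]
  · rw [hv]
    exact integral_map hmeas.aemeasurable (f := fun v : ℝ => v ^ 2)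
      (measurable_id.pow_const 2).aestronglyMeasurable

end Pool.Agent.QDF
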