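import Pool.Agent.BK.FB4
import Pool.Agent.BK3.TDefs
import Pool.Agent.Helper3.Anderson.Model
import Pool.Agent.Helper3.TG.Plancherel

/-! QDF (quantum diffusion): definitions. -/

open MeasureTheory Finset Matrix Pool.Agent.BK Pool.Agent.BK3 Pool.Agent.Helper3.Anderson
open Pool.Agent.Helper3.TG
open scoped ENNReal

noncomputable section

namespace Pool.Agent.QDF

/-- The free time kernel `exp (-itH0)(0, m e_1)` on `ℤ^d`. -/
def kp (d : ℕ) (m : ℤ) (t : ℝ) : ℂ := kf t m * kf t 0 ^ (d - 1)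

/-- The free Green function `(H0 - ζ)^(-1)(0, m e_1)` on `ℤ^d`, `Im ζ ≥ 0`. -/
def Ph (d : ℕ) (m : ℤ) (ζ : ℂ) : ℂ :=
  Complex.I * ∫ t in Set.Ioi (0 : ℝ), Complex.exp (Complex.I * ζ * (t : ℂ)) * kp d m t

/-- The average over the dual torus. -/
def tavg {d n : ℕ} (F : Tor d n → ℂ) : ℂ := (1 / (2 * n + 1 : ℂ) ^ d) * ∑ q, F q

/-- The free resolvent in Fourier space. -/
def mq {d n : ℕ} (ζ : ℂ) (q : Tor d n) : ℂ := 1 / ((omg q : ℂ) - ζ)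

/-- `Σ_y |M_0y|² (1 - Re ch_k(y))` for the free resolvent `M` at `ζ`. -/
def Qf {d n : ℕ} (ζ : ℂ) (k : Tor d n) : ℝ :=
  ∑ y, ‖Gr (H0 d n) 0 ζ 0 y‖ ^ 2 * (1 - (ch k y).re)

/-- `Σ_l |θ_l|` and `Σ_l θ_l²` for the angles of `k`. -/
def a1 {d n : ℕ} (k : Tor d n) : ℝ := ∑ l, |ang n (k l)|

def a2 {d n : ℕ} (k : Tor d n) : ℝ := ∑ l, ang n (k l) ^ 2

/-- The density of states times `π`. -/
def g0 (d : ℕ) (E : ℝ) : ℝ := (Ph d 0 E).im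

/-- The diffusion constant at energy `E` for the variance `v`. -/
def DD (d : ℕ) (v E : ℝ) : ℝ := (Ph d 0 E - Ph d 2 E).im / (2 * v * g0 d E ^ 2)

/-- The weight `1 - cos (κ·x)`. -/
def wk {d : ℕ} (κ : Fin d → ℝ) (x : Site d) : ℝ := 1 - Real.cos (∑ l, κ l * (x l : ℝ))

/-- The squared length of `ξ`. -/
def x2 {d : ℕ} (ξ : Fin d → ℝ) : ℝ := ∑ l, ξ l ^ 2

lemma Qk_eq (ν : Measure ℝ) (s2 : ℝ) (d : ℕ) (π : Par) (k : Tor d π.n) :
    Qk ν s2 d π k = Qf (zt ν s2 d π) k := rfl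

end Pool.Agent.QDF
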