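import Pool.Agent.QDF.TorG

/-! QDF/Dos. The density of states has total mass one: `∫_0^{4d} g0 = π`.

For `γ ∈ (0,1]`, `n > 0` (`N = (2n+1)^d`): `Im Gr 0 0 (E+iγ) = (1/N) Σ_q γ/((ω(q)-E)²+γ²)`
(`Gr_eq_TF`, `fb34_TF_diag`, `fb34_im_inv`), so
`∫_0^{4d} Im Gr 0 0 (E+iγ) dE = (1/N) Σ_q (arctan((4d-ω)/γ) + arctan(ω/γ))`
(`integral_inv_one_add_sq`-type, or the derivative of `arctan((E-ω)/γ)`), `0 ≤ ω ≤ 4d`.
`0 ≤ π/2 - arctan(u/γ) ≤ 2(π/2) a²/(u²+a²) + γ/a` for `u ≥ 0`, `a > 0`: for `u ≤ a` the first term is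
`≥ π/2`; for `u > a`, `π/2 - arctan(u/γ) = arctan(γ/u) ≤ γ/u ≤ γ/a`. With `a = √γ`:
`(1/N)Σ_q a²/(ω²+a²) = a Im Gr 0 0 (0+ia)` and `(1/N)Σ_q a²/((4d-ω)²+a²) = a Im Gr 0 0 (4d+ia)`, both
`≤ a(C + C/((2n+1)a²))` by `Gr_ph` (`m = 0`) and `Ph_le`. So
`|∫_0^{4d} Im Gr 0 0 (E+iγ) dE - π| ≤ C'(√γ + 1/((2n+1)√γ)) `. `n → ∞` (`Gr_ph` again, uniformly in `E`):
`|∫_0^{4d} (Ph d 0 (E+iγ)).im dE - π| ≤ C'√γ`; `γ → 0`: `Ph_holder`. -/

open MeasureTheory Finset Matrix Pool.Agent.BK Pool.Agent.BK3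

noncomputable section

namespace Pool.Agent.QDF

private theorem dos_cont {d : ℕ} (hd : 3 ≤ d) {γ : ℝ} (hγ : 0 ≤ γ) :
    Continuous fun E : ℝ => (Ph d 0 ((E : ℂ) + γ * Complex.I)).im := by
  obtain ⟨C, hC, H⟩ := Ph_holder hd 0
  rw [Metric.continuous_iff]
  intro E₀ ε hε
  refine ⟨(ε / (2 * C)) ^ 4, by positivity, fun E hE => ?_⟩
  have h1 := H ((E : ℂ) + γ * Complex.I) ((E₀ : ℂ) + γ * Complex.I) (by simpa using hγ)
    (by simpa using hγ)
  have h2 : ((E : ℂ) + γ * Complex.I) - ((E₀ : ℂ) + γ * Complex.I) = ((E - E₀ : ℝ) : ℂ) := by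
    push_cast
    ring
  rw [h2, Complex.norm_real] at h1
  rw [Real.dist_eq, ← Complex.sub_im]
  have h3 : |E - E₀| < (ε / (2 * C)) ^ 4 := by rwa [Real.dist_eq] at hE
  have h4 : ‖E - E₀‖ ^ (1 / 4 : ℝ) ≤ ε / (2 * C) := by
    rw [Real.norm_eq_abs]
    calc |E - E₀| ^ (1 / 4 : ℝ) ≤ ((ε / (2 * C)) ^ 4) ^ (1 / 4 : ℝ) :=
          Real.rpow_le_rpow (abs_nonneg _) h3.le (by norm_num)
      _ = ε / (2 * C) := by
          rw [← Real.rpow_natCast, ← Real.rpow_mul (by positivity)]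
          norm_num
  calc _ ≤ ‖Ph d 0 ((E : ℂ) + γ * Complex.I) - Ph d 0 ((E₀ : ℂ) + γ * Complex.I)‖ :=
        Complex.abs_im_le_norm _
    _ ≤ C * ‖E - E₀‖ ^ (1 / 4 : ℝ) := h1
    _ ≤ C * (ε / (2 * C)) := mul_le_mul_of_nonneg_left h4 hC.le
    _ = ε / 2 := by field_simp
    _ < ε := by linarith

theorem g0_cont {d : ℕ} (hd : 3 ≤ d) : Continuous (g0 d) := by
  have h := dos_cont hd (le_refl (0 : ℝ))
  have e : g0 d = fun E : ℝ => (Ph d 0 ((E : ℂ) + (0 : ℝ) * Complex.I)).im := by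
    funext E
    unfold g0
    simp
  rw [e]
  exact h

private theorem dos_TF {d n : ℕ} (F : Tor d n → ℂ) :
    TF F 0 0 = (1 / (2 * n + 1 : ℂ) ^ d) * ∑ q, F q := by
  unfold TF
  simp [ch]

private theorem dos_im (w : ℝ) (ζ : ℂ) :
    (1 / ((w : ℂ) - ζ)).im = ζ.im / ((w - ζ.re) ^ 2 + ζ.im ^ 2) := by
  rw [one_div, Complex.inv_im, Complex.normSq_apply]
  simp only [Complex.sub_re, Complex.ofReal_re, Complex.sub_im, Complex.ofReal_im, zero_sub]
  congr 1
  · ring
  · ring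

/-- the imaginary part of the free resolvent on the torus -/
private def dosF (d n : ℕ) (γ E : ℝ) : ℝ :=
  (1 / (2 * n + 1 : ℝ) ^ d) * ∑ q : Tor d n, γ / ((omg q - E) ^ 2 + γ ^ 2)

private theorem dosF_eq {d n : ℕ} (hn : 0 < n) {γ : ℝ} (hγ : 0 < γ) (E : ℝ) :
    (Gr (H0 d n) 0 ((E : ℂ) + γ * Complex.I) 0 0).im = dosF d n γ E := by
  have him : 0 < ((E : ℂ) + γ * Complex.I).im := by simpa using hγ
  rw [Gr_eq_TF hn him, dos_TF]
  have h1 : (1 / (2 * n + 1 : ℂ) ^ d) = ((1 / (2 * n + 1 : ℝ) ^ d : ℝ) : ℂ) := by push_cast; rfl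
  rw [h1, Complex.im_ofReal_mul, Complex.im_sum]
  unfold dosF
  congr 1
  refine Finset.sum_congr rfl fun q _ => ?_
  rw [dos_im]
  simp

private theorem omg_bd {d n : ℕ} (q : Tor d n) : 0 ≤ omg q ∧ omg q ≤ 4 * d := by
  unfold omg
  constructor
  · exact Finset.sum_nonneg fun l _ => by linarith [Real.cos_le_one (ang n (q l))]
  · calc ∑ l, (2 - 2 * Real.cos (ang n (q l))) ≤ ∑ _l : Fin d, (4 : ℝ) :=
          Finset.sum_le_sum fun l _ => by linarith [Real.neg_one_le_cos (ang n (q l))]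
      _ = 4 * d := by
          rw [Finset.sum_const, Finset.card_univ, Fintype.card_fin, nsmul_eq_mul]
          ring

/-- the tail of the arctangent -/
private theorem dos_arctan {u a γ : ℝ} (hu : 0 ≤ u) (ha : 0 < a) (hγ : 0 < γ) :
    0 ≤ Real.pi / 2 - Real.arctan (u / γ) ∧
    Real.pi / 2 - Real.arctan (u / γ) ≤ Real.pi * (a ^ 2 / (u ^ 2 + a ^ 2)) + γ / a := by
  have hpi := Real.pi_pos
  refine ⟨by linarith [Real.arctan_lt_pi_div_two (u / γ)], ?_⟩
  rcases le_or_gt u a with h | h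
  · have h1 : 1 / 2 ≤ a ^ 2 / (u ^ 2 + a ^ 2) := by
      rw [div_le_div_iff₀ (by norm_num) (by positivity)]
      nlinarith
    have h2 : 0 ≤ Real.arctan (u / γ) := Real.arctan_nonneg.2 (by positivity)
    have h3 : 0 ≤ γ / a := by positivity
    nlinarith
  · have hu0 : 0 < u := ha.trans h
    have h1 : Real.pi / 2 - Real.arctan (u / γ) = Real.arctan (γ / u) := by
      have := Real.arctan_inv_of_pos (x := u / γ) (by positivity)
      rw [inv_div] at this
      rw [this]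
    rw [h1]
    have h2 : Real.arctan (γ / u) ≤ γ / u := by
      have h5 := Real.le_tan (Real.arctan_nonneg.2 (by positivity : 0 ≤ γ / u))
        (Real.arctan_lt_pi_div_two _)
      rwa [Real.tan_arctan] at h5
    have h3 : γ / u ≤ γ / a := div_le_div_of_nonneg_left hγ.le ha h.le
    have h4 : 0 ≤ Real.pi * (a ^ 2 / (u ^ 2 + a ^ 2)) := by positivity
    linarith

private theorem dos_int1 {ω γ : ℝ} (hγ : 0 < γ) (T : ℝ) :
    ∫ E in (0 : ℝ)..T, γ / ((ω - E) ^ 2 + γ ^ 2) =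
      Real.arctan ((T - ω) / γ) + Real.arctan (ω / γ) := by
  have hder : ∀ E ∈ Set.uIcc (0 : ℝ) T, HasDerivAt (fun E : ℝ => Real.arctan ((E - ω) / γ))
      (γ / ((ω - E) ^ 2 + γ ^ 2)) E := by
    intro E _
    have h1 : HasDerivAt (fun E : ℝ => (E - ω) / γ) (1 / γ) E :=
      ((hasDerivAt_id E).sub_const ω).div_const γ
    have h2 := h1.arctan
    refine h2.congr_deriv ?_
    field_simp
    ring
  have hcont : Continuous fun E : ℝ => γ / ((ω - E) ^ 2 + γ ^ 2) := by
    refine Continuous.div continuous_const (by fun_prop) fun E => ?_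
    positivity
  rw [intervalIntegral.integral_eq_sub_of_hasDerivAt hder (hcont.intervalIntegrable _ _)]
  have h3 : (0 - ω) / γ = -(ω / γ) := by ring
  rw [h3, Real.arctan_neg]
  ring

private theorem dosF_cont (d n : ℕ) {γ : ℝ} (hγ : 0 < γ) : Continuous (dosF d n γ) := by
  unfold dosF
  refine continuous_const.mul (continuous_finsetSum _ fun q _ => ?_)
  refine Continuous.div continuous_const (by fun_prop) fun E => ?_
  positivity

private theorem dos_card (d n : ℕ) : (Fintype.card (Tor d n) : ℝ) = (2 * n + 1 : ℝ) ^ d := by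
  rw [Fintype.card_fun, ZMod.card, Fintype.card_fin]
  push_cast
  ring

/-- the integral of the resolvent on the torus -/
private theorem dosF_int (d n : ℕ) {γ a : ℝ} (hγ : 0 < γ) (ha : 0 < a) :
    |(∫ E in (0 : ℝ)..(4 * d), dosF d n γ E) - Real.pi| ≤
      Real.pi * (a * dosF d n a 0) + Real.pi * (a * dosF d n a (4 * d)) + 2 * (γ / a) := by
  set N : ℝ := (2 * n + 1 : ℝ) ^ d with hN
  have hN0 : 0 < N := by positivity
  have hcard := dos_card d n
  have e1 : ∫ E in (0 : ℝ)..(4 * d), dosF d n γ E = (1 / N) * ∑ q : Tor d n,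
      (Real.arctan ((4 * d - omg q) / γ) + Real.arctan (omg q / γ)) := by
    unfold dosF
    rw [intervalIntegral.integral_const_mul, intervalIntegral.integral_finsetSum]
    · congr 1
      exact Finset.sum_congr rfl fun q _ => dos_int1 hγ _
    · intro q _
      apply Continuous.intervalIntegrable
      refine Continuous.div continuous_const (by fun_prop) fun E => ?_
      positivity
  have e2 : Real.pi = (1 / N) * ∑ _q : Tor d n, Real.pi := by
    rw [Finset.sum_const, Finset.card_univ, nsmul_eq_mul, hcard, ← hN]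
    field_simp
  have e3 : (1 / N) * ∑ q : Tor d n,
      (Real.arctan ((4 * d - omg q) / γ) + Real.arctan (omg q / γ)) - Real.pi =
      -((1 / N) * ∑ q : Tor d n, ((Real.pi / 2 - Real.arctan ((4 * d - omg q) / γ)) +
        (Real.pi / 2 - Real.arctan (omg q / γ)))) := by
    conv_lhs => rw [e2]
    rw [← mul_sub, ← mul_neg, ← Finset.sum_sub_distrib, ← Finset.sum_neg_distrib]
    congr 1
    exact Finset.sum_congr rfl fun q _ => by ring
  rw [e1, e3, abs_neg, abs_of_nonneg]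
  · have e4 : Real.pi * (a * dosF d n a 0) + Real.pi * (a * dosF d n a (4 * d)) + 2 * (γ / a) =
        (1 / N) * ∑ q : Tor d n, ((Real.pi * (a ^ 2 / ((4 * d - omg q) ^ 2 + a ^ 2)) + γ / a) +
          (Real.pi * (a ^ 2 / (omg q ^ 2 + a ^ 2)) + γ / a)) := by
      have e5 : 2 * (γ / a) = (1 / N) * ∑ _q : Tor d n, 2 * (γ / a) := by
        rw [Finset.sum_const, Finset.card_univ, nsmul_eq_mul, hcard, ← hN]
        field_simp
      conv_lhs => rw [e5]
      unfold dosF
      rw [← hN]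
      have e6 : ∀ E : ℝ, Real.pi * (a * (1 / N * ∑ q : Tor d n, a / ((omg q - E) ^ 2 + a ^ 2))) =
          (1 / N) * ∑ q : Tor d n, Real.pi * (a ^ 2 / ((omg q - E) ^ 2 + a ^ 2)) := by
        intro E
        rw [Finset.mul_sum, Finset.mul_sum, Finset.mul_sum, Finset.mul_sum]
        exact Finset.sum_congr rfl fun q _ => by ring
      rw [e6, e6, ← mul_add, ← mul_add, ← Finset.sum_add_distrib, ← Finset.sum_add_distrib]
      congr 1
      refine Finset.sum_congr rfl fun q _ => ?_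
      have e7 : (omg q - 4 * d) ^ 2 = (4 * d - omg q) ^ 2 := by ring
      rw [e7, sub_zero]
      ring
    rw [e4]
    refine mul_le_mul_of_nonneg_left (Finset.sum_le_sum fun q _ => ?_) (by positivity)
    obtain ⟨h1, h2⟩ := omg_bd q
    exact add_le_add (dos_arctan (by linarith) ha hγ).2 (dos_arctan h1 ha hγ).2
  · refine mul_nonneg (by positivity) (Finset.sum_nonneg fun q _ => ?_)
    obtain ⟨h1, h2⟩ := omg_bd q
    exact add_nonneg (dos_arctan (by linarith) one_pos hγ).1 (dos_arctan h1 one_pos hγ).1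

theorem g0_int {d : ℕ} (hd : 3 ≤ d) : ∫ E in (0 : ℝ)..(4 * d), g0 d E = Real.pi := by
  obtain ⟨Ch, hCh, HH⟩ := Ph_holder hd 0
  obtain ⟨C0, hC0, HL⟩ := Ph_le hd 0
  obtain ⟨C, hC, HG⟩ := Gr_ph hd 0
  have hpi := Real.pi_pos
  set K : ℝ := 4 * d * Ch + 4 * d * C + 2 * Real.pi * (C0 + C) + 2 with hK
  have hd0 : (0 : ℝ) < d := by exact_mod_cast (by omega : 0 < d)
  have hK0 : 0 < K := by positivity
  have main : ∀ s : ℝ, 0 < s → s ≤ 1 →
      |(∫ E in (0 : ℝ)..(4 * d), g0 d E) - Real.pi| ≤ K * s := by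
    intro s hs hs1
    set γ : ℝ := s ^ 4 with hγ
    set a : ℝ := s ^ 2 with ha
    have hγ0 : 0 < γ := by positivity
    have ha0 : 0 < a := by positivity
    have hγ1 : γ ≤ 1 := pow_le_one₀ hs.le hs1
    have ha1 : a ≤ 1 := pow_le_one₀ hs.le hs1
    obtain ⟨n, hn⟩ := exists_nat_gt (1 / s ^ 9)
    have hn0 : 0 < n := by
      have h1 : (0 : ℝ) < n := lt_trans (by positivity) hn
      exact_mod_cast h1
    have hnr : (0 : ℝ) < 2 * n + 1 := by positivity
    have hn9 : 1 / (2 * n + 1 : ℝ) ≤ s ^ 9 := by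
      rw [div_le_iff₀ hnr]
      rw [div_lt_iff₀ (by positivity)] at hn
      nlinarith [pow_pos hs 9]
    -- the bound of the difference of the two Green functions
    have hG : ∀ (b : ℝ), 0 < b → b ≤ 1 → ∀ E : ℝ,
        |dosF d n b E - (Ph d 0 ((E : ℂ) + b * Complex.I)).im| ≤ C / ((2 * n + 1) * b ^ 2) := by
      intro b hb hb1 E
      have h1 := HG n ((E : ℂ) + b * Complex.I) ⟨0, by omega⟩ hn0 (by simp)
        (by simpa using hb) (by simpa using hb1)
      have h2 : (Pi.single (⟨0, by omega⟩ : Fin d) ((0 : ℤ) : ZMod (2 * n + 1)) : Tor d n) = 0 := by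
        simp
      rw [h2] at h1
      rw [← dosF_eq hn0 hb, ← Complex.sub_im]
      have h3 : ((E : ℂ) + b * Complex.I).im = b := by simp
      rw [h3] at h1
      exact (Complex.abs_im_le_norm _).trans h1
    have hFa : ∀ E : ℝ, dosF d n a E ≤ C0 + C := by
      intro E
      have h1 := (abs_le.1 (hG a ha0 ha1 E)).2
      have h2 : (Ph d 0 ((E : ℂ) + a * Complex.I)).im ≤ C0 :=
        (le_abs_self _).trans ((Complex.abs_im_le_norm _).trans (HL _ (by simpa using ha0.le)))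
      have h3 : C / ((2 * n + 1) * a ^ 2) ≤ C := by
        have : 1 / (2 * n + 1 : ℝ) * (1 / a ^ 2) ≤ 1 := by
          calc 1 / (2 * n + 1 : ℝ) * (1 / a ^ 2) ≤ s ^ 9 * (1 / a ^ 2) :=
                mul_le_mul_of_nonneg_right hn9 (by positivity)
            _ = s ^ 5 := by
                rw [ha]
                field_simp
            _ ≤ 1 := pow_le_one₀ hs.le hs1
        calc C / ((2 * n + 1) * a ^ 2) = C * (1 / (2 * n + 1 : ℝ) * (1 / a ^ 2)) := by
              field_simp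
          _ ≤ C * 1 := mul_le_mul_of_nonneg_left this hC.le
          _ = C := mul_one C
      linarith
    -- the three comparisons
    have k1 : |(∫ E in (0 : ℝ)..(4 * d), dosF d n γ E) - Real.pi| ≤
        (2 * Real.pi * (C0 + C) + 2) * s := by
      refine (dosF_int d n hγ0 ha0).trans ?_
      have h1 : Real.pi * (a * dosF d n a 0) ≤ Real.pi * (a * (C0 + C)) :=
        mul_le_mul_of_nonneg_left (mul_le_mul_of_nonneg_left (hFa 0) ha0.le) hpi.le
      have h2 : Real.pi * (a * dosF d n a (4 * d)) ≤ Real.pi * (a * (C0 + C)) :=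
        mul_le_mul_of_nonneg_left (mul_le_mul_of_nonneg_left (hFa _) ha0.le) hpi.le
      have h3 : γ / a = a := by
        rw [hγ, ha]
        field_simp
      have h4 : a ≤ s := by
        rw [ha]
        nlinarith
      have h5 : (2 * Real.pi * (C0 + C) + 2) * a ≤ (2 * Real.pi * (C0 + C) + 2) * s :=
        mul_le_mul_of_nonneg_left h4 (by positivity)
      rw [h3]
      linarith
    have k2 : |(∫ E in (0 : ℝ)..(4 * d), dosF d n γ E) -
        ∫ E in (0 : ℝ)..(4 * d), (Ph d 0 ((E : ℂ) + γ * Complex.I)).im| ≤ 4 * d * C * s := by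
      rw [← intervalIntegral.integral_sub ((dosF_cont d n hγ0).intervalIntegrable _ _)
        ((dos_cont hd hγ0.le).intervalIntegrable _ _)]
      have h1 : C / ((2 * n + 1) * γ ^ 2) ≤ C * s := by
        have : 1 / (2 * n + 1 : ℝ) * (1 / γ ^ 2) ≤ s := by
          calc 1 / (2 * n + 1 : ℝ) * (1 / γ ^ 2) ≤ s ^ 9 * (1 / γ ^ 2) :=
                mul_le_mul_of_nonneg_right hn9 (by positivity)
            _ = s := by
                rw [hγ]
                field_simp
        calc C / ((2 * n + 1) * γ ^ 2) = C * (1 / (2 * n + 1 : ℝ) * (1 / γ ^ 2)) := by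
              field_simp
          _ ≤ C * s := mul_le_mul_of_nonneg_left this hC.le
      have h2 := intervalIntegral.norm_integral_le_of_norm_le_const (a := (0 : ℝ)) (b := 4 * d)
        (f := fun E => dosF d n γ E - (Ph d 0 ((E : ℂ) + γ * Complex.I)).im)
        (C := C / ((2 * n + 1) * γ ^ 2)) (fun E _ => by
          rw [Real.norm_eq_abs]
          exact hG γ hγ0 hγ1 E)
      rw [Real.norm_eq_abs, sub_zero, abs_of_nonneg (by positivity : (0 : ℝ) ≤ 4 * d)] at h2
      refine h2.trans ?_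
      calc C / ((2 * n + 1) * γ ^ 2) * (4 * d) ≤ C * s * (4 * d) :=
            mul_le_mul_of_nonneg_right h1 (by positivity)
        _ = _ := by ring
    have k3 : |(∫ E in (0 : ℝ)..(4 * d), (Ph d 0 ((E : ℂ) + γ * Complex.I)).im) -
        ∫ E in (0 : ℝ)..(4 * d), g0 d E| ≤ 4 * d * Ch * s := by
      rw [← intervalIntegral.integral_sub ((dos_cont hd hγ0.le).intervalIntegrable _ _)
        ((g0_cont hd).intervalIntegrable _ _)]
      have h2 := intervalIntegral.norm_integral_le_of_norm_le_const (a := (0 : ℝ)) (b := 4 * d)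
        (f := fun E => (Ph d 0 ((E : ℂ) + γ * Complex.I)).im - g0 d E)
        (C := Ch * s) (fun E _ => by
          rw [Real.norm_eq_abs]
          unfold g0
          rw [← Complex.sub_im]
          refine (Complex.abs_im_le_norm _).trans ((HH _ _ (by simpa using hγ0.le)
            (by simp)).trans (le_of_eq ?_))
          have h3 : ((E : ℂ) + γ * Complex.I) - (E : ℂ) = γ * Complex.I := by ring
          rw [h3, norm_mul, Complex.norm_I, mul_one, Complex.norm_real,
            Real.norm_of_nonneg hγ0.le, hγ, ← Real.rpow_natCast, ← Real.rpow_mul hs.le]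
          norm_num)
      rw [Real.norm_eq_abs, sub_zero, abs_of_nonneg (by positivity : (0 : ℝ) ≤ 4 * d)] at h2
      refine h2.trans (le_of_eq ?_)
      ring
    have k4 : (∫ E in (0 : ℝ)..(4 * d), g0 d E) - Real.pi =
        ((∫ E in (0 : ℝ)..(4 * d), dosF d n γ E) - Real.pi) -
        ((∫ E in (0 : ℝ)..(4 * d), dosF d n γ E) -
          ∫ E in (0 : ℝ)..(4 * d), (Ph d 0 ((E : ℂ) + γ * Complex.I)).im) -
        ((∫ E in (0 : ℝ)..(4 * d), (Ph d 0 ((E : ℂ) + γ * Complex.I)).im) -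
          ∫ E in (0 : ℝ)..(4 * d), g0 d E) := by ring
    rw [k4]
    refine (abs_sub _ _).trans ?_
    refine (add_le_add (abs_sub _ _) le_rfl).trans ?_
    rw [hK]
    linarith
  by_contra hne
  have hpos : 0 < |(∫ E in (0 : ℝ)..(4 * d), g0 d E) - Real.pi| :=
    abs_pos.2 (sub_ne_zero.2 hne)
  set x := |(∫ E in (0 : ℝ)..(4 * d), g0 d E) - Real.pi| with hx
  have h1 := main (min 1 (x / (2 * K))) (lt_min one_pos (by positivity)) (min_le_left _ _)
  have h2 : K * min 1 (x / (2 * K)) ≤ K * (x / (2 * K)) :=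
    mul_le_mul_of_nonneg_left (min_le_right _ _) hK0.le
  have h3 : K * (x / (2 * K)) = x / 2 := by field_simp
  linarith

end Pool.Agent.QDF
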