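import Pool.Agent.QDF.Win
import Pool.Agent.QDF.Dos
import Pool.Agent.QDF.Avg

/-! QDF/FinQ. Assembly of the convergence of the averages. -/

open MeasureTheory Finset Matrix Pool.Agent.BK Pool.Agent.BK3 Pool.Agent.Helper3.Anderson
open Pool.Agent.Helper3.TG
open scoped ENNReal

noncomputable section

namespace Pool.Agent.QDF

/-- The limiting density for the weight `1 - cos`. -/
def ff (d : ℕ) (v : ℝ) (ξ : Fin d → ℝ) (E : ℝ) : ℝ :=
  g0 d E / Real.pi * (1 - 1 / (1 + DD d v E * x2 ξ))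

/-- The limiting value. -/
def tgt (d : ℕ) (v : ℝ) (ξ : Fin d → ℝ) : ℝ := ∫ E in (0 : ℝ)..(4 * d), ff d v ξ E

lemma x2_nonneg {d : ℕ} (ξ : Fin d → ℝ) : 0 ≤ x2 ξ := Finset.sum_nonneg fun _ _ => sq_nonneg _

theorem pos_E {d : ℕ} (hd : 3 ≤ d) {v : ℝ} (hv : 0 < v) {E : ℝ} (h0 : 0 < E) (h1 : E < 4 * d) :
    0 < g0 d E ∧ 0 < DD d v E := by
  obtain ⟨b, hb0, hb1, hb2, hb3⟩ : ∃ b : ℝ, 0 < b ∧ b ≤ 1 ∧ b ≤ E ∧ E ≤ 4 * d - b := by
    refine ⟨min 1 (min E (4 * d - E)), lt_min one_pos (lt_min h0 (by linarith)), min_le_left _ _,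
      (min_le_right _ _).trans (min_le_left _ _), ?_⟩
    have := (min_le_right (1 : ℝ) (min E (4 * d - E))).trans (min_le_right _ _)
    linarith
  obtain ⟨κ, hκ⟩ := freeC4 hd hb0 hb1
  obtain ⟨h2, h3⟩ := low_E hd hκ E hb2 hb3
  have h4 := hκ.kap
  have h5 : 0 < g0 d E := h4.trans_le h2
  refine ⟨h5, ?_⟩
  unfold DD
  have h6 : 0 < (Ph d 0 E - Ph d 2 E).im := by linarith
  positivity

theorem ff_nonneg {d : ℕ} (hd : 3 ≤ d) {v : ℝ} (hv : 0 < v) (ξ : Fin d → ℝ) {E : ℝ} (h0 : 0 < E)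
    (h1 : E < 4 * d) : 0 ≤ ff d v ξ E ∧ ff d v ξ E ≤ g0 d E / Real.pi := by
  obtain ⟨h2, h3⟩ := pos_E hd hv h0 h1
  have h4 := x2_nonneg ξ
  have h5 : 0 ≤ DD d v E * x2 ξ := mul_nonneg h3.le h4
  have h6 : 0 < 1 / (1 + DD d v E * x2 ξ) := by positivity
  have h7 : 1 / (1 + DD d v E * x2 ξ) ≤ 1 := by
    rw [div_le_one (by linarith)]
    linarith
  have h8 : 0 ≤ g0 d E / Real.pi := by
    have := Real.pi_pos
    positivity
  unfold ff
  exact ⟨mul_nonneg h8 (by linarith), by nlinarith⟩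

theorem ff_meas {d : ℕ} (hd : 3 ≤ d) (v : ℝ) (ξ : Fin d → ℝ) : Measurable (ff d v ξ) := by
  obtain ⟨C, hC, hP⟩ := Ph_holder hd 2
  have hc : ∀ m : ℤ, Continuous fun E : ℝ => Ph d m E := by
    intro m
    obtain ⟨C, hC, hP⟩ := Ph_holder hd m
    rw [Metric.continuous_iff]
    intro E ε hε
    refine ⟨(ε / (2 * C)) ^ (4 : ℝ), by positivity, fun E' hE' => ?_⟩
    rw [dist_eq_norm]
    have h1 := hP E' E (by simp) (by simp)
    refine h1.trans_lt ?_
    have h2 : ‖(E' : ℂ) - E‖ ≤ (ε / (2 * C)) ^ (4 : ℝ) := by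
      have h3 : ‖(E' : ℂ) - E‖ = dist E' E := by
        rw [← Complex.ofReal_sub, Complex.norm_real, Real.dist_eq, Real.norm_eq_abs]
      rw [h3]
      exact hE'.le
    have h4 : ‖(E' : ℂ) - E‖ ^ (1 / 4 : ℝ) ≤ ε / (2 * C) := by
      calc ‖(E' : ℂ) - E‖ ^ (1 / 4 : ℝ) ≤ ((ε / (2 * C)) ^ (4 : ℝ)) ^ (1 / 4 : ℝ) := by gcongr
        _ = ε / (2 * C) := by
          rw [← Real.rpow_mul (by positivity)]
          norm_num
    calc C * ‖(E' : ℂ) - E‖ ^ (1 / 4 : ℝ) ≤ C * (ε / (2 * C)) := by gcongr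
      _ = ε / 2 := by field_simp
      _ < ε := by linarith
  have h1 : Measurable fun E : ℝ => g0 d E := (Complex.continuous_im.comp (hc 0)).measurable
  have h2 : Measurable fun E : ℝ => (Ph d 0 E - Ph d 2 E).im :=
    (Complex.continuous_im.comp ((hc 0).sub (hc 2))).measurable
  unfold ff DD
  fun_prop

theorem g0_le {d : ℕ} (hd : 3 ≤ d) : ∃ C : ℝ, 0 < C ∧ ∀ E : ℝ, g0 d E ≤ C := by
  obtain ⟨C, hC, h⟩ := Ph_le hd 0
  exact ⟨C, hC, fun E => (le_abs_self _).trans ((Complex.abs_im_le_norm _).trans (h E (by simp)))⟩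

theorem finQ {μ : Measure ℝ} [IsProbabilityMeasure μ] {M v : ℝ} (hM : 0 ≤ M)
    (hμ : μ (Set.Icc (-M) M)ᶜ = 0) (hv0 : 0 < v)
    {d : ℕ} (hd : 3 ≤ d) {A a' : ℝ}
    (hwin : ∀ δ : ℝ, 0 < δ → WinC d μ M v a' A δ (4 * d - δ)) :
    ∀ K ε : ℝ, 0 < ε → ∃ lam0 : ℝ, 0 < lam0 ∧ lam0 ≤ 1 ∧ ∀ lam T : ℝ, 0 < lam → lam ≤ lam0 →
      lam ^ (-a') ≤ T → T ≤ lam ^ (-A) → ∀ ξ : Fin d → ℝ, (∀ l, |ξ l| ≤ K) →
        ENNReal.ofReal (tgt d v ξ - ε) ≤ average d μ lam (wk fun l => lam / √T * ξ l) T ∧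
        average d μ lam (wk fun l => lam / √T * ξ l) T ≤ ENNReal.ofReal (tgt d v ξ + ε) := by
  intro K ε hε
  obtain ⟨C, hC0, hC⟩ := g0_le hd
  have hpi := Real.pi_pos
  have hd0 : (0 : ℝ) < d := by exact_mod_cast (by omega : 0 < d)
  have hd3 : (3 : ℝ) ≤ d := by exact_mod_cast hd
  obtain ⟨e, he⟩ : ∃ e : ℝ, e = ε / 8 := ⟨_, rfl⟩
  have he0 : 0 < e := by rw [he]; linarith
  obtain ⟨δ, hδ⟩ : ∃ δ : ℝ, δ = min 1 (e * Real.pi / (2 * C)) := ⟨_, rfl⟩
  have hδ0 : 0 < δ := by rw [hδ]; exact lt_min one_pos (by positivity)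
  have hδ1 : δ ≤ 1 := by rw [hδ]; exact min_le_left _ _
  have hδ2 : 2 * C * δ / Real.pi ≤ e := by
    have h1 : δ ≤ e * Real.pi / (2 * C) := by rw [hδ]; exact min_le_right _ _
    rw [le_div_iff₀ (by positivity)] at h1
    rw [div_le_iff₀ hpi]
    linarith
  obtain ⟨lam0, hl0, hl1, hw⟩ := hwin δ hδ0 K (e / (4 * d)) (by positivity)
  refine ⟨lam0, hl0, hl1, fun lam T h0 h1 hT1 hT2 ξ hξ => ?_⟩
  have hTp : 0 < T := (Real.rpow_pos_of_pos h0 _).trans_le hT1
  have hw' := hw lam T h0 h1 hT1 hT2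
  set W : Set ℝ := Set.Icc δ (4 * d - δ) with hW
  have hWm : MeasurableSet W := measurableSet_Icc
  have hvol : volume W = ENNReal.ofReal (4 * d - δ - δ) := by rw [hW, Real.volume_Icc]
  set w : Site d → ℝ := wk fun l => lam / √T * ξ l with hwdef
  have hw2 : ∀ x, 0 ≤ w x ∧ w x ≤ 2 := by
    intro x
    rw [hwdef]
    unfold wk
    have h2 := Real.neg_one_le_cos (∑ l, lam / √T * ξ l * (x l : ℝ))
    have h3 := Real.cos_le_one (∑ l, lam / √T * ξ l * (x l : ℝ))
    constructor <;> linarith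
  have hgm : Measurable fun E : ℝ => g0 d E / Real.pi := (g0_cont hd).measurable.div_const _
  have hfm := ff_meas hd v ξ
  have hWsub : ∀ E ∈ W, 0 < E ∧ E < 4 * d := by
    intro E hE
    rw [hW, Set.mem_Icc] at hE
    constructor <;> linarith [hE.1, hE.2]
  -- integrability
  have hgi : IntervalIntegrable (fun E : ℝ => g0 d E / Real.pi) volume 0 (4 * d) :=
    ((g0_cont hd).div_const _).intervalIntegrable _ _
  have hfi : IntervalIntegrable (fun E : ℝ => ff d v ξ E) volume 0 (4 * d) := by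
    refine hgi.mono_fun' hfm.aestronglyMeasurable ?_
    rw [Set.uIoc_of_le (by positivity)]
    have h4 : ∀ᵐ E ∂(volume.restrict (Set.Ioc (0 : ℝ) (4 * (d : ℝ)))), E ≠ 4 * (d : ℝ) := by
      refine ae_restrict_of_ae ?_
      exact (measure_eq_zero_iff_ae_notMem.1 (Real.volume_singleton (a := 4 * (d : ℝ)))).mono
        fun E hE h => hE (by simp [h])
    filter_upwards [h4, ae_restrict_mem measurableSet_Ioc] with E hE1 hE2
    have hE3 : E < 4 * d := lt_of_le_of_ne hE2.2 hE1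
    obtain ⟨h5, h6⟩ := ff_nonneg hd hv0 ξ hE2.1 hE3
    rw [Real.norm_eq_abs, abs_of_nonneg h5]
    exact h6
  -- the pieces of the interval
  have hsplit : ∀ f : ℝ → ℝ, IntervalIntegrable f volume 0 (4 * d) →
      ∫ E in (0 : ℝ)..(4 * d), f E = (∫ E in (0 : ℝ)..δ, f E) + (∫ E in W, f E) +
        ∫ E in (4 * (d : ℝ) - δ)..(4 * (d : ℝ)), f E := by
    intro f hf
    have i1 : IntervalIntegrable f volume 0 δ :=
      hf.mono_set (by rw [Set.uIcc_of_le hδ0.le, Set.uIcc_of_le (by positivity)]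
                      exact Set.Icc_subset_Icc_right (by linarith))
    have i2 : IntervalIntegrable f volume δ (4 * d - δ) :=
      hf.mono_set (by rw [Set.uIcc_of_le (by linarith), Set.uIcc_of_le (by positivity)]
                      exact Set.Icc_subset_Icc (by linarith) (by linarith))
    have i3 : IntervalIntegrable f volume (4 * d - δ) (4 * d) :=
      hf.mono_set (by rw [Set.uIcc_of_le (by linarith), Set.uIcc_of_le (by positivity)]
                      exact Set.Icc_subset_Icc_left (by linarith))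
    rw [← intervalIntegral.integral_add_adjacent_intervals (i1.trans i2) i3,
      ← intervalIntegral.integral_add_adjacent_intervals i1 i2,
      intervalIntegral.integral_of_le (by linarith : δ ≤ 4 * d - δ), ← integral_Icc_eq_integral_Ioc]
  have hsmall : ∀ f : ℝ → ℝ, IntervalIntegrable f volume 0 (4 * d) →
      (∀ E : ℝ, 0 < E → E < 4 * d → 0 ≤ f E ∧ f E ≤ g0 d E / Real.pi) →
      0 ≤ (∫ E in (0 : ℝ)..δ, f E) + ∫ E in (4 * (d : ℝ) - δ)..(4 * (d : ℝ)), f E ∧
      (∫ E in (0 : ℝ)..δ, f E) + ∫ E in (4 * (d : ℝ) - δ)..(4 * (d : ℝ)), f E ≤ e := by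
    intro f hf hfb
    have i1 : IntervalIntegrable f volume 0 δ :=
      hf.mono_set (by rw [Set.uIcc_of_le hδ0.le, Set.uIcc_of_le (by positivity)]
                      exact Set.Icc_subset_Icc_right (by linarith))
    have i3 : IntervalIntegrable f volume (4 * d - δ) (4 * d) :=
      hf.mono_set (by rw [Set.uIcc_of_le (by linarith), Set.uIcc_of_le (by positivity)]
                      exact Set.Icc_subset_Icc_left (by linarith))
    have hg : ∀ E, g0 d E / Real.pi ≤ C / Real.pi := fun E =>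
      div_le_div_of_nonneg_right (hC E) hpi.le
    have j1 : 0 ≤ ∫ E in (0 : ℝ)..δ, f E := by
      rw [intervalIntegral.integral_of_le hδ0.le]
      refine setIntegral_nonneg measurableSet_Ioc fun E hE => (hfb E hE.1 ?_).1
      linarith [hE.2]
    have j2 : 0 ≤ ∫ E in (4 * (d : ℝ) - δ)..(4 * (d : ℝ)), f E := by
      rw [intervalIntegral.integral_of_le (by linarith), integral_Ioc_eq_integral_Ioo]
      refine setIntegral_nonneg measurableSet_Ioo fun E hE => (hfb E ?_ hE.2).1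
      linarith [hE.1]
    have j3 : ∫ E in (0 : ℝ)..δ, f E ≤ C / Real.pi * δ := by
      have := intervalIntegral.integral_mono_on_of_le_Ioo hδ0.le i1
        (intervalIntegrable_const (c := C / Real.pi)) fun E hE =>
          (hfb E hE.1 (by linarith [hE.2])).2.trans (hg E)
      rw [intervalIntegral.integral_const, smul_eq_mul, sub_zero] at this
      linarith
    have j4 : ∫ E in (4 * (d : ℝ) - δ)..(4 * (d : ℝ)), f E ≤ C / Real.pi * δ := by
      have := intervalIntegral.integral_mono_on_of_le_Ioo (by linarith : 4 * (d : ℝ) - δ ≤ 4 * d) i3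
        (intervalIntegrable_const (c := C / Real.pi)) fun E hE =>
          (hfb E (by linarith [hE.1]) hE.2).2.trans (hg E)
      rw [intervalIntegral.integral_const, smul_eq_mul] at this
      have e1 : 4 * (d : ℝ) - (4 * d - δ) = δ := by ring
      rw [e1] at this
      linarith
    have j5 : C / Real.pi * δ + C / Real.pi * δ = 2 * C * δ / Real.pi := by ring
    exact ⟨by linarith, by linarith⟩
  have hgpos : ∀ E : ℝ, 0 < E → E < 4 * d → 0 ≤ g0 d E / Real.pi ∧ g0 d E / Real.pi ≤ g0 d E / Real.pi :=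
    fun E h2 h3 => ⟨(div_pos (pos_E hd hv0 h2 h3).1 hpi).le, le_rfl⟩
  have hgone : ∫ E in (0 : ℝ)..(4 * d), g0 d E / Real.pi = 1 := by
    rw [intervalIntegral.integral_div, g0_int hd, div_self hpi.ne']
  obtain ⟨a1, a2⟩ := hsmall _ hgi hgpos
  have a3 := hsplit _ hgi
  obtain ⟨b1, b2⟩ := hsmall _ hfi fun E h2 h3 => ff_nonneg hd hv0 ξ h2 h3
  have b3 := hsplit _ hfi
  -- integrable on W
  have hgW : IntegrableOn (fun E => g0 d E / Real.pi) W :=
    ((g0_cont hd).div_const _).integrableOn_Icc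
  have hfW : IntegrableOn (fun E => ff d v ξ E) W := by
    refine Integrable.mono' hgW hfm.aestronglyMeasurable ?_
    filter_upwards [ae_restrict_mem hWm] with E hE
    obtain ⟨h2, h3⟩ := hWsub E hE
    obtain ⟨h5, h6⟩ := ff_nonneg hd hv0 ξ h2 h3
    rw [Real.norm_eq_abs, abs_of_nonneg h5]
    exact h6
  have hvolR : (volume W).toReal ≤ 4 * d := by
    rw [hvol, ENNReal.toReal_ofReal (by linarith)]
    linarith
  have hcW : IntegrableOn (fun _ : ℝ => e / (4 * d)) W := by
    refine integrableOn_const ?_ ?_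
    · rw [hvol]
      exact ENNReal.ofReal_ne_top
    · simp
  have hconst : ∫ _E in W, e / (4 * (d : ℝ)) ≤ e := by
    rw [setIntegral_const, smul_eq_mul, Measure.real]
    calc (volume W).toReal * (e / (4 * d)) ≤ 4 * d * (e / (4 * d)) := by gcongr
      _ = e := by field_simp
  have hconst0 : 0 ≤ ∫ _E in W, e / (4 * (d : ℝ)) := by
    refine setIntegral_nonneg hWm fun _ _ => ?_
    positivity
  -- the two-sided bound of a density on W
  have hlow : ∀ (u : ℝ → ℝ≥0∞) (f : ℝ → ℝ), IntegrableOn f W → (∀ E ∈ W, 0 ≤ f E) →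
      (∀ E ∈ W, u E ≠ ⊤ ∧ |(u E).toReal - f E| ≤ e / (4 * d)) →
      ENNReal.ofReal ((∫ E in W, f E) - e) ≤ ∫⁻ E in W, u E ∧
      ∫⁻ E in W, u E ≤ ENNReal.ofReal ((∫ E in W, f E) + e) := by
    intro u f hf hf0 hu
    constructor
    · calc ENNReal.ofReal ((∫ E in W, f E) - e)
          ≤ ENNReal.ofReal (∫ E in W, (f E - e / (4 * d))) := by
            apply ENNReal.ofReal_le_ofReal
            rw [integral_sub hf hcW]
            linarith
        _ ≤ ENNReal.ofReal (∫ E in W, max (f E - e / (4 * d)) 0) := by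
            apply ENNReal.ofReal_le_ofReal
            have hi := hf.sub hcW
            exact integral_mono hi (hi.sup (integrable_zero _ _ _)) fun E => le_max_left _ _
        _ = ∫⁻ E in W, ENNReal.ofReal (max (f E - e / (4 * d)) 0) := by
            exact ofReal_integral_eq_lintegral_ofReal (f := fun E => max (f E - e / (4 * d)) 0)
              ((hf.sub hcW).sup (integrable_zero _ _ _))
              (Filter.Eventually.of_forall fun E => le_max_right _ _)
        _ ≤ ∫⁻ E in W, u E := by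
            refine setLIntegral_mono' hWm fun E hE => ?_
            obtain ⟨h2, h3⟩ := hu E hE
            rw [← ENNReal.ofReal_toReal h2]
            apply ENNReal.ofReal_le_ofReal
            refine max_le ?_ ENNReal.toReal_nonneg
            linarith [(abs_le.1 h3).1]
    · calc ∫⁻ E in W, u E ≤ ∫⁻ E in W, ENNReal.ofReal (f E + e / (4 * d)) := by
            refine setLIntegral_mono' hWm fun E hE => ?_
            obtain ⟨h2, h3⟩ := hu E hE
            rw [← ENNReal.ofReal_toReal h2]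
            apply ENNReal.ofReal_le_ofReal
            linarith [(abs_le.1 h3).2]
        _ = ENNReal.ofReal (∫ E in W, (f E + e / (4 * d))) := by
            refine (ofReal_integral_eq_lintegral_ofReal (f := fun E => f E + e / (4 * d))
              (hf.add hcW) ?_).symm
            filter_upwards [ae_restrict_mem hWm] with E hE
            have := hf0 E hE
            change 0 ≤ f E + e / (4 * d)
            positivity
        _ ≤ ENNReal.ofReal ((∫ E in W, f E) + e) := by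
            apply ENNReal.ofReal_le_ofReal
            rw [integral_add hf hcW]
            linarith
  obtain ⟨c1, c2⟩ := hlow (fun E => wE d μ M lam (fun _ => 1) T E) (fun E => g0 d E / Real.pi) hgW
    (fun E hE => (hgpos E (hWsub E hE).1 (hWsub E hE).2).1) fun E hE =>
      ⟨(hw' E hE.1 hE.2).1 _ fun _ => ⟨zero_le_one, one_le_two⟩, (hw' E hE.1 hE.2).2.1⟩
  obtain ⟨d1, d2⟩ := hlow (fun E => wE d μ M lam w T E) (fun E => ff d v ξ E) hfW
    (fun E hE => (ff_nonneg hd hv0 ξ (hWsub E hE).1 (hWsub E hE).2).1) fun E hE =>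
      ⟨(hw' E hE.1 hE.2).1 _ hw2, (hw' E hE.1 hE.2).2.2 ξ hξ⟩
  -- outside W
  have hone : (∫⁻ E in W, wE d μ M lam (fun _ => 1) T E) +
      (∫⁻ E in Wᶜ, wE d μ M lam (fun _ => 1) T E) = 1 := by
    rw [lintegral_add_compl _ hWm, ← average_eq hM hμ lam _ hTp]
    exact average_one hM hμ lam hTp
  have hout1 : ∫⁻ E in Wᶜ, wE d μ M lam (fun _ => 1) T E ≤ ENNReal.ofReal (2 * e) := by
    have h2 : ENNReal.ofReal (1 - 2 * e) ≤ ∫⁻ E in W, wE d μ M lam (fun _ => 1) T E := by
      refine le_trans (ENNReal.ofReal_le_ofReal ?_) c1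
      linarith
    have h3 : (1 : ℝ≥0∞) ≤ ENNReal.ofReal (1 - 2 * e) + ENNReal.ofReal (2 * e) := by
      rw [← ENNReal.ofReal_one]
      have h5 : (1 : ℝ) = (1 - 2 * e) + 2 * e := by ring
      calc ENNReal.ofReal 1 = ENNReal.ofReal ((1 - 2 * e) + 2 * e) := by rw [← h5]
        _ ≤ _ := ENNReal.ofReal_add_le
    have h4 : ∫⁻ E in W, wE d μ M lam (fun _ => 1) T E ≠ ⊤ := by
      intro h
      rw [h, top_add] at hone
      exact ENNReal.top_ne_one hone
    rw [← hone] at h3
    have h6 : (∫⁻ E in W, wE d μ M lam (fun _ => 1) T E) +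
        (∫⁻ E in Wᶜ, wE d μ M lam (fun _ => 1) T E) ≤
        (∫⁻ E in W, wE d μ M lam (fun _ => 1) T E) + ENNReal.ofReal (2 * e) :=
      h3.trans (by gcongr)
    exact (ENNReal.add_le_add_iff_left h4).1 h6
  have hout : ∫⁻ E in Wᶜ, wE d μ M lam w T E ≤ ENNReal.ofReal (4 * e) := by
    calc ∫⁻ E in Wᶜ, wE d μ M lam w T E ≤
        ∫⁻ E in Wᶜ, ENNReal.ofReal 2 * wE d μ M lam (fun _ => 1) T E := by
          refine lintegral_mono fun E => ?_
          unfold wE
          rw [← ENNReal.tsum_mul_left]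
          refine ENNReal.tsum_le_tsum fun x => ?_
          rw [← mul_assoc, ← ENNReal.ofReal_mul (by norm_num)]
          gcongr
          rw [mul_one_div]
          exact div_le_div_of_nonneg_right (hw2 x).2 (by positivity)
      _ = ENNReal.ofReal 2 * ∫⁻ E in Wᶜ, wE d μ M lam (fun _ => 1) T E := by
          rw [lintegral_const_mul' _ _ ENNReal.ofReal_ne_top]
      _ ≤ ENNReal.ofReal 2 * ENNReal.ofReal (2 * e) := by gcongr
      _ = ENNReal.ofReal (4 * e) := by
          rw [← ENNReal.ofReal_mul (by norm_num)]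
          congr 1
          ring
  rw [average_eq hM hμ lam _ hTp, ← lintegral_add_compl _ hWm]
  unfold tgt
  constructor
  · calc ENNReal.ofReal ((∫ E in (0 : ℝ)..(4 * d), ff d v ξ E) - ε)
        ≤ ENNReal.ofReal ((∫ E in W, ff d v ξ E) - e) := by
          apply ENNReal.ofReal_le_ofReal
          linarith
      _ ≤ ∫⁻ E in W, wE d μ M lam w T E := d1
      _ ≤ _ := le_self_add
  · calc (∫⁻ E in W, wE d μ M lam w T E) + ∫⁻ E in Wᶜ, wE d μ M lam w T E
        ≤ ENNReal.ofReal ((∫ E in W, ff d v ξ E) + e) + ENNReal.ofReal (4 * e) := by gcongr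
      _ = ENNReal.ofReal ((∫ E in W, ff d v ξ E) + e + 4 * e) := by
          have : 0 ≤ ∫ E in W, ff d v ξ E := setIntegral_nonneg hWm fun E hE =>
            (ff_nonneg hd hv0 ξ (hWsub E hE).1 (hWsub E hE).2).1
          exact (ENNReal.ofReal_add (by linarith) (by positivity)).symm
      _ ≤ ENNReal.ofReal ((∫ E in (0 : ℝ)..(4 * d), ff d v ξ E) + ε) := by
          apply ENNReal.ofReal_le_ofReal
          linarith

/-- `tgt` in the form of the final statement. -/
theorem tgt_eq {d : ℕ} (hd : 3 ≤ d) {v : ℝ} (hv0 : 0 < v) (ξ : Fin d → ℝ) :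
    tgt d v ξ = 1 - ∫ E in (0 : ℝ)..(4 * d), g0 d E / Real.pi / (1 + DD d v E * x2 ξ) := by
  have hpi := Real.pi_pos
  have hgi : IntervalIntegrable (fun E : ℝ => g0 d E / Real.pi) volume 0 (4 * d) :=
    ((g0_cont hd).div_const _).intervalIntegrable _ _
  have hfm := ff_meas hd v ξ
  have hfi : IntervalIntegrable (fun E : ℝ => ff d v ξ E) volume 0 (4 * d) := by
    refine hgi.mono_fun' hfm.aestronglyMeasurable ?_
    rw [Set.uIoc_of_le (by positivity)]
    have h4 : ∀ᵐ E ∂(volume.restrict (Set.Ioc (0 : ℝ) (4 * (d : ℝ)))), E ≠ 4 * (d : ℝ) := by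
      refine ae_restrict_of_ae ?_
      exact (measure_eq_zero_iff_ae_notMem.1 (Real.volume_singleton (a := 4 * (d : ℝ)))).mono
        fun E hE h => hE (by simp [h])
    filter_upwards [h4, ae_restrict_mem measurableSet_Ioc] with E hE1 hE2
    have hE3 : E < 4 * d := lt_of_le_of_ne hE2.2 hE1
    obtain ⟨h5, h6⟩ := ff_nonneg hd hv0 ξ hE2.1 hE3
    rw [Real.norm_eq_abs, abs_of_nonneg h5]
    exact h6
  have hgone : ∫ E in (0 : ℝ)..(4 * d), g0 d E / Real.pi = 1 := by
    rw [intervalIntegral.integral_div, g0_int hd, div_self hpi.ne']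
  have h1 : ∀ E, g0 d E / Real.pi / (1 + DD d v E * x2 ξ) = g0 d E / Real.pi - ff d v ξ E := by
    intro E
    unfold ff
    ring
  simp only [h1]
  rw [intervalIntegral.integral_sub hgi hfi, hgone]
  unfold tgt
  ring

end Pool.Agent.QDF
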