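import Pool.Agent.QDF.TorG
import Pool.Agent.BK.Lift
import Pool.Agent.Helper3.Anderson.FinalA

/-! QDF/FreeZ. The free Green function on `ℤ^d` is `Ph`.

`lift` (`BK/Lift.lean`) with `V = 0`, `y = 0`: `‖green 0 z x 0 - Gr H0 0 z (prj n x) 0‖ ≤
8d/γ²(2n+3)^d e^(-γn/8) → 0` as `n → ∞` (`γ = Im z`; `fun r => V (y + emb r)` is `0`), and `Gr_ph`
(`prj n (Pi.single j m) = Pi.single j m`; `Gr_symm` and `Gr0_add`/`Gr0_neg` to bring
`Gr (single j m) 0` to `Gr 0 (single j m)`): the distance to `Ph d m z` is `≤ C/((2n+1)γ²) → 0`.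
`Green_eq_green` (`Helper3/Anderson/FinalA.lean`). The limit `η ↓ 0`: `Ph_holder`. -/

open MeasureTheory Finset Matrix Pool.Agent.BK Pool.Agent.BK3 Pool.Agent.Helper3.Anderson Filter
open scoped Topology

noncomputable section

namespace Pool.Agent.QDF

private theorem err_tendsto (d : ℕ) (A : ℝ) {γ : ℝ} (hγ : 0 < γ) :
    Tendsto (fun n : ℕ => A * (2 * (n : ℝ) + 3) ^ d * Real.exp (-(γ / 8 * n))) atTop (𝓝 0) := by
  have hX : Tendsto (fun n : ℕ => γ / 16 * (2 * (n : ℝ) + 3)) atTop atTop := by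
    refine Tendsto.const_mul_atTop (by positivity) ?_
    refine tendsto_atTop_add_const_right _ _ ?_
    exact Tendsto.const_mul_atTop two_pos tendsto_natCast_atTop_atTop
  have h1 := (Real.tendsto_pow_mul_exp_neg_atTop_nhds_zero d).comp hX
  have h2 := h1.const_mul (A * (16 / γ) ^ d * Real.exp (3 * γ / 16))
  rw [mul_zero] at h2
  refine h2.congr fun n => ?_
  simp only [Function.comp]
  have h3 : Real.exp (-(γ / 8 * n)) =
      Real.exp (3 * γ / 16) * Real.exp (-(γ / 16 * (2 * (n : ℝ) + 3))) := by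
    rw [← Real.exp_add]
    congr 1
    ring
  have h4 : (2 * (n : ℝ) + 3) ^ d = (16 / γ) ^ d * (γ / 16 * (2 * (n : ℝ) + 3)) ^ d := by
    rw [← mul_pow]
    congr 1
    field_simp
  rw [h3, h4]
  ring

theorem green_free {d : ℕ} (hd : 3 ≤ d) {z : ℂ} (hz : 0 < z.im) (hz1 : z.im ≤ 1) (j : Fin d)
    (m : ℤ) : Green (0 : Site d → ℝ) z (Pi.single j m) 0 = Ph d m z := by
  have hV : Bdd (0 : Site d → ℝ) := ⟨0, fun x => by simp⟩
  rw [Green_eq_green _ hV hz]
  obtain ⟨C, hC, hG⟩ := Gr_ph hd m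
  have hb : ∀ᶠ n : ℕ in atTop, ‖green (0 : Site d → ℝ) z (Pi.single j m) 0 - Ph d m z‖ ≤
      8 * d / z.im ^ 2 * (2 * n + 3) ^ d * Real.exp (-(z.im / 8 * n)) +
        C / ((2 * n + 1) * z.im ^ 2) := by
    filter_upwards [eventually_ge_atTop (max 1 m.natAbs)] with n hn
    have hn1 : 1 ≤ n := (le_max_left _ _).trans hn
    have hnm : |m| ≤ (n : ℤ) := by
      have : m.natAbs ≤ n := (le_max_right _ _).trans hn
      rw [Int.abs_eq_natAbs]
      exact_mod_cast this
    have h1 := lift hn1 (0 : Site d → ℝ) hV hz hz1 0 (Pi.single j m) (by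
      intro l
      rcases eq_or_ne l j with h | h
      · subst h
        rwa [Pi.single_eq_same]
      · rw [Pi.single_eq_of_ne h]
        simp)
    have h2 : (fun r : Tor d n => (0 : Site d → ℝ) (0 + emb r)) = 0 := by
      funext r
      rfl
    have h3 : prj n (Pi.single j m : Site d) =
        (Pi.single j (m : ZMod (2 * n + 1)) : Tor d n) := by
      funext l
      rcases eq_or_ne l j with h | h
      · subst h
        simp [prj]
      · simp [prj, Pi.single_eq_of_ne h]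
    rw [h2, h3, zero_add, Gr_symm (RS_H0 d n) 0 hz.ne'] at h1
    have h4 := hG n z j hn1 hnm hz hz1
    calc _ ≤ ‖green (0 : Site d → ℝ) z (Pi.single j m) 0 -
          Gr (H0 d n) 0 z 0 (Pi.single j (m : ZMod (2 * n + 1)))‖ +
          ‖Gr (H0 d n) 0 z 0 (Pi.single j (m : ZMod (2 * n + 1))) - Ph d m z‖ :=
          norm_sub_le_norm_sub_add_norm_sub _ _ _
      _ ≤ _ := add_le_add h1 h4
  have ht : Tendsto (fun n : ℕ => 8 * d / z.im ^ 2 * (2 * (n : ℝ) + 3) ^ d *
      Real.exp (-(z.im / 8 * n)) + C / ((2 * n + 1) * z.im ^ 2)) atTop (𝓝 (0 + 0)) := by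
    refine (err_tendsto d _ hz).add ?_
    refine Tendsto.div_atTop tendsto_const_nhds ?_
    refine Tendsto.atTop_mul_const (by positivity) ?_
    refine tendsto_atTop_add_const_right _ _ ?_
    exact Tendsto.const_mul_atTop two_pos tendsto_natCast_atTop_atTop
  rw [add_zero] at ht
  have h0 := ge_of_tendsto ht hb
  exact sub_eq_zero.1 (norm_le_zero_iff.1 h0)

theorem green_lim {d : ℕ} (hd : 3 ≤ d) (E : ℝ) (j : Fin d) (m : ℤ) :
    Tendsto (fun η : ℝ => Green (0 : Site d → ℝ) (E + η * Complex.I) (Pi.single j m) 0)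
      (𝓝[>] 0) (𝓝 (Ph d m E)) := by
  obtain ⟨C, hC, hH⟩ := Ph_holder hd m
  have h1 : ∀ᶠ η : ℝ in 𝓝[>] 0,
      Ph d m (E + η * Complex.I) =
        Green (0 : Site d → ℝ) (E + η * Complex.I) (Pi.single j m) 0 := by
    filter_upwards [Ioc_mem_nhdsGT (zero_lt_one (α := ℝ))] with η hη
    rw [green_free hd (by simpa using hη.1) (by simpa using hη.2)]
  refine Tendsto.congr' h1 ?_
  rw [tendsto_iff_norm_sub_tendsto_zero]
  have h2 : Tendsto (fun η : ℝ => C * |η| ^ (1 / 4 : ℝ)) (𝓝[>] 0) (𝓝 0) := by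
    have h3 : Tendsto (fun η : ℝ => C * |η| ^ (1 / 4 : ℝ)) (𝓝 0) (𝓝 (C * |(0 : ℝ)| ^ (1 / 4 : ℝ))) := by
      refine Tendsto.const_mul _ ?_
      exact (continuous_abs.tendsto (0 : ℝ)).rpow_const (Or.inr (by norm_num))
    rw [abs_zero, Real.zero_rpow (by norm_num), mul_zero] at h3
    exact h3.mono_left nhdsWithin_le_nhds
  refine squeeze_zero' (Eventually.of_forall fun _ => norm_nonneg _) ?_ h2
  filter_upwards [self_mem_nhdsWithin] with η hη
  have hη0 : 0 < η := hη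
  have h4 := hH (E + η * Complex.I) E (by simpa using hη0.le) (by simp)
  have h5 : ‖((E : ℂ) + η * Complex.I) - E‖ = |η| := by
    rw [add_sub_cancel_left, norm_mul, Complex.norm_I, mul_one, Complex.norm_real,
      Real.norm_eq_abs]
  rwa [h5] at h4

end Pool.Agent.QDF
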