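import Pool.Agent.QDF.TorG
import Pool.Agent.BK3.Grid
import Pool.Agent.BK3.MeanG
import Pool.Agent.BK3.ZF

/-! QDF/GbC. Convergence of the averaged diagonal to the free boundary value.

Let `π ∈ c.PT lam1` (so `π ∈ c.S ν lam1` by `grid`), `g = gb ν c.d π`, `ζ = zt ν s2 c.d π = z + λ²s2 g`,
`γ = Im ζ = η + λ²s2 Im g`. `meang`: `‖g - MM 0 0‖ ≤ λ^(1-2y-2e)` (exponent `≥ 96e > 0` by `hc.room`,
`hc.A2`), `‖g‖ ≤ λ^(-2t)`, `t = e/1000`. `zfacts`: `γ ≤ c.κ ≤ 1`, `γ^(-10) ≤ 2n+1`, `0 < γ`,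
`γ ≥ κ s2/4 λ²`. `MM ν s2 d n lam z 0 0 = Gr (H0 d n) 0 ζ 0 0` by definition and `Gr_ph` (`m = 0`,
`Pi.single j ((0:ℤ) : ZMod _) = 0`): `‖MM 0 0 - Ph d 0 ζ‖ ≤ C/((2n+1)γ²) ≤ Cγ^8`, and
`γ ≤ η + λ²s2‖g‖ ≤ λ^(2+s) + s2 λ^(2-2t) → 0`.
`‖ζ - E0‖ ≤ |E0 - π.E| + η + λ²s2‖g‖ ≤ bλ + λ^(2+s) + s2 λ^(2-2t) → 0`, so `Ph_holder` gives the
last two claims and the first. `γ/λ² = η/λ² + s2 Im g`, `η/λ² ≤ λ^s → 0`.
Tools: `Sm.lean` (`sm_one`: powers of λ are eventually small), `teq_and`, `teq_sm` in `BK3/TEq.lean`.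
-/

open MeasureTheory Finset Matrix Pool.Agent.BK Pool.Agent.BK3

noncomputable section

namespace Pool.Agent.QDF

private lemma gbc_small {C a ε : ℝ} (ha : 0 < a) (hε : 0 < ε) :
    ∃ l : ℝ, 0 < l ∧ l ≤ 1 ∧ ∀ lam : ℝ, 0 < lam → lam ≤ l → C * lam ^ a ≤ ε := by
  obtain ⟨l, h0, h1, h⟩ := sm_one (C / ε) ha
  refine ⟨l, h0, h1, fun lam hl hle => ?_⟩
  have h2 := h lam hl hle
  rw [div_mul_eq_mul_div, div_le_one hε] at h2
  exact h2

private theorem gbc_aux1 {s e : ℝ} (hs : 0 < s) (he : 0 < e) : 3 * e ≤ 4 * (1 + s) * e := by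
  have := mul_pos hs he
  have h : 4 * (1 + s) * e = 4 * e + 4 * (s * e) := by ring
  rw [h]
  linarith

private theorem gbc_aux2 {s e : ℝ} (hs : 0 < s) (he : 0 < e) :
    e + s * (3 * e) ≤ 4 * (1 + s) * e := by
  have := mul_pos hs he
  have h : 4 * (1 + s) * e = 4 * e + 4 * (s * e) := by ring
  have h' : s * (3 * e) = 3 * (s * e) := by ring
  rw [h, h']
  linarith

private theorem gbc_aux3 {s e : ℝ} (hs : 0 < s) (he : 0 < e) : e ≤ 4 * (1 + s) * e := by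
  have := mul_pos hs he
  have h : 4 * (1 + s) * e = 4 * e + 4 * (s * e) := by ring
  rw [h]
  linarith

theorem gb_conv {ν : Measure ℝ} {R s2 : ℝ} (hν : BLaw ν R s2) (c : Cx) (hc : c.Ok) {s b ε : ℝ}
    (hs : 0 < s) (hb : 0 ≤ b) (hε : 0 < ε) :
    ∃ lam1 : ℝ, 0 < lam1 ∧ lam1 ≤ 1 ∧ ∀ π ∈ c.PT lam1, π.eta ≤ π.lam ^ (2 + s) →
      ∀ E0 : ℝ, |E0 - π.E| ≤ b * π.lam →
        ‖gb ν c.d π - Ph c.d 0 E0‖ ≤ ε ∧
        |(zt ν s2 c.d π).im / π.lam ^ 2 - s2 * g0 c.d E0| ≤ ε ∧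
        ‖Ph c.d 0 (zt ν s2 c.d π) - Ph c.d 0 E0‖ ≤ ε ∧
        ‖Ph c.d 2 (zt ν s2 c.d π) - Ph c.d 2 E0‖ ≤ ε := by
  have hs2 := hν.s2_pos
  have hκ := hc.free.kap
  have hκ1 := hc.free.kap1
  have he := hc.e0
  have hyl := y_lt c hc
  have hy0 := hc.y0
  have hyd : c.y = c.y0 + c.e := rfl
  have htd : c.t = c.e / 1000 := rfl
  obtain ⟨lg, lg0, lg1, hgrid⟩ := grid hν c hc
  obtain ⟨lm, lm0, lm1, hmean⟩ := meang hν c hc
  obtain ⟨lz, lz0, lz1, hzf⟩ := zfacts hν c hc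
  obtain ⟨C1, hC1, hph⟩ := Gr_ph (d := c.d) hc.d3 0
  obtain ⟨C2, hC2, hho⟩ := Ph_holder (d := c.d) hc.d3 0
  obtain ⟨C3, hC3, hho2⟩ := Ph_holder (d := c.d) hc.d3 2
  set ε1 : ℝ := ε / (4 * (1 + s2)) with hε1
  have hε10 : 0 < ε1 := by positivity
  set K : ℝ := (b + 1 + s2) ^ (1 / 4 : ℝ) with hK
  have hK0 : 0 < K := Real.rpow_pos_of_pos (by positivity) _
  set a0 : ℝ := c.κ * s2 / 4 with ha0
  have ha00 : 0 < a0 := by positivity
  obtain ⟨l1, l10, l11, hl1⟩ := gbc_small (C := 1) (a := 96 * c.e) (by positivity) hε10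
  obtain ⟨l2, l20, l21, hl2⟩ := gbc_small (C := C1 / a0 ^ 2) (a := 36) (by norm_num) hε10
  obtain ⟨l3, l30, l31, hl3⟩ := gbc_small (C := (C2 + C3) * K) (a := 1 / 4) (by norm_num) hε10
  obtain ⟨l4, l40, l41, hl4⟩ := gbc_small (C := 1) (a := s) hs hε10
  set l : ℝ := min (1 / 2) (min lg (min lm (min lz (min l1 (min l2 (min l3 l4)))))) with hl
  have hlh : l ≤ 1 / 2 := min_le_left _ _
  have hr1 : l ≤ min lg (min lm (min lz (min l1 (min l2 (min l3 l4))))) := min_le_right _ _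
  have hllg : l ≤ lg := hr1.trans (min_le_left _ _)
  have hr2 := hr1.trans (min_le_right _ _)
  have hllm : l ≤ lm := hr2.trans (min_le_left _ _)
  have hr3 := hr2.trans (min_le_right _ _)
  have hllz : l ≤ lz := hr3.trans (min_le_left _ _)
  have hr4 := hr3.trans (min_le_right _ _)
  have hll1 : l ≤ l1 := hr4.trans (min_le_left _ _)
  have hr5 := hr4.trans (min_le_right _ _)
  have hll2 : l ≤ l2 := hr5.trans (min_le_left _ _)
  have hr6 := hr5.trans (min_le_right _ _)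
  have hll3 : l ≤ l3 := hr6.trans (min_le_left _ _)
  have hll4 : l ≤ l4 := hr6.trans (min_le_right _ _)
  refine ⟨l, by positivity, hlh.trans (by norm_num), ?_⟩
  intro π hπ hη E0 hE0
  have hS0 := hgrid π (c.PT_mono hllg hπ)
  have hSm : π ∈ c.S ν lm := ⟨c.PT_mono hllm hπ, hS0.2⟩
  have hSz : π ∈ c.S ν lz := ⟨c.PT_mono hllz hπ, hS0.2⟩
  obtain ⟨hg1, hg2, hg3⟩ := hmean π hSm
  have hZ := hzf π hSz
  have hL := hπ.1
  have hLl := hπ.2.1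
  have hL1 : π.lam ≤ 1 := hLl.trans (hlh.trans (by norm_num))
  have hLh : π.lam ≤ 1 / 2 := hLl.trans hlh
  have hbig := hπ.2.2.1
  have s1 := hl1 π.lam hL (hLl.trans hll1)
  have s2' := hl2 π.lam hL (hLl.trans hll2)
  have s3 := hl3 π.lam hL (hLl.trans hll3)
  have s4 := hl4 π.lam hL (hLl.trans hll4)
  rw [one_mul] at s1 s4
  -- the size of the torus
  have hn0 : 0 < π.n := by
    have h1 : π.lam ^ (-(40 : ℝ)) ≥ (1 / 2 : ℝ) ^ (-(40 : ℝ)) :=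
      Real.rpow_le_rpow_of_nonpos hL hLh (by norm_num)
    have h2 : (1 / 2 : ℝ) ^ (-(40 : ℝ)) = 2 ^ 40 := by
      rw [Real.rpow_neg (by norm_num), ← Real.inv_rpow (by norm_num)]
      norm_num
    rw [h2] at h1
    by_contra hcon
    have h3 : π.n = 0 := by omega
    rw [h3] at hbig
    norm_num at hbig h1
    linarith
  set g : ℂ := gb ν c.d π with hg
  set ζ : ℂ := zt ν s2 c.d π with hζ
  have hγ0 : 0 < ζ.im := hZ.e0.trans_le hZ.im_eta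
  have hγ1 : ζ.im ≤ 1 := hZ.im_hi.trans hκ1
  have hγlo : a0 * π.lam ^ 2 ≤ ζ.im := hZ.im_lo
  -- MM and Ph
  have hMP : ‖MM ν s2 c.d π.n π.lam π.z 0 0 - Ph c.d 0 ζ‖ ≤ ε1 := by
    have hd0 : 0 < c.d := by have := hc.d3; omega
    have h1 := hph π.n ζ ⟨0, hd0⟩ hn0 (by simp) hγ0 hγ1
    rw [Int.cast_zero, Pi.single_zero] at h1
    have h2 : MM ν s2 c.d π.n π.lam π.z 0 0 = Gr (H0 c.d π.n) 0 ζ 0 0 := rfl
    rw [h2]
    refine h1.trans (le_trans ?_ s2')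
    have h3 : a0 ^ 2 * π.lam ^ (-(36 : ℝ)) ≤ (2 * (π.n : ℝ) + 1) * ζ.im ^ 2 := by
      calc a0 ^ 2 * π.lam ^ (-(36 : ℝ)) = π.lam ^ (-(40 : ℝ)) * (a0 * π.lam ^ 2) ^ 2 := by
            have e1 : π.lam ^ (-(36 : ℝ)) = π.lam ^ (-(40 : ℝ)) * π.lam ^ 4 := by
              rw [← Real.rpow_natCast, ← Real.rpow_add hL]
              norm_num
            rw [e1]
            ring
        _ ≤ (2 * (π.n : ℝ) + 1) * ζ.im ^ 2 := by
            refine mul_le_mul hbig (pow_le_pow_left₀ (by positivity) hγlo 2) (by positivity)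
              (by positivity)
    calc C1 / ((2 * (π.n : ℝ) + 1) * ζ.im ^ 2) ≤ C1 / (a0 ^ 2 * π.lam ^ (-(36 : ℝ))) := by
          refine div_le_div_of_nonneg_left hC1.le ?_ h3
          have := rp_pos hL (-(36 : ℝ))
          positivity
      _ = C1 / a0 ^ 2 * π.lam ^ (36 : ℝ) := by
          rw [Real.rpow_neg hL.le]
          have := rp_pos hL (36 : ℝ)
          field_simp
  have hgM : ‖g - MM ν s2 c.d π.n π.lam π.z 0 0‖ ≤ ε1 := by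
    refine hg1.trans (le_trans ?_ s1)
    refine rp_anti hL hL1 ?_
    rw [hyd]
    linarith
  -- ζ and E0
  have hζeq : ζ = π.z + ((π.lam ^ 2 * s2 : ℝ) : ℂ) * g := rfl
  have hzE : π.z = (π.E : ℂ) + (π.eta : ℂ) * Complex.I := by
    apply Complex.ext <;> simp [Par.z]
  have hη0 := hZ.e0
  have hgt : π.lam ^ 2 * s2 * ‖g‖ ≤ s2 * π.lam := by
    have h1 : π.lam ^ 2 * ‖g‖ ≤ π.lam := by
      calc π.lam ^ 2 * ‖g‖ ≤ π.lam ^ 2 * π.lam ^ (-(2 * c.t)) :=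
            mul_le_mul_of_nonneg_left hg3 (by positivity)
        _ = π.lam ^ (2 - 2 * c.t) := by
            rw [← Real.rpow_natCast, ← Real.rpow_add hL]
            congr 1
        _ ≤ π.lam ^ (1 : ℝ) := rp_anti hL hL1 (by rw [htd]; linarith)
        _ = π.lam := Real.rpow_one _
    calc π.lam ^ 2 * s2 * ‖g‖ = s2 * (π.lam ^ 2 * ‖g‖) := by ring
      _ ≤ s2 * π.lam := mul_le_mul_of_nonneg_left h1 hs2.le
  have hηl : π.eta ≤ π.lam := by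
    calc π.eta ≤ π.lam ^ (2 + s) := hη
      _ ≤ π.lam ^ (1 : ℝ) := rp_anti hL hL1 (by linarith)
      _ = π.lam := Real.rpow_one _
  have hζE : ‖ζ - (E0 : ℂ)‖ ≤ (b + 1 + s2) * π.lam := by
    have h1 : ζ - (E0 : ℂ) = ((π.E - E0 : ℝ) : ℂ) + ((π.eta : ℝ) : ℂ) * Complex.I +
        ((π.lam ^ 2 * s2 : ℝ) : ℂ) * g := by
      rw [hζeq, hzE]
      push_cast
      ring
    rw [h1]
    refine (norm_add₃_le).trans ?_
    have h2 : ‖((π.E - E0 : ℝ) : ℂ)‖ ≤ b * π.lam := by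
      rw [Complex.norm_real, Real.norm_eq_abs, abs_sub_comm]
      exact hE0
    have h3 : ‖((π.eta : ℝ) : ℂ) * Complex.I‖ ≤ π.lam := by
      rw [norm_mul, Complex.norm_I, mul_one, Complex.norm_real, Real.norm_eq_abs,
        abs_of_pos hη0]
      exact hηl
    have h4 : ‖((π.lam ^ 2 * s2 : ℝ) : ℂ) * g‖ ≤ s2 * π.lam := by
      rw [norm_mul, Complex.norm_real, Real.norm_eq_abs, abs_of_nonneg (by positivity)]
      exact hgt
    linarith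
  have hpow : ‖ζ - (E0 : ℂ)‖ ^ (1 / 4 : ℝ) ≤ K * π.lam ^ (1 / 4 : ℝ) := by
    calc ‖ζ - (E0 : ℂ)‖ ^ (1 / 4 : ℝ) ≤ ((b + 1 + s2) * π.lam) ^ (1 / 4 : ℝ) :=
          Real.rpow_le_rpow (norm_nonneg _) hζE (by norm_num)
      _ = K * π.lam ^ (1 / 4 : ℝ) := Real.mul_rpow (by positivity) hL.le
  have hp14 := rp_pos hL (1 / 4 : ℝ)
  have hPE : ‖Ph c.d 0 ζ - Ph c.d 0 (E0 : ℂ)‖ ≤ ε1 := by
    refine (hho ζ (E0 : ℂ) hγ0.le (by simp)).trans (le_trans ?_ s3)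
    calc C2 * ‖ζ - (E0 : ℂ)‖ ^ (1 / 4 : ℝ) ≤ C2 * (K * π.lam ^ (1 / 4 : ℝ)) :=
          mul_le_mul_of_nonneg_left hpow hC2.le
      _ ≤ (C2 + C3) * (K * π.lam ^ (1 / 4 : ℝ)) :=
          mul_le_mul_of_nonneg_right (by linarith) (by positivity)
      _ = (C2 + C3) * K * π.lam ^ (1 / 4 : ℝ) := by ring
  have hPE2 : ‖Ph c.d 2 ζ - Ph c.d 2 (E0 : ℂ)‖ ≤ ε1 := by
    refine (hho2 ζ (E0 : ℂ) hγ0.le (by simp)).trans (le_trans ?_ s3)
    calc C3 * ‖ζ - (E0 : ℂ)‖ ^ (1 / 4 : ℝ) ≤ C3 * (K * π.lam ^ (1 / 4 : ℝ)) :=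
          mul_le_mul_of_nonneg_left hpow hC3.le
      _ ≤ (C2 + C3) * (K * π.lam ^ (1 / 4 : ℝ)) :=
          mul_le_mul_of_nonneg_right (by linarith) (by positivity)
      _ = (C2 + C3) * K * π.lam ^ (1 / 4 : ℝ) := by ring
  have hεs : ε = 4 * (1 + s2) * ε1 := by
    rw [hε1]
    field_simp
  have hprod : 0 ≤ s2 * ε1 := by positivity
  have hgE : ‖g - Ph c.d 0 (E0 : ℂ)‖ ≤ 3 * ε1 := by
    have h1 : g - Ph c.d 0 (E0 : ℂ) = (g - MM ν s2 c.d π.n π.lam π.z 0 0) +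
        (MM ν s2 c.d π.n π.lam π.z 0 0 - Ph c.d 0 ζ) + (Ph c.d 0 ζ - Ph c.d 0 (E0 : ℂ)) := by
      ring
    rw [h1]
    refine (norm_add₃_le).trans ?_
    linarith
  refine ⟨?_, ?_, ?_, ?_⟩
  · rw [hεs]
    exact hgE.trans (gbc_aux1 hs2 hε10)
  · have h1 : ζ.im = π.eta + π.lam ^ 2 * s2 * g.im := by
      rw [hζeq, Complex.add_im, Complex.im_ofReal_mul]
      rfl
    have h2 : ζ.im / π.lam ^ 2 - s2 * g0 c.d E0 =
        π.eta / π.lam ^ 2 + s2 * (g.im - (Ph c.d 0 (E0 : ℂ)).im) := by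
      rw [h1]
      unfold g0
      field_simp
      ring
    rw [h2]
    refine (abs_add_le _ _).trans ?_
    have h3 : |π.eta / π.lam ^ 2| ≤ ε1 := by
      rw [abs_of_pos (by positivity)]
      refine le_trans ?_ s4
      rw [div_le_iff₀ (by positivity)]
      calc π.eta ≤ π.lam ^ (2 + s) := hη
        _ = π.lam ^ s * π.lam ^ 2 := by
            rw [← Real.rpow_natCast, ← Real.rpow_add hL]
            congr 1
            push_cast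
            ring
    have h4 : |s2 * (g.im - (Ph c.d 0 (E0 : ℂ)).im)| ≤ s2 * (3 * ε1) := by
      rw [abs_mul, abs_of_pos hs2]
      refine mul_le_mul_of_nonneg_left ?_ hs2.le
      have := Complex.abs_im_le_norm (g - Ph c.d 0 (E0 : ℂ))
      rw [Complex.sub_im] at this
      exact this.trans hgE
    rw [hεs]
    exact (add_le_add h3 h4).trans (gbc_aux2 hs2 hε10)
  · rw [hεs]
    exact hPE.trans (gbc_aux3 hs2 hε10)
  · rw [hεs]
    exact hPE2.trans (gbc_aux3 hs2 hε10)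

end Pool.Agent.QDF
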