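import Pool.Agent.QDF.Defs

/-! QDF/KF. The free time kernel: continuity and the decay `(1+t)^(-3/2)`.

* `kf_cont`: `kf t m = (1/2π) • ∫_{-π}^{π} exp(i(mθ - t(2-2cos θ))) dθ` is continuous in `t`:
  `intervalIntegral.continuous_parametric_intervalIntegral_of_continuous'` (or dominated convergence;
  compare `ker2_F_der`/`ker2_F1_cont` in `BK/Ker2.lean`, or prove it is Lipschitz with constant `4`:
  the integrands at `t` and `t'` differ by at most `4|t-t'|`, `riemA_exp` in `BK/RiemA.lean`).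
* `kp_one`: `kf_one` in `BK/K4P.lean`.
* `kp_le`: by `kf_le` (`BK/K4P.lean`), for `t ≥ 1`:
  `‖kf t m‖ ≤ C t^(-1/4) (1 + |2t - |m||)^(-1/4)`. If `|m| ≤ t` then `1 + |2t-|m|| ≥ t`, so this is
  `≤ C t^(-1/2)`. If `|m| > t` it is `≤ C t^(-1/4) ≤ C (1+|m|) t^(-1/2)`. So for `t ≥ 1`
  `‖kf t m‖ ≤ C (1+|m|) t^(-1/2)`; with `‖kf‖ ≤ 1` for `t ≤ 1` we get
  `‖kf t m‖ ≤ C' (1+t)^(-1/2)` for all `t ≥ 0` (`C'` depends on `m`). The product of `kf t m` with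
  `d - 1 ≥ 2` factors `kf t 0`, each `≤ 1` and `≤ C'(1+t)^(-1/2)`, is `≤ C'' (1+t)^(-3/2)`. -/

open MeasureTheory Finset Matrix Pool.Agent.BK Pool.Agent.BK3

noncomputable section

namespace Pool.Agent.QDF

theorem kf_cont (m : ℤ) : Continuous fun t : ℝ => kf t m := by
  have h : Continuous fun t : ℝ => ∫ θ in (-Real.pi)..Real.pi,
      Complex.exp (Complex.I * ((m * θ - t * (2 - 2 * Real.cos θ) : ℝ) : ℂ)) := by
    apply intervalIntegral.continuous_parametric_intervalIntegral_of_continuous'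
    fun_prop
  exact h.const_smul (1 / (2 * Real.pi) : ℝ)

theorem kp_cont (d : ℕ) (m : ℤ) : Continuous (kp d m) := by
  unfold kp
  exact (kf_cont m).mul ((kf_cont 0).pow _)

theorem kp_one (d : ℕ) (m : ℤ) (t : ℝ) : ‖kp d m t‖ ≤ 1 := by
  unfold kp
  rw [norm_mul, norm_pow]
  have h1 := kf_one t m
  have h2 : ‖kf t 0‖ ^ (d - 1) ≤ 1 := pow_le_one₀ (norm_nonneg _) (kf_one t 0)
  calc ‖kf t m‖ * ‖kf t 0‖ ^ (d - 1) ≤ 1 * 1 := by gcongr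
    _ = 1 := one_mul _

/-- decay of one factor -/
private lemma kF_decay (m : ℤ) :
    ∃ C : ℝ, 0 < C ∧ ∀ t : ℝ, 0 ≤ t → ‖kf t m‖ ≤ C * (1 + t) ^ (-(1 / 2) : ℝ) := by
  obtain ⟨C, hC, h⟩ := kf_le
  have hm0 : 0 ≤ |(m : ℝ)| := abs_nonneg _
  refine ⟨2 * (C * (1 + |(m : ℝ)|) + 1), by positivity, fun t ht => ?_⟩
  have hp : 0 < (1 + t) ^ (-(1 / 2) : ℝ) := Real.rpow_pos_of_pos (by linarith) _
  rcases lt_or_ge t 1 with h1 | h1
  · have h2 : (1 / 2 : ℝ) ≤ (1 + t) ^ (-(1 / 2) : ℝ) := by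
      calc (1 / 2 : ℝ) = (2 : ℝ) ^ (-1 : ℝ) := by rw [Real.rpow_neg_one]; norm_num
        _ ≤ (2 : ℝ) ^ (-(1 / 2) : ℝ) :=
          Real.rpow_le_rpow_of_exponent_le (by norm_num) (by norm_num)
        _ ≤ (1 + t) ^ (-(1 / 2) : ℝ) :=
          Real.rpow_le_rpow_of_nonpos (by linarith) (by linarith) (by norm_num)
    have h3 : 1 ≤ C * (1 + |(m : ℝ)|) + 1 := by
      have : 0 ≤ C * (1 + |(m : ℝ)|) := by positivity
      linarith
    calc ‖kf t m‖ ≤ 1 := kf_one t m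
      _ = 2 * 1 * (1 / 2) := by norm_num
      _ ≤ 2 * (C * (1 + |(m : ℝ)|) + 1) * (1 + t) ^ (-(1 / 2) : ℝ) := by gcongr
  · have ht0 : 0 < t := by linarith
    have h2 : ‖kf t m‖ ≤ C * (1 + |(m : ℝ)|) * t ^ (-(1 / 2) : ℝ) := by
      refine (h t m h1).trans ?_
      have e : t ^ (-(1 / 2) : ℝ) = t ^ (-(1 / 4) : ℝ) * t ^ (-(1 / 4) : ℝ) := by
        rw [← Real.rpow_add ht0]
        norm_num
      have hb1 : 1 ≤ 1 + abs (2 * t - abs (m : ℝ)) := by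
        have := abs_nonneg (2 * t - abs (m : ℝ))
        linarith
      have key : (1 + abs (2 * t - abs (m : ℝ))) ^ (-(1 / 4) : ℝ) ≤
          (1 + |(m : ℝ)|) * t ^ (-(1 / 4) : ℝ) := by
        rcases le_or_gt |(m : ℝ)| t with h3 | h3
        · have h4 : t ≤ 1 + abs (2 * t - abs (m : ℝ)) := by
            have := le_abs_self (2 * t - abs (m : ℝ))
            linarith
          have h5 := Real.rpow_le_rpow_of_nonpos ht0 h4 (by norm_num : (-(1 / 4) : ℝ) ≤ 0)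
          have h6 : 0 < t ^ (-(1 / 4) : ℝ) := Real.rpow_pos_of_pos ht0 _
          nlinarith
        · have h4 : (1 + abs (2 * t - abs (m : ℝ))) ^ (-(1 / 4) : ℝ) ≤ 1 :=
            Real.rpow_le_one_of_one_le_of_nonpos hb1 (by norm_num)
          refine h4.trans ?_
          have h5 : t ^ (-(1 / 4) : ℝ) ≥ t⁻¹ := by
            rw [ge_iff_le, ← Real.rpow_neg_one]
            exact Real.rpow_le_rpow_of_exponent_le h1 (by norm_num)
          calc (1 : ℝ) = t * t⁻¹ := by field_simp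
            _ ≤ (1 + |(m : ℝ)|) * t ^ (-(1 / 4) : ℝ) := by
                gcongr
                linarith
      rw [e]
      calc C * t ^ (-(1 / 4 : ℝ)) * (1 + abs (2 * t - abs (m : ℝ))) ^ (-(1 / 4 : ℝ))
          ≤ C * t ^ (-(1 / 4 : ℝ)) * ((1 + |(m : ℝ)|) * t ^ (-(1 / 4) : ℝ)) := by gcongr
        _ = C * (1 + |(m : ℝ)|) * (t ^ (-(1 / 4) : ℝ) * t ^ (-(1 / 4) : ℝ)) := by ring
    have h3 : t ^ (-(1 / 2) : ℝ) ≤ 2 * (1 + t) ^ (-(1 / 2) : ℝ) := by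
      have h4 : (2 * t) ^ (-(1 / 2) : ℝ) ≤ (1 + t) ^ (-(1 / 2) : ℝ) :=
        Real.rpow_le_rpow_of_nonpos (by linarith) (by linarith) (by norm_num)
      rw [Real.mul_rpow (by norm_num) ht0.le] at h4
      have h5 : (1 / 2 : ℝ) ≤ (2 : ℝ) ^ (-(1 / 2) : ℝ) := by
        calc (1 / 2 : ℝ) = (2 : ℝ) ^ (-1 : ℝ) := by rw [Real.rpow_neg_one]; norm_num
          _ ≤ (2 : ℝ) ^ (-(1 / 2) : ℝ) :=
            Real.rpow_le_rpow_of_exponent_le (by norm_num) (by norm_num)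
      have h6 : 0 < t ^ (-(1 / 2) : ℝ) := Real.rpow_pos_of_pos ht0 _
      nlinarith
    refine h2.trans ?_
    have h4 : 0 ≤ C * (1 + |(m : ℝ)|) := by positivity
    calc C * (1 + |(m : ℝ)|) * t ^ (-(1 / 2) : ℝ)
        ≤ C * (1 + |(m : ℝ)|) * (2 * (1 + t) ^ (-(1 / 2) : ℝ)) := by gcongr
      _ ≤ 2 * (C * (1 + |(m : ℝ)|) + 1) * (1 + t) ^ (-(1 / 2) : ℝ) := by
          nlinarith

theorem kp_le {d : ℕ} (hd : 3 ≤ d) (m : ℤ) :
    ∃ C : ℝ, 0 < C ∧ ∀ t : ℝ, 0 ≤ t → ‖kp d m t‖ ≤ C * (1 + t) ^ (-(3 / 2) : ℝ) := by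
  obtain ⟨C1, hC1, h1⟩ := kF_decay m
  obtain ⟨C0, hC0, h0⟩ := kF_decay 0
  refine ⟨C1 * C0 ^ 2, by positivity, fun t ht => ?_⟩
  unfold kp
  rw [norm_mul, norm_pow]
  have e : (1 + t) ^ (-(3 / 2) : ℝ) =
      (1 + t) ^ (-(1 / 2) : ℝ) * ((1 + t) ^ (-(1 / 2) : ℝ)) ^ 2 := by
    rw [← Real.rpow_natCast, ← Real.rpow_mul (by linarith), ← Real.rpow_add (by linarith)]
    norm_num
  have hp : 0 < (1 + t) ^ (-(1 / 2) : ℝ) := Real.rpow_pos_of_pos (by linarith) _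
  have h2 : ‖kf t 0‖ ^ (d - 1) ≤ ‖kf t 0‖ ^ 2 :=
    pow_le_pow_of_le_one (norm_nonneg _) (kf_one t 0) (by omega)
  calc ‖kf t m‖ * ‖kf t 0‖ ^ (d - 1) ≤ (C1 * (1 + t) ^ (-(1 / 2) : ℝ)) * ‖kf t 0‖ ^ 2 := by
        gcongr
        exact h1 t ht
    _ ≤ (C1 * (1 + t) ^ (-(1 / 2) : ℝ)) * (C0 * (1 + t) ^ (-(1 / 2) : ℝ)) ^ 2 := by
        gcongr
        exact h0 t ht
    _ = C1 * C0 ^ 2 * (1 + t) ^ (-(3 / 2) : ℝ) := by
        rw [e]
        ring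

end Pool.Agent.QDF
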