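import Pool.Agent.QDF.QAs

/-! QDF/LowE. Positivity of the density of states and of the diffusion constant on a window.

Let `E ∈ [lo,hi]`, `γ ∈ (0,κ]`, `ζ = E + iγ`. By `FreeC.im`, for all `n` with `γ^(-10) ≤ 2n+1`,
`κ ≤ Im Gr 0 0`, and `Gr_ph` (`m = 0`) gives `κ ≤ (Ph d 0 ζ).im + C/((2n+1)γ²)`; `n → ∞`:
`κ ≤ (Ph d 0 ζ).im`; `γ → 0` with `Ph_holder`: `κ ≤ (Ph d 0 E).im`.
By `FreeC.low` with `k = Pi.single j 1` (`ang n (k j) = 2π/(2n+1) =: θ`, the other angles `0`, so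
`a1 k = θ`, `a2 k = θ²`; for `n` large `θ ≤ κγ/2` and `θ ≤ γ/8`): `κθ²/γ³ ≤ Qf ζ k`, so by `Q_asym`
`κθ² ≤ θ²/2 (Ph0-Ph2).im + C(θ²(√γ + 1/(γ²(2n+1))) + θ³/γ)`. Divide by `θ²`, `n → ∞`:
`κ ≤ (Ph0-Ph2)(ζ).im/2 + C√γ`; `γ → 0`: `2κ ≤ (Ph d 0 E - Ph d 2 E).im`. (A convenient way to take
limits: for every `ε > 0` the inequality with `ε` of room, `le_of_forall_pos_le_add`.) -/

open MeasureTheory Finset Matrix Pool.Agent.BK Pool.Agent.BK3

noncomputable section

namespace Pool.Agent.QDF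

private theorem low_ang {n : ℕ} (hn : 1 ≤ n) : ang n (1 : ZMod (2 * n + 1)) =
    2 * Real.pi / (2 * n + 1) := by
  unfold ang
  have h : (1 : ZMod (2 * n + 1)).valMinAbs = 1 := by
    have h1 := ZMod.valMinAbs_natCast_of_le_half (n := 2 * n + 1) (a := 1) (by omega)
    simpa using h1
  rw [h]
  push_cast
  ring

private theorem low_ang0 (n : ℕ) : ang n (0 : ZMod (2 * n + 1)) = 0 := by
  unfold ang
  rw [ZMod.valMinAbs_zero]
  simp

private theorem low_a1 {d n : ℕ} (hn : 1 ≤ n) (j : Fin d) :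
    a1 (Pi.single j 1 : Tor d n) = 2 * Real.pi / (2 * n + 1) := by
  unfold a1
  rw [Finset.sum_eq_single j]
  · rw [Pi.single_eq_same, low_ang hn, abs_of_nonneg]
    have := Real.pi_pos
    positivity
  · intro l _ hl
    rw [Pi.single_eq_of_ne hl, low_ang0, abs_zero]
  · intro h
    exact absurd (Finset.mem_univ _) h

private theorem low_a2 {d n : ℕ} (hn : 1 ≤ n) (j : Fin d) :
    a2 (Pi.single j 1 : Tor d n) = (2 * Real.pi / (2 * n + 1)) ^ 2 := by
  unfold a2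
  rw [Finset.sum_eq_single j]
  · rw [Pi.single_eq_same, low_ang hn]
  · intro l _ hl
    rw [Pi.single_eq_of_ne hl, low_ang0]
    norm_num
  · intro h
    exact absurd (Finset.mem_univ _) h

private theorem low_hol {d : ℕ} {m : ℤ} {C : ℝ} (H : ∀ ζ ζ' : ℂ, 0 ≤ ζ.im → 0 ≤ ζ'.im →
      ‖Ph d m ζ - Ph d m ζ'‖ ≤ C * ‖ζ - ζ'‖ ^ (1 / 4 : ℝ)) {s : ℝ} (hs : 0 < s) (E : ℝ) :
    |(Ph d m ((E : ℂ) + (s ^ 4 : ℝ) * Complex.I)).im - (Ph d m (E : ℂ)).im| ≤ C * s := by
  rw [← Complex.sub_im]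
  refine (Complex.abs_im_le_norm _).trans ((H _ _ ?_ (by simp)).trans (le_of_eq ?_))
  · simp only [Complex.add_im, Complex.ofReal_im, Complex.mul_im, Complex.ofReal_re, Complex.I_im,
      mul_one, Complex.I_re, mul_zero, add_zero, zero_add]
    positivity
  have h3 : ((E : ℂ) + (s ^ 4 : ℝ) * Complex.I) - (E : ℂ) = (s ^ 4 : ℝ) * Complex.I := by ring
  rw [h3, norm_mul, Complex.norm_I, mul_one, Complex.norm_real,
    Real.norm_of_nonneg (by positivity), ← Real.rpow_natCast, ← Real.rpow_mul hs.le]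
  norm_num

theorem low_E {d : ℕ} (hd : 3 ≤ d) {q κ lo hi : ℝ} (h : FreeC d q κ lo hi) :
    ∀ E : ℝ, lo ≤ E → E ≤ hi → κ ≤ g0 d E ∧ 2 * κ ≤ (Ph d 0 E - Ph d 2 E).im := by
  intro E hE1 hE2
  obtain ⟨Ch, hCh, HH⟩ := Ph_holder hd 0
  obtain ⟨Ch2, hCh2, HH2⟩ := Ph_holder hd 2
  obtain ⟨C, hC, HG⟩ := Gr_ph hd 0
  obtain ⟨CQ, hCQ, HQ⟩ := Q_asym hd
  have hκ := h.kap
  have hκ1 := h.kap1
  have hpi := Real.pi_pos
  have hpi4 := Real.pi_lt_d2
  set K : ℝ := C + Ch + (Ch2 + 20 * CQ) + Ch with hK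
  have hK0 : 0 < K := by positivity
  have main : ∀ s : ℝ, 0 < s → s ≤ κ →
      κ ≤ g0 d E + K * s ∧ 2 * κ ≤ (Ph d 0 E - Ph d 2 E).im + K * s := by
    intro s hs hsκ
    have hs1 : s ≤ 1 := hsκ.trans hκ1
    set γ : ℝ := s ^ 4 with hγ
    have hγ0 : 0 < γ := by positivity
    have hγs : γ ≤ s := by
      rw [hγ]
      calc s ^ 4 ≤ s ^ 1 := pow_le_pow_of_le_one hs.le hs1 (by norm_num)
        _ = s := pow_one s
    have hγκ : γ ≤ κ := hγs.trans hsκ
    have hγ1 : γ ≤ 1 := hγs.trans hs1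
    obtain ⟨n, hn⟩ := exists_nat_gt (1 / γ ^ 10 + 4 * Real.pi / (κ * γ) + 16 * Real.pi / γ + 2)
    have t1 : 0 < 1 / γ ^ 10 := by positivity
    have t2 : 0 < 4 * Real.pi / (κ * γ) := by positivity
    have t3 : 0 < 16 * Real.pi / γ := by positivity
    have hn2 : 2 ≤ n := by
      have : (2 : ℝ) < n := by linarith
      exact_mod_cast this.le
    have hnr : (0 : ℝ) < 2 * n + 1 := by positivity
    have hn10 : 1 / γ ^ 10 ≤ 2 * n + 1 := by linarith
    have hn10' : γ ^ (-(10 : ℝ)) ≤ 2 * n + 1 := by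
      rw [Real.rpow_neg hγ0.le, ← one_div]
      have : γ ^ (10 : ℝ) = γ ^ 10 := by
        rw [← Real.rpow_natCast]
        norm_num
      rw [this]
      exact hn10
    have hinv : 1 / (2 * n + 1 : ℝ) ≤ γ ^ 10 := by
      rw [div_le_iff₀ hnr]
      rw [div_le_iff₀ (by positivity)] at hn10
      linarith
    set ζ : ℂ := (E : ℂ) + (γ : ℝ) * Complex.I with hζ
    have hre : ζ.re = E := by simp [hζ]
    have him : ζ.im = γ := by simp [hζ]
    have hγ8 : γ ^ 8 ≤ s := by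
      calc γ ^ 8 ≤ γ ^ 1 := pow_le_pow_of_le_one hγ0.le hγ1 (by norm_num)
        _ = γ := pow_one γ
        _ ≤ s := hγs
    have hd1 : 1 / ((2 * n + 1 : ℝ) * γ ^ 2) ≤ s := by
      calc 1 / ((2 * n + 1 : ℝ) * γ ^ 2) = 1 / (2 * n + 1 : ℝ) * (1 / γ ^ 2) := by
            field_simp
        _ ≤ γ ^ 10 * (1 / γ ^ 2) := mul_le_mul_of_nonneg_right hinv (by positivity)
        _ = γ ^ 8 := by field_simp
        _ ≤ s := hγ8
    have hol := low_hol HH hs E
    have hol2 := low_hol HH2 hs E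
    rw [← hγ, ← hζ] at hol hol2
    constructor
    · have h1 := h.im ζ n (by rw [hre]; exact hE1) (by rw [hre]; exact hE2)
        (by rw [him]; exact hγ0) (by rw [him]; exact hγκ) (by rw [him]; exact hn10') 0
      have h2 := HG n ζ ⟨0, by omega⟩ (by omega) (by simp) (by rw [him]; exact hγ0)
        (by rw [him]; exact hγ1)
      have h3 : (Pi.single (⟨0, by omega⟩ : Fin d) ((0 : ℤ) : ZMod (2 * n + 1)) : Tor d n) = 0 := by
        simp
      rw [h3, him] at h2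
      have h4 : (Gr (H0 d n) 0 ζ 0 0).im - (Ph d 0 ζ).im ≤ C / ((2 * n + 1) * γ ^ 2) := by
        rw [← Complex.sub_im]
        exact (le_abs_self _).trans ((Complex.abs_im_le_norm _).trans h2)
      have h5 : C / ((2 * n + 1) * γ ^ 2) ≤ C * s := by
        calc C / ((2 * n + 1) * γ ^ 2) = C * (1 / ((2 * n + 1 : ℝ) * γ ^ 2)) := by ring
          _ ≤ C * s := mul_le_mul_of_nonneg_left hd1 hC.le
      have h6 := (abs_le.1 hol).2
      have h7 : 0 ≤ (Ch2 + 20 * CQ + Ch) * s := by positivity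
      have h8 : g0 d E = (Ph d 0 (E : ℂ)).im := rfl
      rw [hK, h8]
      linarith
    · set j : Fin d := ⟨0, by omega⟩ with hj
      set k : Tor d n := Pi.single j 1 with hk
      set θ : ℝ := 2 * Real.pi / (2 * n + 1) with hθ
      have hθ0 : 0 < θ := by positivity
      have hθ1 : θ ≤ κ * γ / 2 := by
        rw [hθ, div_le_div_iff₀ hnr (by norm_num)]
        have h1 : 4 * Real.pi / (κ * γ) ≤ 2 * n + 1 := by linarith
        rw [div_le_iff₀ (by positivity)] at h1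
        linarith
      have hθ2 : θ ≤ γ / 8 := by
        rw [hθ, div_le_div_iff₀ hnr (by norm_num)]
        have h1 : 16 * Real.pi / γ ≤ 2 * n + 1 := by linarith
        rw [div_le_iff₀ hγ0] at h1
        linarith
      have hang : ∀ l, |ang n (k l)| ≤ κ * ζ.im / 2 := by
        intro l
        rw [him]
        by_cases hl : l = j
        · rw [hl, hk, Pi.single_eq_same, low_ang (by omega), ← hθ, abs_of_pos hθ0]
          exact hθ1
        · rw [hk, Pi.single_eq_of_ne hl, low_ang0, abs_zero]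
          positivity
      have h1 := h.low ζ n (by rw [hre]; exact hE1) (by rw [hre]; exact hE2)
        (by rw [him]; exact hγ0) (by rw [him]; exact hγκ) (by rw [him]; exact hn10') k hang j
      have h1' : κ * θ ^ 2 / γ ^ 3 ≤ Qf ζ k := by
        have e : ang n (k j) = θ := by
          rw [hk, Pi.single_eq_same, low_ang (by omega)]
        rw [e, him] at h1
        exact h1
      have h2 := HQ n ζ hn2 (by rw [him]; exact hγ0) (by rw [him]; exact hγ1) k
        (by rw [hk, low_a1 (by omega), ← hθ, him]; exact hθ2)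
      rw [hk, low_a1 (by omega), low_a2 (by omega), ← hθ, ← hk, him] at h2
      have h3 := (abs_le.1 h2).2
      have h4 : κ * θ ^ 2 ≤ γ ^ 3 * Qf ζ k := by
        rw [div_le_iff₀ (by positivity)] at h1'
        linarith
      have hsq : √γ = s ^ 2 := by
        rw [hγ, show s ^ 4 = (s ^ 2) ^ 2 by ring, Real.sqrt_sq (by positivity)]
      have hs2 : s ^ 2 ≤ s := by nlinarith
      have h5 : 1 / (γ ^ 2 * (2 * n + 1 : ℝ)) ≤ s := by
        rw [mul_comm]
        exact hd1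
      have h6 : θ / γ ≤ 7 * s := by
        have e : θ / γ = 2 * Real.pi * (1 / (2 * n + 1 : ℝ) * (1 / γ)) := by
          rw [hθ]
          field_simp
        have e2 : 1 / (2 * n + 1 : ℝ) * (1 / γ) ≤ γ ^ 10 * (1 / γ) :=
          mul_le_mul_of_nonneg_right hinv (by positivity)
        have e3 : γ ^ 10 * (1 / γ) = γ ^ 9 := by field_simp
        have e4 : γ ^ 9 ≤ s := by
          calc γ ^ 9 ≤ γ ^ 1 := pow_le_pow_of_le_one hγ0.le hγ1 (by norm_num)
            _ = γ := pow_one γ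
            _ ≤ s := hγs
        have e5 : 1 / (2 * n + 1 : ℝ) * (1 / γ) ≤ s := by linarith
        rw [e]
        calc 2 * Real.pi * (1 / (2 * n + 1 : ℝ) * (1 / γ)) ≤ 2 * Real.pi * s :=
              mul_le_mul_of_nonneg_left e5 (by positivity)
          _ ≤ 7 * s := mul_le_mul_of_nonneg_right (by linarith) hs.le
      have h7 : CQ * (θ ^ 2 * (√γ + 1 / (γ ^ 2 * (2 * n + 1))) + θ ^ 3 / γ) ≤
          θ ^ 2 * (CQ * (9 * s)) := by
        have e : θ ^ 3 / γ = θ ^ 2 * (θ / γ) := by ring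
        rw [e, hsq, ← mul_add]
        have e2 : s ^ 2 + 1 / (γ ^ 2 * (2 * n + 1 : ℝ)) + θ / γ ≤ 9 * s := by linarith
        calc CQ * (θ ^ 2 * (s ^ 2 + 1 / (γ ^ 2 * (2 * n + 1 : ℝ)) + θ / γ)) =
              θ ^ 2 * (CQ * (s ^ 2 + 1 / (γ ^ 2 * (2 * n + 1 : ℝ)) + θ / γ)) := by ring
          _ ≤ θ ^ 2 * (CQ * (9 * s)) :=
              mul_le_mul_of_nonneg_left (mul_le_mul_of_nonneg_left e2 hCQ.le) (by positivity)
      have h8 : θ ^ 2 * κ ≤ θ ^ 2 * ((Ph d 0 ζ - Ph d 2 ζ).im / 2 + CQ * (9 * s)) := by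
        have e : θ ^ 2 / 2 * (Ph d 0 ζ - Ph d 2 ζ).im = θ ^ 2 * ((Ph d 0 ζ - Ph d 2 ζ).im / 2) := by
          ring
        rw [e] at h3
        rw [mul_add]
        linarith
      have h9 := le_of_mul_le_mul_left h8 (by positivity)
      have k1 := (abs_le.1 hol).2
      have k2 := (abs_le.1 hol2).1
      rw [Complex.sub_im] at h9 ⊢
      have h10 : 0 ≤ (C + Ch + 2 * CQ) * s := by positivity
      rw [hK]
      linarith
  have fin : ∀ ε : ℝ, 0 < ε → κ ≤ g0 d E + ε ∧ 2 * κ ≤ (Ph d 0 E - Ph d 2 E).im + ε := by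
    intro ε hε
    obtain ⟨h1, h2⟩ := main (min κ (ε / K)) (lt_min hκ (by positivity)) (min_le_left _ _)
    have h3 : K * min κ (ε / K) ≤ ε := by
      calc K * min κ (ε / K) ≤ K * (ε / K) := mul_le_mul_of_nonneg_left (min_le_right _ _) hK0.le
        _ = ε := by field_simp
    exact ⟨by linarith, by linarith⟩
  exact ⟨le_of_forall_pos_le_add fun ε hε => (fin ε hε).1,
    le_of_forall_pos_le_add fun ε hε => (fin ε hε).2⟩

end Pool.Agent.QDF
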