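import Pool.Agent.Helper3.Anderson.Model

/-! QDF/Model. The model and the time average (the definitions of the hand-in). -/

open MeasureTheory Set Filter Pool.Agent.Helper3.Anderson
open scoped ENNReal Topology

namespace Pool.Agent.QDF

/-- The operator `H = -Δ + V` on functions. -/
def ham {d : ℕ} (V : Site d → ℝ) (ψ : Site d → ℂ) (x : Site d) : ℂ :=
  -lap ψ x + V x * ψ x

/-- The value at the site `x` of `exp (-itH) δ_0 = ∑_n (-it)^n / n! H^n δ_0`, `H = -Δ + V`. -/
noncomputable def evolution {d : ℕ} (V : Site d → ℝ) (t : ℝ) (x : Site d) : ℂ :=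
  ∑' n : ℕ, (-(Complex.I * t)) ^ n / n.factorial * (ham V)^[n] (Pi.single 0 1) x

/-- The time average with weight `w` at time `T` of the evolution `φ t = exp (-itH) δ_0` under
`H = -Δ + lam ω`: the expectation of `(2 / T) ∫_0^∞ exp (-2 t / T) ∑_x w x |φ t x|^2 dt`. -/
noncomputable def average (d : ℕ) (μ : Measure ℝ) [IsProbabilityMeasure μ] (lam : ℝ)
    (w : Site d → ℝ) (T : ℝ) : ℝ≥0∞ :=
  ∫⁻ ω, (ENNReal.ofReal (2 / T) * ∫⁻ t in Ioi (0 : ℝ), ENNReal.ofReal (Real.exp (-(2 * t / T))) *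
    ∑' x : Site d, ENNReal.ofReal (w x * ‖evolution (fun y => lam * ω y) t x‖ ^ 2))
      ∂(siteLaw d μ)

/-- The energy density of this average: `(1 / (π T)) ∑_x w x 𝔼 |G(x, 0; E + i / T)|^2`. -/
noncomputable def density (d : ℕ) (μ : Measure ℝ) [IsProbabilityMeasure μ] (lam : ℝ)
    (w : Site d → ℝ) (T E : ℝ) : ℝ≥0∞ :=
  ∑' x : Site d, ENNReal.ofReal (w x / (Real.pi * T)) *
    ∫⁻ ω, ENNReal.ofReal (‖randGreen lam (E + Complex.I / T) x 0 ω‖ ^ 2) ∂(siteLaw d μ)

/-- The weight `1 - cos (κ·x)`. -/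
noncomputable def wave {d : ℕ} (κ : Fin d → ℝ) (x : Site d) : ℝ :=
  1 - Real.cos (∑ l, κ l * (x l : ℝ))

/-- The boundary value `(-Δ - E - i0)⁻¹(x, 0)` of the free Green function at the real energy `E`. -/
noncomputable def boundary (d : ℕ) (E : ℝ) (x : Site d) : ℂ :=
  limUnder (𝓝[>] (0 : ℝ)) fun η : ℝ => Green (0 : Site d → ℝ) (E + η * Complex.I) x 0

/-- The density of states of `-Δ` at the energy `E`. -/
noncomputable def dos (d : ℕ) (E : ℝ) : ℝ := (boundary d E 0).im / Real.pi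

/-- The diffusion constant at the energy `E` for a potential of variance `v`, in rescaled units: the
mean over `j` of `Im (G(0) - G(2 e_j)) / (2 v (Im G(0))^2)`, where `G = boundary d E`. -/
noncomputable def diffusion (d : ℕ) (v E : ℝ) : ℝ :=
  (d : ℝ)⁻¹ * ∑ j : Fin d,
    (boundary d E 0 - boundary d E (Pi.single j 2)).im / (2 * v * (boundary d E 0).im ^ 2)

end Pool.Agent.QDF
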