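import Pool.Agent.QDF.Defs
import Pool.Agent.BK3.FLow
import Pool.Agent.BK.FB34

/-! QDF/Pars. Parseval for `Qf`, pointwise identities for `mq`, and the flips.

* `Q_pars`: `TF_mod` (`BK/Dft.lean`) with `x = 0`: `TF F 0 y * ch p y = TF (F(·-p)) 0 y`, so
  `Gr 0 y (1 - ch k y) = TF (mq - mq(·-k)) 0 y` (`Gr_eq_TF`). `‖1 - ch k y‖² = 2(1 - Re ch k y)` as
  `‖ch k y‖ = 1`. `parseval` and the change of variables `q → q + k`.
* `mq_four`: with `x = ω-Re ζ`, `γ = Im ζ`: `mq = (x + iγ)/(x²+γ²)`, `‖mq‖² = 1/(x²+γ²)`,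
  `Im mq = γ‖mq‖²`, `Re mq² = (x²-γ²)‖mq‖⁴ = ‖mq‖² - 2γ²‖mq‖⁴`.
* `mq_im`: as above.
* `flipq`: for a function `F` on the dual torus invariant under all sign changes of the coordinates
  (here `F = ‖mq‖⁴`, as `omg` is even in each coordinate), the cross terms of
  `(Σ_l 2 sin(q_l) θ_l)²` vanish: `Σ_q sin(q_l) sin(q_l') F = 0` for `l ≠ l'` (change `q_l → -q_l`,
  `ang n (-a) = -ang n a`, e.g. `Fintype.sum_equiv` with `Function.update q l (-q l)`). -/

open MeasureTheory Finset Matrix Pool.Agent.BK Pool.Agent.BK3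

noncomputable section

namespace Pool.Agent.QDF

private lemma pars_neg_ang {n : ℕ} (a : ZMod (2 * n + 1)) : ang n (-a) = -ang n a := by
  have h : (-a).valMinAbs = -a.valMinAbs := by
    apply ZMod.valMinAbs_neg_of_ne_half
    omega
  unfold ang
  rw [h]
  push_cast
  ring

/-- `‖1/(w - ζ)‖² = 1/D`. -/
private lemma pars_nsq {d n : ℕ} (ζ : ℂ) (q : Tor d n) :
    ‖mq ζ q‖ ^ 2 = 1 / ((omg q - ζ.re) ^ 2 + ζ.im ^ 2) := by
  unfold mq
  exact fb34_norm_inv (omg q) ζ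

private lemma pars_D {d n : ℕ} {ζ : ℂ} (hζ : 0 < ζ.im) (q : Tor d n) :
    0 < (omg q - ζ.re) ^ 2 + ζ.im ^ 2 := by positivity

theorem Q_pars {d n : ℕ} (hn : 0 < n) {ζ : ℂ} (hζ : 0 < ζ.im) (k : Tor d n) :
    2 * Qf ζ k = (1 / (2 * n + 1 : ℝ) ^ d) * ∑ q : Tor d n, ‖mq ζ (q + k) - mq ζ q‖ ^ 2 := by
  have h1 : ∀ y : Tor d n, Gr (H0 d n) 0 ζ 0 y = TF (mq ζ) 0 y := by
    intro y
    rw [Gr_eq_TF hn hζ]
    rfl
  have h2 : ∀ y : Tor d n, TF (fun q => mq ζ q - mq ζ (q - k)) 0 y =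
      Gr (H0 d n) 0 ζ 0 y * (1 - ch k y) := by
    intro y
    have h3 := TF_mod (mq ζ) k 0 y
    rw [fb34_ch_zero, map_one, one_mul] at h3
    have h4 : TF (fun q => mq ζ q - mq ζ (q - k)) 0 y =
        TF (mq ζ) 0 y - TF (fun q => mq ζ (q - k)) 0 y := by
      unfold TF
      rw [← mul_sub, ← Finset.sum_sub_distrib]
      congr 1
      refine Finset.sum_congr rfl fun q _ => ?_
      ring
    rw [h4, ← h3, h1]
    ring
  have h5 : ∀ y : Tor d n, ‖(1 : ℂ) - ch k y‖ ^ 2 = 2 * (1 - (ch k y).re) := by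
    intro y
    have h6 := norm_ch k y
    have h7 : (ch k y).re ^ 2 + (ch k y).im ^ 2 = 1 := by
      have h8 : ‖ch k y‖ ^ 2 = (ch k y).re ^ 2 + (ch k y).im ^ 2 := by
        rw [← Complex.normSq_eq_norm_sq, Complex.normSq_apply]
        ring
      rw [← h8, h6, one_pow]
    rw [← Complex.normSq_eq_norm_sq, Complex.normSq_apply]
    simp only [Complex.sub_re, Complex.one_re, Complex.sub_im, Complex.one_im, zero_sub]
    nlinarith
  have h9 := parseval (fun q => mq ζ q - mq ζ (q - k)) (0 : Tor d n)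
  have h10 : ∑ q : Tor d n, ‖mq ζ q - mq ζ (q - k)‖ ^ 2 =
      ∑ q : Tor d n, ‖mq ζ (q + k) - mq ζ q‖ ^ 2 := by
    refine (Fintype.sum_equiv (Equiv.addRight k) _ _ fun q => ?_).symm
    rw [Equiv.coe_addRight, add_sub_cancel_right]
  rw [h10] at h9
  rw [← h9]
  unfold Qf
  rw [Finset.mul_sum]
  refine Finset.sum_congr rfl fun y _ => ?_
  rw [h2, norm_mul, mul_pow, h5]
  ring

theorem mq_im {d n : ℕ} {ζ : ℂ} (hζ : 0 < ζ.im) (q : Tor d n) :
    (mq ζ q).im = ζ.im * ‖mq ζ q‖ ^ 2 ∧ ‖mq ζ q‖ ≤ 1 / ζ.im := by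
  have hD := pars_D hζ q
  constructor
  · rw [pars_nsq]
    unfold mq
    rw [fb34_im_inv]
    ring
  · have h1 : ‖mq ζ q‖ ^ 2 ≤ (1 / ζ.im) ^ 2 := by
      rw [pars_nsq, div_pow, one_pow]
      apply one_div_le_one_div_of_le (by positivity)
      nlinarith [sq_nonneg (omg q - ζ.re)]
    exact le_of_sq_le_sq' h1 (by positivity)
where
  le_of_sq_le_sq' {a b : ℝ} (h : a ^ 2 ≤ b ^ 2) (hb : 0 ≤ b) : a ≤ b := by
    nlinarith [abs_le_of_sq_le_sq h hb, le_abs_self a]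

theorem mq_four {d n : ℕ} {ζ : ℂ} (hζ : 0 < ζ.im) (q : Tor d n) :
    ‖mq ζ q‖ ^ 4 = (mq ζ q).im / (2 * ζ.im ^ 3) - (mq ζ q ^ 2).re / (2 * ζ.im ^ 2) := by
  have hD := pars_D hζ q
  have h1 : ‖mq ζ q‖ ^ 4 = (1 / ((omg q - ζ.re) ^ 2 + ζ.im ^ 2)) ^ 2 := by
    rw [← pars_nsq]
    ring
  have h2 : (mq ζ q).im = ζ.im / ((omg q - ζ.re) ^ 2 + ζ.im ^ 2) := by
    unfold mq
    exact fb34_im_inv (omg q) ζ
  have h3 : (mq ζ q).re = (omg q - ζ.re) / ((omg q - ζ.re) ^ 2 + ζ.im ^ 2) := by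
    unfold mq
    rw [one_div, Complex.inv_re, Complex.normSq_apply]
    simp only [Complex.sub_re, Complex.ofReal_re, Complex.sub_im, Complex.ofReal_im, zero_sub]
    congr 1
    ring
  have h4 : (mq ζ q ^ 2).re = (mq ζ q).re ^ 2 - (mq ζ q).im ^ 2 := by
    rw [pow_two, Complex.mul_re]
    ring
  rw [h1, h4, h2, h3]
  field_simp
  ring

private lemma pars_omg_rfl {d n : ℕ} (j : Fin d) (q : Tor d n) :
    omg (rfl' (flowS j) q) = omg q := by
  unfold omg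
  refine Finset.sum_congr rfl fun l _ => ?_
  unfold rfl' flowS
  by_cases h : l = j
  · subst h
    rw [Function.update_self]
    simp [pars_neg_ang, Real.cos_neg]
  · rw [Function.update_of_ne h]
    simp

theorem flipq {d n : ℕ} (ζ : ℂ) (θ : Fin d → ℝ) :
    ∑ q : Tor d n, (∑ l, 2 * Real.sin (ang n (q l)) * θ l) ^ 2 * ‖mq ζ q‖ ^ 4 =
      ∑ l, θ l ^ 2 * ∑ q : Tor d n, 4 * Real.sin (ang n (q l)) ^ 2 * ‖mq ζ q‖ ^ 4 := by
  have hmq : ∀ (j : Fin d) (q : Tor d n), mq ζ (rfl' (flowS j) q) = mq ζ q := by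
    intro j q
    unfold mq
    rw [pars_omg_rfl]
  have hcross : ∀ l l' : Fin d, l ≠ l' → ∑ q : Tor d n,
      (2 * Real.sin (ang n (q l)) * θ l) * (2 * Real.sin (ang n (q l')) * θ l') *
        ‖mq ζ q‖ ^ 4 = 0 := by
    intro l l' hll
    have h1 := flow_sum (flowS l) (fun q : Tor d n =>
      (2 * Real.sin (ang n (q l)) * θ l) * (2 * Real.sin (ang n (q l')) * θ l') *
        ‖mq ζ q‖ ^ 4)
    have h2 : ∀ q : Tor d n, (2 * Real.sin (ang n (rfl' (flowS l) q l)) * θ l) *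
        (2 * Real.sin (ang n (rfl' (flowS l) q l')) * θ l') * ‖mq ζ (rfl' (flowS l) q)‖ ^ 4 =
        -((2 * Real.sin (ang n (q l)) * θ l) * (2 * Real.sin (ang n (q l')) * θ l') *
        ‖mq ζ q‖ ^ 4) := by
      intro q
      rw [hmq]
      have e1 : rfl' (flowS l) q l = -q l := by
        unfold rfl' flowS
        rw [Function.update_self]
        simp
      have e2 : rfl' (flowS l) q l' = q l' := by
        unfold rfl' flowS
        rw [Function.update_of_ne (Ne.symm hll)]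
        simp
      rw [e1, e2, pars_neg_ang, Real.sin_neg]
      ring
    simp only [h2] at h1
    rw [Finset.sum_neg_distrib] at h1
    linarith
  have h3 : ∀ q : Tor d n, (∑ l, 2 * Real.sin (ang n (q l)) * θ l) ^ 2 * ‖mq ζ q‖ ^ 4 =
      ∑ l, ∑ l', (2 * Real.sin (ang n (q l)) * θ l) * (2 * Real.sin (ang n (q l')) * θ l') *
        ‖mq ζ q‖ ^ 4 := by
    intro q
    rw [pow_two, Finset.sum_mul_sum, Finset.sum_mul]
    refine Finset.sum_congr rfl fun l _ => ?_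
    rw [Finset.sum_mul]
  simp only [h3]
  rw [Finset.sum_comm]
  refine Finset.sum_congr rfl fun l _ => ?_
  rw [Finset.sum_comm, Finset.sum_eq_single l]
  · rw [Finset.mul_sum]
    refine Finset.sum_congr rfl fun q _ => ?_
    ring
  · intro l' _ hl'
    exact hcross l l' (Ne.symm hl')
  · intro h
    exact absurd (Finset.mem_univ l) h

end Pool.Agent.QDF
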