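import Pool.Agent.QDF.KF

/-! QDF/PhB. The free Green function `Ph d m ζ = i ∫_0^∞ exp(iζt) kp d m t dt` is bounded and Hölder
continuous on the closed upper half plane.

* `Ph_int`: `‖exp(iζt) kp‖ ≤ ‖kp‖ ≤ C (1+t)^(-3/2)` (`Im ζ ≥ 0`), integrable on `(0,∞)`
  (`integrableOn_Ioi_rpow...`, e.g. `integrable_one_add_norm`-type lemmas or by comparison:
  `(1+t)^(-3/2)` has the antiderivative `-2(1+t)^(-1/2)`; `integrableOn_Ioi_deriv_of_nonneg'`).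
* `Ph_le`: the norm of the integral is at most `C ∫ (1+t)^(-3/2) dt`.
* `Ph_holder`: `‖exp(iζt) - exp(iζ't)‖ ≤ min(2, t‖ζ-ζ'‖)` for `t ≥ 0`, `Im ≥ 0` (both exponentials have
  norm `≤ 1`; for the Lipschitz bound use the segment, which stays in the half plane, or
  `‖e^a - e^b‖ = ‖e^b‖‖e^{a-b} - 1‖` when `Re(a-b) ≤ 0`, and `‖e^w - 1‖ ≤ ‖w‖` for `Re w ≤ 0`), and
  `min(2,x) ≤ 2 x^(1/4)`. So the difference is at most
  `2‖ζ-ζ'‖^(1/4) ∫ C t^(1/4)(1+t)^(-3/2) dt ≤ 2‖ζ-ζ'‖^(1/4) ∫ C (1+t)^(-5/4) dt`. -/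

open MeasureTheory Finset Matrix Pool.Agent.BK Pool.Agent.BK3

noncomputable section

namespace Pool.Agent.QDF

/-- the exponential is bounded on the closed half plane -/
private theorem phb_exp {ζ : ℂ} (hζ : 0 ≤ ζ.im) {t : ℝ} (ht : 0 ≤ t) :
    ‖Complex.exp (Complex.I * ζ * (t : ℂ))‖ ≤ 1 := by
  rw [Complex.norm_exp, Real.exp_le_one_iff]
  have h1 : (Complex.I * ζ * (t : ℂ)).re = -(ζ.im * t) := by
    simp [Complex.mul_re]
  rw [h1]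
  have := mul_nonneg hζ ht
  linarith

private theorem phb_pow {p : ℝ} (hp : p < -1) :
    IntegrableOn (fun t : ℝ => (1 + t) ^ p) (Set.Ioi (0 : ℝ)) := by
  have h := integrableOn_add_rpow_Ioi_of_lt (a := p) (c := 0) (m := 1) hp (by norm_num)
  refine h.congr_fun (fun x _ => ?_) measurableSet_Ioi
  show (x + 1) ^ p = (1 + x) ^ p
  rw [add_comm]

private theorem phb_cont (ζ : ℂ) (d : ℕ) (m : ℤ) :
    Continuous fun t : ℝ => Complex.exp (Complex.I * ζ * (t : ℂ)) * kp d m t := by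
  refine Continuous.mul ?_ (kp_cont d m)
  fun_prop

/-- the difference of two exponentials -/
private theorem phb_diff {ζ ζ' : ℂ} (hζ : 0 ≤ ζ.im) (hζ' : 0 ≤ ζ'.im) {t : ℝ} (ht : 0 ≤ t) :
    ‖Complex.exp (Complex.I * ζ * (t : ℂ)) - Complex.exp (Complex.I * ζ' * (t : ℂ))‖ ≤
      2 * ‖ζ - ζ'‖ ^ (1 / 4 : ℝ) * (1 + t) ^ (1 / 4 : ℝ) := by
  have hN : 0 ≤ ‖ζ - ζ'‖ := norm_nonneg _
  have key : ‖Complex.exp (Complex.I * ζ * (t : ℂ)) - Complex.exp (Complex.I * ζ' * (t : ℂ))‖ ≤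
      2 * (‖ζ - ζ'‖ * t) ^ (1 / 4 : ℝ) := by
    have hx0 : 0 ≤ ‖ζ - ζ'‖ * t := mul_nonneg hN ht
    rcases le_or_gt (‖ζ - ζ'‖ * t) 1 with hx | hx
    · have e1 : Complex.exp (Complex.I * ζ * (t : ℂ)) - Complex.exp (Complex.I * ζ' * (t : ℂ)) =
          Complex.exp (Complex.I * ζ' * (t : ℂ)) *
            (Complex.exp (Complex.I * (ζ - ζ') * (t : ℂ)) - 1) := by
        rw [mul_sub, mul_one, ← Complex.exp_add]
        congr 2
        ring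
      have e2 : ‖Complex.I * (ζ - ζ') * (t : ℂ)‖ = ‖ζ - ζ'‖ * t := by
        rw [norm_mul, norm_mul, Complex.norm_I, one_mul, Complex.norm_real, Real.norm_eq_abs,
          abs_of_nonneg ht]
      have e3 : ‖Complex.exp (Complex.I * (ζ - ζ') * (t : ℂ)) - 1‖ ≤ 2 * (‖ζ - ζ'‖ * t) := by
        have := Complex.norm_exp_sub_one_le (x := Complex.I * (ζ - ζ') * (t : ℂ))
          (by rw [e2]; exact hx)
        rwa [e2] at this
      have e4 : ‖ζ - ζ'‖ * t ≤ (‖ζ - ζ'‖ * t) ^ (1 / 4 : ℝ) := by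
        rcases hx0.eq_or_lt with h0 | h0
        · rw [← h0, Real.zero_rpow (by norm_num)]
        · calc ‖ζ - ζ'‖ * t = (‖ζ - ζ'‖ * t) ^ (1 : ℝ) := (Real.rpow_one _).symm
            _ ≤ (‖ζ - ζ'‖ * t) ^ (1 / 4 : ℝ) :=
              Real.rpow_le_rpow_of_exponent_ge h0 hx (by norm_num)
      rw [e1, norm_mul]
      calc ‖Complex.exp (Complex.I * ζ' * (t : ℂ))‖ *
          ‖Complex.exp (Complex.I * (ζ - ζ') * (t : ℂ)) - 1‖ ≤ 1 * (2 * (‖ζ - ζ'‖ * t)) :=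
            mul_le_mul (phb_exp hζ' ht) e3 (norm_nonneg _) zero_le_one
        _ ≤ _ := by linarith
    · have e1 := norm_sub_le (Complex.exp (Complex.I * ζ * (t : ℂ)))
        (Complex.exp (Complex.I * ζ' * (t : ℂ)))
      have e2 := phb_exp hζ ht
      have e3 := phb_exp hζ' ht
      have e4 : 1 ≤ (‖ζ - ζ'‖ * t) ^ (1 / 4 : ℝ) := Real.one_le_rpow hx.le (by norm_num)
      linarith
  refine key.trans ?_
  rw [Real.mul_rpow hN ht, mul_assoc]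
  apply mul_le_mul_of_nonneg_left _ (by norm_num)
  apply mul_le_mul_of_nonneg_left _ (by positivity)
  exact Real.rpow_le_rpow ht (by linarith) (by norm_num)

theorem Ph_int {d : ℕ} (hd : 3 ≤ d) (m : ℤ) {ζ : ℂ} (hζ : 0 ≤ ζ.im) :
    IntegrableOn (fun t : ℝ => Complex.exp (Complex.I * ζ * (t : ℂ)) * kp d m t)
      (Set.Ioi (0 : ℝ)) := by
  obtain ⟨C, hC, hk⟩ := kp_le hd m
  have hint : Integrable (fun t : ℝ => C * (1 + t) ^ (-(3 / 2) : ℝ))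
      (volume.restrict (Set.Ioi (0 : ℝ))) := (phb_pow (by norm_num)).const_mul C
  refine Integrable.mono' hint (phb_cont ζ d m).aestronglyMeasurable ?_
  refine (ae_restrict_iff' measurableSet_Ioi).2 (ae_of_all _ fun t ht => ?_)
  have ht0 : 0 ≤ t := le_of_lt ht
  rw [norm_mul]
  calc ‖Complex.exp (Complex.I * ζ * (t : ℂ))‖ * ‖kp d m t‖ ≤ 1 * ‖kp d m t‖ :=
        mul_le_mul_of_nonneg_right (phb_exp hζ ht0) (norm_nonneg _)
    _ = ‖kp d m t‖ := one_mul _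
    _ ≤ _ := hk t ht0

theorem Ph_le {d : ℕ} (hd : 3 ≤ d) (m : ℤ) :
    ∃ C : ℝ, 0 < C ∧ ∀ ζ : ℂ, 0 ≤ ζ.im → ‖Ph d m ζ‖ ≤ C := by
  obtain ⟨C, hC, hk⟩ := kp_le hd m
  have hint : Integrable (fun t : ℝ => C * (1 + t) ^ (-(3 / 2) : ℝ))
      (volume.restrict (Set.Ioi (0 : ℝ))) := (phb_pow (by norm_num)).const_mul C
  have h0 : 0 ≤ ∫ t in Set.Ioi (0 : ℝ), C * (1 + t) ^ (-(3 / 2) : ℝ) := by
    refine setIntegral_nonneg measurableSet_Ioi fun t ht => ?_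
    have ht0 : (0 : ℝ) < t := ht
    positivity
  refine ⟨(∫ t in Set.Ioi (0 : ℝ), C * (1 + t) ^ (-(3 / 2) : ℝ)) + 1, by linarith, ?_⟩
  intro ζ hζ
  have h1 : ‖∫ t in Set.Ioi (0 : ℝ), Complex.exp (Complex.I * ζ * (t : ℂ)) * kp d m t‖ ≤
      ∫ t in Set.Ioi (0 : ℝ), C * (1 + t) ^ (-(3 / 2) : ℝ) := by
    refine norm_integral_le_of_norm_le hint ?_
    refine (ae_restrict_iff' measurableSet_Ioi).2 (ae_of_all _ fun t ht => ?_)
    have ht0 : 0 ≤ t := le_of_lt ht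
    rw [norm_mul]
    calc ‖Complex.exp (Complex.I * ζ * (t : ℂ))‖ * ‖kp d m t‖ ≤ 1 * ‖kp d m t‖ :=
          mul_le_mul_of_nonneg_right (phb_exp hζ ht0) (norm_nonneg _)
      _ = ‖kp d m t‖ := one_mul _
      _ ≤ _ := hk t ht0
  unfold Ph
  rw [norm_mul, Complex.norm_I, one_mul]
  linarith

theorem Ph_holder {d : ℕ} (hd : 3 ≤ d) (m : ℤ) :
    ∃ C : ℝ, 0 < C ∧ ∀ ζ ζ' : ℂ, 0 ≤ ζ.im → 0 ≤ ζ'.im →
      ‖Ph d m ζ - Ph d m ζ'‖ ≤ C * ‖ζ - ζ'‖ ^ (1 / 4 : ℝ) := by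
  obtain ⟨C, hC, hk⟩ := kp_le hd m
  have hint : Integrable (fun t : ℝ => 2 * C * (1 + t) ^ (-(5 / 4) : ℝ))
      (volume.restrict (Set.Ioi (0 : ℝ))) := (phb_pow (by norm_num)).const_mul (2 * C)
  have h0 : 0 ≤ ∫ t in Set.Ioi (0 : ℝ), 2 * C * (1 + t) ^ (-(5 / 4) : ℝ) := by
    refine setIntegral_nonneg measurableSet_Ioi fun t ht => ?_
    have ht0 : (0 : ℝ) < t := ht
    positivity
  refine ⟨(∫ t in Set.Ioi (0 : ℝ), 2 * C * (1 + t) ^ (-(5 / 4) : ℝ)) + 1, by linarith, ?_⟩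
  intro ζ ζ' hζ hζ'
  have hN : 0 ≤ ‖ζ - ζ'‖ ^ (1 / 4 : ℝ) := Real.rpow_nonneg (norm_nonneg _) _
  have e1 : Ph d m ζ - Ph d m ζ' = Complex.I * ∫ t in Set.Ioi (0 : ℝ),
      (Complex.exp (Complex.I * ζ * (t : ℂ)) * kp d m t -
        Complex.exp (Complex.I * ζ' * (t : ℂ)) * kp d m t) := by
    rw [integral_sub (Ph_int hd m hζ) (Ph_int hd m hζ'), mul_sub]
    rfl
  have h1 : ‖∫ t in Set.Ioi (0 : ℝ), (Complex.exp (Complex.I * ζ * (t : ℂ)) * kp d m t -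
        Complex.exp (Complex.I * ζ' * (t : ℂ)) * kp d m t)‖ ≤
      ∫ t in Set.Ioi (0 : ℝ), ‖ζ - ζ'‖ ^ (1 / 4 : ℝ) * (2 * C * (1 + t) ^ (-(5 / 4) : ℝ)) := by
    refine norm_integral_le_of_norm_le (hint.const_mul _) ?_
    refine (ae_restrict_iff' measurableSet_Ioi).2 (ae_of_all _ fun t ht => ?_)
    have ht0 : 0 ≤ t := le_of_lt ht
    have ht1 : 0 < 1 + t := by linarith
    rw [← sub_mul, norm_mul]
    calc ‖Complex.exp (Complex.I * ζ * (t : ℂ)) - Complex.exp (Complex.I * ζ' * (t : ℂ))‖ *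
          ‖kp d m t‖ ≤ (2 * ‖ζ - ζ'‖ ^ (1 / 4 : ℝ) * (1 + t) ^ (1 / 4 : ℝ)) *
            (C * (1 + t) ^ (-(3 / 2) : ℝ)) :=
          mul_le_mul (phb_diff hζ hζ' ht0) (hk t ht0) (norm_nonneg _) (by positivity)
      _ = ‖ζ - ζ'‖ ^ (1 / 4 : ℝ) * (2 * C * ((1 + t) ^ (1 / 4 : ℝ) *
            (1 + t) ^ (-(3 / 2) : ℝ))) := by ring
      _ = ‖ζ - ζ'‖ ^ (1 / 4 : ℝ) * (2 * C * (1 + t) ^ (-(5 / 4) : ℝ)) := by
          rw [← Real.rpow_add ht1]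
          norm_num
  rw [e1, norm_mul, Complex.norm_I, one_mul]
  refine h1.trans ?_
  rw [integral_const_mul, mul_comm]
  exact mul_le_mul_of_nonneg_right (by linarith) hN

end Pool.Agent.QDF
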