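import Pool.Agent.QDF.Defs
import Pool.Agent.BK.FB34

/-! QDF/Ptw. Pointwise expansion of `mq(q+k) - mq(q)`.

`ω(q+k) - ω(q) = Σ_l [2cos q_l - 2cos(q_l+θ_l)] = L + R` with `θ = ang k`, `L = Σ 2 sin(q_l) θ_l`,
`|2cos a - 2cos(a+θ) - 2 sin(a) θ| ≤ θ²`, so `|L| ≤ 2 a1`, `|R| ≤ a1²` (`a1 = Σ|θ_l|`)
(`cos (ang (a+b)) = cos (ang a + ang b)`: `fb34_cos_ang_sub` in `BK/FB34.lean` with `m = -b` and
`ang n (-b) = -ang n b`, or directly).
With `δ = L + R`, `m = mq q`, `m' = mq(q+k)`: `m' - m = -δ m m'`, `m' = m/(1+δm)`. Since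
`‖m‖ ≤ 1/γ`, `|δ|‖m‖ ≤ 3 a1/γ ≤ 3/8` for `a1 ≤ γ/8 ≤ 1/8`. So
`‖m'-m‖² = δ²‖m‖⁴/‖1+δm‖²`, `|1/‖1+x‖² - 1| ≤ 7‖x‖` for `‖x‖ ≤ 3/8`, `|δ²-L²| ≤ |R|(2|L|+|R|) ≤ 5a1³`,
`δ² ≤ 9 a1²`; total `≤ (5 a1³ + 9a1²·7·3a1/γ)‖m‖⁴ ≤ 200 a1³/γ ‖m‖⁴` (`γ ≤ 1`). -/

open MeasureTheory Finset Matrix Pool.Agent.BK Pool.Agent.BK3

noncomputable section

namespace Pool.Agent.QDF

private lemma ptw_neg_ang {n : ℕ} (a : ZMod (2 * n + 1)) : ang n (-a) = -ang n a := by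
  have h : (-a).valMinAbs = -a.valMinAbs := by
    apply ZMod.valMinAbs_neg_of_ne_half
    omega
  unfold ang
  rw [h]
  push_cast
  ring

private lemma ptw_cos {n : ℕ} (a b : ZMod (2 * n + 1)) :
    Real.cos (ang n (a + b)) = Real.cos (ang n a + ang n b) := by
  have h := fb34_cos_ang_sub n a (-b)
  rw [sub_neg_eq_add, ptw_neg_ang, sub_neg_eq_add] at h
  exact h

/-- Taylor expansion of the cosine. -/
private lemma ptw_one {a θ : ℝ} (h : |θ| ≤ 1) :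
    |2 * Real.cos a - 2 * Real.cos (a + θ) - 2 * Real.sin a * θ| ≤ 2 * θ ^ 2 := by
  have h1 : 1 - Real.cos θ ≤ θ ^ 2 / 2 := by
    have := Real.one_sub_sq_div_two_le_cos (x := θ)
    linarith
  have h2 : 0 ≤ 1 - Real.cos θ := by
    have := Real.cos_le_one θ
    linarith
  have h3 : |Real.sin θ - θ| ≤ θ ^ 2 / 2 := by
    have h4 := Real.sin_bound h
    have h5 : |θ| ^ 3 ≤ |θ| ^ 2 := pow_le_pow_of_le_one (abs_nonneg θ) h (by norm_num)
    have h6 : |θ| ^ 5 ≤ |θ| ^ 2 := pow_le_pow_of_le_one (abs_nonneg θ) h (by norm_num)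
    have h7 : |θ| ^ 2 = θ ^ 2 := sq_abs θ
    have h8 : |θ ^ 3 / 6| = |θ| ^ 3 / 6 := by
      rw [abs_div, abs_pow]
      norm_num
    calc |Real.sin θ - θ| = |(Real.sin θ - (θ - θ ^ 3 / 6)) - θ ^ 3 / 6| := by congr 1; ring
      _ ≤ |Real.sin θ - (θ - θ ^ 3 / 6)| + |θ ^ 3 / 6| := abs_sub _ _
      _ ≤ θ ^ 2 / 2 := by
        rw [h8]
        have h9 := sq_nonneg θ
        rw [h7] at h5 h6
        linarith
  have h10 : 2 * Real.cos a - 2 * Real.cos (a + θ) - 2 * Real.sin a * θ =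
      2 * (Real.cos a * (1 - Real.cos θ)) + 2 * (Real.sin a * (Real.sin θ - θ)) := by
    rw [Real.cos_add]
    ring
  rw [h10]
  have h11 : |Real.cos a * (1 - Real.cos θ)| ≤ θ ^ 2 / 2 := by
    rw [abs_mul, abs_of_nonneg h2]
    have := Real.abs_cos_le_one a
    have h12 := abs_nonneg (Real.cos a)
    nlinarith
  have h13 : |Real.sin a * (Real.sin θ - θ)| ≤ θ ^ 2 / 2 := by
    rw [abs_mul]
    have := Real.abs_sin_le_one a
    have h12 := abs_nonneg (Real.sin a)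
    have h14 := abs_nonneg (Real.sin θ - θ)
    nlinarith
  calc |2 * (Real.cos a * (1 - Real.cos θ)) + 2 * (Real.sin a * (Real.sin θ - θ))|
      ≤ |2 * (Real.cos a * (1 - Real.cos θ))| + |2 * (Real.sin a * (Real.sin θ - θ))| :=
        abs_add_le _ _
    _ = 2 * |Real.cos a * (1 - Real.cos θ)| + 2 * |Real.sin a * (Real.sin θ - θ)| := by
        rw [abs_mul 2, abs_mul 2, abs_two]
    _ ≤ 2 * θ ^ 2 := by linarith

/-- The purely real inequality. -/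
private lemma ptw_real {x γ δ L a : ℝ} (hγ : 0 < γ) (hγ1 : γ ≤ 1) (ha : 0 ≤ a) (haγ : a ≤ γ / 8)
    (hL : |L| ≤ 2 * a) (hR : |δ - L| ≤ 2 * a ^ 2) :
    |δ ^ 2 / ((x ^ 2 + γ ^ 2) * ((x + δ) ^ 2 + γ ^ 2)) - L ^ 2 * (1 / (x ^ 2 + γ ^ 2) ^ 2)| ≤
      200 * a ^ 3 / γ * (1 / (x ^ 2 + γ ^ 2) ^ 2) := by
  have ha8 : a ≤ 1 / 8 := by linarith
  have ha2 : a ^ 2 ≤ a / 8 := by nlinarith
  have hδ : |δ| ≤ 9 / 4 * a := by
    have h1 : |δ| ≤ |δ - L| + |L| := by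
      have := abs_add_le (δ - L) L
      simpa using this
    linarith
  have hδγ : |δ| ≤ 9 / 32 * γ := by linarith
  have hδ0 := abs_nonneg δ
  set A := x ^ 2 + γ ^ 2 with hA
  set B := (x + δ) ^ 2 + γ ^ 2 with hB
  have hA0 : 0 < A := by positivity
  have hB0 : 0 < B := by positivity
  have hxγ : 2 * |x| * γ ≤ A := by
    have h1 : A = |x| ^ 2 + γ ^ 2 := by rw [hA, sq_abs]
    rw [h1]
    nlinarith [sq_nonneg (|x| - γ)]
  have hx0 := abs_nonneg x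
  have hxδ : |x| * |δ| ≤ 9 / 64 * A := by nlinarith
  have hBA : A / 2 ≤ B := by
    have h1 : -(|x| * |δ|) ≤ x * δ := by
      rw [← abs_mul]
      exact neg_abs_le _
    have h2 : B = A + 2 * (x * δ) + δ ^ 2 := by rw [hA, hB]; ring
    rw [h2]
    nlinarith [sq_nonneg δ]
  have hAB : |A - B| * γ ≤ 41 / 32 * |δ| * A := by
    have h1 : A - B = -(2 * x * δ + δ ^ 2) := by rw [hA, hB]; ring
    have h2 : |A - B| ≤ 2 * |x| * |δ| + |δ| ^ 2 := by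
      rw [h1, abs_neg]
      refine (abs_add_le _ _).trans (le_of_eq ?_)
      rw [abs_mul, abs_mul, abs_two, abs_pow]
    have h3 : γ ^ 2 ≤ A := by rw [hA]; nlinarith [sq_nonneg x]
    have h4 : (2 * |x| * |δ| + |δ| ^ 2) * γ ≤ 41 / 32 * |δ| * A := by
      have h5 : 2 * |x| * |δ| * γ ≤ |δ| * A := by nlinarith
      have h6 : |δ| ^ 2 * γ ≤ 9 / 32 * |δ| * A := by
        have h7 : |δ| * γ ≤ 9 / 32 * A := by nlinarith
        nlinarith
      linarith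
    exact (mul_le_mul_of_nonneg_right h2 hγ.le).trans h4
  have key : |δ ^ 2 * A / B - L ^ 2| ≤ 200 * a ^ 3 / γ := by
    have h1 : δ ^ 2 * A / B - L ^ 2 = (δ - L) * (δ + L) + δ ^ 2 * (A - B) / B := by
      field_simp
      ring
    have h2 : |(δ - L) * (δ + L)| ≤ 9 * a ^ 3 := by
      rw [abs_mul]
      have h3 : |δ + L| ≤ 9 / 2 * a := by
        refine (abs_add_le _ _).trans ?_
        linarith
      calc |δ - L| * |δ + L| ≤ (2 * a ^ 2) * (9 / 2 * a) := by gcongr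
        _ = 9 * a ^ 3 := by ring
    have h4 : |δ ^ 2 * (A - B) / B| ≤ 41 / 16 * (9 / 4 * a) ^ 3 / γ := by
      rw [abs_div, abs_mul, abs_of_pos hB0, abs_pow, div_le_div_iff₀ hB0 hγ]
      calc |δ| ^ 2 * |A - B| * γ = |δ| ^ 2 * (|A - B| * γ) := by ring
        _ ≤ |δ| ^ 2 * (41 / 32 * |δ| * A) := by gcongr
        _ = 41 / 16 * |δ| ^ 3 * (A / 2) := by ring
        _ ≤ 41 / 16 * (9 / 4 * a) ^ 3 * B := by gcongr
    have h5 : 9 * a ^ 3 ≤ 9 * a ^ 3 / γ := by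
      rw [le_div_iff₀ hγ]
      have : 0 ≤ a ^ 3 := by positivity
      nlinarith
    have h6 : 9 * a ^ 3 / γ + 41 / 16 * (9 / 4 * a) ^ 3 / γ ≤ 200 * a ^ 3 / γ := by
      rw [← add_div]
      have h7 : 0 ≤ a ^ 3 := by positivity
      apply div_le_div_of_nonneg_right _ hγ.le
      nlinarith
    rw [h1]
    refine (abs_add_le _ _).trans ?_
    linarith
  have h8 : δ ^ 2 / (A * B) - L ^ 2 * (1 / A ^ 2) = (δ ^ 2 * A / B - L ^ 2) * (1 / A ^ 2) := by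
    field_simp
  rw [h8, abs_mul, abs_of_pos (by positivity : (0 : ℝ) < 1 / A ^ 2)]
  exact mul_le_mul_of_nonneg_right key (by positivity)

theorem ptw {d n : ℕ} {ζ : ℂ} (hζ : 0 < ζ.im) (hζ1 : ζ.im ≤ 1) (k q : Tor d n)
    (hk : a1 k ≤ ζ.im / 8) :
    |‖mq ζ (q + k) - mq ζ q‖ ^ 2 -
        (∑ l, 2 * Real.sin (ang n (q l)) * ang n (k l)) ^ 2 * ‖mq ζ q‖ ^ 4| ≤
      200 * a1 k ^ 3 / ζ.im * ‖mq ζ q‖ ^ 4 := by
  have ha0 : 0 ≤ a1 k := Finset.sum_nonneg fun _ _ => abs_nonneg _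
  set L : ℝ := ∑ l, 2 * Real.sin (ang n (q l)) * ang n (k l) with hLdef
  set δ : ℝ := omg (q + k) - omg q with hδdef
  set x : ℝ := omg q - ζ.re with hx
  have hL : |L| ≤ 2 * a1 k := by
    rw [hLdef]
    unfold a1
    rw [Finset.mul_sum]
    refine (Finset.abs_sum_le_sum_abs _ _).trans (Finset.sum_le_sum fun l _ => ?_)
    rw [abs_mul, abs_mul, abs_two]
    have h1 := Real.abs_sin_le_one (ang n (q l))
    have h2 := abs_nonneg (ang n (k l))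
    nlinarith
  have hone : ∀ l, |ang n (k l)| ≤ 1 := by
    intro l
    have h1 : |ang n (k l)| ≤ a1 k :=
      Finset.single_le_sum (f := fun l => |ang n (k l)|) (fun _ _ => abs_nonneg _) (mem_univ l)
    linarith
  have hR : |δ - L| ≤ 2 * a1 k ^ 2 := by
    have h1 : δ - L = ∑ l, (2 * Real.cos (ang n (q l)) -
        2 * Real.cos (ang n (q l) + ang n (k l)) - 2 * Real.sin (ang n (q l)) * ang n (k l)) := by
      rw [hδdef, hLdef]
      unfold omg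
      rw [← Finset.sum_sub_distrib, ← Finset.sum_sub_distrib]
      refine Finset.sum_congr rfl fun l _ => ?_
      rw [Pi.add_apply, ptw_cos]
      ring
    rw [h1]
    refine (Finset.abs_sum_le_sum_abs _ _).trans ?_
    refine (Finset.sum_le_sum fun l _ => ptw_one (hone l)).trans ?_
    rw [← Finset.mul_sum]
    have h2 : ∑ l, ang n (k l) ^ 2 ≤ a1 k ^ 2 := by
      unfold a1
      have h3 := Finset.sum_sq_le_sq_sum_of_nonneg (s := Finset.univ)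
        (f := fun l => |ang n (k l)|) (fun _ _ => abs_nonneg _)
      simpa only [sq_abs] using h3
    linarith
  have hD : ∀ p : Tor d n, 0 < (omg p - ζ.re) ^ 2 + ζ.im ^ 2 := fun p => by positivity
  have hne : ∀ p : Tor d n, ((omg p : ℝ) : ℂ) - ζ ≠ 0 := by
    intro p h
    have := congrArg Complex.im h
    simp at this
    linarith
  have hns : ∀ p : Tor d n, ‖mq ζ p‖ ^ 2 = 1 / ((omg p - ζ.re) ^ 2 + ζ.im ^ 2) := by
    intro p
    unfold mq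
    exact fb34_norm_inv (omg p) ζ
  have h4 : ‖mq ζ q‖ ^ 4 = 1 / (x ^ 2 + ζ.im ^ 2) ^ 2 := by
    have : ‖mq ζ q‖ ^ 4 = (‖mq ζ q‖ ^ 2) ^ 2 := by ring
    rw [this, hns, ← hx, div_pow, one_pow]
  have hsub : mq ζ (q + k) - mq ζ q = -((δ : ℝ) : ℂ) * (mq ζ q * mq ζ (q + k)) := by
    unfold mq
    have e1 := hne q
    have e2 := hne (q + k)
    rw [hδdef]
    push_cast
    field_simp
    ring
  have h5 : ‖mq ζ (q + k) - mq ζ q‖ ^ 2 =
      δ ^ 2 / ((x ^ 2 + ζ.im ^ 2) * ((x + δ) ^ 2 + ζ.im ^ 2)) := by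
    rw [hsub, norm_mul, norm_mul, norm_neg, mul_pow, mul_pow, hns, hns, Complex.norm_real,
      Real.norm_eq_abs, sq_abs]
    have e3 : omg (q + k) - ζ.re = x + δ := by rw [hx, hδdef]; ring
    rw [e3, ← hx]
    have := hD q
    rw [← hx] at this
    have h6 := hD (q + k)
    rw [e3] at h6
    field_simp
  rw [h5, h4]
  exact ptw_real hζ hζ1 ha0 hk hL hR

end Pool.Agent.QDF
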