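import Pool.Agent.QDF.TSq
import Pool.Agent.QDF.Pars
import Pool.Agent.QDF.Ptw

/-! QDF/QAs. The asymptotics of `Qf ζ k` for `a1 k ≤ γ/8`, `γ = Im ζ`.

By `Q_pars`, `ptw` and `flipq` (`N = (2n+1)^d`, `θ = ang k`, `tavg` as a real average)
`2Q = Σ_l θ_l² (1/N)Σ_q 4 sin²(q_l)‖m‖⁴ + O(200 a1³/γ · (1/N)Σ‖m‖⁴)`.
By `mq_four`: `(1/N)Σ 4 sin²(q_l)‖m‖⁴ = Im tavg(4 sin² m)/(2γ³) - Re tavg(4 sin² m²)/(2γ²)`;
`Im tavg(4 sin² m) = 2 Im (Gr 00 - Gr 0,2e_l)` (`tavg_sin`), and `Gr_ph` for `m = 0` and `m = 2`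
(`Pi.single j ((0:ℤ) : ZMod _) = 0`) gives `= 2 (Ph d 0 ζ - Ph d 2 ζ).im + O(C/((2n+1)γ²))`.
`γ |Re tavg(4 sin² m²)| ≤ C(√γ + 1/(γ²(2n+1)))` (`tavg_sq`).
`(1/N)Σ‖m‖⁴ ≤ γ^(-2)(1/N)Σ‖m‖² = γ^(-3) Im tavg m = γ^(-3) Im Gr 00 ≤ γ^(-3)(C + C/((2n+1)γ²))`
(`mq_im`, `tavg_mq`, `Gr_ph`, `Ph_le`). Here one must absorb `a1³/γ · 1/((2n+1)γ²)`: as
`a1 ≤ γ/8` and `a1² ≤ d a2` it is `≤ d a2 /((2n+1)γ²)`.
Multiply by `γ³/2`: `|γ³Q - (a2/2)(Ph0-Ph2).im| ≤ C(a2(√γ + 1/(γ²(2n+1))) + a1³/γ)`. -/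

open MeasureTheory Finset Matrix Pool.Agent.BK Pool.Agent.BK3

noncomputable section

namespace Pool.Agent.QDF

private lemma qas_cast {n d : ℕ} :
    (1 / (2 * n + 1 : ℂ) ^ d) = (((1 / (2 * n + 1 : ℝ) ^ d) : ℝ) : ℂ) := by
  push_cast
  rfl

private lemma qas_re {d n : ℕ} (F : Tor d n → ℂ) :
    (tavg F).re = (1 / (2 * n + 1 : ℝ) ^ d) * ∑ q, (F q).re := by
  unfold tavg
  rw [qas_cast, Complex.re_ofReal_mul, Complex.re_sum]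

private lemma qas_im {d n : ℕ} (F : Tor d n → ℂ) :
    (tavg F).im = (1 / (2 * n + 1 : ℝ) ^ d) * ∑ q, (F q).im := by
  unfold tavg
  rw [qas_cast, Complex.im_ofReal_mul, Complex.im_sum]

private lemma qas_A {d n : ℕ} {ζ : ℂ} (hγ : 0 < ζ.im) (l : Fin d) :
    (1 / (2 * n + 1 : ℝ) ^ d) *
        ∑ q : Tor d n, 4 * Real.sin (ang n (q l)) ^ 2 * ‖mq ζ q‖ ^ 4 =
      (tavg (fun q : Tor d n => ((4 * Real.sin (ang n (q l)) ^ 2 : ℝ) : ℂ) * mq ζ q)).im /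
          (2 * ζ.im ^ 3) -
        (tavg (fun q : Tor d n => ((4 * Real.sin (ang n (q l)) ^ 2 : ℝ) : ℂ) *
          mq ζ q ^ 2)).re / (2 * ζ.im ^ 2) := by
  have h : ∀ q : Tor d n, 4 * Real.sin (ang n (q l)) ^ 2 * ‖mq ζ q‖ ^ 4 =
      (((4 * Real.sin (ang n (q l)) ^ 2 : ℝ) : ℂ) * mq ζ q).im / (2 * ζ.im ^ 3) -
      (((4 * Real.sin (ang n (q l)) ^ 2 : ℝ) : ℂ) * mq ζ q ^ 2).re / (2 * ζ.im ^ 2) := by
    intro q
    rw [mq_four hγ q, Complex.im_ofReal_mul, Complex.re_ofReal_mul]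
    ring
  rw [Finset.sum_congr rfl fun q _ => h q, Finset.sum_sub_distrib, ← Finset.sum_div,
    ← Finset.sum_div, qas_re, qas_im]
  ring

theorem Q_asym {d : ℕ} (hd : 3 ≤ d) : ∃ C : ℝ, 0 < C ∧ ∀ (n : ℕ) (ζ : ℂ), 2 ≤ n → 0 < ζ.im →
    ζ.im ≤ 1 → ∀ k : Tor d n, a1 k ≤ ζ.im / 8 →
    |ζ.im ^ 3 * Qf ζ k - a2 k / 2 * (Ph d 0 ζ - Ph d 2 ζ).im| ≤
      C * (a2 k * (√ζ.im + 1 / (ζ.im ^ 2 * (2 * n + 1))) + a1 k ^ 3 / ζ.im) := by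
  obtain ⟨C0, hC0, h0⟩ := Gr_ph hd 0
  obtain ⟨C2, hC2, h2⟩ := Gr_ph hd 2
  obtain ⟨C3, hC3, h3⟩ := tavg_sq hd
  obtain ⟨C5, hC5, h5⟩ := Ph_le hd 0
  refine ⟨C0 + C2 + C3 + 100 * C5 + 25 * C0 * d, by positivity, ?_⟩
  intro n ζ hn hγ hγ1 k hk
  have hn0 : 0 < n := by omega
  have hN : (0:ℝ) < 2 * n + 1 := by positivity
  obtain ⟨e', he'⟩ : ∃ e' : ℝ, e' = 1 / (ζ.im ^ 2 * (2 * n + 1)) := ⟨_, rfl⟩
  obtain ⟨e, he⟩ : ∃ e : ℝ, e = √ζ.im + 1 / (ζ.im ^ 2 * (2 * n + 1)) := ⟨_, rfl⟩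
  have he'0 : 0 ≤ e' := by rw [he']; positivity
  have hee' : e' ≤ e := by
    rw [he, ← he']
    have := Real.sqrt_nonneg ζ.im
    linarith
  have he0 : 0 ≤ e := he'0.trans hee'
  rw [← he]
  obtain ⟨N, hNd⟩ : ∃ N : ℝ, N = 1 / (2 * n + 1 : ℝ) ^ d := ⟨_, rfl⟩
  have hN0 : 0 < N := by rw [hNd]; positivity
  obtain ⟨γ, hγd⟩ : ∃ γ : ℝ, γ = ζ.im := ⟨_, rfl⟩
  have j0 : Fin d := ⟨0, by omega⟩
  obtain ⟨S4, hS4⟩ : ∃ S4 : ℝ, S4 = N * ∑ q : Tor d n, ‖mq ζ q‖ ^ 4 := ⟨_, rfl⟩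
  obtain ⟨A, hA⟩ : ∃ A : Fin d → ℝ, A = fun l =>
    N * ∑ q : Tor d n, 4 * Real.sin (ang n (q l)) ^ 2 * ‖mq ζ q‖ ^ 4 := ⟨_, rfl⟩
  have s1 : |2 * Qf ζ k - ∑ l, ang n (k l) ^ 2 * A l| ≤ 200 * a1 k ^ 3 / ζ.im * S4 := by
    have e1 := Q_pars hn0 hγ k
    rw [← hNd] at e1
    have e2 := flipq (n := n) ζ (fun l => ang n (k l))
    have e3 : ∑ l, ang n (k l) ^ 2 * A l = N * ∑ q : Tor d n,
        (∑ l, 2 * Real.sin (ang n (q l)) * ang n (k l)) ^ 2 * ‖mq ζ q‖ ^ 4 := by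
      rw [e2, Finset.mul_sum]
      refine Finset.sum_congr rfl fun l _ => ?_
      simp only [hA]
      ring
    rw [e1, e3, ← mul_sub, ← Finset.sum_sub_distrib, abs_mul, abs_of_pos hN0]
    have e4 : |∑ q : Tor d n, (‖mq ζ (q + k) - mq ζ q‖ ^ 2 -
        (∑ l, 2 * Real.sin (ang n (q l)) * ang n (k l)) ^ 2 * ‖mq ζ q‖ ^ 4)| ≤
        200 * a1 k ^ 3 / ζ.im * ∑ q : Tor d n, ‖mq ζ q‖ ^ 4 := by
      refine (Finset.abs_sum_le_sum_abs _ _).trans ?_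
      rw [Finset.mul_sum]
      exact Finset.sum_le_sum fun q _ => ptw hγ hγ1 k q hk
    refine (mul_le_mul_of_nonneg_left e4 hN0.le).trans (le_of_eq ?_)
    rw [hS4]
    ring
  have g0 : ‖Gr (H0 d n) 0 ζ 0 0 - Ph d 0 ζ‖ ≤ C0 * e' := by
    have e4 := h0 n ζ j0 hn0 (by simp) hγ hγ1
    rw [Int.cast_zero, Pi.single_zero] at e4
    refine e4.trans (le_of_eq ?_)
    rw [he']
    ring
  have s2 : ∀ l, |ζ.im ^ 3 * A l - (Ph d 0 ζ - Ph d 2 ζ).im| ≤ (C0 + C2 + C3) * e := by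
    intro l
    have e1 := qas_A (n := n) hγ l
    rw [← hNd] at e1
    have e1' : A l = N * ∑ q : Tor d n, 4 * Real.sin (ang n (q l)) ^ 2 * ‖mq ζ q‖ ^ 4 := by
      rw [hA]
    rw [← e1', tavg_sin hn0 hγ l] at e1
    have e3 := h3 n ζ l hn hγ hγ1
    rw [← he] at e3
    have g2 : ‖Gr (H0 d n) 0 ζ 0 (Pi.single l ((2 : ℤ) : ZMod (2 * n + 1))) - Ph d 2 ζ‖ ≤
        C2 * e' := by
      have e4 := h2 n ζ l hn0 (by rw [abs_of_pos (by norm_num)]; exact_mod_cast hn) hγ hγ1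
      refine e4.trans (le_of_eq ?_)
      rw [he']
      ring
    obtain ⟨T2, hT2⟩ : ∃ T2 : ℂ, T2 = tavg (fun q : Tor d n =>
      ((4 * Real.sin (ang n (q l)) ^ 2 : ℝ) : ℂ) * mq ζ q ^ 2) := ⟨_, rfl⟩
    rw [← hT2] at e1 e3
    obtain ⟨G0, hG0⟩ : ∃ G0 : ℂ, G0 = Gr (H0 d n) 0 ζ 0 0 := ⟨_, rfl⟩
    obtain ⟨G2, hG2⟩ : ∃ G2 : ℂ, G2 =
      Gr (H0 d n) 0 ζ 0 (Pi.single l ((2 : ℤ) : ZMod (2 * n + 1))) := ⟨_, rfl⟩
    rw [← hG0] at e1 g0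
    rw [← hG2] at e1 g2
    have f1 : |(G0 - Ph d 0 ζ).im| ≤ C0 * e' := (Complex.abs_im_le_norm _).trans g0
    have f2 : |(G2 - Ph d 2 ζ).im| ≤ C2 * e' := (Complex.abs_im_le_norm _).trans g2
    have f3 : |ζ.im * T2.re| ≤ C3 * e := by
      rw [abs_mul, abs_of_pos hγ]
      exact (mul_le_mul_of_nonneg_left (Complex.abs_re_le_norm _) hγ.le).trans e3
    have f5 : (2 * (G0 - G2)).im = 2 * (G0.im - G2.im) := by simp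
    have f4 : ζ.im ^ 3 * A l - (Ph d 0 ζ - Ph d 2 ζ).im =
        (G0 - Ph d 0 ζ).im - (G2 - Ph d 2 ζ).im - ζ.im * T2.re / 2 := by
      rw [e1, f5]
      simp only [Complex.sub_im]
      field_simp
      ring
    rw [f4]
    have m0 : C0 * e' ≤ C0 * e := mul_le_mul_of_nonneg_left hee' hC0.le
    have m2 : C2 * e' ≤ C2 * e := mul_le_mul_of_nonneg_left hee' hC2.le
    have m3 : 0 ≤ C3 * e := by positivity
    have m4 : (C0 + C2 + C3) * e = C0 * e + C2 * e + C3 * e := by ring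
    rw [m4]
    have a1' := abs_le.1 f1
    have a2' := abs_le.1 f2
    have a3' := abs_le.1 f3
    rw [abs_le]
    constructor <;> linarith [a1'.1, a1'.2, a2'.1, a2'.2, a3'.1, a3'.2]
  have s3 : ζ.im ^ 3 * S4 ≤ C5 + C0 * e' := by
    have e1 : ∀ q : Tor d n, ζ.im ^ 3 * ‖mq ζ q‖ ^ 4 ≤ (mq ζ q).im := by
      intro q
      obtain ⟨i1, i2⟩ := mq_im hγ q
      rw [i1]
      have h1 : ζ.im * ‖mq ζ q‖ ≤ 1 := by
        rw [le_div_iff₀ hγ] at i2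
        linarith
      have h2 : 0 ≤ ‖mq ζ q‖ := norm_nonneg _
      have h3 : ζ.im ^ 2 * ‖mq ζ q‖ ^ 2 ≤ 1 := by
        rw [← mul_pow]
        exact pow_le_one₀ (by positivity) h1
      calc ζ.im ^ 3 * ‖mq ζ q‖ ^ 4 = (ζ.im * ‖mq ζ q‖ ^ 2) * (ζ.im ^ 2 * ‖mq ζ q‖ ^ 2) := by
            ring
        _ ≤ (ζ.im * ‖mq ζ q‖ ^ 2) * 1 := mul_le_mul_of_nonneg_left h3 (by positivity)
        _ = _ := mul_one _
    have e2 : ζ.im ^ 3 * S4 ≤ (tavg (mq ζ : Tor d n → ℂ)).im := by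
      rw [qas_im, hS4, ← hNd]
      calc ζ.im ^ 3 * (N * ∑ q : Tor d n, ‖mq ζ q‖ ^ 4) =
          N * ∑ q : Tor d n, ζ.im ^ 3 * ‖mq ζ q‖ ^ 4 := by
            rw [← Finset.mul_sum]
            ring
        _ ≤ N * ∑ q : Tor d n, (mq ζ q).im :=
            mul_le_mul_of_nonneg_left (Finset.sum_le_sum fun q _ => e1 q) hN0.le
    rw [tavg_mq hn0 hγ] at e2
    have e3 : (Gr (H0 d n) 0 ζ 0 0).im ≤ ‖Gr (H0 d n) 0 ζ 0 0‖ :=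
      (le_abs_self _).trans (Complex.abs_im_le_norm _)
    have e4 : ‖Gr (H0 d n) 0 ζ 0 0‖ ≤ ‖Ph d 0 ζ‖ + ‖Gr (H0 d n) 0 ζ 0 0 - Ph d 0 ζ‖ :=
      norm_le_norm_add_norm_sub' _ _
    have e5 := h5 ζ hγ.le
    linarith
  have ha2 : 0 ≤ a2 k := Finset.sum_nonneg fun _ _ => sq_nonneg _
  have ha1 : 0 ≤ a1 k := Finset.sum_nonneg fun _ _ => abs_nonneg _
  have hcs : a1 k ^ 2 ≤ d * a2 k := by
    unfold a1 a2
    have h := sq_sum_le_card_mul_sum_sq (s := (univ : Finset (Fin d)))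
      (f := fun l => |ang n (k l)|)
    simpa using h
  have hcube : a1 k ^ 3 / ζ.im ≤ d * a2 k / 8 := by
    rw [div_le_iff₀ hγ]
    calc a1 k ^ 3 = a1 k ^ 2 * a1 k := by ring
      _ ≤ (d * a2 k) * (ζ.im / 8) := mul_le_mul hcs hk ha1 (by positivity)
      _ = _ := by ring
  have s4 : |∑ l, ang n (k l) ^ 2 * (ζ.im ^ 3 * A l) - a2 k * (Ph d 0 ζ - Ph d 2 ζ).im| ≤
      a2 k * ((C0 + C2 + C3) * e) := by
    unfold a2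
    rw [Finset.sum_mul, ← Finset.sum_sub_distrib, Finset.sum_mul]
    refine (Finset.abs_sum_le_sum_abs _ _).trans (Finset.sum_le_sum fun l _ => ?_)
    rw [← mul_sub, abs_mul, abs_of_nonneg (sq_nonneg _)]
    exact mul_le_mul_of_nonneg_left (s2 l) (sq_nonneg _)
  have s5 : |2 * (ζ.im ^ 3 * Qf ζ k) - ∑ l, ang n (k l) ^ 2 * (ζ.im ^ 3 * A l)| ≤
      200 * (a1 k ^ 3 / ζ.im) * (C5 + C0 * e') := by
    have h6 : 2 * (ζ.im ^ 3 * Qf ζ k) - ∑ l, ang n (k l) ^ 2 * (ζ.im ^ 3 * A l) =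
        ζ.im ^ 3 * (2 * Qf ζ k - ∑ l, ang n (k l) ^ 2 * A l) := by
      have h7 : ∑ l, ang n (k l) ^ 2 * (ζ.im ^ 3 * A l) =
          ζ.im ^ 3 * ∑ l, ang n (k l) ^ 2 * A l := by
        rw [Finset.mul_sum]
        refine Finset.sum_congr rfl fun l _ => ?_
        ring
      rw [h7]
      ring
    rw [h6, abs_mul, abs_of_pos (by positivity : 0 < ζ.im ^ 3)]
    calc ζ.im ^ 3 * _ ≤ ζ.im ^ 3 * (200 * a1 k ^ 3 / ζ.im * S4) :=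
          mul_le_mul_of_nonneg_left s1 (by positivity)
      _ = 200 * (a1 k ^ 3 / ζ.im) * (ζ.im ^ 3 * S4) := by ring
      _ ≤ _ := mul_le_mul_of_nonneg_left s3 (by positivity)
  obtain ⟨c, hc⟩ : ∃ c : ℝ, c = a1 k ^ 3 / ζ.im := ⟨_, rfl⟩
  have hc0 : 0 ≤ c := by rw [hc]; positivity
  rw [← hc] at s5 hcube ⊢
  obtain ⟨D, hD⟩ : ∃ D : ℝ, D = (Ph d 0 ζ - Ph d 2 ζ).im := ⟨_, rfl⟩
  rw [← hD] at s4 ⊢
  obtain ⟨Z, hZ⟩ : ∃ Z : ℝ, Z = ∑ l, ang n (k l) ^ 2 * (ζ.im ^ 3 * A l) := ⟨_, rfl⟩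
  rw [← hZ] at s4 s5
  obtain ⟨X, hX⟩ : ∃ X : ℝ, X = ζ.im ^ 3 * Qf ζ k := ⟨_, rfl⟩
  rw [← hX] at s5 ⊢
  have t1 : 200 * c * (C5 + C0 * e') ≤ 200 * C5 * c + 25 * C0 * d * (a2 k * e) := by
    have u1 : 200 * c * (C0 * e') ≤ 200 * (d * a2 k / 8) * (C0 * e) := by
      have : c * (C0 * e') ≤ (d * a2 k / 8) * (C0 * e) :=
        mul_le_mul hcube (mul_le_mul_of_nonneg_left hee' hC0.le) (by positivity) (by positivity)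
      linarith
    have u2 : 200 * (d * a2 k / 8) * (C0 * e) = 25 * C0 * d * (a2 k * e) := by ring
    have u3 : 200 * c * (C5 + C0 * e') = 200 * C5 * c + 200 * c * (C0 * e') := by ring
    linarith
  have t2 : |2 * X - a2 k * D| ≤ 200 * C5 * c + 25 * C0 * d * (a2 k * e) +
      (C0 + C2 + C3) * (a2 k * e) := by
    have u1 : |2 * X - a2 k * D| ≤ |2 * X - Z| + |Z - a2 k * D| := abs_sub_le _ _ _
    have u2 : a2 k * ((C0 + C2 + C3) * e) = (C0 + C2 + C3) * (a2 k * e) := by ring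
    linarith
  have t3 : |X - a2 k / 2 * D| = |2 * X - a2 k * D| / 2 := by
    rw [show X - a2 k / 2 * D = (2 * X - a2 k * D) / 2 by ring, abs_div, abs_two]
  rw [t3]
  have v1 : 0 ≤ a2 k * e := by positivity
  have v2 : 0 ≤ (C0 + C2 + C3) * (a2 k * e) := by positivity
  have v3 : 0 ≤ (C0 + C2 + C3) * c := by positivity
  have v4 : 0 ≤ 25 * C0 * d * (a2 k * e) := by positivity
  have v5 : 0 ≤ 25 * C0 * d * c := by positivity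
  have v6 : 0 ≤ 100 * C5 * (a2 k * e) := by positivity
  have v7 : (C0 + C2 + C3 + 100 * C5 + 25 * C0 * d) * (a2 k * e + c) =
      (C0 + C2 + C3) * (a2 k * e) + (C0 + C2 + C3) * c + 100 * C5 * (a2 k * e) +
      100 * C5 * c + 25 * C0 * d * (a2 k * e) + 25 * C0 * d * c := by ring
  rw [v7]
  linarith

end Pool.Agent.QDF
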