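import Pool.Agent.QDF.GbC
import Pool.Agent.QDF.LowE
import Pool.Agent.BK3.TorQ

/-! QDF/QCv. Convergence of the diffusive term.

Notation: `λ = π.lam`, `η = π.eta`, `γ = (zt ν s2 c.d π).im`, `Q = Qk ν s2 c.d π k = Qf (zt ..) k`
(`Qk_eq`), `θ_l = ang n (k l)`, `|θ_l - λ√η ξ_l| ≤ λ^10`, `|ξ_l| ≤ K`, `λ^A ≤ η ≤ λ^(2+s)`, `A ≤ 3`.
* `Sml`: `|θ_l| ≤ λ√ηK + λ^10 ≤ λ^(2+s/2)K + λ^10 ≤ κ²s2/8 λ²` for small `λ`. Similarly
  `a1 k ≤ d(λ√ηK+λ^10) ≤ γ/8` by `γ ≥ κ s2/4 λ²` (`zfacts`, `im_lo`).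
* `Q_asym`, multiplied by `λ²s2/(γ²η)`:
  `λ²s2(γQ)/η = λ²s2 a2/(2γ²η) · (Ph0-Ph2)(ζ).im + err`,
  `|err| ≤ C λ²s2/(γ²η)(a2(√γ + 1/(γ²(2n+1))) + a1³/γ)`.
  `a2/(λ²η) = Σξ_l² + O(λ^7)`: `|θ_l² - λ²ηξ_l²| ≤ λ^10(2λ√ηK+λ^10)`, divided by `λ²η ≥ λ^5`.
  `λ²/γ` is bounded (`≤ 4/(κ s2)`), `γ → 0`, `1/(γ²(2n+1)) ≤ γ^8`, `a1³ ≤ (d(K+1)λ√η)³`, so the `a1`
  term is `≤ C' √η/λ ≤ C' λ^(s/2)`. So `err → 0`.
* By `gb_conv`: `γ/λ² → s2 g0(E0)`, `(Ph0-Ph2)(ζ).im → (Ph0-Ph2)(E0).im`, and `g0(E0) ≥ κ`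
  (`low_E`, as `E0 ∈ [lo',hi']` for small `λ`, `hc.wlo`, `hc.whi`, `hc.free`). Hence
  `λ²s2(γQ)/η → s2 x2 ξ (Ph0-Ph2)(E0).im/(2 (s2 g0)²) = DD d s2 E0 · x2 ξ`.
* `γQ = (η/(λ²s2))·(λ²s2γQ/η) ≤ λ^s/s2 · (bounded) → 0`; `0 ≤ γQ` (`torq`). -/

open MeasureTheory Finset Matrix Pool.Agent.BK Pool.Agent.BK3

noncomputable section

namespace Pool.Agent.QDF

private lemma qc_lip {s2 a U Pm u x P P' w w' δ : ℝ} (hs : 0 < s2) (ha : 0 < a) (hx : |x| ≤ U)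
    (hP : |P| ≤ Pm) (hP' : |P'| ≤ Pm) (hw : a ≤ w) (hw' : a ≤ w') (h1 : |u - x| ≤ δ)
    (h2 : |P - P'| ≤ δ) (h3 : |w - w'| ≤ δ) :
    |s2 * u * P / (2 * w ^ 2) - s2 * x * P' / (2 * w' ^ 2)| ≤
      δ * (s2 / 2 * (Pm / a ^ 2 + U / a ^ 2 + 2 * U * Pm / a ^ 3)) := by
  have hw0 : 0 < w := ha.trans_le hw
  have hw0' : 0 < w' := ha.trans_le hw'
  have hδ : 0 ≤ δ := (abs_nonneg _).trans h1
  have hU : 0 ≤ U := (abs_nonneg _).trans hx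
  have hPm : 0 ≤ Pm := (abs_nonneg _).trans hP
  obtain ⟨r, hr⟩ : ∃ r, r = w⁻¹ := ⟨_, rfl⟩
  obtain ⟨r', hr'⟩ : ∃ r, r = w'⁻¹ := ⟨_, rfl⟩
  obtain ⟨b, hb⟩ : ∃ b, b = a⁻¹ := ⟨_, rfl⟩
  have hb0 : 0 < b := by rw [hb]; positivity
  have hr0 : 0 < r := by rw [hr]; positivity
  have hr0' : 0 < r' := by rw [hr']; positivity
  have hrb : r ≤ b := by rw [hr, hb]; exact inv_anti₀ ha hw
  have hrb' : r' ≤ b := by rw [hr', hb]; exact inv_anti₀ ha hw'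
  have hrr : |r - r'| ≤ δ * b ^ 2 := by
    have e : r - r' = -((w - w') * (r * r')) := by
      rw [hr, hr']
      field_simp
      ring
    rw [e, abs_neg, abs_mul, abs_of_pos (mul_pos hr0 hr0'), sq]
    exact mul_le_mul h3 (mul_le_mul hrb hrb' hr0'.le hb0.le) (by positivity) hδ
  have e1 : s2 * u * P / (2 * w ^ 2) - s2 * x * P' / (2 * w' ^ 2) =
      s2 / 2 * ((u - x) * P * r ^ 2 + x * (P - P') * r ^ 2 + x * P' * ((r - r') * (r + r'))) := by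
    rw [hr, hr']
    field_simp
    ring
  have e2 : δ * (s2 / 2 * (Pm / a ^ 2 + U / a ^ 2 + 2 * U * Pm / a ^ 3)) =
      s2 / 2 * (δ * Pm * b ^ 2 + U * δ * b ^ 2 + U * Pm * ((δ * b ^ 2) * (2 * b))) := by
    rw [hb]
    field_simp
  rw [e1, e2, abs_mul, abs_of_pos (by positivity : (0 : ℝ) < s2 / 2)]
  apply mul_le_mul_of_nonneg_left _ (by positivity)
  have hr2 : r ^ 2 ≤ b ^ 2 := by gcongr
  refine (abs_add_three _ _ _).trans ?_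
  rw [abs_mul, abs_mul, abs_mul, abs_mul, abs_mul, abs_mul, abs_mul,
    abs_of_pos (by positivity : (0 : ℝ) < r ^ 2), abs_of_pos (by positivity : (0 : ℝ) < r + r')]
  have g1 : |u - x| * |P| * r ^ 2 ≤ δ * Pm * b ^ 2 := by gcongr
  have g2 : |x| * |P - P'| * r ^ 2 ≤ U * δ * b ^ 2 := by gcongr
  have g3 : |x| * |P'| * (|r - r'| * (r + r')) ≤ U * Pm * ((δ * b ^ 2) * (2 * b)) := by
    have : r + r' ≤ 2 * b := by linarith
    gcongr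
  linarith

private lemma qc_tau {A1 A2 A3 A4 A5 A6 B1 B2 B3 B4 B5 B6 : ℝ} (a1 : 0 ≤ A1) (a2 : 0 ≤ A2)
    (a3 : 0 ≤ A3) (a4 : 0 ≤ A4) (a5 : 0 ≤ A5) (a6 : 0 ≤ A6) (b1 : 0 < B1) (b2 : 0 < B2)
    (b3 : 0 < B3) (b4 : 0 < B4) (b5 : 0 < B5) (b6 : 0 < B6) :
    ∃ τ : ℝ, 0 < τ ∧ τ ≤ 1 ∧ A1 * τ ≤ B1 ∧ A2 * τ ≤ B2 ∧ A3 * τ ≤ B3 ∧ A4 * τ ≤ B4 ∧
      A5 * τ ≤ B5 ∧ A6 * τ ≤ B6 := by
  obtain ⟨M, hM⟩ : ∃ M : ℝ, M = 1 + (A1 / B1 + A2 / B2 + A3 / B3 + A4 / B4 + A5 / B5 + A6 / B6) :=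
    ⟨_, rfl⟩
  have h1 : 0 ≤ A1 / B1 := by positivity
  have h2 : 0 ≤ A2 / B2 := by positivity
  have h3 : 0 ≤ A3 / B3 := by positivity
  have h4 : 0 ≤ A4 / B4 := by positivity
  have h5 : 0 ≤ A5 / B5 := by positivity
  have h6 : 0 ≤ A6 / B6 := by positivity
  have hM1 : 1 ≤ M := by linarith
  have hM0 : 0 < M := by linarith
  have key : ∀ A B : ℝ, 0 < B → A / B ≤ M → A * (1 / M) ≤ B := by
    intro A B hB h
    rw [div_le_iff₀ hB] at h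
    rw [mul_one_div, div_le_iff₀ hM0]
    linarith
  refine ⟨1 / M, by positivity, ?_, key _ _ b1 (by linarith), key _ _ b2 (by linarith),
    key _ _ b3 (by linarith), key _ _ b4 (by linarith), key _ _ b5 (by linarith),
    key _ _ b6 (by linarith)⟩
  rw [div_le_one hM0]
  exact hM1

/-- The numbers. -/
private lemma qc_num {d n : ℕ} {s2 a U B C K ε L η r t τ γ Q u u1 u2 P : ℝ}
    (hs : 0 < s2) (ha : 0 < a) (hC : 0 < C) (hK : 0 ≤ K) (hB : 0 < B) (hU : 0 ≤ U)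
    (hL : 0 < L) (hLτ : L ≤ τ) (hτ : τ ≤ 1) (ht0 : 0 < t) (htτ : t ≤ τ)
    (hr : r ^ 2 = η) (hr0 : 0 < r) (hrt : r ≤ L * t)
    (hγ : a * L ^ 2 ≤ γ) (hγ' : γ ≤ B * L ^ 2) (hn : (L ^ 40)⁻¹ ≤ 2 * (n : ℝ) + 1)
    (hu : u = u2 / (L ^ 2 * η)) (hu2 : 0 ≤ u2) (huU : u ≤ U) (hu1 : 0 ≤ u1)
    (hu1' : u1 ≤ d * (K + 1) * (L * r))
    (hQ : |γ ^ 3 * Q - u2 / 2 * P| ≤
      C * (u2 * (√γ + 1 / (γ ^ 2 * (2 * n + 1))) + u1 ^ 3 / γ))
    (hsm : C * s2 * (U / a ^ 2 * (√B + 1 / a ^ 2) + (d * (K + 1)) ^ 3 / a ^ 3) * τ ≤ ε / 2) :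
    |L ^ 2 * s2 * (γ * Q) / η - s2 * u * P / (2 * (γ / L ^ 2) ^ 2)| ≤ ε / 2 := by
  have hL1 : L ≤ 1 := hLτ.trans hτ
  have hη : 0 < η := by rw [← hr]; positivity
  have hγ0 : 0 < γ := lt_of_lt_of_le (by positivity) hγ
  have hn0 : (0 : ℝ) < 2 * (n : ℝ) + 1 := by positivity
  have e1 : L ^ 2 * s2 * (γ * Q) / η - s2 * u * P / (2 * (γ / L ^ 2) ^ 2) =
      L ^ 2 * s2 / (γ ^ 2 * η) * (γ ^ 3 * Q - u2 / 2 * P) := by
    rw [hu]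
    field_simp
  rw [e1, abs_mul, abs_of_pos (by positivity : (0 : ℝ) < L ^ 2 * s2 / (γ ^ 2 * η))]
  have e2 : L ^ 2 * s2 / (γ ^ 2 * η) *
      (C * (u2 * (√γ + 1 / (γ ^ 2 * (2 * n + 1))) + u1 ^ 3 / γ)) =
      C * s2 * (u * (L ^ 2 / γ) ^ 2 * (√γ + 1 / (γ ^ 2 * (2 * n + 1))) +
        (L ^ 2 / γ) ^ 3 * (u1 ^ 3 / (L ^ 4 * η))) := by
    rw [hu]
    field_simp
  have g1 : L ^ 2 / γ ≤ 1 / a := by
    rw [div_le_div_iff₀ hγ0 ha]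
    linarith
  have g10 : 0 < L ^ 2 / γ := by positivity
  have g2 : √γ ≤ √B * L := by
    have h1 : √(B * L ^ 2) = √B * L := by
      rw [Real.sqrt_mul hB.le, Real.sqrt_sq hL.le]
    rw [← h1]
    exact Real.sqrt_le_sqrt hγ'
  have g3 : 1 / (γ ^ 2 * (2 * n + 1)) ≤ 1 / a ^ 2 * L := by
    have h1 : (a * L ^ 2) ^ 2 * (L ^ 40)⁻¹ ≤ γ ^ 2 * (2 * n + 1) := by gcongr
    have h2 : 0 < (a * L ^ 2) ^ 2 * (L ^ 40)⁻¹ := by positivity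
    refine (one_div_le_one_div_of_le h2 h1).trans ?_
    have h3 : 1 / ((a * L ^ 2) ^ 2 * (L ^ 40)⁻¹) = 1 / a ^ 2 * L ^ 36 := by
      field_simp
    rw [h3]
    have h4 : L ^ 36 ≤ L := by
      calc L ^ 36 ≤ L ^ 1 := pow_le_pow_of_le_one hL.le hL1 (by norm_num)
        _ = L := pow_one L
    gcongr
  have g4 : u1 ^ 3 / (L ^ 4 * η) ≤ (d * (K + 1)) ^ 3 * t := by
    have h1 : u1 ^ 3 ≤ (d * (K + 1) * (L * r)) ^ 3 := by gcongr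
    rw [div_le_iff₀ (by positivity)]
    refine h1.trans ?_
    have h2 : (d * (K + 1) * (L * r)) ^ 3 = (d * (K + 1)) ^ 3 * (L ^ 3 * r ^ 2) * r := by ring
    have h3 : (d * (K + 1)) ^ 3 * t * (L ^ 4 * η) = (d * (K + 1)) ^ 3 * (L ^ 3 * r ^ 2) * (L * t) := by
      rw [← hr]
      ring
    rw [h2, h3]
    gcongr
  have hu0 : 0 ≤ u := by rw [hu]; positivity
  refine (mul_le_mul_of_nonneg_left hQ (by positivity)).trans ?_
  rw [e2]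
  refine le_trans ?_ hsm
  rw [mul_assoc (C * s2)]
  apply mul_le_mul_of_nonneg_left _ (by positivity)
  have h5 : u * (L ^ 2 / γ) ^ 2 * (√γ + 1 / (γ ^ 2 * (2 * n + 1))) ≤
      U * (1 / a) ^ 2 * (√B * L + 1 / a ^ 2 * L) := by gcongr
  have h6 : (L ^ 2 / γ) ^ 3 * (u1 ^ 3 / (L ^ 4 * η)) ≤
      (1 / a) ^ 3 * ((d * (K + 1)) ^ 3 * t) := by gcongr
  have h7 : U * (1 / a) ^ 2 * (√B * L + 1 / a ^ 2 * L) = U / a ^ 2 * (√B + 1 / a ^ 2) * L := by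
    field_simp
  have h8 : (1 / a) ^ 3 * ((d * (K + 1)) ^ 3 * t) = (d * (K + 1)) ^ 3 / a ^ 3 * t := by
    field_simp
  have h9 : U / a ^ 2 * (√B + 1 / a ^ 2) * L ≤ U / a ^ 2 * (√B + 1 / a ^ 2) * τ := by gcongr
  have h10 : (d * (K + 1)) ^ 3 / a ^ 3 * t ≤ (d * (K + 1)) ^ 3 / a ^ 3 * τ := by gcongr
  rw [add_mul]
  linarith

theorem Q_conv {ν : Measure ℝ} {R s2 : ℝ} (hν : BLaw ν R s2) (c : Cx) (hc : c.Ok) {s b K ε : ℝ}
    (hs : 0 < s) (hb : 0 ≤ b) (hK : 0 ≤ K) (hε : 0 < ε) :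
    ∃ lam1 : ℝ, 0 < lam1 ∧ lam1 ≤ 1 ∧ ∀ π ∈ c.PT lam1, π.eta ≤ π.lam ^ (2 + s) →
      ∀ E0 : ℝ, |E0 - π.E| ≤ b * π.lam → ∀ ξ : Fin c.d → ℝ, (∀ l, |ξ l| ≤ K) →
      ∀ k : Tor c.d π.n, (∀ l, |ang π.n (k l) - π.lam * √π.eta * ξ l| ≤ π.lam ^ 10) →
        Sml c s2 π k ∧ 0 ≤ (zt ν s2 c.d π).im * Qk ν s2 c.d π k ∧
        (zt ν s2 c.d π).im * Qk ν s2 c.d π k ≤ ε ∧
        |π.lam ^ 2 * s2 * ((zt ν s2 c.d π).im * Qk ν s2 c.d π k) / π.eta -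
          DD c.d s2 E0 * x2 ξ| ≤ ε ∧ c.κ ≤ g0 c.d E0 ∧ 0 ≤ DD c.d s2 E0 := by
  have hκ := hc.free.kap
  have hs2 := hν.s2_pos
  have hd3 := hc.d3
  obtain ⟨C, hC, hQas⟩ := Q_asym hd3
  obtain ⟨C0, hC0, hPh0⟩ := Ph_le hd3 0
  obtain ⟨C2, hC2, hPh2⟩ := Ph_le hd3 2
  obtain ⟨a, ha⟩ : ∃ a : ℝ, a = c.κ * s2 / 4 := ⟨_, rfl⟩
  have ha0 : 0 < a := by rw [ha]; positivity
  obtain ⟨U, hU⟩ : ∃ U : ℝ, U = c.d * K ^ 2 + 1 := ⟨_, rfl⟩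
  have hU0 : 0 ≤ U := by rw [hU]; positivity
  obtain ⟨Pm, hPm⟩ : ∃ Pm : ℝ, Pm = C0 + C2 := ⟨_, rfl⟩
  have hPm0 : 0 ≤ Pm := by rw [hPm]; positivity
  obtain ⟨B, hB⟩ : ∃ B : ℝ, B = s2 * C0 + 1 := ⟨_, rfl⟩
  have hB0 : 0 < B := by rw [hB]; positivity
  obtain ⟨C1, hC1⟩ : ∃ C1 : ℝ, C1 = s2 / 2 * (Pm / a ^ 2 + U / a ^ 2 + 2 * U * Pm / a ^ 3) :=
    ⟨_, rfl⟩
  have hC10 : 0 ≤ C1 := by rw [hC1]; positivity
  obtain ⟨δ, hδ⟩ : ∃ δ : ℝ, δ = min 1 (ε / 2 / (C1 + 1)) := ⟨_, rfl⟩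
  have hδ0 : 0 < δ := by rw [hδ]; positivity
  have hδ1 : δ ≤ 1 := by rw [hδ]; exact min_le_left _ _
  have hδ2 : δ * C1 ≤ ε / 2 := by
    have h1 : δ ≤ ε / 2 / (C1 + 1) := by rw [hδ]; exact min_le_right _ _
    rw [le_div_iff₀ (by positivity), mul_add, mul_one] at h1
    linarith
  obtain ⟨Xm, hXm⟩ : ∃ Xm : ℝ, Xm = Pm / (2 * s2 * c.κ ^ 2) * U + ε := ⟨_, rfl⟩
  have hXm0 : 0 ≤ Xm := by rw [hXm]; positivity
  obtain ⟨g, hg⟩ : ∃ g : ℝ, g = min (c.lo - c.lo') (c.hi' - c.hi) := ⟨_, rfl⟩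
  have hg0 : 0 < g := by
    rw [hg]
    exact lt_min (by linarith [hc.wlo]) (by linarith [hc.whi])
  obtain ⟨τ, hτ0, hτ1, t1, t2, t3, t4, t5, t6⟩ := qc_tau
    (A1 := K + 1) (A2 := 8 * (c.d * (K + 1)))
    (A3 := C * s2 * (U / a ^ 2 * (√B + 1 / a ^ 2) + (c.d * (K + 1)) ^ 3 / a ^ 3))
    (A4 := Xm) (A5 := c.d * (2 * K + 1)) (A6 := b)
    (B1 := c.κ ^ 2 * s2 / 8) (B2 := a) (B3 := ε / 2) (B4 := s2 * ε) (B5 := δ) (B6 := g)
    (by positivity) (by positivity) (by positivity) hXm0 (by positivity) hb (by positivity) ha0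
    (by positivity) (by positivity) hδ0 hg0
  obtain ⟨l1, l10, l11, hl1⟩ := gb_conv hν c hc (s := s) (b := b) (ε := δ / 2) hs hb (by positivity)
  obtain ⟨l2, l20, l21, hl2⟩ := grid hν c hc
  obtain ⟨l3, l30, l31, hl3⟩ := zfacts hν c hc
  obtain ⟨l4, l40, l41, hl4⟩ := torq hν c hc
  obtain ⟨l5, l50, l51, hl5⟩ := sm_one (1 / τ) (show 0 < s / 2 by positivity)
  obtain ⟨l6, l60, l61, hl6⟩ := sm_neg 5 (show (0 : ℝ) < 40 by norm_num)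
  refine ⟨min (min (min l1 l2) (min l3 l4)) (min (min l5 l6) τ), by positivity,
    (min_le_right _ _).trans ((min_le_right _ _).trans hτ1), ?_⟩
  intro π hπ hη E0 hE0 ξ hξ k hk
  have m := hπ.2.1
  have m1 : π.lam ≤ l1 := m.trans ((min_le_left _ _).trans ((min_le_left _ _).trans
    (min_le_left _ _)))
  have m2 : π.lam ≤ l2 := m.trans ((min_le_left _ _).trans ((min_le_left _ _).trans
    (min_le_right _ _)))
  have m3 : π.lam ≤ l3 := m.trans ((min_le_left _ _).trans ((min_le_right _ _).trans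
    (min_le_left _ _)))
  have m4 : π.lam ≤ l4 := m.trans ((min_le_left _ _).trans ((min_le_right _ _).trans
    (min_le_right _ _)))
  have m5 : π.lam ≤ l5 := m.trans ((min_le_right _ _).trans ((min_le_left _ _).trans
    (min_le_left _ _)))
  have m6 : π.lam ≤ l6 := m.trans ((min_le_right _ _).trans ((min_le_left _ _).trans
    (min_le_right _ _)))
  have m7 : π.lam ≤ τ := m.trans ((min_le_right _ _).trans (min_le_right _ _))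
  have hS2 := hl2 π ⟨hπ.1, m2, hπ.2.2⟩
  have Z := hl3 π ⟨⟨hπ.1, m3, hπ.2.2⟩, hS2.2⟩
  have hQ0 := (hl4 π ⟨⟨hπ.1, m4, hπ.2.2⟩, hS2.2⟩ k).1
  obtain ⟨-, q2, q3, q4⟩ := hl1 π ⟨hπ.1, m1, hπ.2.2⟩ hη E0 hE0
  have hL := Z.l0
  have hL1 := Z.l1
  have hη0 := Z.e0
  have hbig : π.lam ^ (-(40 : ℝ)) ≤ 2 * (π.n : ℝ) + 1 := hπ.2.2.1
  have hn2 : 2 ≤ π.n := by
    have h1 := (hl6 π.lam hL m6).trans hbig
    have h2 : (2 : ℝ) ≤ π.n := by linarith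
    exact_mod_cast h2
  have hlo : c.lo ≤ π.E := hπ.2.2.2.2.1
  have hhi : π.E ≤ c.hi := hπ.2.2.2.2.2.1
  -- the window
  have hE0' := abs_le.1 hE0
  have hbL : b * π.lam ≤ g := (mul_le_mul_of_nonneg_left m7 hb).trans t6
  have hg1 : g ≤ c.lo - c.lo' := by rw [hg]; exact min_le_left _ _
  have hg2 : g ≤ c.hi' - c.hi := by rw [hg]; exact min_le_right _ _
  obtain ⟨hg0E, hPE⟩ := low_E hd3 hc.free E0 (by linarith [hE0'.1]) (by linarith [hE0'.2])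
  -- the variables
  obtain ⟨L, hLdef⟩ : ∃ L, L = π.lam := ⟨_, rfl⟩
  obtain ⟨η, hηdef⟩ : ∃ η, η = π.eta := ⟨_, rfl⟩
  obtain ⟨γ, hγdef⟩ : ∃ γ, γ = (zt ν s2 c.d π).im := ⟨_, rfl⟩
  obtain ⟨r, hrdef⟩ : ∃ r, r = √η := ⟨_, rfl⟩
  obtain ⟨t, htdef⟩ : ∃ t, t = L ^ (s / 2) := ⟨_, rfl⟩
  have hLz : 0 < L := by rw [hLdef]; exact hL
  have hLz1 : L ≤ 1 := by rw [hLdef]; exact hL1
  have hLτ : L ≤ τ := by rw [hLdef]; exact m7
  have hηz : 0 < η := by rw [hηdef]; exact hη0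
  have ht0 : 0 < t := by rw [htdef]; exact Real.rpow_pos_of_pos hLz _
  have htτ : t ≤ τ := by
    have h1 := hl5 π.lam hL m5
    rw [← hLdef, ← htdef, one_div, inv_mul_le_iff₀ hτ0, mul_one] at h1
    exact h1
  have hr0 : 0 < r := by rw [hrdef]; exact Real.sqrt_pos.2 hηz
  have hr2 : r ^ 2 = η := by rw [hrdef]; exact Real.sq_sqrt hηz.le
  have hrt : r ≤ L * t := by
    rw [hrdef]
    apply Real.sqrt_le_iff.2
    refine ⟨by positivity, ?_⟩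
    have h1 : (L * t) ^ 2 = L ^ (2 + s) := by
      rw [mul_pow, htdef, ← Real.rpow_natCast (L ^ (s / 2)), ← Real.rpow_mul hLz.le,
        Real.rpow_add hLz, ← Real.rpow_natCast L]
      congr 1
      congr 1
      push_cast
      ring
    rw [h1, hηdef, hLdef]
    exact hη
  have hη3 : L ^ 3 ≤ η := by
    have h1 : π.lam ^ c.A ≤ π.eta := Z.e1
    have h2 : L ^ (3 : ℝ) ≤ L ^ c.A := rp_anti hLz hLz1 hc.A3
    have h3 : L ^ (3 : ℝ) = L ^ 3 := by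
      rw [← Real.rpow_natCast]
      norm_num
    rw [← h3, hηdef]
    rw [hLdef] at h2 ⊢
    exact h2.trans h1
  have hr3 : L ^ 2 ≤ r := by
    rw [hrdef]
    apply Real.le_sqrt_of_sq_le
    calc (L ^ 2) ^ 2 = L ^ 4 := by ring
      _ ≤ L ^ 3 := pow_le_pow_of_le_one hLz.le hLz1 (by norm_num)
      _ ≤ η := hη3
  have hL10 : L ^ 10 ≤ L * r := by
    calc L ^ 10 ≤ L ^ 3 := pow_le_pow_of_le_one hLz.le hLz1 (by norm_num)
      _ = L * L ^ 2 := by ring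
      _ ≤ L * r := by gcongr
  have hk' : ∀ l, |ang π.n (k l) - L * r * ξ l| ≤ L ^ 10 := by
    intro l
    rw [hrdef, hηdef, hLdef]
    exact hk l
  have hθ : ∀ l, |ang π.n (k l)| ≤ (K + 1) * (L * r) := by
    intro l
    have h1 := hk' l
    have h2 : |L * r * ξ l| ≤ L * r * K := by
      rw [abs_mul, abs_of_pos (by positivity : 0 < L * r)]
      gcongr
      exact hξ l
    have h3 : |ang π.n (k l)| ≤ |ang π.n (k l) - L * r * ξ l| + |L * r * ξ l| := by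
      have := abs_add_le (ang π.n (k l) - L * r * ξ l) (L * r * ξ l)
      rwa [sub_add_cancel] at this
    linarith
  have hLr : L * r ≤ L ^ 2 * t := by
    calc L * r ≤ L * (L * t) := by gcongr
      _ = L ^ 2 * t := by ring
  have hγlo : a * L ^ 2 ≤ γ := by
    rw [ha, hγdef, hLdef]
    exact Z.im_lo
  have hγ0 : 0 < γ := lt_of_lt_of_le (by positivity) hγlo
  have hγ1 : γ ≤ 1 := by
    rw [hγdef]
    exact Z.im_hi.trans hc.free.kap1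
  -- Sml
  have hSml : Sml c s2 π k := by
    intro l
    rw [← hLdef]
    refine (hθ l).trans ?_
    calc (K + 1) * (L * r) ≤ (K + 1) * (L ^ 2 * t) := by gcongr
      _ ≤ (K + 1) * (L ^ 2 * τ) := by gcongr
      _ = ((K + 1) * τ) * L ^ 2 := by ring
      _ ≤ c.κ ^ 2 * s2 / 8 * L ^ 2 := by gcongr
  have ha1 : a1 k ≤ c.d * (K + 1) * (L * r) := by
    unfold a1
    refine (Finset.sum_le_sum fun l _ => hθ l).trans (le_of_eq ?_)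
    rw [Finset.sum_const, Finset.card_univ, Fintype.card_fin, nsmul_eq_mul]
    ring
  have ha10 : 0 ≤ a1 k := Finset.sum_nonneg fun l _ => abs_nonneg _
  have ha20 : 0 ≤ a2 k := Finset.sum_nonneg fun l _ => sq_nonneg _
  have ha18 : a1 k ≤ γ / 8 := by
    refine ha1.trans ?_
    calc c.d * (K + 1) * (L * r) ≤ c.d * (K + 1) * (L ^ 2 * t) := by gcongr
      _ ≤ c.d * (K + 1) * (L ^ 2 * τ) := by gcongr
      _ = (8 * (c.d * (K + 1)) * τ) * L ^ 2 / 8 := by ring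
      _ ≤ a * L ^ 2 / 8 := by gcongr
      _ ≤ γ / 8 := by gcongr
  -- u
  obtain ⟨u, hu⟩ : ∃ u : ℝ, u = a2 k / (L ^ 2 * η) := ⟨_, rfl⟩
  have hux : |u - x2 ξ| ≤ δ := by
    have e1 : u - x2 ξ = ∑ l, (ang π.n (k l) ^ 2 - (L * r * ξ l) ^ 2) / (L ^ 2 * η) := by
      have e0 : ∀ l, (L * r * ξ l) ^ 2 / (L ^ 2 * η) = ξ l ^ 2 := by
        intro l
        rw [← hr2]
        field_simp
      rw [hu, a2, x2, Finset.sum_div, ← Finset.sum_sub_distrib]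
      exact Finset.sum_congr rfl fun l _ => by rw [sub_div, e0 l]
    rw [e1]
    have e2 : ∀ l, |(ang π.n (k l) ^ 2 - (L * r * ξ l) ^ 2) / (L ^ 2 * η)| ≤
        (2 * K + 1) * L := by
      intro l
      rw [abs_div, abs_of_pos (by positivity : 0 < L ^ 2 * η), div_le_iff₀ (by positivity)]
      have e3 : ang π.n (k l) ^ 2 - (L * r * ξ l) ^ 2 =
          (ang π.n (k l) - L * r * ξ l) * (ang π.n (k l) + L * r * ξ l) := by ring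
      rw [e3, abs_mul]
      have h2 : |L * r * ξ l| ≤ L * r * K := by
        rw [abs_mul, abs_of_pos (by positivity : 0 < L * r)]
        gcongr
        exact hξ l
      have e4 : |ang π.n (k l) + L * r * ξ l| ≤ (2 * K + 1) * (L * r) := by
        refine (abs_add_le _ _).trans ?_
        linarith [hθ l]
      have e5 : |ang π.n (k l) - L * r * ξ l| * |ang π.n (k l) + L * r * ξ l| ≤
          L ^ 10 * ((2 * K + 1) * (L * r)) :=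
        mul_le_mul (hk' l) e4 (abs_nonneg _) (by positivity)
      refine e5.trans ?_
      have e6 : L ^ 10 ≤ L * (L * r) := by
        calc L ^ 10 ≤ L ^ 4 := pow_le_pow_of_le_one hLz.le hLz1 (by norm_num)
          _ = L * (L * L ^ 2) := by ring
          _ ≤ L * (L * r) := by gcongr
      calc L ^ 10 * ((2 * K + 1) * (L * r)) ≤ (L * (L * r)) * ((2 * K + 1) * (L * r)) := by
            gcongr
        _ = (2 * K + 1) * L * (L ^ 2 * η) := by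
            rw [← hr2]
            ring
    refine (Finset.abs_sum_le_sum_abs _ _).trans ((Finset.sum_le_sum fun l _ => e2 l).trans ?_)
    rw [Finset.sum_const, Finset.card_univ, Fintype.card_fin, nsmul_eq_mul]
    calc (c.d : ℝ) * ((2 * K + 1) * L) = c.d * (2 * K + 1) * L := by ring
      _ ≤ c.d * (2 * K + 1) * τ := by gcongr
      _ ≤ δ := t5
  have hx20 : 0 ≤ x2 ξ := Finset.sum_nonneg fun l _ => sq_nonneg _
  have hx2K : x2 ξ ≤ c.d * K ^ 2 := by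
    unfold x2
    calc ∑ l, ξ l ^ 2 ≤ ∑ _l : Fin c.d, K ^ 2 := Finset.sum_le_sum fun l _ => by
          rw [← sq_abs]
          exact pow_le_pow_left₀ (abs_nonneg _) (hξ l) 2
      _ = c.d * K ^ 2 := by
          rw [Finset.sum_const, Finset.card_univ, Fintype.card_fin, nsmul_eq_mul]
  have hxU : |x2 ξ| ≤ U := by
    rw [abs_of_nonneg hx20, hU]
    linarith
  have huU : u ≤ U := by
    have := (abs_le.1 hux).2
    rw [hU]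
    linarith
  -- P
  have hζ : 0 ≤ (zt ν s2 c.d π).im := by rw [← hγdef]; exact hγ0.le
  have hEim : 0 ≤ ((E0 : ℝ) : ℂ).im := by simp
  obtain ⟨P, hP⟩ : ∃ P : ℝ, P = (Ph c.d 0 (zt ν s2 c.d π) - Ph c.d 2 (zt ν s2 c.d π)).im :=
    ⟨_, rfl⟩
  obtain ⟨P', hP'⟩ : ∃ P' : ℝ, P' = (Ph c.d 0 (E0 : ℂ) - Ph c.d 2 (E0 : ℂ)).im := ⟨_, rfl⟩
  have hPle : |P| ≤ Pm := by
    rw [hP, hPm]
    refine (Complex.abs_im_le_norm _).trans ((norm_sub_le _ _).trans ?_)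
    exact add_le_add (hPh0 _ hζ) (hPh2 _ hζ)
  have hPle' : |P'| ≤ Pm := by
    rw [hP', hPm]
    refine (Complex.abs_im_le_norm _).trans ((norm_sub_le _ _).trans ?_)
    exact add_le_add (hPh0 _ hEim) (hPh2 _ hEim)
  have hPP : |P - P'| ≤ δ := by
    have e1 : P - P' = ((Ph c.d 0 (zt ν s2 c.d π) - Ph c.d 0 (E0 : ℂ)) -
        (Ph c.d 2 (zt ν s2 c.d π) - Ph c.d 2 (E0 : ℂ))).im := by
      rw [hP, hP']
      simp only [Complex.sub_im]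
      ring
    rw [e1]
    refine (Complex.abs_im_le_norm _).trans ((norm_sub_le _ _).trans ?_)
    linarith
  have hg0C : g0 c.d E0 ≤ C0 := by
    unfold g0
    exact (Complex.im_le_norm _).trans (hPh0 _ hEim)
  have hww : |γ / L ^ 2 - s2 * g0 c.d E0| ≤ δ := by
    rw [hγdef, hLdef]
    linarith
  have hγB : γ ≤ B * L ^ 2 := by
    have h1 := (abs_le.1 hww).2
    have h2 : γ / L ^ 2 ≤ B := by
      rw [hB]
      have : s2 * g0 c.d E0 ≤ s2 * C0 := by gcongr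
      linarith
    rwa [div_le_iff₀ (by positivity)] at h2
  have hwa : a ≤ γ / L ^ 2 := by
    rw [le_div_iff₀ (by positivity)]
    exact hγlo
  have hwa' : a ≤ s2 * g0 c.d E0 := by
    have h1 : s2 * c.κ ≤ s2 * g0 c.d E0 := mul_le_mul_of_nonneg_left hg0E hs2.le
    have h2 : 0 < s2 * c.κ := by positivity
    rw [ha]
    linarith
  -- Q
  obtain ⟨Q, hQdef⟩ : ∃ Q : ℝ, Q = Qk ν s2 c.d π k := ⟨_, rfl⟩
  have hQa := hQas π.n (zt ν s2 c.d π) hn2 (by rw [← hγdef]; exact hγ0)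
    (by rw [← hγdef]; exact hγ1) k (by rw [← hγdef]; exact ha18)
  rw [← Qk_eq, ← hγdef, ← hQdef, ← hP] at hQa
  have hn' : (L ^ 40)⁻¹ ≤ 2 * (π.n : ℝ) + 1 := by
    have h1 : L ^ (-(40 : ℝ)) = (L ^ 40)⁻¹ := by
      rw [Real.rpow_neg hLz.le, ← Real.rpow_natCast]
      norm_num
    rw [← h1, hLdef]
    exact hbig
  have hmain1 : |L ^ 2 * s2 * (γ * Q) / η - s2 * u * P / (2 * (γ / L ^ 2) ^ 2)| ≤ ε / 2 :=
    qc_num hs2 ha0 hC hK hB0 hU0 hLz hLτ hτ1 ht0 htτ hr2 hr0 hrt hγlo hγB hn' hu ha20 huU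
      ha10 ha1 hQa t3
  have hmain2 : |s2 * u * P / (2 * (γ / L ^ 2) ^ 2) -
      s2 * x2 ξ * P' / (2 * (s2 * g0 c.d E0) ^ 2)| ≤ ε / 2 := by
    refine (qc_lip hs2 ha0 hxU hPle hPle' hwa hwa' hux hPP hww).trans ?_
    rw [← hC1]
    exact hδ2
  have hg0pos : 0 < g0 c.d E0 := hκ.trans_le hg0E
  have hDD : DD c.d s2 E0 * x2 ξ = s2 * x2 ξ * P' / (2 * (s2 * g0 c.d E0) ^ 2) := by
    rw [DD, ← hP']
    field_simp
  have hP'0 : 0 ≤ P' := by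
    rw [hP']
    linarith
  have hDD0 : 0 ≤ DD c.d s2 E0 := by
    rw [DD, ← hP']
    positivity
  have hfin : |L ^ 2 * s2 * (γ * Q) / η - DD c.d s2 E0 * x2 ξ| ≤ ε := by
    rw [hDD]
    have := abs_sub_le (L ^ 2 * s2 * (γ * Q) / η) (s2 * u * P / (2 * (γ / L ^ 2) ^ 2))
      (s2 * x2 ξ * P' / (2 * (s2 * g0 c.d E0) ^ 2))
    linarith
  have hQ0' : 0 ≤ Q := by rw [hQdef]; exact hQ0
  have hDDle : DD c.d s2 E0 * x2 ξ ≤ Pm / (2 * s2 * c.κ ^ 2) * U := by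
    have h1 : DD c.d s2 E0 ≤ Pm / (2 * s2 * c.κ ^ 2) := by
      rw [DD, ← hP']
      have h2 : P' ≤ Pm := (le_abs_self _).trans hPle'
      gcongr
    have h2 : x2 ξ ≤ U := (le_abs_self _).trans hxU
    gcongr
  refine ⟨hSml, ?_, ?_, ?_, hg0E, hDD0⟩
  · rw [← hγdef, ← hQdef]
    positivity
  · rw [← hγdef, ← hQdef]
    have h1 : L ^ 2 * s2 * (γ * Q) / η ≤ Xm := by
      have := (abs_le.1 hfin).2
      rw [hXm]
      linarith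
    rw [div_le_iff₀ hηz] at h1
    have h2 : η ≤ L ^ 2 * t := by
      rw [← hr2]
      calc r ^ 2 ≤ (L * t) ^ 2 := by gcongr
        _ = L ^ 2 * t * t := by ring
        _ ≤ L ^ 2 * t * 1 := by
            have : t ≤ 1 := htτ.trans hτ1
            gcongr
        _ = L ^ 2 * t := mul_one _
    have h3 : L ^ 2 * s2 * (γ * Q) ≤ L ^ 2 * s2 * ε := by
      calc L ^ 2 * s2 * (γ * Q) ≤ Xm * η := h1
        _ ≤ Xm * (L ^ 2 * t) := by gcongr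
        _ ≤ Xm * (L ^ 2 * τ) := by gcongr
        _ = L ^ 2 * (Xm * τ) := by ring
        _ ≤ L ^ 2 * (s2 * ε) := by gcongr
        _ = L ^ 2 * s2 * ε := by ring
    exact le_of_mul_le_mul_left h3 (by positivity)
  · rw [← hγdef, ← hQdef, ← hLdef, ← hηdef]
    exact hfin

end Pool.Agent.QDF
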