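import Pool.Agent.QDF.FinQ
import Pool.Agent.QDF.FreeZ

/-! QDF/Res. The final statement in terms of boundary values of the free Green function. -/

open MeasureTheory Finset Matrix Pool.Agent.BK Pool.Agent.BK3 Pool.Agent.Helper3.Anderson
open Pool.Agent.Helper3.TG Filter
open scoped ENNReal Topology

noncomputable section

namespace Pool.Agent.QDF

lemma wave_eq {d : ℕ} (κ : Fin d → ℝ) : wave κ = wk κ := rfl

theorem density_eq {d : ℕ} {μ : Measure ℝ} [IsProbabilityMeasure μ] {M : ℝ}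
    (hμ : μ (Set.Icc (-M) M)ᶜ = 0) (lam : ℝ) (w : Site d → ℝ) {T : ℝ} (hT : 0 < T) (E : ℝ) :
    density d μ lam w T E = wE d μ M lam w T E := by
  unfold density wE
  have hz : (E : ℂ) + Complex.I / T = (E : ℂ) + (T⁻¹ : ℝ) * Complex.I := by
    push_cast; rw [div_eq_mul_inv, mul_comm]
  have hzi : 0 < ((E : ℂ) + (T⁻¹ : ℝ) * Complex.I).im := by
    rw [Complex.add_im, Complex.ofReal_im, Complex.im_ofReal_mul, Complex.I_im]
    have := inv_pos.2 hT
    linarith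
  refine tsum_congr fun x => ?_
  rw [hz]
  congr 1
  refine lintegral_congr_ae ?_
  filter_upwards [ae_rand_eq (d := d) hμ lam hzi] with ω hω
  rw [hω x 0, ENNReal.ofReal_pow (norm_nonneg _), ofReal_norm]

theorem boundary_tendsto {d : ℕ} (hd : 3 ≤ d) (E : ℝ) (j : Fin d) (m : ℤ) :
    Tendsto (fun η : ℝ => Green (0 : Site d → ℝ) (E + η * Complex.I) (Pi.single j m) 0)
      (𝓝[>] 0) (𝓝 (boundary d E (Pi.single j m))) :=
  tendsto_nhds_limUnder ⟨_, green_lim hd E j m⟩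

theorem boundary_eq {d : ℕ} (hd : 3 ≤ d) (E : ℝ) (j : Fin d) (m : ℤ) :
    boundary d E (Pi.single j m) = Ph d m E :=
  (green_lim hd E j m).limUnder_eq

theorem boundary_zero {d : ℕ} (hd : 3 ≤ d) (E : ℝ) : boundary d E 0 = Ph d 0 E := by
  have h := boundary_eq hd E ⟨0, by omega⟩ 0
  rwa [Pi.single_zero] at h

theorem dos_eq {d : ℕ} (hd : 3 ≤ d) (E : ℝ) : dos d E = g0 d E / Real.pi := by
  unfold dos g0
  rw [boundary_zero hd]

theorem diffusion_eq {d : ℕ} (hd : 3 ≤ d) (v E : ℝ) : diffusion d v E = DD d v E := by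
  unfold diffusion DD g0
  have hd0 : (d : ℝ) ≠ 0 := by
    have : 0 < d := by omega
    positivity
  rw [boundary_zero hd]
  have h : ∀ j : Fin d, boundary d E (Pi.single j 2) = Ph d 2 E := fun j => boundary_eq hd E j 2
  simp only [h]
  rw [Finset.sum_const, Finset.card_univ, Fintype.card_fin, nsmul_eq_mul, ← mul_assoc,
    inv_mul_cancel₀ hd0, one_mul]

/-- The conclusion of the theorem. -/
def Concl (d : ℕ) (μ : Measure ℝ) [IsProbabilityMeasure μ] (v a A : ℝ) : Prop :=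
  (∀ E : ℝ, ∀ x : Site d, (x = 0 ∨ ∃ j, x = Pi.single j 2) →
      Tendsto (fun η : ℝ => Green (0 : Site d → ℝ) (E + η * Complex.I) x 0) (𝓝[>] 0)
        (𝓝 (boundary d E x))) ∧
    (∀ E : ℝ, 0 < E → E < 4 * d → 0 < dos d E ∧ 0 < diffusion d v E) ∧
    (∫ E in (0 : ℝ)..(4 * d), dos d E = 1) ∧
    ∀ K δ ε : ℝ, 0 < δ → 0 < ε → ∃ lam0 : ℝ, 0 < lam0 ∧ ∀ lam T : ℝ, 0 < lam → lam ≤ lam0 →
      lam ^ (-a) ≤ T → T ≤ lam ^ (-A) → ∀ ξ : Fin d → ℝ, (∀ l, |ξ l| ≤ K) →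
        (∀ E : ℝ, δ ≤ E → E ≤ 4 * d - δ →
          density d μ lam (wave fun l => lam / √T * ξ l) T E ≠ ⊤ ∧
          |(density d μ lam (wave fun l => lam / √T * ξ l) T E).toReal -
            dos d E * (1 - 1 / (1 + diffusion d v E * ∑ l, ξ l ^ 2))| ≤ ε) ∧
        ENNReal.ofReal (1 - (∫ E in (0 : ℝ)..(4 * d),
          dos d E / (1 + diffusion d v E * ∑ l, ξ l ^ 2)) - ε) ≤
            average d μ lam (wave fun l => lam / √T * ξ l) T ∧
        average d μ lam (wave fun l => lam / √T * ξ l) T ≤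
          ENNReal.ofReal (1 - (∫ E in (0 : ℝ)..(4 * d),
            dos d E / (1 + diffusion d v E * ∑ l, ξ l ^ 2)) + ε)

/-- The whole statement, from the convergence in windows. -/
theorem concl_of {μ : Measure ℝ} [IsProbabilityMeasure μ] {M v : ℝ} (hM : 0 ≤ M)
    (hμ : μ (Set.Icc (-M) M)ᶜ = 0) (hv0 : 0 < v) {d : ℕ} (hd : 3 ≤ d) {a A : ℝ}
    (hwin : ∀ δ : ℝ, 0 < δ → WinC d μ M v a A δ (4 * d - δ)) : Concl d μ v a A := by
  refine ⟨?_, ?_, ?_, ?_⟩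
  · rintro E x (rfl | ⟨j, rfl⟩)
    · have h := boundary_tendsto hd E ⟨0, by omega⟩ 0
      rwa [Pi.single_zero] at h
    · exact boundary_tendsto hd E j 2
  · intro E h0 h1
    rw [dos_eq hd, diffusion_eq hd]
    obtain ⟨h2, h3⟩ := pos_E hd hv0 h0 h1
    exact ⟨div_pos h2 Real.pi_pos, h3⟩
  · simp only [dos_eq hd]
    rw [intervalIntegral.integral_div, g0_int hd, div_self Real.pi_ne_zero]
  · intro K δ ε hδ hε
    obtain ⟨l1, hl10, hl11, h1⟩ := hwin δ hδ K ε hε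
    obtain ⟨l2, hl20, hl21, h2⟩ := finQ hM hμ hv0 hd hwin K ε hε
    refine ⟨min l1 l2, lt_min hl10 hl20, fun lam T h0 hle hT1 hT2 ξ hξ => ?_⟩
    have hTp : 0 < T := (Real.rpow_pos_of_pos h0 _).trans_le hT1
    have e1 : ∀ E : ℝ, dos d E * (1 - 1 / (1 + diffusion d v E * ∑ l, ξ l ^ 2)) =
        g0 d E / Real.pi * (1 - 1 / (1 + DD d v E * x2 ξ)) := by
      intro E
      rw [dos_eq hd, diffusion_eq hd]
      rfl
    have e2 : (1 - ∫ E in (0 : ℝ)..(4 * d), dos d E / (1 + diffusion d v E * ∑ l, ξ l ^ 2)) =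
        tgt d v ξ := by
      rw [tgt_eq hd hv0]
      simp only [dos_eq hd, diffusion_eq hd]
      rfl
    refine ⟨fun E hE1 hE2 => ?_, ?_, ?_⟩
    · rw [density_eq hμ lam _ hTp, e1, wave_eq]
      obtain ⟨h3, h4, h5⟩ := h1 lam T h0 (hle.trans (min_le_left _ _)) hT1 hT2 E hE1 hE2
      refine ⟨h3 _ fun x => ?_, h5 ξ hξ⟩
      unfold wk
      have h6 := Real.neg_one_le_cos (∑ l, lam / √T * ξ l * (x l : ℝ))
      have h7 := Real.cos_le_one (∑ l, lam / √T * ξ l * (x l : ℝ))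
      constructor <;> linarith
    · rw [e2]
      exact (h2 lam T h0 (hle.trans (min_le_right _ _)) hT1 hT2 ξ hξ).1
    · rw [e2]
      exact (h2 lam T h0 (hle.trans (min_le_right _ _)) hT1 hT2 ξ hξ).2

/-- Times up to `lam^(-3+)` for all bounded laws. -/
theorem all {μ : Measure ℝ} [IsProbabilityMeasure μ] {M v : ℝ}
    (hμ : μ (Set.Icc (-M) M)ᶜ = 0) (hv : v = ∫ t, (t - ∫ s, s ∂μ) ^ 2 ∂μ) (hv0 : 0 < v)
    {d : ℕ} (hd : 3 ≤ d) {a A : ℝ} (ha : 2 < a) (hA : a ≤ A) (hA3 : A < 3)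
    (hAd : d = 3 → A < 8 / 3) : Concl d μ v a A := by
  obtain ⟨M', hM', hμ'⟩ : ∃ M' : ℝ, 0 ≤ M' ∧ μ (Set.Icc (-M') M')ᶜ = 0 := by
    refine ⟨max M 0, le_max_right _ _, measure_mono_null (Set.compl_subset_compl.2 ?_) hμ⟩
    exact Set.Icc_subset_Icc (neg_le_neg (le_max_left _ _)) (le_max_left _ _)
  have hAd' : (A < 3 ∧ 4 ≤ d) ∨ A < 8 / 3 := by
    rcases eq_or_lt_of_le hd with h | h
    · exact Or.inr (hAd h.symm)
    · exact Or.inl ⟨hA3, h⟩
  exact concl_of hM' hμ' hv0 hd fun δ hδ =>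
    win hM' hμ' hv hv0 hd hδ (by linarith) ha hA hAd'

end Pool.Agent.QDF
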