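import Pool.Agent.QDF.Tr1

/-! QDF/Tr2. The transfer of `QDF/Tr1.lean` (`transfer`) for arbitrary polynomial times and a given
torus size. Same proof as `transfer`, with the numbers: `η = 1/T ∈ [lam^K, 1]`,
`lam^(-(3K+5)) ≤ 2n+1 ≤ lam^(-cb)`, `Δ = 4/(2n+1) ≤ 4 lam^(3K+5) ≤ lam^(3K+4)`, `ρ = lam^(-(K+1))` (or its
floor), `dΔρ/η² ≤ 4d lam^4`, `e^(-ηρ/4) ≤ e^(-lam^(-1)/4)`, `e^(-ηn/8) ≤ e^(-lam^(-1)/8)` (`ηn ≥ lam^(-1)`),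
which beat `(2n+3)^(2d)/η^3 ≤ lam^(-C)` (`pt1_exp` in `BK/Pt1.lean` or `sm_exp` in `BK3/Sm.lean`).
If `transfer` in `Tr1.lean` was proved through lemmas, reuse them; or prove this one first and deduce
`transfer`. -/

open MeasureTheory Finset Matrix Pool.Agent.BK Pool.Agent.BK3 Pool.Agent.Helper3.Anderson
open Pool.Agent.Helper3.TG
open scoped ENNReal

noncomputable section

namespace Pool.Agent.QDF

theorem transfer2 (d : ℕ) {μ : Measure ℝ} [IsProbabilityMeasure μ] {M : ℝ} (hM : 0 ≤ M)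
    (hμ : μ (Set.Icc (-M) M)ᶜ = 0) {R s2 : ℝ} (hν : BLaw (μ.map fun x => x - ∫ t, t ∂μ) R s2)
    {K cb : ℝ} (hK : 3 ≤ K) :
    ∃ lam1 : ℝ, 0 < lam1 ∧ lam1 ≤ 1 ∧ ∀ (lam T E : ℝ) (κ : Fin d → ℝ) (n : ℕ), 0 < lam →
      lam ≤ lam1 → 1 ≤ T → lam ^ K ≤ T⁻¹ → (∀ l, |κ l| ≤ 1) →
      lam ^ (-(3 * K + 5)) ≤ 2 * (n : ℝ) + 1 → 2 * (n : ℝ) + 1 ≤ lam ^ (-cb) →
      ∃ k : Tor d n, (∀ l, |ang n (k l) - κ l| ≤ lam ^ (3 * K + 4)) ∧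
        wE d μ M lam (wk κ) T E ≠ ⊤ ∧ wE d μ M lam (fun _ => 1) T E ≠ ⊤ ∧
        |(wE d μ M lam (wk κ) T E).toReal - T⁻¹ / Real.pi *
          ((rhok (μ.map fun x => x - ∫ t, t ∂μ) d ⟨lam, n, E - lam * ∫ t, t ∂μ, T⁻¹⟩ 0).re -
          (rhok (μ.map fun x => x - ∫ t, t ∂μ) d ⟨lam, n, E - lam * ∫ t, t ∂μ, T⁻¹⟩ k).re)| ≤
            lam ∧
        |(wE d μ M lam (fun _ => 1) T E).toReal - 1 / Real.pi *
          (gb (μ.map fun x => x - ∫ t, t ∂μ) d ⟨lam, n, E - lam * ∫ t, t ∂μ, T⁻¹⟩).im| ≤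
            lam := by
  exact tr1_main d hM hμ hν hK

end Pool.Agent.QDF
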