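import Pool.Agent.QDF.Win
import Pool.Agent.QDF.Tr2
import Pool.Agent.QDF.AIn

/-! QDF/WinA. Energy-resolved convergence for ALL polynomial times (project QDA; compare the proof of
`winX` in `QDF/Win.lean`).

`b = min (lo/4) ((4d-hi)/4) ∧ ≤ 1`; `freeC4 hd` on `[b, 4d-b]` (`lo' = b`, `hi' = 4d-b`) for `aq_conv` with
`[lo/2, ..]`, `bLaw_gen` for `R`, `m = ∫ t dμ`, `K := max 3 A`, `η = 1/T ∈ [lam^K, lam^a']`,
`s1 = a' - 2`. `aps_in` with `δ = b`, `K`, `K1 = 2K + 1`, `c0' = 3K+5`; take `c1 = c0 + 1` and choose for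
each `lam` some `n` with `lam^(-c0) ≤ 2n+1 ≤ lam^(-c1)` (`n = ⌈lam^(-c0)⌉₊`). `transfer2` with `K`,
`cb = c1`, at the energy `E` gives `k` and reduces everything to `π = ⟨lam, n, E - lam m, 1/T⟩`
(`E - lam m ∈ [δ, 4d-δ]` for small `lam`, `E0 = E`, `|E0 - π.E| = lam|m|`), `κ_l = lam/√T ξ_l = lam√η ξ_l`,
`|κ_l| ≤ 1`. `|ang (k l) - κ l| ≤ lam^(3K+4) ≤ lam^(K+4)`. Then
`|Re ρ(0) - Re ρ(k) - QU| ≤ lam^w QU + (2/η² + QU) lam^(2K+1)` (`ex_rho`), times `η`:
`≤ (lam^w + lam^(2K+1)) ηQU + 2 lam^(2K+1)/η`, `ηQU` is bounded (`aq_conv`, `Ph_le`), and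
`|Im gb - Im g| ≤ lam^w + (1/η + ‖g‖) lam^(2K+1)` (`ex_gb`; `‖g‖ ≤ 1/γ ≤ 1/η` by `norm_Gr_le`). -/

open MeasureTheory Finset Matrix Pool.Agent.BK Pool.Agent.BK3 Pool.Agent.Helper3.Anderson
open Pool.Agent.Helper3.TG
open scoped ENNReal

noncomputable section

namespace Pool.Agent.QDF

private theorem wina_aux1 {n P L : ℝ} (h1 : n < P + 1) (h2 : 1 ≤ P) (h3 : 5 ≤ L) :
    2 * n + 1 ≤ P * L := by
  have h4 : P * 5 ≤ P * L := mul_le_mul_of_nonneg_left h3 (by linarith)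
  linarith

private theorem wina_aux2 {x C : ℝ} (hx : 0 ≤ x) (hC : 0 ≤ C) : x ≤ x * (C + 1) :=
  le_mul_of_one_le_right hx (by linarith)

private theorem wina_aux3 {x C : ℝ} (hx : 0 < x) (hC : 0 ≤ C) : 3 * x ≤ x * (C + 5) := by
  have h : x * (C + 5) = x * C + 5 * x := by ring
  have h' : 0 ≤ x * C := mul_nonneg hx.le hC
  rw [h]
  linarith

theorem winA {μ : Measure ℝ} [IsProbabilityMeasure μ] (hf : FatDensity μ) {M v : ℝ} (hM : 0 ≤ M)
    (hμ : μ (Set.Icc (-M) M)ᶜ = 0) (hv : v = ∫ t, (t - ∫ s, s ∂μ) ^ 2 ∂μ) (hv0 : 0 < v)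
    {d : ℕ} (hd : 3 ≤ d) {lo hi A a' : ℝ} (hlo : 0 < lo) (hhi : hi < 4 * d)
    (ha : 2 < a') (hA : a' ≤ A) : WinC d μ M v a' A lo hi := by
  obtain ⟨R, hν⟩ := bLaw_gen hμ hv hv0
  set m : ℝ := ∫ t, t ∂μ with hm
  set ν : Measure ℝ := μ.map (fun x => x - m) with hνdef
  -- constants
  set b : ℝ := min (min (lo / 4) ((4 * d - hi) / 4)) 1 with hb
  have hb0 : 0 < b := lt_min (lt_min (by linarith) (by linarith)) one_pos
  have hb1 : b ≤ 1 := min_le_right _ _
  have hb2 : b ≤ lo / 4 := (min_le_left _ _).trans (min_le_left _ _)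
  have hb3 : b ≤ (4 * d - hi) / 4 := (min_le_left _ _).trans (min_le_right _ _)
  obtain ⟨κF, hF⟩ := freeC4 hd hb0 hb1
  set KK : ℝ := max 3 A with hKK
  have hK3 : 3 ≤ KK := le_max_left _ _
  have hKA : A ≤ KK := le_max_right _ _
  obtain ⟨C, hC, hPh⟩ := Ph_le hd 0
  obtain ⟨w, c0, hw, hc0, haps⟩ := aps_in hf hv hd hb0 KK (2 * KK + 1) (3 * KK + 5) a' ha
  obtain ⟨l2, hl20, hl21, h2⟩ := haps (c0 + 1)
  obtain ⟨l1, hl10, hl11, h1⟩ := transfer2 d hM hμ hν (K := KK) (cb := c0 + 1) hK3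
  intro K ε hε
  set ε' : ℝ := min (ε / 4) 1 with hε'
  have hε'0 : 0 < ε' := lt_min (by linarith) one_pos
  have hε'1 : ε' ≤ ε / 4 := min_le_left _ _
  have hε'2 : ε' ≤ 1 := min_le_right _ _
  obtain ⟨l3, hl30, hl31, h3⟩ := aq_conv hd hF (lo := lo / 2) (hi := (hi + 4 * d) / 2) (v := v)
    (K := KK) (s1 := a' - 2) (b := |m|) (Kx := |K|) (ε := ε') (by linarith) (by linarith) hv0
    (by linarith) (by linarith) (abs_nonneg _) (abs_nonneg _) hε'0
  -- smallness
  set l4 : ℝ := (ε / (4 * (C + 1))) ^ (1 / w) with hl4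
  have hl40 : 0 < l4 := by positivity
  set l5 : ℝ := ε / (4 * (C + 5)) with hl5
  have hl50 : 0 < l5 := by positivity
  set l6 : ℝ := min (lo / 2) ((4 * d - hi) / 2) / (|m| + 1) with hl6
  have hl60 : 0 < l6 := div_pos (lt_min (by linarith) (by linarith)) (by positivity)
  set l7 : ℝ := 1 / (|K| + 5) with hl7
  have hl70 : 0 < l7 := by positivity
  refine ⟨min l1 (min l2 (min l3 (min l4 (min l5 (min l6 l7))))), ?_, ?_, ?_⟩
  · exact lt_min hl10 (lt_min hl20 (lt_min hl30 (lt_min hl40 (lt_min hl50 (lt_min hl60 hl70)))))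
  · exact (min_le_left _ _).trans hl11
  intro lam T hlam hle hT1 hT2 E hE1 hE2
  simp only [le_min_iff] at hle
  obtain ⟨g1, g2, g3, g4, g5, g6, g7⟩ := hle
  have hlam1 : lam ≤ 1 := g1.trans hl11
  have hT0 : 0 < T := (Real.rpow_pos_of_pos hlam _).trans_le hT1
  have hT : 1 ≤ T := by
    refine le_trans ?_ hT1
    exact Real.one_le_rpow_of_pos_of_le_one_of_nonpos hlam hlam1 (by linarith)
  set η : ℝ := T⁻¹ with hη
  have hη0 : 0 < η := inv_pos.2 hT0
  have hη1 : η ≤ lam ^ a' := by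
    rw [hη, inv_le_comm₀ hT0 (Real.rpow_pos_of_pos hlam _), ← Real.rpow_neg hlam.le]
    exact hT1
  have hη2 : lam ^ KK ≤ η := by
    refine (Real.rpow_le_rpow_of_exponent_ge hlam hlam1 hKA).trans ?_
    rw [hη, le_inv_comm₀ (Real.rpow_pos_of_pos hlam _) hT0, ← Real.rpow_neg hlam.le]
    exact hT2
  have hη3 : η ≤ lam ^ (2 + (a' - 2)) := by
    rw [show 2 + (a' - 2) = a' by ring]
    exact hη1
  have hη5 : lam ^ (2 * KK + 1) / η ≤ lam := by
    rw [div_le_iff₀ hη0]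
    calc lam ^ (2 * KK + 1) ≤ lam ^ (1 + KK) :=
          Real.rpow_le_rpow_of_exponent_ge hlam hlam1 (by linarith)
      _ = lam * lam ^ KK := by rw [Real.rpow_add hlam, Real.rpow_one]
      _ ≤ lam * η := by gcongr
  have hK1 : lam ^ (2 * KK + 1) ≤ lam := by
    calc lam ^ (2 * KK + 1) ≤ lam ^ (1 : ℝ) :=
          Real.rpow_le_rpow_of_exponent_ge hlam hlam1 (by linarith)
      _ = lam := Real.rpow_one _
  have hK10 : 0 ≤ lam ^ (2 * KK + 1) := Real.rpow_nonneg hlam.le _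
  have hlw : lam ^ w * (C + 1) ≤ ε / 4 := by
    have e1 : lam ^ w ≤ ε / (4 * (C + 1)) := by
      calc lam ^ w ≤ l4 ^ w := Real.rpow_le_rpow hlam.le g4 hw.le
        _ = ε / (4 * (C + 1)) := by
          rw [hl4, ← Real.rpow_mul (by positivity), one_div_mul_cancel hw.ne', Real.rpow_one]
    calc lam ^ w * (C + 1) ≤ ε / (4 * (C + 1)) * (C + 1) := by gcongr
      _ = ε / 4 := by field_simp
  have hlw0 : 0 ≤ lam ^ w := Real.rpow_nonneg hlam.le _
  have hl5' : lam * (C + 5) ≤ ε / 4 := by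
    calc lam * (C + 5) ≤ ε / (4 * (C + 5)) * (C + 5) := by gcongr
      _ = ε / 4 := by field_simp
  -- the energy
  set E' : ℝ := E - lam * m with hE'
  have hmm : lam * |m| ≤ min (lo / 2) ((4 * d - hi) / 2) := by
    calc lam * |m| ≤ lam * (|m| + 1) := by gcongr; linarith
      _ ≤ l6 * (|m| + 1) := by gcongr
      _ = min (lo / 2) ((4 * d - hi) / 2) := by
        rw [hl6]
        field_simp
  have hEE : |E - E'| ≤ |m| * lam := by
    rw [hE', sub_sub_cancel, abs_mul, abs_of_pos hlam, mul_comm]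
  have hEE2 := abs_le.1 hEE
  have hm1 : |m| * lam ≤ lo / 2 := by
    rw [mul_comm]
    exact hmm.trans (min_le_left _ _)
  have hm2 : |m| * lam ≤ (4 * d - hi) / 2 := by
    rw [mul_comm]
    exact hmm.trans (min_le_right _ _)
  have hE'1 : lo / 2 ≤ E' := by linarith [hEE2.2]
  have hE'2 : E' ≤ (hi + 4 * d) / 2 := by linarith [hEE2.1]
  -- the size of the torus
  set n : ℕ := ⌈lam ^ (-c0)⌉₊ with hn
  have hn0 : 1 ≤ lam ^ (-c0) :=
    Real.one_le_rpow_of_pos_of_le_one_of_nonpos hlam hlam1 (by linarith)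
  have hn1 : lam ^ (-c0) ≤ 2 * (n : ℝ) + 1 := by
    have e1 : lam ^ (-c0) ≤ n := Nat.le_ceil _
    linarith
  have hn2 : 2 * (n : ℝ) + 1 ≤ lam ^ (-(c0 + 1)) := by
    have e1 : (n : ℝ) < lam ^ (-c0) + 1 := Nat.ceil_lt_add_one (by positivity)
    have e2 : lam ^ (-(c0 + 1)) = lam ^ (-c0) * lam⁻¹ := by
      rw [show -(c0 + 1) = -c0 + -1 by ring, Real.rpow_add hlam, Real.rpow_neg_one]
    have e3 : 5 ≤ lam⁻¹ := by
      rw [le_inv_comm₀ (by norm_num) hlam]
      refine g7.trans ?_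
      rw [hl7, one_div]
      exact inv_anti₀ (by norm_num) (by linarith [abs_nonneg K])
    rw [e2]
    exact wina_aux1 e1 hn0 e3
  have hn3 : lam ^ (-(3 * KK + 5)) ≤ 2 * (n : ℝ) + 1 :=
    (Real.rpow_le_rpow_of_exponent_ge hlam hlam1 (by linarith)).trans hn1
  -- the reference
  obtain ⟨g, hg0, hgeq, hp1, hp2⟩ := h2 lam E' η n hlam g2 (by linarith) (by linarith) hη2 hη1
    hn1 hn2
  obtain ⟨r1, r2⟩ := h3 lam η E' n g hlam g3 hη2 hη3 hn3 hE'1 hE'2 hg0 hgeq E hEE
  set π : Par := ⟨lam, n, E', η⟩ with hπ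
  have hgn : ‖g‖ ≤ 1 / η := by
    set ζ : ℂ := (⟨E', η⟩ : ℂ) + ((lam ^ 2 * v : ℝ) : ℂ) * g with hζ
    have hζim : η ≤ ζ.im := by
      rw [hζ, Complex.add_im, Complex.im_ofReal_mul]
      have : 0 ≤ lam ^ 2 * v * g.im := by positivity
      show η ≤ η + _
      linarith
    rw [hgeq]
    refine (norm_Gr_le (RS_H0 d n) _ (hη0.trans_le hζim) 0 0).trans ?_
    exact one_div_le_one_div_of_le hη0 hζim
  have hgb := ex_gb hν d π hη0 hlw0 hp1
  have hgb2 : |(gb ν d π).im - g.im| ≤ lam ^ w + 2 * lam := by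
    refine hgb.trans ?_
    have e1 : (1 / η + ‖g‖) * lam ^ (2 * KK + 1) ≤ (1 / η + 1 / η) * lam ^ (2 * KK + 1) := by
      gcongr
    have e2 : (1 / η + 1 / η) * lam ^ (2 * KK + 1) = 2 * (lam ^ (2 * KK + 1) / η) := by ring
    have e3 : π.eta = η := rfl
    rw [e3]
    linarith
  have hpi : 0 < Real.pi := Real.pi_pos
  have hpi1 : 1 / Real.pi ≤ 1 := by
    rw [div_le_one hpi]
    linarith [Real.pi_gt_three]
  have hpi0 : 0 ≤ 1 / Real.pi := by positivity
  refine ⟨?_, ?_, ?_⟩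
  · -- finiteness
    intro u hu
    obtain ⟨k, -, -, hfin, -, -⟩ := h1 lam T E (fun _ => 0) n hlam g1 hT hη2
      (fun l => by rw [abs_zero]; exact zero_le_one) hn3 hn2
    have hle : wE d μ M lam u T E ≤ 2 * wE d μ M lam (fun _ => 1) T E := by
      unfold wE
      rw [← ENNReal.tsum_mul_left]
      refine ENNReal.tsum_le_tsum fun x => ?_
      rw [← mul_assoc]
      refine mul_le_mul_left ?_ _
      have e1 : u x / (Real.pi * T) ≤ 2 * (1 / (Real.pi * T)) := by
        rw [mul_one_div]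
        exact div_le_div_of_nonneg_right (hu x).2 (by positivity)
      refine (ENNReal.ofReal_le_ofReal e1).trans ?_
      rw [ENNReal.ofReal_mul (by norm_num)]
      norm_num
    exact ne_top_of_le_ne_top (ENNReal.mul_ne_top (by norm_num) hfin) hle
  · -- the density of states
    obtain ⟨k, -, -, -, -, ht⟩ := h1 lam T E (fun _ => 0) n hlam g1 hT hη2
      (fun l => by rw [abs_zero]; exact zero_le_one) hn3 hn2
    have e1 : |(1 / Real.pi) * (gb ν d π).im - g0 d E / Real.pi| ≤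
        lam ^ w + 2 * lam + ε' := by
      have e2 : (1 / Real.pi) * (gb ν d π).im - g0 d E / Real.pi =
          (1 / Real.pi) * (((gb ν d π).im - g.im) + (g.im - g0 d E)) := by ring
      rw [e2, abs_mul, abs_of_nonneg hpi0]
      calc 1 / Real.pi * |((gb ν d π).im - g.im) + (g.im - g0 d E)| ≤
          1 * (|(gb ν d π).im - g.im| + |g.im - g0 d E|) := by
            gcongr
            exact abs_add_le _ _
        _ ≤ lam ^ w + 2 * lam + ε' := by linarith
    have e3 := abs_sub_le (wE d μ M lam (fun _ => 1) T E).toReal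
      ((1 / Real.pi) * (gb ν d π).im) (g0 d E / Real.pi)
    have e4 : |(wE d μ M lam (fun _ => 1) T E).toReal - (1 / Real.pi) * (gb ν d π).im| ≤ lam := ht
    have e5 : lam ^ w ≤ lam ^ w * (C + 1) := wina_aux2 hlw0 hC.le
    have e6 : 3 * lam ≤ lam * (C + 5) := wina_aux3 hlam hC.le
    linarith
  · -- the weights
    intro ξ hξ
    have hsT : 1 ≤ √T := by
      rw [show (1 : ℝ) = √1 by rw [Real.sqrt_one]]
      exact Real.sqrt_le_sqrt hT
    have hξK : ∀ l, |ξ l| ≤ |K| := fun l => (hξ l).trans (le_abs_self _)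
    have hlK : lam * |K| ≤ 1 := by
      calc lam * |K| ≤ l7 * (|K| + 5) := by
            gcongr
            linarith
        _ = 1 := by
          rw [hl7]
          field_simp
    have hκ : ∀ l, |lam / √T * ξ l| ≤ 1 := by
      intro l
      rw [abs_mul, abs_of_nonneg (by positivity)]
      calc lam / √T * |ξ l| ≤ lam / 1 * |K| :=
            mul_le_mul (div_le_div_of_nonneg_left hlam.le one_pos hsT) (hξK l) (abs_nonneg _)
              (by positivity)
        _ = lam * |K| := by ring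
        _ ≤ 1 := hlK
    obtain ⟨k, hk, -, -, ht, -⟩ := h1 lam T E (fun l => lam / √T * ξ l) n hlam g1 hT hη2 hκ hn3 hn2
    have hk2 : ∀ l, |ang n (k l) - lam * √η * ξ l| ≤ lam ^ (KK + 4) := by
      intro l
      have e1 : lam * √η * ξ l = lam / √T * ξ l := by
        rw [hη, Real.sqrt_inv]
        ring
      rw [e1]
      exact (hk l).trans (Real.rpow_le_rpow_of_exponent_ge hlam hlam1 (by linarith))
    obtain ⟨q1, q2⟩ := r2 ξ hξK k hk2
    set Q : ℝ := QU (lam ^ 2 * v) η ((⟨E', η⟩ : ℂ) + ((lam ^ 2 * v : ℝ) : ℂ) * g) k with hQ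
    have hQ0 : 0 ≤ Q := by
      by_contra hneg
      have := mul_neg_of_pos_of_neg hη0 (not_le.1 hneg)
      linarith
    have hrho := ex_rho hν d π hη0 k hQ0 hlw0 (hp2 k)
    -- the limit value
    set G : ℝ := g0 d E * (1 - 1 / (1 + DD d v E * x2 ξ)) with hG
    obtain ⟨k1, k2⟩ := low_E hd hF E (by linarith) (by linarith)
    have hκF := hF.kap
    have hg0p : 0 < g0 d E := hκF.trans_le k1
    have hDD : 0 ≤ DD d v E := by
      unfold DD
      have : 0 ≤ (Ph d 0 E - Ph d 2 E).im := by linarith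
      positivity
    have hx2 : 0 ≤ x2 ξ := by
      unfold x2
      exact Finset.sum_nonneg fun l _ => sq_nonneg _
    have hX : 0 ≤ DD d v E * x2 ξ := mul_nonneg hDD hx2
    have hGC : G ≤ C := by
      have e1 : g0 d E ≤ C := by
        unfold g0
        exact ((le_abs_self _).trans (Complex.abs_im_le_norm _)).trans (hPh _ (by simp))
      have e2 : 1 - 1 / (1 + DD d v E * x2 ξ) ≤ 1 := by
        have : 0 ≤ 1 / (1 + DD d v E * x2 ξ) := by positivity
        linarith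
      calc G ≤ g0 d E * 1 := mul_le_mul_of_nonneg_left e2 hg0p.le
        _ ≤ C := by rw [mul_one]; exact e1
    have hηQ : η * Q ≤ C + 1 := by
      have := (abs_le.1 q2).2
      linarith
    have e1 : |η * ((rhok ν d π 0).re - (rhok ν d π k).re) - η * Q| ≤
        (lam ^ w + lam) * (C + 1) + 2 * lam := by
      rw [← mul_sub, abs_mul, abs_of_pos hη0]
      calc η * |((rhok ν d π 0).re - (rhok ν d π k).re) - Q| ≤
          η * (lam ^ w * Q + (2 / η ^ 2 + Q) * lam ^ (2 * KK + 1)) :=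
            mul_le_mul_of_nonneg_left hrho hη0.le
        _ = (lam ^ w + lam ^ (2 * KK + 1)) * (η * Q) + 2 * (lam ^ (2 * KK + 1) / η) := by
            field_simp
            ring
        _ ≤ (lam ^ w + lam) * (C + 1) + 2 * lam := by
            gcongr
    have e2 : |T⁻¹ / Real.pi * ((rhok ν d π 0).re - (rhok ν d π k).re) -
        g0 d E / Real.pi * (1 - 1 / (1 + DD d v E * x2 ξ))| ≤
        (lam ^ w + lam) * (C + 1) + 2 * lam + ε' := by
      have e3 : T⁻¹ / Real.pi * ((rhok ν d π 0).re - (rhok ν d π k).re) -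
          g0 d E / Real.pi * (1 - 1 / (1 + DD d v E * x2 ξ)) =
          (1 / Real.pi) * ((η * ((rhok ν d π 0).re - (rhok ν d π k).re) - η * Q) +
            (η * Q - G)) := by
        rw [hG, hη]
        ring
      rw [e3, abs_mul, abs_of_nonneg hpi0]
      calc 1 / Real.pi * |(η * ((rhok ν d π 0).re - (rhok ν d π k).re) - η * Q) +
            (η * Q - G)| ≤ 1 * (|η * ((rhok ν d π 0).re - (rhok ν d π k).re) - η * Q| +
            |η * Q - G|) := by
            gcongr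
            exact abs_add_le _ _
        _ ≤ _ := by linarith
    have e4 := abs_sub_le (wE d μ M lam (wk fun l => lam / √T * ξ l) T E).toReal
      (T⁻¹ / Real.pi * ((rhok ν d π 0).re - (rhok ν d π k).re))
      (g0 d E / Real.pi * (1 - 1 / (1 + DD d v E * x2 ξ)))
    have e5 : |(wE d μ M lam (wk fun l => lam / √T * ξ l) T E).toReal -
      (T⁻¹ / Real.pi * ((rhok ν d π 0).re - (rhok ν d π k).re))| ≤ lam := ht
    have e6 : (lam ^ w + lam) * (C + 1) + 2 * lam + lam + ε' ≤ ε := by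
      have e7 : (lam ^ w + lam) * (C + 1) + 2 * lam + lam =
        lam ^ w * (C + 1) + (lam * (C + 5) - lam) := by ring
      linarith
    linarith

end Pool.Agent.QDF
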