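import Pool.Agent.QDF.Res
import Pool.Agent.QDF.WinA

/-! QDF/ResA. The final statement on all polynomial time scales (project QDA). -/

open MeasureTheory Finset Matrix Pool.Agent.BK Pool.Agent.BK3 Pool.Agent.Helper3.Anderson
open Pool.Agent.Helper3.TG Filter
open scoped ENNReal Topology

noncomputable section

namespace Pool.Agent.QDF

/-- All polynomial times for laws with a density between two positive constants, and times up to
`lam^(-3+)` for all bounded laws. -/
theorem allU {μ : Measure ℝ} [IsProbabilityMeasure μ] {M v : ℝ}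
    (hμ : μ (Set.Icc (-M) M)ᶜ = 0) (hv : v = ∫ t, (t - ∫ s, s ∂μ) ^ 2 ∂μ) (hv0 : 0 < v)
    {d : ℕ} (hd : 3 ≤ d) {a A : ℝ} (ha : 2 < a) (haA : a ≤ A)
    (hA : FatDensity μ ∨ A < 3 ∧ (d = 3 → A < 8 / 3)) : Concl d μ v a A := by
  rcases hA with hf | ⟨hA3, hAd⟩
  · obtain ⟨M', hM', hμ'⟩ : ∃ M' : ℝ, 0 ≤ M' ∧ μ (Set.Icc (-M') M')ᶜ = 0 := by
      refine ⟨max M 0, le_max_right _ _, measure_mono_null (Set.compl_subset_compl.2 ?_) hμ⟩
      exact Set.Icc_subset_Icc (neg_le_neg (le_max_left _ _)) (le_max_left _ _)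
    exact concl_of hM' hμ' hv0 hd fun δ hδ =>
      winA hf hM' hμ' hv hv0 hd hδ (by linarith) ha haA
  · exact all hμ hv hv0 hd ha haA hA3 hAd

end Pool.Agent.QDF
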