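import Pool.Agent.QDF.TorG
import Pool.Agent.BK.FB34

/-! QDF/TSq. Averages over the dual torus.

* `tavg_mq`: `fb34_TF_diag` (`BK/FB34.lean`) and `Gr_eq_TF`.
* `tavg_sin`: `4 sin²θ = 2 - 2cos 2θ`. `Gr 0 y = TF mq 0 y = tavg (mq q * ch q y)` (check the order in
  `TF`), and `Gr 0 (-y) = Gr 0 y` (`Gr0_neg`), so `Gr 0 y = tavg (mq q * (ch q y + ch q (-y))/2)
  = tavg (mq q * Re (ch q y))`; for `y = Pi.single j 2`, `ch q y = exp(2i·ang (q j))`
  (`stdAddChar_eq`/`fb34_*`/`flow_ch` in `BK3/FLow.lean` show the computations), real part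
  `cos(2 ang (q j))`.
* `tavg_sq`: for `Im ζ > 0`, `1/(w-ζ)² = -∫_0^∞ t exp(i(ζ-w)t) dt` (one integration by parts, or
  `Real`/`Complex` Gamma integral, or differentiate). So
  `tavg (4 sin²(q_j) mq²) = -∫ t exp(iζt) (2∏knf(0) - 2∏knf(Pi.single j 2)) dt` with `FB4_prod_knf` as in
  `Gr_time` (the sine part cancels again, e.g. by `knf n t (-m) = knf n t m` or by averaging over the
  reflection of `q j`), and by `knf_err`, `kp_le`
  `‖·‖ ≤ ∫ t exp(-γt) (C(1+t)^(-3/2) + C(1+t)/(2n+1)) dt ≤ C' γ^(-1/2) + C'/(γ³(2n+1))`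
  using `t(1+t)^(-3/2) ≤ t^(-1/2)`, `∫ t^(-1/2) exp(-γt) dt = Γ(1/2) γ^(-1/2)`,
  `∫ (t+t²) exp(-γt) dt = γ^(-2) + 2γ^(-3)`. Multiply by `γ`. -/

open MeasureTheory Finset Matrix Pool.Agent.BK Pool.Agent.BK3

noncomputable section

namespace Pool.Agent.QDF

lemma tsq_single {d n : ℕ} (q : Tor d n) (j : Fin d) (m : ZMod (2 * n + 1)) :
    ch q (Pi.single j m) = (ZMod.stdAddChar (q j * m) : ℂ) := by
  unfold ch
  rw [Finset.prod_eq_single j]
  · rw [Pi.single_eq_same]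
  · intro l _ hl
    rw [Pi.single_eq_of_ne hl, mul_zero, AddChar.map_zero_eq_one]
  · intro h
    exact absurd (mem_univ j) h

lemma tsq_two {n : ℕ} (q : ZMod (2 * n + 1)) :
    (ZMod.stdAddChar (q * ((2 : ℤ) : ZMod (2 * n + 1))) : ℂ) =
      Complex.exp (Complex.I * ((2 * ang n q : ℝ) : ℂ)) := by
  have h1 : q * ((2 : ℤ) : ZMod (2 * n + 1)) = ((q.valMinAbs * 2 : ℤ) : ZMod (2 * n + 1)) := by
    rw [Int.cast_mul, ZMod.coe_valMinAbs]
  rw [h1, ZMod.stdAddChar_coe]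
  congr 1
  unfold ang
  push_cast
  ring

lemma tsq_ch {d n : ℕ} (q : Tor d n) (j : Fin d) :
    ch q (Pi.single j ((2 : ℤ) : ZMod (2 * n + 1))) =
      Complex.exp (Complex.I * ((2 * ang n (q j) : ℝ) : ℂ)) := by
  rw [tsq_single, tsq_two]

lemma tsq_sin {d n : ℕ} (q : Tor d n) (j : Fin d) :
    ((4 * Real.sin (ang n (q j)) ^ 2 : ℝ) : ℂ) =
      2 - ch q (Pi.single j ((2 : ℤ) : ZMod (2 * n + 1))) -
        ch (-q) (Pi.single j ((2 : ℤ) : ZMod (2 * n + 1))) := by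
  rw [ch_neg_left, ch_neg, tsq_ch]
  set θ := ang n (q j) with hθ
  have h1 : Complex.exp (Complex.I * ((2 * θ : ℝ) : ℂ)) =
      ((Real.cos (2 * θ) : ℝ) : ℂ) + ((Real.sin (2 * θ) : ℝ) : ℂ) * Complex.I := by
    rw [mul_comm, Complex.exp_mul_I, Complex.ofReal_cos, Complex.ofReal_sin]
  have h2 : Real.cos (2 * θ) = 1 - 2 * Real.sin θ ^ 2 := by
    rw [Real.cos_two_mul, Real.sin_sq]
    ring
  rw [h1, map_add, map_mul, Complex.conj_I, Complex.conj_ofReal, Complex.conj_ofReal, h2]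
  push_cast
  ring

lemma tsq_omg {d n : ℕ} (q : Tor d n) : omg (-q) = omg q := by
  unfold omg
  refine Finset.sum_congr rfl fun l _ => ?_
  have h := fb34_cos_ang_sub n 0 (q l)
  have h0 : ang n (0 : ZMod (2 * n + 1)) = 0 := by
    unfold ang
    simp
  rw [zero_sub, h0, zero_sub, Real.cos_neg] at h
  rw [Pi.neg_apply, h]

lemma tsq_mq {d n : ℕ} (ζ : ℂ) (q : Tor d n) : mq ζ (-q) = mq ζ q := by
  unfold mq
  rw [tsq_omg]

lemma tsq_key {d n : ℕ} (F : Tor d n → ℂ) (hF : ∀ q, F (-q) = F q) (j : Fin d) :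
    ∑ q, ((4 * Real.sin (ang n (q j)) ^ 2 : ℝ) : ℂ) * F q =
      2 * ∑ q, F q - 2 * ∑ q, F q * ch q (Pi.single j ((2 : ℤ) : ZMod (2 * n + 1))) := by
  have h1 : ∀ q : Tor d n, ((4 * Real.sin (ang n (q j)) ^ 2 : ℝ) : ℂ) * F q =
      2 * F q - F q * ch q (Pi.single j ((2 : ℤ) : ZMod (2 * n + 1))) -
        F (-q) * ch (-q) (Pi.single j ((2 : ℤ) : ZMod (2 * n + 1))) := by
    intro q
    rw [tsq_sin, hF]
    ring
  have h2 : ∑ q : Tor d n, F (-q) * ch (-q) (Pi.single j ((2 : ℤ) : ZMod (2 * n + 1))) =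
      ∑ q : Tor d n, F q * ch q (Pi.single j ((2 : ℤ) : ZMod (2 * n + 1))) :=
    Equiv.sum_comp (Equiv.neg (Tor d n))
      (fun q => F q * ch q (Pi.single j ((2 : ℤ) : ZMod (2 * n + 1))))
  rw [Finset.sum_congr rfl fun q _ => h1 q, Finset.sum_sub_distrib, Finset.sum_sub_distrib, h2,
    ← Finset.mul_sum]
  ring

theorem tavg_mq {d n : ℕ} (hn : 0 < n) {ζ : ℂ} (hζ : 0 < ζ.im) :
    tavg (mq ζ : Tor d n → ℂ) = Gr (H0 d n) 0 ζ 0 0 := by
  rw [Gr_eq_TF hn hζ, fb34_TF_diag]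
  rfl

theorem tavg_sin {d n : ℕ} (hn : 0 < n) {ζ : ℂ} (hζ : 0 < ζ.im) (j : Fin d) :
    tavg (fun q : Tor d n => ((4 * Real.sin (ang n (q j)) ^ 2 : ℝ) : ℂ) * mq ζ q) =
      2 * (Gr (H0 d n) 0 ζ 0 0 -
        Gr (H0 d n) 0 ζ 0 (Pi.single j ((2 : ℤ) : ZMod (2 * n + 1)))) := by
  rw [← tavg_mq hn hζ, Gr_eq_TF hn hζ]
  unfold tavg TF
  rw [tsq_key (mq ζ) (tsq_mq ζ)]
  simp only [sub_zero]
  unfold mq
  ring

/-! Gamma integrals. -/

lemma tsq_gam {a r : ℝ} (ha : 0 < a) (hr : 0 < r) :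
    IntegrableOn (fun t : ℝ => t ^ (a - 1) * Real.exp (-(r * t))) (Set.Ioi 0) ∧
    ∫ t in Set.Ioi (0:ℝ), t ^ (a - 1) * Real.exp (-(r * t)) = (1 / r) ^ a * Real.Gamma a := by
  have h := Real.integral_rpow_mul_exp_neg_mul_Ioi ha hr
  refine ⟨?_, h⟩
  by_contra hc
  have h0 := integral_undef hc
  rw [h0] at h
  have h1 : 0 < (1 / r) ^ a * Real.Gamma a := by
    have := Real.Gamma_pos_of_pos ha
    positivity
  exact absurd h (ne_of_lt h1)

lemma tsq_int {a : ℂ} (ha : a.re < 0) :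
    IntegrableOn (fun t : ℝ => (t : ℂ) * Complex.exp (a * t)) (Set.Ioi 0) := by
  refine (integrable_norm_iff ?_).mp ?_
  · apply Continuous.aestronglyMeasurable
    fun_prop
  · have h := (tsq_gam (a := 2) (r := -a.re) (by norm_num) (by linarith)).1
    refine h.congr_fun (fun t ht => ?_) measurableSet_Ioi
    have ht0 : (0:ℝ) < t := ht
    have h1 : ((2:ℝ) - 1) = 1 := by norm_num
    simp only [h1, Real.rpow_one]
    rw [norm_mul, Complex.norm_real, Real.norm_of_nonneg ht0.le, Complex.norm_exp]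
    congr 2
    simp

lemma tsq_val {a : ℂ} (ha : a.re < 0) :
    ∫ t in Set.Ioi (0 : ℝ), (t : ℂ) * Complex.exp (a * t) = 1 / a ^ 2 := by
  have ha0 : a ≠ 0 := by
    rintro rfl
    simp at ha
  have hd : ∀ t ∈ Set.Ici (0 : ℝ),
      HasDerivAt (fun t : ℝ => ((t : ℂ) / a - 1 / a ^ 2) * Complex.exp (a * t))
      ((t : ℂ) * Complex.exp (a * t)) t := by
    intro t _
    have h1 : HasDerivAt (fun t : ℝ => (t : ℂ)) 1 t := Complex.ofRealCLM.hasDerivAt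
    have h2 : HasDerivAt (fun t : ℝ => Complex.exp (a * t))
        (Complex.exp (a * t) * (a * 1)) t := (h1.const_mul a).cexp
    have h3 := ((h1.div_const a).sub_const (1 / a ^ 2)).mul h2
    have h4 : (t : ℂ) * Complex.exp (a * t) = 1 / a * Complex.exp (a * t) +
        ((t : ℂ) / a - 1 / a ^ 2) * (Complex.exp (a * t) * (a * 1)) := by
      field_simp
      ring
    rw [h4]
    exact h3
  have hlim1 : Filter.Tendsto (fun t : ℝ => (t : ℂ) * Complex.exp (a * t)) Filter.atTop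
      (nhds 0) := by
    rw [tendsto_zero_iff_norm_tendsto_zero]
    have h1 := (Real.tendsto_pow_mul_exp_neg_atTop_nhds_zero 1).comp
      (Filter.tendsto_id.const_mul_atTop (by linarith : 0 < -a.re))
    have h2 := h1.const_mul (1 / (-a.re))
    rw [mul_zero] at h2
    refine h2.congr' ?_
    filter_upwards [Filter.eventually_ge_atTop 0] with t ht
    rw [norm_mul, Complex.norm_real, Real.norm_of_nonneg ht, Complex.norm_exp]
    have h3 : (a * (t : ℂ)).re = a.re * t := by simp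
    have h4 : a.re ≠ 0 := ne_of_lt ha
    have h5 : -(-a.re * t) = a.re * t := by ring
    have h6 : 1 / -a.re * ((-a.re * t) ^ 1 * Real.exp (-(-a.re * t))) =
        t * Real.exp (a.re * t) := by
      rw [h5, pow_one]
      field_simp
    rw [h3]
    exact h6
  have hlim0 : Filter.Tendsto (fun t : ℝ => Complex.exp (a * t)) Filter.atTop (nhds 0) := by
    simpa [Complex.tendsto_exp_nhds_zero_iff] using
      tendsto_const_nhds.neg_mul_atTop ha Filter.tendsto_id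
  have hlim : Filter.Tendsto (fun t : ℝ => ((t : ℂ) / a - 1 / a ^ 2) * Complex.exp (a * t))
      Filter.atTop (nhds 0) := by
    have h1 := (hlim1.const_mul (1 / a)).sub (hlim0.const_mul (1 / a ^ 2))
    rw [mul_zero, mul_zero, sub_zero] at h1
    refine h1.congr fun t => ?_
    ring
  rw [integral_Ioi_of_hasDerivAt_of_tendsto' hd (tsq_int ha) hlim]
  simp

lemma tsq_time {d n : ℕ} {ζ : ℂ} (hζ : 0 < ζ.im) (y : Tor d n) :
    (1 / (2 * n + 1 : ℂ) ^ d) * ∑ q : Tor d n, mq ζ q ^ 2 * ch q y =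
      -∫ t in Set.Ioi (0 : ℝ), (t : ℂ) * Complex.exp (Complex.I * ζ * (t : ℂ)) *
        ∏ l, knf n t (y l) := by
  have hre : ∀ q : Tor d n, (Complex.I * (ζ - (omg q : ℂ))).re < 0 := by
    intro q
    have : (Complex.I * (ζ - (omg q : ℂ))).re = -ζ.im := by simp
    rw [this]
    linarith
  have h3 : ∀ t : ℝ, (t : ℂ) * Complex.exp (Complex.I * ζ * (t : ℂ)) * ∏ l, knf n t (y l) =
      ∑ q : Tor d n, ((1 / (2 * n + 1 : ℂ) ^ d) * ch q y) *
        ((t : ℂ) * Complex.exp (Complex.I * (ζ - (omg q : ℂ)) * (t : ℂ))) := by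
    intro t
    rw [FB4_prod_knf, Finset.mul_sum, Finset.mul_sum]
    refine Finset.sum_congr rfl fun q _ => ?_
    have : Complex.exp (Complex.I * (ζ - (omg q : ℂ)) * (t : ℂ)) =
        Complex.exp (Complex.I * ζ * (t : ℂ)) *
          Complex.exp (-(Complex.I * (omg q : ℂ)) * (t : ℂ)) := by
      rw [← Complex.exp_add]
      congr 1
      ring
    rw [this]
    ring
  simp only [h3]
  rw [integral_finsetSum _ (fun q _ => (tsq_int (hre q)).const_mul _), ← Finset.sum_neg_distrib,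
    Finset.mul_sum]
  refine Finset.sum_congr rfl fun q _ => ?_
  rw [integral_const_mul, tsq_val (hre q), mul_pow, Complex.I_sq]
  have h4 : (ζ - (omg q : ℂ)) ^ 2 = ((omg q : ℂ) - ζ) ^ 2 := by ring
  unfold mq
  rw [h4, div_pow, one_pow, neg_one_mul, div_neg]
  ring

lemma tsq_bd {d : ℕ} (hd : 3 ≤ d) (m : ℤ) (hm : |m| ≤ 2) : ∃ C : ℝ, 0 < C ∧
    ∀ (n : ℕ) (ζ : ℂ) (j : Fin d), 2 ≤ n → 0 < ζ.im → ζ.im ≤ 1 →
    ζ.im * ‖∫ t in Set.Ioi (0 : ℝ), (t : ℂ) * Complex.exp (Complex.I * ζ * (t : ℂ)) *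
        ∏ l, knf n t ((Pi.single j (m : ZMod (2 * n + 1)) : Tor d n) l)‖ ≤
      C * (√ζ.im + 1 / (ζ.im ^ 2 * (2 * n + 1))) := by
  obtain ⟨C1, hC1, h1⟩ := knf_err d m
  obtain ⟨C2, hC2, h2⟩ := kp_le hd m
  have hG1 : 0 < Real.Gamma (1 / 2) := Real.Gamma_pos_of_pos (by norm_num)
  have hG2 : 0 < Real.Gamma 2 := Real.Gamma_pos_of_pos (by norm_num)
  have hG3 : 0 < Real.Gamma 3 := Real.Gamma_pos_of_pos (by norm_num)
  refine ⟨C2 * Real.Gamma (1 / 2) + C1 * (Real.Gamma 2 + Real.Gamma 3), by positivity, ?_⟩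
  intro n ζ j hn hγ hγ1
  set γ := ζ.im with hγdef
  have hN : (0:ℝ) < 2 * n + 1 := by positivity
  obtain ⟨i1, e1⟩ := tsq_gam (a := 1 / 2) (r := γ) (by norm_num) hγ
  obtain ⟨i2, e2⟩ := tsq_gam (a := 2) (r := γ) (by norm_num) hγ
  obtain ⟨i3, e3⟩ := tsq_gam (a := 3) (r := γ) (by norm_num) hγ
  set g : ℝ → ℝ := fun t => C2 * (t ^ ((1:ℝ) / 2 - 1) * Real.exp (-(γ * t))) +
    (C1 / (2 * n + 1) * (t ^ ((2:ℝ) - 1) * Real.exp (-(γ * t))) +
      C1 / (2 * n + 1) * (t ^ ((3:ℝ) - 1) * Real.exp (-(γ * t)))) with hg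
  have i23 : IntegrableOn (fun t : ℝ => C1 / (2 * n + 1) * (t ^ ((2:ℝ) - 1) * Real.exp (-(γ * t))) +
      C1 / (2 * n + 1) * (t ^ ((3:ℝ) - 1) * Real.exp (-(γ * t)))) (Set.Ioi 0) :=
    (i2.const_mul _).add (i3.const_mul _)
  have ig : IntegrableOn g (Set.Ioi 0) := (i1.const_mul C2).add i23
  have eg : ∫ t in Set.Ioi (0:ℝ), g t = C2 * ((1 / γ) ^ ((1:ℝ) / 2) * Real.Gamma (1 / 2)) +
      (C1 / (2 * n + 1) * ((1 / γ) ^ (2:ℝ) * Real.Gamma 2) +
        C1 / (2 * n + 1) * ((1 / γ) ^ (3:ℝ) * Real.Gamma 3)) := by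
    simp only [hg]
    rw [integral_add (i1.const_mul C2) i23, integral_add (i2.const_mul _) (i3.const_mul _),
      integral_const_mul, integral_const_mul, integral_const_mul, e1, e2, e3]
  have hle : ∀ᵐ t : ℝ ∂(volume.restrict (Set.Ioi (0:ℝ))),
      ‖(t : ℂ) * Complex.exp (Complex.I * ζ * (t : ℂ)) *
        ∏ l, knf n t ((Pi.single j (m : ZMod (2 * n + 1)) : Tor d n) l)‖ ≤ g t := by
    refine (ae_restrict_iff' measurableSet_Ioi).2 (Filter.Eventually.of_forall fun t ht => ?_)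
    have ht0 : (0:ℝ) < t := ht
    have hmn : |m| ≤ (n:ℤ) := hm.trans (by exact_mod_cast hn)
    have k1 := h1 n t j ht0.le hmn
    have k2 := h2 t ht0.le
    have k3 : ‖∏ l, knf n t ((Pi.single j (m : ZMod (2 * n + 1)) : Tor d n) l)‖ ≤
        C2 * (1 + t) ^ (-(3 / 2) : ℝ) + C1 * (1 + t) / (2 * n + 1) := by
      have := norm_le_norm_add_norm_sub' (∏ l, knf n t ((Pi.single j (m : ZMod (2 * n + 1)) :
        Tor d n) l)) (kp d m t)
      linarith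
    have k4 : ‖Complex.exp (Complex.I * ζ * (t : ℂ))‖ = Real.exp (-(γ * t)) := by
      rw [Complex.norm_exp]
      congr 1
      simp [hγdef]
    rw [norm_mul, norm_mul, Complex.norm_real, Real.norm_of_nonneg ht0.le, k4]
    have k5 : t * (1 + t) ^ (-(3 / 2) : ℝ) ≤ t ^ ((1:ℝ) / 2 - 1) := by
      have l1 : (1 + t) ^ (-(3 / 2) : ℝ) ≤ t ^ (-(3 / 2) : ℝ) :=
        Real.rpow_le_rpow_of_nonpos ht0 (by linarith) (by norm_num)
      have l2 : t * t ^ (-(3 / 2) : ℝ) = t ^ ((1:ℝ) / 2 - 1) := by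
        nth_rewrite 1 [← Real.rpow_one t]
        rw [← Real.rpow_add ht0]
        norm_num
      rw [← l2]
      exact mul_le_mul_of_nonneg_left l1 ht0.le
    have k6 : t ^ ((2:ℝ) - 1) = t := by
      rw [show (2:ℝ) - 1 = 1 by norm_num, Real.rpow_one]
    have k7 : t ^ ((3:ℝ) - 1) = t ^ 2 := by
      rw [show (3:ℝ) - 1 = ((2:ℕ):ℝ) by norm_num, Real.rpow_natCast]
    have hE := Real.exp_pos (-(γ * t))
    have k8 : t * Real.exp (-(γ * t)) *
        ‖∏ l, knf n t ((Pi.single j (m : ZMod (2 * n + 1)) : Tor d n) l)‖ ≤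
        t * Real.exp (-(γ * t)) *
        (C2 * (1 + t) ^ (-(3 / 2) : ℝ) + C1 * (1 + t) / (2 * n + 1)) :=
      mul_le_mul_of_nonneg_left k3 (by positivity)
    refine k8.trans ?_
    have k9 : t * Real.exp (-(γ * t)) *
        (C2 * (1 + t) ^ (-(3 / 2) : ℝ) + C1 * (1 + t) / (2 * n + 1)) =
        (C2 * Real.exp (-(γ * t))) * (t * (1 + t) ^ (-(3 / 2) : ℝ)) +
        (C1 / (2 * n + 1) * (t * Real.exp (-(γ * t))) +
          C1 / (2 * n + 1) * (t ^ 2 * Real.exp (-(γ * t)))) := by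
      ring
    rw [k9, hg]
    simp only [k6, k7]
    have k10 := mul_le_mul_of_nonneg_left k5 (by positivity : 0 ≤ C2 * Real.exp (-(γ * t)))
    have k11 : (C2 * Real.exp (-(γ * t))) * t ^ ((1:ℝ) / 2 - 1) =
      C2 * (t ^ ((1:ℝ) / 2 - 1) * Real.exp (-(γ * t))) := by ring
    rw [k11] at k10
    linarith
  have hI := norm_integral_le_of_norm_le ig hle
  rw [eg] at hI
  have q1 : γ * (1 / γ) ^ ((1:ℝ) / 2) = √γ := by
    rw [one_div γ, Real.inv_rpow hγ.le, ← Real.sqrt_eq_rpow]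
    have := Real.sqrt_pos.2 hγ
    have h5 := Real.mul_self_sqrt hγ.le
    field_simp
    nlinarith
  have q2 : (1 / γ) ^ (2:ℝ) = 1 / γ ^ 2 := by
    rw [show (2:ℝ) = ((2:ℕ):ℝ) by norm_num, Real.rpow_natCast]
    rw [div_pow, one_pow]
  have q3 : (1 / γ) ^ (3:ℝ) = 1 / γ ^ 3 := by
    rw [show (3:ℝ) = ((3:ℕ):ℝ) by norm_num, Real.rpow_natCast]
    rw [div_pow, one_pow]
  have q4 : γ * (1 / γ ^ 2) ≤ 1 / γ ^ 2 :=
    mul_le_of_le_one_left (by positivity) hγ1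
  have q5 : γ * (1 / γ ^ 3) = 1 / γ ^ 2 := by
    field_simp
  calc γ * _ ≤ γ * (C2 * ((1 / γ) ^ ((1:ℝ) / 2) * Real.Gamma (1 / 2)) +
      (C1 / (2 * n + 1) * ((1 / γ) ^ (2:ℝ) * Real.Gamma 2) +
        C1 / (2 * n + 1) * ((1 / γ) ^ (3:ℝ) * Real.Gamma 3))) :=
        mul_le_mul_of_nonneg_left hI hγ.le
    _ = C2 * Real.Gamma (1 / 2) * (γ * (1 / γ) ^ ((1:ℝ) / 2)) +
      (C1 / (2 * n + 1) * Real.Gamma 2 * (γ * (1 / γ ^ 2)) +
        C1 / (2 * n + 1) * Real.Gamma 3 * (γ * (1 / γ ^ 3))) := by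
        rw [q2, q3]
        ring
    _ ≤ C2 * Real.Gamma (1 / 2) * √γ +
      (C1 / (2 * n + 1) * Real.Gamma 2 * (1 / γ ^ 2) +
        C1 / (2 * n + 1) * Real.Gamma 3 * (1 / γ ^ 2)) := by
        rw [q1, q5]
        gcongr
    _ = C2 * Real.Gamma (1 / 2) * √γ +
      C1 * (Real.Gamma 2 + Real.Gamma 3) * (1 / (γ ^ 2 * (2 * n + 1))) := by
        field_simp
    _ ≤ (C2 * Real.Gamma (1 / 2) + C1 * (Real.Gamma 2 + Real.Gamma 3)) *
        (√γ + 1 / (γ ^ 2 * (2 * n + 1))) := by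
        have a1 : 0 ≤ C2 * Real.Gamma (1 / 2) := by positivity
        have a2 : 0 ≤ C1 * (Real.Gamma 2 + Real.Gamma 3) := by positivity
        have a3 : 0 ≤ √γ := Real.sqrt_nonneg _
        have a4 : 0 ≤ 1 / (γ ^ 2 * (2 * n + 1)) := by positivity
        nlinarith [mul_nonneg a1 a4, mul_nonneg a2 a3]

theorem tavg_sq {d : ℕ} (hd : 3 ≤ d) : ∃ C : ℝ, 0 < C ∧ ∀ (n : ℕ) (ζ : ℂ) (j : Fin d), 2 ≤ n →
    0 < ζ.im → ζ.im ≤ 1 →
    ζ.im * ‖tavg (fun q : Tor d n => ((4 * Real.sin (ang n (q j)) ^ 2 : ℝ) : ℂ) * mq ζ q ^ 2)‖ ≤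
      C * (√ζ.im + 1 / (ζ.im ^ 2 * (2 * n + 1))) := by
  obtain ⟨C0, hC0, h0⟩ := tsq_bd hd 0 (by norm_num)
  obtain ⟨C2, hC2, h2⟩ := tsq_bd hd 2 (by norm_num)
  refine ⟨2 * C0 + 2 * C2, by positivity, ?_⟩
  intro n ζ j hn hγ hγ1
  have k0 := h0 n ζ j hn hγ hγ1
  have k2 := h2 n ζ j hn hγ hγ1
  have e0 := tsq_time (n := n) hγ (Pi.single j ((0 : ℤ) : ZMod (2 * n + 1)) : Tor d n)
  have e2 := tsq_time (n := n) hγ (Pi.single j ((2 : ℤ) : ZMod (2 * n + 1)) : Tor d n)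
  have hkey := tsq_key (fun q : Tor d n => mq ζ q ^ 2) (fun q => by rw [tsq_mq]) j
  set I0 := ∫ t in Set.Ioi (0 : ℝ), (t : ℂ) * Complex.exp (Complex.I * ζ * (t : ℂ)) *
        ∏ l, knf n t ((Pi.single j ((0 : ℤ) : ZMod (2 * n + 1)) : Tor d n) l) with hI0
  set I2 := ∫ t in Set.Ioi (0 : ℝ), (t : ℂ) * Complex.exp (Complex.I * ζ * (t : ℂ)) *
        ∏ l, knf n t ((Pi.single j ((2 : ℤ) : ZMod (2 * n + 1)) : Tor d n) l) with hI2
  have hz : ∀ q : Tor d n, ch q (Pi.single j ((0 : ℤ) : ZMod (2 * n + 1))) = 1 := by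
    intro q
    rw [Int.cast_zero, Pi.single_zero, fb34_ch_zero]
  simp only [hz, mul_one] at e0
  have hT : tavg (fun q : Tor d n => ((4 * Real.sin (ang n (q j)) ^ 2 : ℝ) : ℂ) * mq ζ q ^ 2) =
      -(2 * I0) + 2 * I2 := by
    unfold tavg
    rw [hkey]
    calc _ = 2 * ((1 / (2 * n + 1 : ℂ) ^ d) * ∑ q : Tor d n, mq ζ q ^ 2) -
        2 * ((1 / (2 * n + 1 : ℂ) ^ d) * ∑ q : Tor d n, mq ζ q ^ 2 *
          ch q (Pi.single j ((2 : ℤ) : ZMod (2 * n + 1)))) := by ring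
      _ = _ := by
        rw [e0, e2]
        ring
  have hn1 : ‖tavg (fun q : Tor d n =>
      ((4 * Real.sin (ang n (q j)) ^ 2 : ℝ) : ℂ) * mq ζ q ^ 2)‖ ≤ 2 * ‖I0‖ + 2 * ‖I2‖ := by
    rw [hT]
    refine (norm_add_le _ _).trans ?_
    rw [norm_neg, norm_mul, norm_mul]
    simp
  calc ζ.im * _ ≤ ζ.im * (2 * ‖I0‖ + 2 * ‖I2‖) := mul_le_mul_of_nonneg_left hn1 hγ.le
    _ = 2 * (ζ.im * ‖I0‖) + 2 * (ζ.im * ‖I2‖) := by ring
    _ ≤ 2 * (C0 * (√ζ.im + 1 / (ζ.im ^ 2 * (2 * n + 1)))) +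
        2 * (C2 * (√ζ.im + 1 / (ζ.im ^ 2 * (2 * n + 1)))) := by linarith
    _ = _ := by ring

end Pool.Agent.QDF
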