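import Pool.Agent.QDF.PhB

/-! QDF/TorG. The free resolvent on the torus in time, and its distance to `Ph`.

* `Gr_time`: `Gr_eq_TF` (`BK/Dft.lean`): `Gr H0 0 ζ = TF (1/(ω-ζ))`. For `Im ζ > 0` and real `w`,
  `1/(w-ζ) = i ∫_0^∞ exp(iζt) exp(-iwt) dt` (`integral_exp_mul_complex_Ioi` or similar: the exponent
  is `i(ζ-w)`, real part `-Im ζ < 0`). Insert this, exchange the finite sum with the integral, and use
  `FB4_prod_knf` (`BK/FB4.lean`): `∏ knf n t (x l) = (1/(2n+1)^d) Σ_q exp(-iω(q)t) ch q x`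
  (mind the order of the arguments in `TF F x y`, see `TF_blkf` in `BK/FB4.lean` which does exactly
  this for the truncated integral: `TF (i fblk) x y = i blkf (y-x)`).
* `knf_err`: `∏_l knf n t (Pi.single j m l) = knf n t m * knf n t 0 ^ (d-1)`, all factors have norm `≤ 1`
  (`knf_one`, `kf_one`), and `riem_f` (`BK/K4R.lean`) bounds `knf n t m - kf t m.valMinAbs` by
  `C(1+t+|m|)/(2n+1)`; `(m : ZMod (2n+1)).valMinAbs = m` for `|m| ≤ n` (`Lift_vma` in `BK/Lift.lean`).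
  So the difference of the products is at most `d C (1+t+|m|)/(2n+1)`.
* `Gr_ph`: subtract the two integrals; `∫_0^∞ exp(-γt)(1+t) dt = 1/γ + 1/γ² ≤ 2/γ²` (`γ = Im ζ ≤ 1`). -/

open MeasureTheory Finset Matrix Pool.Agent.BK Pool.Agent.BK3

noncomputable section

namespace Pool.Agent.QDF

private theorem torg_exp_norm {ζ : ℂ} {t : ℝ} :
    ‖Complex.exp (Complex.I * ζ * (t : ℂ))‖ = Real.exp (-(ζ.im * t)) := by
  rw [Complex.norm_exp]
  congr 1
  simp [Complex.mul_re]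

theorem Gr_time {d n : ℕ} (hn : 0 < n) {ζ : ℂ} (hζ : 0 < ζ.im) (y : Tor d n) :
    IntegrableOn (fun t : ℝ => Complex.exp (Complex.I * ζ * (t : ℂ)) * ∏ l, knf n t (y l))
      (Set.Ioi (0 : ℝ)) ∧
    Gr (H0 d n) 0 ζ 0 y = Complex.I * ∫ t in Set.Ioi (0 : ℝ),
      Complex.exp (Complex.I * ζ * (t : ℂ)) * ∏ l, knf n t (y l) := by
  have hre : ∀ q : Tor d n, (Complex.I * (ζ - (omg q : ℂ))).re < 0 := by
    intro q
    have : (Complex.I * (ζ - (omg q : ℂ))).re = -ζ.im := by simp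
    rw [this]
    linarith
  have hfun : ∀ t : ℝ, Complex.exp (Complex.I * ζ * (t : ℂ)) * ∏ l, knf n t (y l) =
      ∑ q : Tor d n, ((1 / (2 * n + 1 : ℂ) ^ d) * ch q y) *
        Complex.exp (Complex.I * (ζ - (omg q : ℂ)) * (t : ℂ)) := by
    intro t
    rw [FB4_prod_knf, Finset.mul_sum, Finset.mul_sum]
    refine Finset.sum_congr rfl fun q _ => ?_
    have : Complex.exp (Complex.I * (ζ - (omg q : ℂ)) * (t : ℂ)) =
        Complex.exp (Complex.I * ζ * (t : ℂ)) *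
          Complex.exp (-(Complex.I * (omg q : ℂ)) * (t : ℂ)) := by
      rw [← Complex.exp_add]
      congr 1
      ring
    rw [this]
    ring
  have hint : ∀ q : Tor d n, IntegrableOn (fun t : ℝ => ((1 / (2 * n + 1 : ℂ) ^ d) * ch q y) *
        Complex.exp (Complex.I * (ζ - (omg q : ℂ)) * (t : ℂ))) (Set.Ioi (0 : ℝ)) := fun q =>
    (integrableOn_exp_mul_complex_Ioi (hre q) 0).const_mul _
  simp only [hfun]
  refine ⟨integrable_finsetSum _ fun q _ => hint q, ?_⟩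
  rw [integral_finsetSum _ fun q _ => hint q, Gr_eq_TF hn hζ]
  unfold TF
  rw [sub_zero, Finset.mul_sum, Finset.mul_sum]
  refine Finset.sum_congr rfl fun q _ => ?_
  rw [integral_const_mul, integral_exp_mul_complex_Ioi (hre q) 0]
  have h1 : ζ - (omg q : ℂ) ≠ 0 := by
    intro h
    have := hre q
    rw [h] at this
    simp at this
  have h2 : (omg q : ℂ) - ζ ≠ 0 := by
    intro h
    apply h1
    rw [← neg_sub, h, neg_zero]
  have h3 : Complex.I * (-Complex.exp (Complex.I * (ζ - (omg q : ℂ)) * ((0 : ℝ) : ℂ)) /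
      (Complex.I * (ζ - (omg q : ℂ)))) = 1 / ((omg q : ℂ) - ζ) := by
    rw [Complex.ofReal_zero, mul_zero, Complex.exp_zero]
    have hI := Complex.I_ne_zero
    field_simp
    ring
  show (1 / (2 * n + 1 : ℂ) ^ d) * ((1 / ((omg q : ℂ) - ζ)) * ch q y) = _
  rw [← h3]
  ring

private theorem torg_vma {n : ℕ} {w : ℤ} (hw : |w| ≤ n) :
    ((w : ZMod (2 * n + 1))).valMinAbs = w := by
  rw [ZMod.valMinAbs_spec]
  refine ⟨rfl, ?_⟩
  rw [abs_le] at hw
  constructor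
  · push_cast; linarith [hw.1]
  · push_cast; linarith [hw.2]

private theorem torg_pow {x y : ℂ} (hx : ‖x‖ ≤ 1) (hy : ‖y‖ ≤ 1) (k : ℕ) :
    ‖x ^ k - y ^ k‖ ≤ k * ‖x - y‖ := by
  induction k with
  | zero => simp
  | succ k ih =>
    have h1 : x ^ (k + 1) - y ^ (k + 1) = x ^ k * (x - y) + (x ^ k - y ^ k) * y := by ring
    rw [h1]
    refine (norm_add_le _ _).trans ?_
    rw [norm_mul, norm_mul, norm_pow]
    have h2 : ‖x‖ ^ k ≤ 1 := pow_le_one₀ (norm_nonneg _) hx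
    have h3 : ‖x‖ ^ k * ‖x - y‖ ≤ 1 * ‖x - y‖ := mul_le_mul_of_nonneg_right h2 (norm_nonneg _)
    have h4 : ‖x ^ k - y ^ k‖ * ‖y‖ ≤ (k * ‖x - y‖) * 1 :=
      mul_le_mul ih hy (norm_nonneg _) (by positivity)
    push_cast
    linarith

theorem knf_err (d : ℕ) (m : ℤ) : ∃ C : ℝ, 0 < C ∧ ∀ (n : ℕ) (t : ℝ) (j : Fin d), 0 ≤ t →
    |m| ≤ (n : ℤ) →
    ‖∏ l, knf n t ((Pi.single j (m : ZMod (2 * n + 1)) : Tor d n) l) - kp d m t‖ ≤
      C * (1 + t) / (2 * n + 1) := by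
  obtain ⟨C0, hC0, hR⟩ := riem_f
  have hm0 : 0 ≤ |(m : ℝ)| := abs_nonneg _
  refine ⟨C0 * (1 + |(m : ℝ)|) * (1 + d), by positivity, ?_⟩
  intro n t j ht hm
  have hprod : ∏ l, knf n t ((Pi.single j (m : ZMod (2 * n + 1)) : Tor d n) l) =
      knf n t (m : ZMod (2 * n + 1)) * knf n t 0 ^ (d - 1) := by
    rw [Fintype.prod_eq_mul_prod_compl j, Pi.single_eq_same]
    congr 1
    have h1 : ∀ l ∈ ({j} : Finset (Fin d))ᶜ,
        knf n t ((Pi.single j (m : ZMod (2 * n + 1)) : Tor d n) l) = knf n t 0 := by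
      intro l hl
      rw [Finset.mem_compl, Finset.mem_singleton] at hl
      rw [Pi.single_eq_of_ne hl]
    rw [Finset.prod_congr rfl h1, Finset.prod_const, Finset.card_compl, Finset.card_singleton,
      Fintype.card_fin]
  have hv : ((m : ZMod (2 * n + 1))).valMinAbs = m := torg_vma hm
  have e1 := hR n t (m : ZMod (2 * n + 1)) ht
  have e0 := hR n t 0 ht
  rw [hv] at e1
  rw [ZMod.valMinAbs_zero] at e0
  simp only [Int.cast_zero, abs_zero, add_zero] at e0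
  rw [hprod]
  unfold kp
  have hN : (0 : ℝ) < 2 * n + 1 := by positivity
  set x := knf n t (m : ZMod (2 * n + 1)) with hx
  set y := knf n t 0 with hy
  have hdec : x * y ^ (d - 1) - kf t m * kf t 0 ^ (d - 1) =
      (x - kf t m) * y ^ (d - 1) + kf t m * (y ^ (d - 1) - kf t 0 ^ (d - 1)) := by ring
  rw [hdec]
  have hy1 : ‖y‖ ≤ 1 := knf_one n t 0
  have hk1 : ‖kf t m‖ ≤ 1 := kf_one t m
  have hk0 : ‖kf t 0‖ ≤ 1 := kf_one t 0
  have h2 : ‖(x - kf t m) * y ^ (d - 1)‖ ≤ C0 * (1 + t + |(m : ℝ)|) / (2 * n + 1) := by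
    rw [norm_mul, norm_pow]
    calc ‖x - kf t m‖ * ‖y‖ ^ (d - 1) ≤ ‖x - kf t m‖ * 1 :=
          mul_le_mul_of_nonneg_left (pow_le_one₀ (norm_nonneg _) hy1) (norm_nonneg _)
      _ ≤ _ := by rw [mul_one]; exact e1
  have h3 : ‖kf t m * (y ^ (d - 1) - kf t 0 ^ (d - 1))‖ ≤ d * (C0 * (1 + t) / (2 * n + 1)) := by
    rw [norm_mul]
    calc ‖kf t m‖ * ‖y ^ (d - 1) - kf t 0 ^ (d - 1)‖ ≤ 1 * (((d - 1 : ℕ) : ℝ) * ‖y - kf t 0‖) :=
          mul_le_mul hk1 (torg_pow hy1 hk0 _) (norm_nonneg _) zero_le_one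
      _ ≤ d * (C0 * (1 + t) / (2 * n + 1)) := by
          rw [one_mul]
          apply mul_le_mul _ e0 (norm_nonneg _) (Nat.cast_nonneg _)
          exact_mod_cast Nat.sub_le d 1
  refine (norm_add_le _ _).trans ?_
  refine (add_le_add h2 h3).trans ?_
  rw [← mul_div_assoc, ← add_div]
  apply div_le_div_of_nonneg_right _ hN.le
  have hd0 : (0 : ℝ) ≤ d := Nat.cast_nonneg d
  have k1 : 1 + t + |(m : ℝ)| ≤ (1 + |(m : ℝ)|) * (1 + t) := by
    have := mul_nonneg hm0 ht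
    linarith
  have k2 : (1 + t) ≤ (1 + |(m : ℝ)|) * (1 + t) := by
    have := mul_nonneg hm0 ht
    linarith
  have k3 : C0 * (1 + t + |(m : ℝ)|) ≤ C0 * ((1 + |(m : ℝ)|) * (1 + t)) :=
    mul_le_mul_of_nonneg_left k1 hC0.le
  have k4 : d * (C0 * (1 + t)) ≤ d * (C0 * ((1 + |(m : ℝ)|) * (1 + t))) :=
    mul_le_mul_of_nonneg_left (mul_le_mul_of_nonneg_left k2 hC0.le) hd0
  calc C0 * (1 + t + |(m : ℝ)|) + d * (C0 * (1 + t)) ≤
      C0 * ((1 + |(m : ℝ)|) * (1 + t)) + d * (C0 * ((1 + |(m : ℝ)|) * (1 + t))) := add_le_add k3 k4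
    _ = _ := by ring

theorem Gr_ph {d : ℕ} (hd : 3 ≤ d) (m : ℤ) : ∃ C : ℝ, 0 < C ∧ ∀ (n : ℕ) (ζ : ℂ) (j : Fin d),
    0 < n → |m| ≤ (n : ℤ) → 0 < ζ.im → ζ.im ≤ 1 →
    ‖Gr (H0 d n) 0 ζ 0 (Pi.single j (m : ZMod (2 * n + 1))) - Ph d m ζ‖ ≤
      C / ((2 * n + 1) * ζ.im ^ 2) := by
  obtain ⟨C0, hC0, hE⟩ := knf_err d m
  refine ⟨4 * C0, by positivity, ?_⟩
  intro n ζ j hn hm hζ hζ1
  obtain ⟨hI, hG⟩ := Gr_time hn hζ (Pi.single j (m : ZMod (2 * n + 1)) : Tor d n)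
  set γ := ζ.im with hγ
  have hN : (0 : ℝ) < 2 * n + 1 := by positivity
  have hPh : Ph d m ζ = Complex.I * ∫ t in Set.Ioi (0 : ℝ),
      Complex.exp (Complex.I * ζ * (t : ℂ)) * kp d m t := rfl
  rw [hG, hPh, ← mul_sub, ← integral_sub hI (Ph_int hd m hζ.le), norm_mul, Complex.norm_I, one_mul]
  have hb : IntegrableOn (fun t : ℝ => (2 * C0 / ((2 * n + 1) * γ)) * Real.exp (-(γ / 2) * t))
      (Set.Ioi (0 : ℝ)) := (integrableOn_exp_mul_Ioi (by linarith) 0).const_mul _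
  refine (norm_integral_le_of_norm_le hb ?_).trans ?_
  · refine (ae_restrict_iff' measurableSet_Ioi).2 (ae_of_all _ fun t ht => ?_)
    have ht0 : 0 ≤ t := le_of_lt ht
    rw [← mul_sub, norm_mul, torg_exp_norm, ← hγ]
    have h1 := hE n t j ht0 hm
    have h2 : 1 + t ≤ 2 / γ * Real.exp (γ / 2 * t) := by
      have h3 := Real.add_one_le_exp (γ / 2 * t)
      have h4 : 0 < 2 / γ := by positivity
      have h5 : 1 ≤ 2 / γ := by
        rw [le_div_iff₀ hζ]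
        linarith
      have h6 : 2 / γ * (γ / 2 * t + 1) = t + 2 / γ := by
        field_simp
      have h7 := mul_le_mul_of_nonneg_left h3 h4.le
      rw [h6] at h7
      linarith
    have hexp : Real.exp (-(γ * t)) * Real.exp (γ / 2 * t) = Real.exp (-(γ / 2) * t) := by
      rw [← Real.exp_add]
      congr 1
      ring
    calc Real.exp (-(γ * t)) *
        ‖∏ l, knf n t ((Pi.single j (m : ZMod (2 * n + 1)) : Tor d n) l) - kp d m t‖ ≤
        Real.exp (-(γ * t)) * (C0 * (1 + t) / (2 * n + 1)) :=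
          mul_le_mul_of_nonneg_left h1 (Real.exp_pos _).le
      _ ≤ Real.exp (-(γ * t)) * (C0 * (2 / γ * Real.exp (γ / 2 * t)) / (2 * n + 1)) := by
          apply mul_le_mul_of_nonneg_left _ (Real.exp_pos _).le
          apply div_le_div_of_nonneg_right _ hN.le
          exact mul_le_mul_of_nonneg_left h2 hC0.le
      _ = (2 * C0 / ((2 * n + 1) * γ)) * (Real.exp (-(γ * t)) * Real.exp (γ / 2 * t)) := by
          field_simp
      _ = _ := by rw [hexp]
  · rw [integral_const_mul, integral_exp_mul_Ioi (by linarith) 0, mul_zero, Real.exp_zero]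
    apply le_of_eq
    field_simp
    norm_num

end Pool.Agent.QDF
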