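import Pool.Agent.QDF.Defs
import Pool.Agent.BK.Bridge

/-! QDF/Tr0. One potential: from `ℤ^d` to the torus.

`V : Site d → ℝ` bounded, `v r = V (emb r)`, `G x = green V z x 0`, `G' r = Gr (H0 d n) v z r 0`,
`η = Im z ∈ (0,1]`, `δ = 8d/η²(2n+3)^d e^(-ηn/8)`. `lift` (`BK/Lift.lean`) with `y = 0`:
`‖G x - G' (prj n x)‖ ≤ δ` for `|x|_∞ ≤ n`.
* `tr0_ward`: `Σ_x ‖G x‖² = Im G 0/η` (`ward` of `Helper3/Anderson/Basic.lean`: the left side is
  `‖res (dl 0)‖²`; `lp` norm: `lp.norm_rpow_eq_tsum` / `lp.hasSum_norm`), and the same on the torus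
  (`ward` of `BK/Res1.lean`, with `Gr_symm` to exchange the arguments; `RS_H0`).
* `tr0`: let `w = wk κ ∈ [0,2]`. The box `B = {|x|_∞ ≤ n}` is in bijection with the torus by
  `emb`/`prj` (`Lift_emb_prj`, `bridge_prj_emb`, `bridge_emb_inj`, `bridge_abs_emb_le`), so
  `Σ_x w‖G‖² = Σ_r w(emb r)‖G(emb r)‖² + Σ_{x ∉ B} w‖G‖²`,
  `|‖G‖² - ‖G'‖²| ≤ (‖G‖+‖G'‖)δ ≤ (2/η)δ` (`norm_green_le`, `norm_Gr_le`), and
  `Σ_{x∉B}‖G‖² = (Im G 0 - Im G' 0)/η + Σ_r(‖G'‖²-‖G(emb r)‖²) ≤ δ/η + (2n+1)^d (2/η)δ`. Total of these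
  errors `≤ 2(2n+1)^d(2/η)δ + 2(δ/η + (2n+1)^d(2/η)δ) ≤ 10 (2n+1)^d/η·δ`.
  Phases: `ch k r = exp(i Σ ang(k_l)·(r_l).valMinAbs)` (`fE_ch`, `stdAddChar_eq`; compare
  `flow_ch`, `fb34_*`), so for `|emb r l| ≤ ρ`, `|cos(κ·emb r) - Re ch k r| ≤ Σ_l |κ_l - ang k_l| ρ ≤ dΔρ`,
  multiplied by `Σ‖G'‖² ≤ 1/η²`; for the other `r`: `bridge_far`:
  `‖G' r‖² ≤ (2/η)² e^(-ηρ/4)`, and `|cos - cos| ≤ 2`. -/

open MeasureTheory Finset Matrix Pool.Agent.BK Pool.Agent.BK3 Pool.Agent.Helper3.Anderson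

noncomputable section

namespace Pool.Agent.QDF

theorem tr0_ward {d : ℕ} (V : Site d → ℝ) (hV : Bdd V) {z : ℂ} (hz : 0 < z.im) :
    HasSum (fun x : Site d => ‖green V z x 0‖ ^ 2) ((green V z 0 0).im / z.im) := by
  have h1 := Pool.Agent.Helper3.Anderson.ward V hV hz 0
  have h2 := lp.hasSum_norm (p := 2) (by norm_num) (res V hV z (dl 0))
  have h3 : ‖res V hV z (dl 0)‖ ^ (ENNReal.toReal 2) = (green V z 0 0).im / z.im := by
    rw [← h1]
    have : ENNReal.toReal 2 = ((2 : ℕ) : ℝ) := by norm_num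
    rw [this, Real.rpow_natCast]
    field_simp
  rw [h3] at h2
  refine h2.congr_fun ?_
  intro x
  rw [green_eq V hV]
  have : ENNReal.toReal 2 = ((2 : ℕ) : ℝ) := by norm_num
  rw [this, Real.rpow_natCast]

theorem tr0_ward' {d n : ℕ} (v : Tor d n → ℝ) {z : ℂ} (hz : 0 < z.im) :
    ∑ r, ‖Gr (H0 d n) v z r 0‖ ^ 2 = (Gr (H0 d n) v z 0 0).im / z.im := by
  rw [← Pool.Agent.BK.ward (RS_H0 d n) v hz 0]
  refine Finset.sum_congr rfl fun r _ => ?_
  rw [Gr_symm (RS_H0 d n) v hz.ne' r 0]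

private lemma tr0_cos (a b : ℝ) : |Real.cos a - Real.cos b| ≤ |a - b| := by
  rw [Real.cos_sub_cos, abs_mul, abs_mul, abs_neg, abs_two]
  have h1 : |Real.sin ((a + b) / 2)| ≤ 1 := Real.abs_sin_le_one _
  have h2 : |Real.sin ((a - b) / 2)| ≤ |(a - b) / 2| := Real.abs_sin_le_abs
  have h3 : |(a - b) / 2| = |a - b| / 2 := by rw [abs_div, abs_two]
  rw [h3] at h2
  have h4 : 0 ≤ |Real.sin ((a + b) / 2)| := abs_nonneg _
  have h5 : 0 ≤ |Real.sin ((a - b) / 2)| := abs_nonneg _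
  nlinarith

private lemma tr0_ch {d n : ℕ} (k r : Tor d n) :
    (ch k r).re = Real.cos (∑ l, ang n (k l) * ((emb r l : ℤ) : ℝ)) := by
  unfold ch
  have h1 : ∀ l, (ZMod.stdAddChar (k l * r l) : ℂ) =
      Complex.exp (((ang n (k l) * ((emb r l : ℤ) : ℝ) : ℝ) : ℂ) * Complex.I) := by
    intro l
    rw [stdAddChar_eq, mul_comm Complex.I]
    rfl
  rw [Finset.prod_congr rfl fun l _ => h1 l, ← Complex.exp_sum, ← Finset.sum_mul,
    ← Complex.ofReal_sum, Complex.exp_ofReal_mul_I_re]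

private lemma tr0_wk {d : ℕ} (κ : Fin d → ℝ) (x : Site d) : 0 ≤ wk κ x ∧ wk κ x ≤ 2 := by
  unfold wk
  have h1 := Real.cos_le_one (∑ l, κ l * (x l : ℝ))
  have h2 := Real.neg_one_le_cos (∑ l, κ l * (x l : ℝ))
  constructor <;> linarith

private lemma tr0_box {d n : ℕ} (h : Site d → ℝ) :
    ∑ x ∈ Lift_box d n, h x = ∑ r : Tor d n, h (emb r) := by
  refine Finset.sum_nbij' (fun x => prj n x) (fun r => emb r) (fun x _ => Finset.mem_univ _)
    (fun r _ => Lift_mem_box.2 (bridge_abs_emb_le r)) (fun x hx => ?_) (fun r _ => ?_)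
    (fun x hx => ?_)
  · exact Lift_emb_prj (Lift_mem_box.1 hx)
  · exact bridge_prj_emb r
  · rw [Lift_emb_prj (Lift_mem_box.1 hx)]

private lemma tr0_card (d n : ℕ) : (Fintype.card (Tor d n) : ℝ) = (2 * n + 1) ^ d := by
  rw [Fintype.card_fun, ZMod.card, Fintype.card_fin]
  push_cast
  ring

theorem tr0 {d n : ℕ} (hn : 1 ≤ n) (V : Site d → ℝ) (hV : Bdd V) {z : ℂ} (hz : 0 < z.im)
    (hz1 : z.im ≤ 1) (κ : Fin d → ℝ) (k : Tor d n) {Δ ρ : ℝ} (hρ : 0 ≤ ρ) (hΔ : 0 ≤ Δ)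
    (hk : ∀ l, |ang n (k l) - κ l| ≤ Δ) :
    |∑' x : Site d, wk κ x * ‖green V z x 0‖ ^ 2 -
        ∑ r, ‖Gr (H0 d n) (fun r => V (emb r)) z r 0‖ ^ 2 * (1 - (ch k r).re)| ≤
      (2 * n + 1) ^ d * (10 / z.im) *
          (8 * d / z.im ^ 2 * (2 * n + 3) ^ d * Real.exp (-(z.im / 8 * n))) +
        d * Δ * ρ / z.im ^ 2 +
        2 * (2 * n + 1) ^ d * (2 / z.im) ^ 2 * Real.exp (-(z.im / 4 * ρ)) := by
  set δ : ℝ := 8 * d / z.im ^ 2 * (2 * n + 3) ^ d * Real.exp (-(z.im / 8 * n)) with hδ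
  set N : ℝ := (2 * n + 1) ^ d with hN
  have hδ0 : 0 ≤ δ := by positivity
  have hN1 : 1 ≤ N := by
    rw [hN]
    refine one_le_pow₀ ?_
    have : (0 : ℝ) ≤ n := by positivity
    linarith
  set v : Tor d n → ℝ := fun r => V (emb r) with hv
  set f : Site d → ℝ := fun x => ‖green V z x 0‖ ^ 2 with hf
  set g : Tor d n → ℝ := fun r => ‖Gr (H0 d n) v z r 0‖ ^ 2 with hg
  have hf0 : ∀ x, 0 ≤ f x := fun x => sq_nonneg _
  have hg0 : ∀ r, 0 ≤ g r := fun r => sq_nonneg _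
  have hSf : HasSum f ((green V z 0 0).im / z.im) := tr0_ward V hV hz
  have hSg : ∑ r, g r = (Gr (H0 d n) v z 0 0).im / z.im := tr0_ward' v hz
  have hlift : ∀ x : Site d, (∀ l, |x l| ≤ n) →
      ‖green V z x 0 - Gr (H0 d n) v z (prj n x) 0‖ ≤ δ := by
    intro x hx
    have h1 := lift hn V hV hz hz1 0 x hx
    simp only [zero_add] at h1
    exact h1
  have hle1 : ∀ x, ‖green V z x 0‖ ≤ 1 / z.im := fun x => norm_green_le V hV hz x 0
  have hle2 : ∀ r, ‖Gr (H0 d n) v z r 0‖ ≤ 1 / z.im := fun r => by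
    have := norm_Gr_le (RS_H0 d n) v hz r 0
    simpa using this
  have hfg : ∀ r, |f (emb r) - g r| ≤ 2 / z.im * δ := by
    intro r
    have h1 := hlift (emb r) (bridge_abs_emb_le r)
    rw [bridge_prj_emb] at h1
    have h2 := (abs_norm_sub_norm_le _ _).trans h1
    have h3 : f (emb r) - g r = (‖green V z (emb r) 0‖ + ‖Gr (H0 d n) v z r 0‖) *
        (‖green V z (emb r) 0‖ - ‖Gr (H0 d n) v z r 0‖) := by
      simp only [hf, hg]
      ring
    rw [h3, abs_mul, abs_of_nonneg (by positivity)]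
    have h4 : ‖green V z (emb r) 0‖ + ‖Gr (H0 d n) v z r 0‖ ≤ 2 / z.im := by
      have h5 := hle1 (emb r)
      have h6 := hle2 r
      have h7 : 2 / z.im = 1 / z.im + 1 / z.im := by ring
      rw [h7]
      exact add_le_add h5 h6
    exact mul_le_mul h4 h2 (abs_nonneg _) (by positivity)
  have hcard : (∑ _r : Tor d n, (1 : ℝ)) = N := by
    rw [Finset.sum_const, Finset.card_univ, nsmul_eq_mul, mul_one, tr0_card]
  have hsumc : ∀ c : ℝ, ∑ _r : Tor d n, c = N * c := by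
    intro c
    rw [← hcard, Finset.sum_mul]
    simp
  have hSS : |(green V z 0 0).im / z.im - (Gr (H0 d n) v z 0 0).im / z.im| ≤ δ / z.im := by
    rw [← sub_div, abs_div, abs_of_pos hz]
    refine div_le_div_of_nonneg_right ?_ hz.le
    have h1 := hlift 0 (fun l => by simp)
    have h2 : prj n (0 : Site d) = 0 := by
      funext l
      simp [prj]
    rw [h2] at h1
    have h3 := Complex.abs_im_le_norm (green V z 0 0 - Gr (H0 d n) v z 0 0)
    rw [Complex.sub_im] at h3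
    exact h3.trans h1
  -- the mass outside of the box
  have hout : (green V z 0 0).im / z.im - ∑ x ∈ Lift_box d n, f x ≤
      δ / z.im + N * (2 / z.im * δ) := by
    rw [tr0_box]
    have h1 : ∑ r, (g r - f (emb r)) ≤ N * (2 / z.im * δ) := by
      rw [← hsumc]
      refine Finset.sum_le_sum fun r _ => ?_
      have := (abs_le.1 (hfg r)).1
      linarith
    rw [Finset.sum_sub_distrib, hSg] at h1
    have h2 := (abs_le.1 hSS).2
    linarith
  -- the weighted sum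
  have hw := tr0_wk κ
  have hwf : Summable fun x => wk κ x * f x := by
    refine Summable.of_nonneg_of_le (fun x => mul_nonneg (hw x).1 (hf0 x))
      (fun x => mul_le_mul_of_nonneg_right (hw x).2 (hf0 x)) (hSf.summable.mul_left 2)
  have hT := hwf.sum_add_tsum_subtype_compl (Lift_box d n)
  have hF := hSf.summable.sum_add_tsum_subtype_compl (Lift_box d n)
  rw [hSf.tsum_eq] at hF
  have hR0 : 0 ≤ ∑' x : {x // x ∉ Lift_box d n}, wk κ x * f x :=
    tsum_nonneg fun x => mul_nonneg (hw x).1 (hf0 x)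
  have hR1 : ∑' x : {x // x ∉ Lift_box d n}, wk κ x * f x ≤
      2 * ∑' x : {x // x ∉ Lift_box d n}, f x := by
    rw [← tsum_mul_left]
    refine Summable.tsum_le_tsum (fun x => mul_le_mul_of_nonneg_right (hw x).2 (hf0 x))
      (hwf.subtype _) ((hSf.summable.subtype _).mul_left 2)
  have hR2 : ∑' x : {x // x ∉ Lift_box d n}, f x ≤ δ / z.im + N * (2 / z.im * δ) := by
    linarith
  -- inside of the box
  have hin : |∑ x ∈ Lift_box d n, wk κ x * f x - ∑ r, wk κ (emb r) * g r| ≤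
      N * (2 * (2 / z.im * δ)) := by
    rw [tr0_box (fun x => wk κ x * f x), ← Finset.sum_sub_distrib, ← hsumc]
    refine (Finset.abs_sum_le_sum_abs _ _).trans (Finset.sum_le_sum fun r _ => ?_)
    rw [← mul_sub, abs_mul, abs_of_nonneg (hw _).1]
    exact mul_le_mul (hw _).2 (hfg r) (abs_nonneg _) (by norm_num)
  have hpart1 : |∑' x, wk κ x * f x - ∑ r, wk κ (emb r) * g r| ≤ N * (10 / z.im) * δ := by
    have h1 := abs_le.1 hin
    have h2 : δ / z.im ≤ N * (δ / z.im) := le_mul_of_one_le_left (by positivity) hN1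
    have h3 : N * (10 / z.im) * δ = N * (2 * (2 / z.im * δ)) +
        2 * (N * (δ / z.im) + N * (2 / z.im * δ)) := by ring
    rw [abs_le, h3, ← hT]
    constructor
    · linarith [h1.1]
    · linarith [h1.2]
  -- the phases
  have hS1 : ∑ r, g r ≤ 1 / z.im ^ 2 := by
    rw [hSg]
    have h1 : (Gr (H0 d n) v z 0 0).im ≤ 1 / z.im :=
      (Complex.im_le_norm _).trans (hle2 0)
    calc (Gr (H0 d n) v z 0 0).im / z.im ≤ (1 / z.im) / z.im :=
          div_le_div_of_nonneg_right h1 hz.le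
      _ = 1 / z.im ^ 2 := by rw [div_div, sq]
  have hph : ∀ r, |wk κ (emb r) * g r - g r * (1 - (ch k r).re)| ≤
      d * Δ * ρ * g r + 2 * ((2 / z.im) ^ 2 * Real.exp (-(z.im / 4 * ρ))) := by
    intro r
    have h1 : wk κ (emb r) * g r - g r * (1 - (ch k r).re) =
        g r * ((ch k r).re - Real.cos (∑ l, κ l * ((emb r l : ℤ) : ℝ))) := by
      unfold wk
      ring
    rw [h1, abs_mul, abs_of_nonneg (hg0 r), tr0_ch]
    by_cases hr : ∀ l, (|emb r l| : ℝ) ≤ ρ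
    · have h2 : |Real.cos (∑ l, ang n (k l) * ((emb r l : ℤ) : ℝ)) -
          Real.cos (∑ l, κ l * ((emb r l : ℤ) : ℝ))| ≤ d * Δ * ρ := by
        refine (tr0_cos _ _).trans ?_
        rw [← Finset.sum_sub_distrib]
        refine (Finset.abs_sum_le_sum_abs _ _).trans ?_
        calc ∑ l, |ang n (k l) * ((emb r l : ℤ) : ℝ) - κ l * ((emb r l : ℤ) : ℝ)|
            ≤ ∑ _l : Fin d, Δ * ρ := by
              refine Finset.sum_le_sum fun l _ => ?_
              rw [← sub_mul, abs_mul]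
              refine mul_le_mul (hk l) ?_ (abs_nonneg _) hΔ
              have := hr l
              exact this
          _ = d * Δ * ρ := by
              rw [Finset.sum_const, Finset.card_univ, Fintype.card_fin, nsmul_eq_mul]
              ring
      have h3 : 0 ≤ 2 * ((2 / z.im) ^ 2 * Real.exp (-(z.im / 4 * ρ))) := by positivity
      have h4 := mul_le_mul_of_nonneg_left h2 (hg0 r)
      linarith
    · have h2 := bridge_far v hz hz1 hρ r hr
      have h3 : |Real.cos (∑ l, ang n (k l) * ((emb r l : ℤ) : ℝ)) -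
          Real.cos (∑ l, κ l * ((emb r l : ℤ) : ℝ))| ≤ 2 := by
        rw [abs_le]
        have a1 := Real.cos_le_one (∑ l, ang n (k l) * ((emb r l : ℤ) : ℝ))
        have a2 := Real.neg_one_le_cos (∑ l, ang n (k l) * ((emb r l : ℤ) : ℝ))
        have a3 := Real.cos_le_one (∑ l, κ l * ((emb r l : ℤ) : ℝ))
        have a4 := Real.neg_one_le_cos (∑ l, κ l * ((emb r l : ℤ) : ℝ))
        constructor <;> linarith
      have h4 : 0 ≤ d * Δ * ρ * g r := by
        have := hg0 r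
        positivity
      have h5 := mul_le_mul h2 h3 (abs_nonneg _) (by positivity)
      linarith
  have hpart2 : |∑ r, wk κ (emb r) * g r - ∑ r, g r * (1 - (ch k r).re)| ≤
      d * Δ * ρ / z.im ^ 2 + 2 * N * (2 / z.im) ^ 2 * Real.exp (-(z.im / 4 * ρ)) := by
    rw [← Finset.sum_sub_distrib]
    refine (Finset.abs_sum_le_sum_abs _ _).trans ?_
    refine (Finset.sum_le_sum fun r _ => hph r).trans ?_
    rw [Finset.sum_add_distrib, hsumc, ← Finset.mul_sum]
    have h1 : d * Δ * ρ * ∑ r, g r ≤ d * Δ * ρ * (1 / z.im ^ 2) :=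
      mul_le_mul_of_nonneg_left hS1 (by positivity)
    have h2 : d * Δ * ρ * (1 / z.im ^ 2) = d * Δ * ρ / z.im ^ 2 := by ring
    have h3 : N * (2 * ((2 / z.im) ^ 2 * Real.exp (-(z.im / 4 * ρ)))) =
        2 * N * (2 / z.im) ^ 2 * Real.exp (-(z.im / 4 * ρ)) := by ring
    linarith
  have hfin := abs_sub_le (∑' x, wk κ x * f x) (∑ r, wk κ (emb r) * g r)
    (∑ r, g r * (1 - (ch k r).re))
  linarith

end Pool.Agent.QDF
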