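import Pool.Agent.QDF.Tr0
import Pool.Agent.QDF.RhoC
import Pool.Agent.BK3.Pt1X
import Pool.Agent.BK3.Ball
import Pool.Agent.BK3.Sm
import Pool.Agent.Helper3.TG.Ident2

/-! QDF/Tr1. The energy density of the time average, transferred to the torus.

`m = ∫ t dμ`, `ν = μ.map (x - m)`, `π = ⟨lam, n, E - lam m, 1/T⟩`, `η = 1/T ∈ [lam^3, 1]`.
`wE d μ M lam w T E = Σ'_x ofReal(w x/(πT)) ∫⁻ ‖gc M lam (E + i/T) ω x 0‖ₑ² d(PP d μ)`.
* `gc M lam z ω = green (potc M lam ω) z`, and almost surely `|ω x| ≤ M` (`ae_bdd`), so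
  `potc M lam ω x = lam ω x`.
* for each `ω`, exchanging sum and integral (`lintegral_tsum`, `tr0_ward`):
  `wE = ∫⁻ ω, ofReal ((η/π) Σ'_x w x ‖green (potc M lam ω) z x 0‖²)`, finite since the integrand is
  `≤ ofReal((2/π)·(Im green 0 0)) ≤ ofReal(2/(πη))`; `(wE).toReal = (η/π) ∫ Σ'_x w x‖·‖² dPP`.
* `tr0` for `V = potc M lam ω` (`= lam ω` a.s.), `z = E + iη`: and `v r = lam ω(emb r) =
  lam (Vof n m 0 ω r) + lam m`, so `Gr H0 v z = Gr H0 (lam Vof) (z - lam m)`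
  (`bridge_Gr_shift` with `a = -lam m` or the like). `law_bridge μ d n m 0` maps `PP d μ` to
  `Measure.pi ν`, so `∫ Σ_r ‖Gr..r 0‖²(1 - Re ch k r) dPP = Ex ν (Σ_r ‖GG .. r 0‖²(1-Re ch k r))
  = (rhok ν d π 0).re - (rhok ν d π k).re` (`tw_diag_sum` with `x = 0`, `ch k 0 = 1`; `Gr_symm`).
* for `w = 1`: `Σ'_x ‖G x‖² = Im green 0 0/η` and `|green 0 0 - Gr 0 0| ≤ 8d/η²(2n+3)^d e^(-ηn/8)` (`lift`).
* numbers: choose `n` by `p1x_n` (`BK3/Pt1X.lean`) with `u = lam⁻¹ ≥ 7`: `lam^(-40) ≤ 2n+1`,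
  `2n+3 ≤ lam^(-43)`, `lam^(-4)+1 ≤ n`; `k l` = the nearest integer to `κ_l(2n+1)/(2π)`, so that
  `|ang n (k l) - κ l| ≤ π/(2n+1) ≤ 4 lam^40 =: Δ` (`|κ_l| ≤ 1`, so this integer is `≤ n` in absolute
  value and `ang` of its cast is `2π·/(2n+1)`: `Lift_vma`). `ρ = lam^(-4)`:
  `dΔρ/η² ≤ 4d lam^(36-6)`; the exponentials `e^(-ηρ/4) ≤ e^(-lam^(-1)/4)`, `e^(-ηn/8)` beat all the
  powers (`pt1_exp` in `BK/Pt1.lean` or `sm_exp` in `BK3/Sm.lean`). -/

open MeasureTheory Finset Matrix Pool.Agent.BK Pool.Agent.BK3 Pool.Agent.Helper3.Anderson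
open Pool.Agent.Helper3.TG
open scoped ENNReal

noncomputable section

namespace Pool.Agent.QDF

theorem tr1_near {n : ℕ} {x : ℝ} (hn : 4 ≤ n) (hx : |x| ≤ 1) :
    ∃ k : ZMod (2 * n + 1), |ang n k - x| ≤ 4 / (2 * n + 1) := by
  have hn' : (4 : ℝ) ≤ n := by exact_mod_cast hn
  have hN : (0 : ℝ) < 2 * (n : ℝ) + 1 := by positivity
  have hpi := Real.pi_gt_three
  have hpi4 := Real.pi_lt_four
  set u : ℝ := x * (2 * n + 1) / (2 * Real.pi) with hu
  set w : ℤ := round u with hw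
  have h1 : |(w : ℝ) - u| ≤ 1 / 2 := by
    rw [abs_sub_comm]
    exact abs_sub_round u
  have h2 : |u| ≤ (2 * n + 1) / 6 := by
    rw [hu, abs_div, abs_mul, abs_of_pos hN, abs_of_pos (by positivity : (0 : ℝ) < 2 * Real.pi)]
    rw [div_le_div_iff₀ (by positivity) (by norm_num)]
    have e1 : |x| * (2 * (n : ℝ) + 1) ≤ 1 * (2 * n + 1) := mul_le_mul_of_nonneg_right hx hN.le
    nlinarith
  have h3 : |w| ≤ (n : ℤ) := by
    have e1 : |(w : ℝ)| ≤ n := by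
      have e2 : |(w : ℝ)| ≤ |(w : ℝ) - u| + |u| := by
        have := abs_add_le ((w : ℝ) - u) u
        rwa [sub_add_cancel] at this
      linarith
    have e3 : ((|w| : ℤ) : ℝ) ≤ ((n : ℤ) : ℝ) := by
      rw [Int.cast_abs]
      exact_mod_cast e1
    exact_mod_cast e3
  refine ⟨(w : ZMod (2 * n + 1)), ?_⟩
  have h4 : ang n ((w : ZMod (2 * n + 1))) - x = 2 * Real.pi / (2 * n + 1) * ((w : ℝ) - u) := by
    unfold ang
    rw [Lift_vma h3, hu]
    field_simp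
  rw [h4, abs_mul, abs_of_pos (by positivity)]
  calc 2 * Real.pi / (2 * n + 1) * |(w : ℝ) - u| ≤ 2 * Real.pi / (2 * n + 1) * (1 / 2) :=
        mul_le_mul_of_nonneg_left h1 (by positivity)
    _ = Real.pi / (2 * n + 1) := by ring
    _ ≤ 4 / (2 * n + 1) := by gcongr

/-- The weighted sum of the squares of the Green function. -/
private def FF {d : ℕ} (M lam : ℝ) (z : ℂ) (w : Site d → ℝ) (ω : Site d → ℝ) : ℝ :=
  ∑' x : Site d, w x * ‖green (potc M lam ω) z x 0‖ ^ 2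

private lemma ff_sum {d : ℕ} {M : ℝ} (hM : 0 ≤ M) (lam : ℝ) {z : ℂ} (hz : 0 < z.im)
    {w : Site d → ℝ} (hw : ∀ x, 0 ≤ w x ∧ w x ≤ 2) (ω : Site d → ℝ) :
    Summable fun x : Site d => w x * ‖green (potc M lam ω) z x 0‖ ^ 2 := by
  have h1 := (tr0_ward (potc M lam ω) (bdd_potc hM ω) hz).summable
  refine Summable.of_nonneg_of_le (fun x => mul_nonneg (hw x).1 (by positivity))
    (fun x => ?_) (h1.mul_left 2)
  exact mul_le_mul_of_nonneg_right (hw x).2 (by positivity)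

private lemma ff_nonneg {d : ℕ} (M lam : ℝ) (z : ℂ)
    {w : Site d → ℝ} (hw : ∀ x, 0 ≤ w x ∧ w x ≤ 2) (ω : Site d → ℝ) : 0 ≤ FF M lam z w ω :=
  tsum_nonneg fun x => mul_nonneg (hw x).1 (by positivity)

private lemma ff_le {d : ℕ} {M : ℝ} (hM : 0 ≤ M) (lam : ℝ) {z : ℂ} (hz : 0 < z.im)
    {w : Site d → ℝ} (hw : ∀ x, 0 ≤ w x ∧ w x ≤ 2) (ω : Site d → ℝ) :
    FF M lam z w ω ≤ 2 * (1 / z.im / z.im) := by
  have h0 := tr0_ward (potc M lam ω) (bdd_potc hM ω) hz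
  have h1 : FF M lam z w ω ≤ ∑' x : Site d, 2 * ‖green (potc M lam ω) z x 0‖ ^ 2 :=
    Summable.tsum_le_tsum (fun x => mul_le_mul_of_nonneg_right (hw x).2 (by positivity))
      (ff_sum hM lam hz hw ω) (h0.summable.mul_left 2)
  rw [tsum_mul_left, h0.tsum_eq] at h1
  refine h1.trans ?_
  have h2 : (green (potc M lam ω) z 0 0).im ≤ 1 / z.im := by
    refine (Complex.im_le_norm _).trans ?_
    refine (norm_green_le (potc M lam ω) (bdd_potc hM ω) hz 0 0).trans (le_of_eq ?_)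
    simp
  have h3 : (green (potc M lam ω) z 0 0).im / z.im ≤ 1 / z.im / z.im := by gcongr
  linarith

private lemma ff_meas {d : ℕ} {M : ℝ} (hM : 0 ≤ M) (lam : ℝ) {z : ℂ} (hz : 0 < z.im)
    {w : Site d → ℝ} (hw : ∀ x, 0 ≤ w x ∧ w x ≤ 2) : Measurable (FF (d := d) M lam z w) := by
  have h1 : FF (d := d) M lam z w = fun ω => (∑' x : Site d,
      ENNReal.ofReal (w x * ‖gc M lam z ω x 0‖ ^ 2)).toReal := by
    funext ω
    have e1 := ENNReal.ofReal_tsum_of_nonneg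
      (f := fun x : Site d => w x * ‖gc M lam z ω x 0‖ ^ 2)
      (fun x => mul_nonneg (hw x).1 (by positivity)) (ff_sum hM lam hz hw ω)
    rw [← e1, ENNReal.toReal_ofReal]
    · rfl
    · exact ff_nonneg M lam z hw ω
  rw [h1]
  refine Measurable.ennreal_toReal (Measurable.tsum fun x => ?_)
  refine Measurable.ennreal_ofReal (Measurable.const_mul ?_ _)
  exact (measurable_gc hM hz x 0).norm.pow_const 2

private lemma zim {E T : ℝ} : ((E : ℂ) + (T⁻¹ : ℝ) * Complex.I).im = T⁻¹ := by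
  rw [Complex.add_im, Complex.ofReal_im, Complex.mul_im, Complex.I_re, Complex.I_im,
    Complex.ofReal_re, Complex.ofReal_im]
  ring

theorem tr1_fin (d : ℕ) {μ : Measure ℝ} [IsProbabilityMeasure μ] {M : ℝ} (hM : 0 ≤ M)
    {lam T E : ℝ} (hT : 0 < T) (w : Site d → ℝ) (hw : ∀ x, 0 ≤ w x ∧ w x ≤ 2) :
    wE d μ M lam w T E ≠ ⊤ ∧
    (wE d μ M lam w T E).toReal = 1 / (Real.pi * T) *
      ∫ ω, ∑' x : Site d, w x *
        ‖green (potc M lam ω) ((E : ℂ) + (T⁻¹ : ℝ) * Complex.I) x 0‖ ^ 2 ∂(PP d μ) := by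
  set z : ℂ := (E : ℂ) + (T⁻¹ : ℝ) * Complex.I with hz
  have hz0 : 0 < z.im := by
    rw [hz, zim]
    exact inv_pos.2 hT
  have hpT : 0 < Real.pi * T := by positivity
  have h1 : wE d μ M lam w T E = ∫⁻ ω, ENNReal.ofReal (1 / (Real.pi * T) * FF M lam z w ω)
      ∂(PP d μ) := by
    have e1 : wE d μ M lam w T E = ∑' x : Site d, ∫⁻ ω, ENNReal.ofReal (w x / (Real.pi * T)) *
        ‖gc M lam z ω x 0‖ₑ ^ 2 ∂(PP d μ) := by
      unfold wE
      refine tsum_congr fun x => ?_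
      rw [lintegral_const_mul _ ((measurable_gc hM hz0 x 0).enorm.pow_const 2)]
    rw [e1, ← lintegral_tsum (fun x =>
      (((measurable_gc hM hz0 x 0).enorm.pow_const 2).const_mul _).aemeasurable)]
    refine lintegral_congr fun ω => ?_
    have e2 : 1 / (Real.pi * T) * FF M lam z w ω = ∑' x : Site d, 1 / (Real.pi * T) *
        (w x * ‖gc M lam z ω x 0‖ ^ 2) := tsum_mul_left.symm
    have e4 := ENNReal.ofReal_tsum_of_nonneg
      (f := fun x : Site d => 1 / (Real.pi * T) * (w x * ‖gc M lam z ω x 0‖ ^ 2))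
      (fun x => mul_nonneg (by positivity) (mul_nonneg (hw x).1 (by positivity)))
      ((ff_sum hM lam hz0 hw ω).mul_left _)
    rw [e2, e4]
    refine tsum_congr fun x => ?_
    have e3 : 1 / (Real.pi * T) * (w x * ‖gc M lam z ω x 0‖ ^ 2) =
        w x / (Real.pi * T) * ‖gc M lam z ω x 0‖ ^ 2 := by ring
    rw [e3, ENNReal.ofReal_mul (div_nonneg (hw x).1 hpT.le), ENNReal.ofReal_pow (norm_nonneg _),
      ofReal_norm]
  have hint : Integrable (fun ω : Site d → ℝ => 1 / (Real.pi * T) * FF M lam z w ω) (PP d μ) := by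
    refine Integrable.of_bound ((ff_meas hM lam hz0 hw).const_mul _).aestronglyMeasurable
      (1 / (Real.pi * T) * (2 * (1 / z.im / z.im))) (Filter.Eventually.of_forall fun ω => ?_)
    rw [Real.norm_eq_abs, abs_of_nonneg (mul_nonneg (by positivity) (ff_nonneg M lam z hw ω))]
    exact mul_le_mul_of_nonneg_left (ff_le hM lam hz0 hw ω) (by positivity)
  have hnn : 0 ≤ᵐ[PP d μ] fun ω : Site d → ℝ => 1 / (Real.pi * T) * FF M lam z w ω :=
    Filter.Eventually.of_forall fun ω => mul_nonneg (by positivity) (ff_nonneg M lam z hw ω)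
  rw [h1]
  refine ⟨?_, ?_⟩
  · exact hint.lintegral_lt_top.ne
  · rw [← integral_eq_lintegral_of_nonneg_ae hnn hint.aestronglyMeasurable, integral_const_mul]
    rfl

private lemma tr1_tor {ν : Measure ℝ} {R s2 : ℝ} (hν : BLaw ν R s2) (d : ℕ) (π : Par)
    (hη : 0 < π.eta) (k : Tor d π.n) :
    Ex ν (fun V : Tor d π.n → ℝ => ∑ r, ‖GG d π.n π.lam π.z V r 0‖ ^ 2 * (1 - (ch k r).re)) =
      (rhok ν d π 0).re - (rhok ν d π k).re := by
  have h1 : ∀ k : Tor d π.n, (rhok ν d π k).re = ∑ x, fE ν d π x * (ch k x).re := by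
    intro k
    rw [← fE_ch hν d π hη k, Complex.re_sum]
    refine Finset.sum_congr rfl fun x _ => ?_
    rw [Complex.re_ofReal_mul]
  have h2 : ∀ x : Tor d π.n, ch (0 : Tor d π.n) x = 1 := by
    intro x
    rw [ch_comm]
    exact fb34_ch_zero x
  rw [h1, h1, ← Finset.sum_sub_distrib]
  have h3 : Ex ν (fun V : Tor d π.n → ℝ => ∑ r, ‖GG d π.n π.lam π.z V r 0‖ ^ 2 *
      (1 - (ch k r).re)) = ∑ r, Ex ν (fun V : Tor d π.n → ℝ =>
        ‖GG d π.n π.lam π.z V 0 r‖ ^ 2 * (1 - (ch k r).re)) := by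
    have e1 : (fun V : Tor d π.n → ℝ => ∑ r, ‖GG d π.n π.lam π.z V r 0‖ ^ 2 *
        (1 - (ch k r).re)) = fun V => ∑ r, ‖GG d π.n π.lam π.z V 0 r‖ ^ 2 *
        (1 - (ch k r).re) := by
      funext V
      refine Finset.sum_congr rfl fun r _ => ?_
      have e2 : GG d π.n π.lam π.z V r 0 = GG d π.n π.lam π.z V 0 r :=
        Gr_symm (RS_H0 d π.n) (fun x => π.lam * V x) (z := π.z) hη.ne' r 0
      rw [e2]
    rw [e1]
    exact integral_finsetSum _ fun y _ => int_cont hν ((ball_cont d π hη 0 y).mul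
      continuous_const)
  rw [h3]
  refine Finset.sum_congr rfl fun r _ => ?_
  rw [h2]
  have e3 : Ex ν (fun V : Tor d π.n → ℝ => ‖GG d π.n π.lam π.z V 0 r‖ ^ 2 *
      (1 - (ch k r).re)) = fE ν d π r * (1 - (ch k r).re) := integral_mul_const _ _
  rw [e3, Complex.one_re]
  ring

private lemma tr1_shift {d : ℕ} {M lam m E T : ℝ} {n : ℕ} {ω : Site d → ℝ}
    (hω : ∀ x, |ω x| ≤ M) :
    Gr (H0 d n) (fun r => potc M lam ω (emb r)) ((E : ℂ) + (T⁻¹ : ℝ) * Complex.I) =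
      GG d n lam (Par.z ⟨lam, n, E - lam * m, T⁻¹⟩) (Vof n m 0 ω) := by
  have h1 : (fun r : Tor d n => lam * Vof n m 0 ω r) =
      fun r => potc M lam ω (emb r) - lam * m := by
    funext r
    have e1 : potc M lam ω (emb r) = lam * ω (emb r) := by
      unfold potc
      rw [clip_of_abs_le (hω (emb r))]
    rw [e1, Vof, zero_add]
    ring
  unfold GG
  rw [h1, bridge_Gr_shift]
  congr 1
  apply Complex.ext
  · simp [Par.z]
  · simp [Par.z]

theorem tr1_core (d : ℕ) {μ : Measure ℝ} [IsProbabilityMeasure μ] {M : ℝ} (hM : 0 ≤ M)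
    (hμ : μ (Set.Icc (-M) M)ᶜ = 0) {R s2 : ℝ} (hν : BLaw (μ.map fun x => x - ∫ t, t ∂μ) R s2)
    (lam E : ℝ) {T : ℝ} {n : ℕ} (hn : 1 ≤ n) (hT : 1 ≤ T) (κ : Fin d → ℝ) (k : Tor d n)
    {Δ ρ : ℝ} (hρ : 0 ≤ ρ) (hΔ : 0 ≤ Δ) (hk : ∀ l, |ang n (k l) - κ l| ≤ Δ) :
    wE d μ M lam (wk κ) T E ≠ ⊤ ∧ wE d μ M lam (fun _ => 1) T E ≠ ⊤ ∧
      |(wE d μ M lam (wk κ) T E).toReal - T⁻¹ / Real.pi *
        ((rhok (μ.map fun x => x - ∫ t, t ∂μ) d ⟨lam, n, E - lam * ∫ t, t ∂μ, T⁻¹⟩ 0).re -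
        (rhok (μ.map fun x => x - ∫ t, t ∂μ) d ⟨lam, n, E - lam * ∫ t, t ∂μ, T⁻¹⟩ k).re)| ≤
          T⁻¹ / Real.pi * ((2 * n + 1) ^ d * (10 / T⁻¹) *
          (8 * d / T⁻¹ ^ 2 * (2 * n + 3) ^ d * Real.exp (-(T⁻¹ / 8 * n))) +
        d * Δ * ρ / T⁻¹ ^ 2 +
        2 * (2 * n + 1) ^ d * (2 / T⁻¹) ^ 2 * Real.exp (-(T⁻¹ / 4 * ρ))) ∧
      |(wE d μ M lam (fun _ => 1) T E).toReal - 1 / Real.pi *
        (gb (μ.map fun x => x - ∫ t, t ∂μ) d ⟨lam, n, E - lam * ∫ t, t ∂μ, T⁻¹⟩).im| ≤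
          1 / Real.pi * (8 * d / T⁻¹ ^ 2 * (2 * n + 3) ^ d * Real.exp (-(T⁻¹ / 8 * n))) := by
  have hT0 : 0 < T := by linarith
  have hη0 : 0 < T⁻¹ := inv_pos.2 hT0
  have hη1 : T⁻¹ ≤ 1 := inv_le_one_of_one_le₀ hT
  have hpi : 0 < Real.pi := Real.pi_pos
  set m : ℝ := ∫ t, t ∂μ with hm
  set π : Par := ⟨lam, n, E - lam * m, T⁻¹⟩ with hπ
  set z : ℂ := (E : ℂ) + (T⁻¹ : ℝ) * Complex.I with hz
  have hzim : z.im = T⁻¹ := by rw [hz, zim]
  have hz0 : 0 < z.im := by rw [hzim]; exact hη0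
  have hz1 : z.im ≤ 1 := by rw [hzim]; exact hη1
  have hwk : ∀ x, 0 ≤ wk κ x ∧ wk κ x ≤ 2 := by
    intro x
    unfold wk
    constructor
    · linarith [Real.cos_le_one (∑ l, κ l * (x l : ℝ))]
    · linarith [Real.neg_one_le_cos (∑ l, κ l * (x l : ℝ))]
  have hw1 : ∀ x : Site d, 0 ≤ (1 : ℝ) ∧ (1 : ℝ) ≤ 2 := fun x => by norm_num
  obtain ⟨f1, f2⟩ := tr1_fin d (μ := μ) hM (lam := lam) (E := E) hT0 (wk κ) hwk
  obtain ⟨g1, g2⟩ := tr1_fin d (μ := μ) hM (lam := lam) (E := E) hT0 (fun _ => 1) hw1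
  have hae : ∀ᵐ ω ∂(PP d μ), ∀ x, |ω x| ≤ M := ae_bdd hμ
  have hlaw := law_bridge μ d n m 0
  -- the general principle
  have key : ∀ (w : Site d → ℝ), (∀ x, 0 ≤ w x ∧ w x ≤ 2) →
      ∀ (S : (Tor d n → ℝ) → ℝ), Continuous S → ∀ B : ℝ,
      (∀ ω : Site d → ℝ, (∀ x, |ω x| ≤ M) → |FF M lam z w ω - S (Vof n m 0 ω)| ≤ B) →
      |∫ ω, FF M lam z w ω ∂(PP d μ) - Ex (μ.map fun x => x - m) S| ≤ B := by
    intro w hw S hS B hB
    have i1 : Integrable (fun ω : Site d → ℝ => FF M lam z w ω) (PP d μ) := by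
      refine Integrable.of_bound (ff_meas hM lam hz0 hw).aestronglyMeasurable
        (2 * (1 / z.im / z.im)) (Filter.Eventually.of_forall fun ω => ?_)
      rw [Real.norm_eq_abs, abs_of_nonneg (ff_nonneg M lam z hw ω)]
      exact ff_le hM lam hz0 hw ω
    have i2 : Integrable S (Measure.pi fun _ : Tor d n => μ.map (fun x => x - m)) :=
      int_cont hν hS
    have i3 : Integrable (fun ω : Site d → ℝ => S (Vof n m 0 ω)) (PP d μ) :=
      hlaw.integrable_comp_of_integrable i2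
    have e1 : Ex (μ.map fun x => x - m) S = ∫ ω, S (Vof n m 0 ω) ∂(PP d μ) := by
      unfold Ex
      rw [← hlaw.map_eq, integral_map hlaw.measurable.aemeasurable
        hS.aestronglyMeasurable]
    rw [e1, ← integral_sub i1 i3]
    have h1 : |∫ ω, (FF M lam z w ω - S (Vof n m 0 ω)) ∂(PP d μ)| ≤
        ∫ ω, |FF M lam z w ω - S (Vof n m 0 ω)| ∂(PP d μ) := abs_integral_le_integral_abs
    refine h1.trans ?_
    have h2 : ∫ ω, |FF M lam z w ω - S (Vof n m 0 ω)| ∂(PP d μ) ≤ ∫ ω, B ∂(PP d μ) :=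
      integral_mono_ae (i1.sub i3).abs (integrable_const B) (hae.mono fun ω hω => hB ω hω)
    refine h2.trans (le_of_eq ?_)
    rw [integral_const]
    simp
  refine ⟨f1, g1, ?_, ?_⟩
  · have h1 := key (wk κ) hwk (fun V : Tor d n → ℝ => ∑ r, ‖GG d n lam π.z V r 0‖ ^ 2 *
      (1 - (ch k r).re))
      (continuous_finsetSum _ fun r _ => (ball_cont d π hη0 r 0).mul continuous_const)
      ((2 * n + 1) ^ d * (10 / z.im) *
          (8 * d / z.im ^ 2 * (2 * n + 3) ^ d * Real.exp (-(z.im / 8 * n))) +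
        d * Δ * ρ / z.im ^ 2 +
        2 * (2 * n + 1) ^ d * (2 / z.im) ^ 2 * Real.exp (-(z.im / 4 * ρ)))
      (fun ω hω => by
        have e1 := tr0 hn (potc M lam ω) (bdd_potc hM ω) hz0 hz1 κ k hρ hΔ hk
        have e2 := tr1_shift (d := d) (lam := lam) (m := m) (E := E) (T := T) (n := n) hω
        rw [e2] at e1
        exact e1)
    have h2 := tr1_tor hν d π hη0 k
    have h3 : Ex (μ.map fun x => x - m) (fun V : Tor d n → ℝ => ∑ r,
        ‖GG d n lam π.z V r 0‖ ^ 2 * (1 - (ch k r).re)) =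
        (rhok (μ.map fun x => x - m) d π 0).re - (rhok (μ.map fun x => x - m) d π k).re := h2
    rw [h3, hzim] at h1
    have h4 : (wE d μ M lam (wk κ) T E).toReal = T⁻¹ / Real.pi *
        ∫ ω, FF M lam z (wk κ) ω ∂(PP d μ) := by
      rw [f2]
      have e5 : 1 / (Real.pi * T) = T⁻¹ / Real.pi := by
        field_simp
      rw [e5]
      rfl
    rw [h4, ← mul_sub, abs_mul, abs_of_pos (by positivity : 0 < T⁻¹ / Real.pi)]
    exact mul_le_mul_of_nonneg_left h1 (by positivity)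
  · have h1 := key (fun _ => 1) hw1 (fun V : Tor d n → ℝ => (GG d n lam π.z V 0 0).im / T⁻¹)
      ((Complex.continuous_im.comp
        (continuous_Gv_xy (RS_H0 d n) lam (z := π.z) hη0.ne' 0 0)).div_const _)
      (1 / T⁻¹ * (8 * d / T⁻¹ ^ 2 * (2 * n + 3) ^ d * Real.exp (-(T⁻¹ / 8 * n))))
      (fun ω hω => by
        have e0 : FF M lam z (fun _ => 1) ω = (green (potc M lam ω) z 0 0).im / T⁻¹ := by
          unfold FF
          simp only [one_mul]
          rw [(tr0_ward (potc M lam ω) (bdd_potc hM ω) hz0).tsum_eq, hzim]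
        have e1 := lift hn (potc M lam ω) (bdd_potc hM ω) hz0 hz1 0 0 (by simp)
        have e2 := tr1_shift (d := d) (lam := lam) (m := m) (E := E) (T := T) (n := n) hω
        have e3 : (fun r : Tor d n => potc M lam ω (0 + emb r)) =
            fun r => potc M lam ω (emb r) := by
          funext r
          rw [zero_add]
        have e4 : prj n (0 : Site d) = 0 := by
          funext l
          simp [prj]
        rw [e3, e2, e4, add_zero, hzim] at e1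
        rw [e0, ← sub_div, abs_div, abs_of_pos hη0]
        have e5 : |(green (potc M lam ω) z 0 0).im - (GG d n lam π.z (Vof n m 0 ω) 0 0).im| ≤
            ‖green (potc M lam ω) z 0 0 - GG d n lam π.z (Vof n m 0 ω) 0 0‖ := by
          rw [← Complex.sub_im]
          exact Complex.abs_im_le_norm _
        rw [div_eq_mul_inv, mul_comm, ← one_div]
        exact mul_le_mul_of_nonneg_left (e5.trans e1) (by positivity))
    have h3 : Ex (μ.map fun x => x - m) (fun V : Tor d n → ℝ =>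
        (GG d n lam π.z V 0 0).im / T⁻¹) = (gb (μ.map fun x => x - m) d π).im / T⁻¹ := by
      have f2 : Integrable (fun V : Tor d n → ℝ => GG d n lam π.z V 0 0)
          (Measure.pi fun _ : Tor d n => μ.map (fun x => x - m)) :=
        int_cont hν (continuous_Gv_xy (RS_H0 d n) lam (z := π.z) hη0.ne' 0 0)
      have e6 : Ex (μ.map fun x => x - m) (fun V : Tor d n → ℝ =>
        (GG d n lam π.z V 0 0).im / T⁻¹) = Ex (μ.map fun x => x - m) (fun V : Tor d n → ℝ =>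
        (GG d n lam π.z V 0 0).im) / T⁻¹ := integral_div _ _
      have e7 : Ex (μ.map fun x => x - m) (fun V : Tor d n → ℝ =>
        (GG d n lam π.z V 0 0).im) = (gb (μ.map fun x => x - m) d π).im := integral_im f2
      rw [e6, e7]
    rw [h3] at h1
    have h4 : (wE d μ M lam (fun _ => 1) T E).toReal = T⁻¹ / Real.pi *
        ∫ ω, FF M lam z (fun _ => 1) ω ∂(PP d μ) := by
      rw [g2]
      have e5 : 1 / (Real.pi * T) = T⁻¹ / Real.pi := by
        field_simp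
      rw [e5]
      rfl
    have h5 : 1 / Real.pi * (gb (μ.map fun x => x - m) d π).im = T⁻¹ / Real.pi *
        ((gb (μ.map fun x => x - m) d π).im / T⁻¹) := by
      field_simp
    rw [h4, h5, ← mul_sub, abs_mul, abs_of_pos (by positivity : 0 < T⁻¹ / Real.pi)]
    refine (mul_le_mul_of_nonneg_left h1 (by positivity)).trans (le_of_eq ?_)
    field_simp

private lemma tr1_num (d : ℕ) {K cb : ℝ} (hK : 3 ≤ K) :
    ∃ lam1 : ℝ, 0 < lam1 ∧ lam1 ≤ 1 ∧ ∀ (lam η : ℝ) (n : ℕ), 0 < lam →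
      lam ≤ lam1 → η ≤ 1 → lam ^ K ≤ η →
      lam ^ (-(3 * K + 5)) ≤ 2 * (n : ℝ) + 1 → 2 * (n : ℝ) + 1 ≤ lam ^ (-cb) →
      4 ≤ n ∧ 4 / (2 * (n : ℝ) + 1) ≤ lam ^ (3 * K + 4) ∧
      η / Real.pi * ((2 * n + 1) ^ d * (10 / η) *
          (8 * d / η ^ 2 * (2 * n + 3) ^ d * Real.exp (-(η / 8 * n))) +
        d * (4 / (2 * (n : ℝ) + 1)) * lam ^ (-(K + 1)) / η ^ 2 +
        2 * (2 * n + 1) ^ d * (2 / η) ^ 2 * Real.exp (-(η / 4 * lam ^ (-(K + 1))))) ≤ lam ∧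
      1 / Real.pi * (8 * d / η ^ 2 * (2 * n + 3) ^ d * Real.exp (-(η / 8 * n))) ≤ lam := by
  obtain ⟨l1, l10, l11, h1⟩ := sm_exp (3 * (80 * d * 3 ^ d)) (2 * (cb * d) + 2 * K + 1)
    (show (0 : ℝ) < 1 / 32 by norm_num) (show (0 : ℝ) < 1 by norm_num)
  obtain ⟨l2, l20, l21, h2⟩ := sm_exp (3 * 8) (cb * d + K + 1)
    (show (0 : ℝ) < 1 / 32 by norm_num) (show (0 : ℝ) < 1 by norm_num)
  obtain ⟨l3, l30, l31, h3⟩ := sm_exp (8 * d * 3 ^ d) (cb * d + 2 * K + 1)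
    (show (0 : ℝ) < 1 / 32 by norm_num) (show (0 : ℝ) < 1 by norm_num)
  obtain ⟨l4, l40, l41, h4⟩ := sm_le (3 * (4 * d)) (show (1 : ℝ) < 2 by norm_num)
  refine ⟨min (1 / 4) (min l1 (min l2 (min l3 l4))), by positivity,
    (min_le_left _ _).trans (by norm_num), ?_⟩
  intro lam η n hl hle hη1 hη hn1 hn2
  have m0 : lam ≤ 1 / 4 := hle.trans (min_le_left _ _)
  have m1 : lam ≤ l1 := hle.trans ((min_le_right _ _).trans (min_le_left _ _))
  have m2 : lam ≤ l2 := hle.trans ((min_le_right _ _).trans ((min_le_right _ _).trans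
    (min_le_left _ _)))
  have m3 : lam ≤ l3 := hle.trans ((min_le_right _ _).trans ((min_le_right _ _).trans
    ((min_le_right _ _).trans (min_le_left _ _))))
  have m4 : lam ≤ l4 := hle.trans ((min_le_right _ _).trans ((min_le_right _ _).trans
    ((min_le_right _ _).trans (min_le_right _ _))))
  have hl1 : lam ≤ 1 := by linarith
  have rp : ∀ a : ℝ, 0 < lam ^ a := fun a => Real.rpow_pos_of_pos hl a
  have ra : ∀ a b : ℝ, a ≤ b → lam ^ b ≤ lam ^ a := fun a b hab =>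
    Real.rpow_le_rpow_of_exponent_ge hl hl1 hab
  have hη0 : 0 < η := (rp K).trans_le hη
  have hpi3 := Real.pi_gt_three
  set N : ℝ := 2 * (n : ℝ) + 1 with hN
  have hinv : lam ^ (-(1 : ℝ)) = lam⁻¹ := Real.rpow_neg_one lam
  have hinv4 : 4 ≤ lam⁻¹ := by
    rw [le_inv_comm₀ (by norm_num) hl]
    linarith
  have hN16 : 16 ≤ N := by
    have e1 : lam ^ (-(2 : ℝ)) ≤ lam ^ (-(3 * K + 5)) := ra _ _ (by linarith)
    have e2 : lam ^ (-(2 : ℝ)) = lam⁻¹ * lam⁻¹ := by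
      rw [← hinv, ← Real.rpow_add hl]
      norm_num
    nlinarith
  have hN0 : 0 < N := by linarith
  have hn4 : 4 ≤ n := by
    have e1 : (4 : ℝ) ≤ n := by linarith
    exact_mod_cast e1
  have hn4' : (4 : ℝ) ≤ n := by exact_mod_cast hn4
  -- `1/N`
  have hNi : 1 / N ≤ lam ^ (3 * K + 5) := by
    rw [div_le_iff₀ hN0]
    have e1 : lam ^ (3 * K + 5) * lam ^ (-(3 * K + 5)) = 1 := by
      rw [← Real.rpow_add hl]
      simp
    have e2 := mul_le_mul_of_nonneg_left hn1 (rp (3 * K + 5)).le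
    rw [e1] at e2
    exact e2
  -- `1/η`
  have hηi : 1 / η ≤ lam ^ (-K) := by
    rw [div_le_iff₀ hη0]
    have e1 : lam ^ (-K) * lam ^ K = 1 := by
      rw [← Real.rpow_add hl]
      simp
    have e2 := mul_le_mul_of_nonneg_left hη (rp (-K)).le
    rw [e1] at e2
    exact e2
  have h4N : 4 / N ≤ lam ^ (3 * K + 4) := by
    have e1 : lam ^ (3 * K + 4) = lam ^ (3 * K + 5) * lam⁻¹ := by
      rw [← hinv, ← Real.rpow_add hl]
      congr 1
      ring
    have e2 : 4 / N = (1 / N) * 4 := by ring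
    rw [e1, e2]
    exact mul_le_mul hNi hinv4 (by norm_num) (rp _).le
  -- powers
  have hNd : N ^ d ≤ lam ^ (-(cb * d)) := by
    have e1 : lam ^ (-(cb * d)) = (lam ^ (-cb)) ^ d := by
      rw [← Real.rpow_natCast, ← Real.rpow_mul hl.le]
      congr 1
      ring
    rw [e1]
    exact pow_le_pow_left₀ hN0.le hn2 d
  have hNd' : (2 * (n : ℝ) + 3) ^ d ≤ 3 ^ d * lam ^ (-(cb * d)) := by
    have e1 : (2 * (n : ℝ) + 3) ^ d ≤ (3 * N) ^ d :=
      pow_le_pow_left₀ (by positivity) (by linarith) d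
    rw [mul_pow] at e1
    exact e1.trans (mul_le_mul_of_nonneg_left hNd (by positivity))
  -- the exponentials
  set X : ℝ := Real.exp (-(1 / 32 * lam ^ (-(1 : ℝ)))) with hX
  have hX0 : 0 < X := Real.exp_pos _
  have hE1 : Real.exp (-(η / 8 * n)) ≤ X := by
    apply Real.exp_le_exp.2
    have e1 : lam ^ K * lam ^ (-(3 * K + 5)) ≤ η * N :=
      mul_le_mul hη hn1 (rp _).le hη0.le
    have e2 : lam ^ (-(1 : ℝ)) ≤ lam ^ K * lam ^ (-(3 * K + 5)) := by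
      rw [← Real.rpow_add hl]
      apply ra
      linarith
    have e3 : N ≤ 4 * n := by
      rw [hN]
      linarith
    have e4 : η * N ≤ η * (4 * n) := mul_le_mul_of_nonneg_left e3 hη0.le
    linarith
  have hE2 : Real.exp (-(η / 4 * lam ^ (-(K + 1)))) ≤ X := by
    apply Real.exp_le_exp.2
    have e1 : lam ^ K * lam ^ (-(K + 1)) ≤ η * lam ^ (-(K + 1)) :=
      mul_le_mul_of_nonneg_right hη (rp _).le
    have e2 : lam ^ K * lam ^ (-(K + 1)) = lam ^ (-(1 : ℝ)) := by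
      rw [← Real.rpow_add hl]
      congr 1
      ring
    have e3 := rp (-(1 : ℝ))
    linarith
  have b1 := h1 lam hl m1
  have b2 := h2 lam hl m2
  have b3 := h3 lam hl m3
  have b4 := h4 lam hl m4
  rw [Real.rpow_one] at b4
  have hlm : ∀ a : ℝ, lam ^ (-(a + 1)) = lam ^ (-a) * lam⁻¹ := by
    intro a
    rw [← hinv, ← Real.rpow_add hl]
    congr 1
    ring
  have hmulinv : ∀ {C a : ℝ}, C * lam ^ (-(a + 1)) * X ≤ 1 → C * lam ^ (-a) * X ≤ lam := by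
    intro C a h
    rw [hlm] at h
    have e1 : C * (lam ^ (-a) * lam⁻¹) * X = (C * lam ^ (-a) * X) / lam := by
      rw [div_eq_mul_inv]
      ring
    rw [e1, div_le_one hl] at h
    exact h
  have c1 : 3 * (80 * d * 3 ^ d) * lam ^ (-(2 * (cb * d) + 2 * K)) * X ≤ lam := hmulinv b1
  have c2 : 3 * 8 * lam ^ (-(cb * d + K)) * X ≤ lam := hmulinv b2
  have c3 : 8 * d * 3 ^ d * lam ^ (-(cb * d + 2 * K)) * X ≤ lam := hmulinv b3
  refine ⟨hn4, h4N, ?_, ?_⟩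
  · have p1 : η * (N ^ d * (10 / η) * (8 * d / η ^ 2 * (2 * n + 3) ^ d *
        Real.exp (-(η / 8 * n)))) ≤ lam / 3 := by
      have e1 : η * (N ^ d * (10 / η) * (8 * d / η ^ 2 * (2 * n + 3) ^ d *
        Real.exp (-(η / 8 * n)))) = 80 * d * (N ^ d * (2 * n + 3) ^ d * ((1 / η) * (1 / η)) *
        Real.exp (-(η / 8 * n))) := by
        field_simp
        ring
      have e2 : N ^ d * (2 * n + 3) ^ d * ((1 / η) * (1 / η)) * Real.exp (-(η / 8 * n)) ≤
          lam ^ (-(cb * d)) * (3 ^ d * lam ^ (-(cb * d))) * (lam ^ (-K) * lam ^ (-K)) * X := by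
        have := rp (-(cb * d))
        have := rp (-K)
        gcongr
      have e3 : lam ^ (-(2 * (cb * d) + 2 * K)) = lam ^ (-(cb * d)) * lam ^ (-(cb * d)) *
          (lam ^ (-K) * lam ^ (-K)) := by
        rw [← Real.rpow_add hl, ← Real.rpow_add hl, ← Real.rpow_add hl]
        congr 1
        ring
      rw [e1]
      have e4 : 80 * d * (N ^ d * (2 * n + 3) ^ d * ((1 / η) * (1 / η)) *
          Real.exp (-(η / 8 * n))) ≤ 80 * d * (lam ^ (-(cb * d)) * (3 ^ d * lam ^ (-(cb * d))) *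
          (lam ^ (-K) * lam ^ (-K)) * X) := mul_le_mul_of_nonneg_left e2 (by positivity)
      refine e4.trans ?_
      rw [e3] at c1
      linarith
    have p2 : η * (d * (4 / N) * lam ^ (-(K + 1)) / η ^ 2) ≤ lam / 3 := by
      have e1 : η * (d * (4 / N) * lam ^ (-(K + 1)) / η ^ 2) =
          4 * d * ((1 / N) * lam ^ (-(K + 1)) * (1 / η)) := by
        field_simp
      have e2 : (1 / N) * lam ^ (-(K + 1)) * (1 / η) ≤
          lam ^ (3 * K + 5) * lam ^ (-(K + 1)) * lam ^ (-K) := by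
        have := rp (-(K + 1))
        have := rp (3 * K + 5)
        gcongr
      have e3 : lam ^ (3 * K + 5) * lam ^ (-(K + 1)) * lam ^ (-K) ≤ lam ^ (2 : ℝ) := by
        rw [← Real.rpow_add hl, ← Real.rpow_add hl]
        apply ra
        linarith
      rw [e1]
      have e4 : 4 * (d : ℝ) * ((1 / N) * lam ^ (-(K + 1)) * (1 / η)) ≤ 4 * d * lam ^ (2 : ℝ) :=
        mul_le_mul_of_nonneg_left (e2.trans e3) (by positivity)
      linarith
    have p3 : η * (2 * N ^ d * (2 / η) ^ 2 * Real.exp (-(η / 4 * lam ^ (-(K + 1))))) ≤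
        lam / 3 := by
      have e1 : η * (2 * N ^ d * (2 / η) ^ 2 * Real.exp (-(η / 4 * lam ^ (-(K + 1))))) =
          8 * (N ^ d * (1 / η) * Real.exp (-(η / 4 * lam ^ (-(K + 1))))) := by
        field_simp
        ring
      have e2 : N ^ d * (1 / η) * Real.exp (-(η / 4 * lam ^ (-(K + 1)))) ≤
          lam ^ (-(cb * d)) * lam ^ (-K) * X := by
        have := rp (-(cb * d))
        have := rp (-K)
        gcongr
      have e3 : lam ^ (-(cb * d + K)) = lam ^ (-(cb * d)) * lam ^ (-K) := by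
        rw [← Real.rpow_add hl]
        congr 1
        ring
      rw [e1]
      rw [e3] at c2
      linarith
    have e5 : η / Real.pi * (N ^ d * (10 / η) *
          (8 * d / η ^ 2 * (2 * n + 3) ^ d * Real.exp (-(η / 8 * n))) +
        d * (4 / N) * lam ^ (-(K + 1)) / η ^ 2 +
        2 * N ^ d * (2 / η) ^ 2 * Real.exp (-(η / 4 * lam ^ (-(K + 1))))) =
        1 / Real.pi * (η * (N ^ d * (10 / η) *
          (8 * d / η ^ 2 * (2 * n + 3) ^ d * Real.exp (-(η / 8 * n)))) +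
        η * (d * (4 / N) * lam ^ (-(K + 1)) / η ^ 2) +
        η * (2 * N ^ d * (2 / η) ^ 2 * Real.exp (-(η / 4 * lam ^ (-(K + 1)))))) := by ring
    rw [e5]
    have e6 : 1 / Real.pi ≤ 1 := by
      rw [div_le_one (by linarith)]
      linarith
    have e7 : 0 ≤ 1 / Real.pi := by positivity
    have e8 := mul_le_mul_of_nonneg_left (add_le_add (add_le_add p1 p2) p3) e7
    refine e8.trans ?_
    have e9 : 1 / Real.pi * (lam / 3 + lam / 3 + lam / 3) = 1 / Real.pi * lam := by ring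
    rw [e9]
    nlinarith
  · have e1 : 1 / Real.pi ≤ 1 := by
      rw [div_le_one (by linarith)]
      linarith
    have e2 : 8 * d / η ^ 2 * (2 * n + 3) ^ d * Real.exp (-(η / 8 * n)) =
        8 * d * ((1 / η) * (1 / η) * (2 * n + 3) ^ d * Real.exp (-(η / 8 * n))) := by
      field_simp
    have e3 : (1 / η) * (1 / η) * (2 * n + 3) ^ d * Real.exp (-(η / 8 * n)) ≤
        lam ^ (-K) * lam ^ (-K) * (3 ^ d * lam ^ (-(cb * d))) * X := by
      have := rp (-(cb * d))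
      have := rp (-K)
      gcongr
    have e4 : lam ^ (-(cb * d + 2 * K)) = lam ^ (-(cb * d)) * (lam ^ (-K) * lam ^ (-K)) := by
      rw [← Real.rpow_add hl, ← Real.rpow_add hl]
      congr 1
      ring
    have e5 : 8 * d / η ^ 2 * (2 * n + 3) ^ d * Real.exp (-(η / 8 * n)) ≤ lam := by
      rw [e2]
      have e6 : 8 * (d : ℝ) * ((1 / η) * (1 / η) * (2 * n + 3) ^ d * Real.exp (-(η / 8 * n))) ≤
          8 * d * (lam ^ (-K) * lam ^ (-K) * (3 ^ d * lam ^ (-(cb * d))) * X) :=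
        mul_le_mul_of_nonneg_left e3 (by positivity)
      rw [e4] at c3
      linarith
    have e7 : 0 ≤ 1 / Real.pi := by positivity
    have e8 := mul_le_mul_of_nonneg_left e5 e7
    nlinarith

/-- The transfer for arbitrary polynomial times and a given torus size (`transfer2` of `QDF/Tr2.lean`). -/
theorem tr1_main (d : ℕ) {μ : Measure ℝ} [IsProbabilityMeasure μ] {M : ℝ} (hM : 0 ≤ M)
    (hμ : μ (Set.Icc (-M) M)ᶜ = 0) {R s2 : ℝ} (hν : BLaw (μ.map fun x => x - ∫ t, t ∂μ) R s2)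
    {K cb : ℝ} (hK : 3 ≤ K) :
    ∃ lam1 : ℝ, 0 < lam1 ∧ lam1 ≤ 1 ∧ ∀ (lam T E : ℝ) (κ : Fin d → ℝ) (n : ℕ), 0 < lam →
      lam ≤ lam1 → 1 ≤ T → lam ^ K ≤ T⁻¹ → (∀ l, |κ l| ≤ 1) →
      lam ^ (-(3 * K + 5)) ≤ 2 * (n : ℝ) + 1 → 2 * (n : ℝ) + 1 ≤ lam ^ (-cb) →
      ∃ k : Tor d n, (∀ l, |ang n (k l) - κ l| ≤ lam ^ (3 * K + 4)) ∧
        wE d μ M lam (wk κ) T E ≠ ⊤ ∧ wE d μ M lam (fun _ => 1) T E ≠ ⊤ ∧
        |(wE d μ M lam (wk κ) T E).toReal - T⁻¹ / Real.pi *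
          ((rhok (μ.map fun x => x - ∫ t, t ∂μ) d ⟨lam, n, E - lam * ∫ t, t ∂μ, T⁻¹⟩ 0).re -
          (rhok (μ.map fun x => x - ∫ t, t ∂μ) d ⟨lam, n, E - lam * ∫ t, t ∂μ, T⁻¹⟩ k).re)| ≤
            lam ∧
        |(wE d μ M lam (fun _ => 1) T E).toReal - 1 / Real.pi *
          (gb (μ.map fun x => x - ∫ t, t ∂μ) d ⟨lam, n, E - lam * ∫ t, t ∂μ, T⁻¹⟩).im| ≤
            lam := by
  obtain ⟨l1, l10, l11, h1⟩ := tr1_num d (cb := cb) hK
  refine ⟨l1, l10, l11, ?_⟩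
  intro lam T E κ n hl hle hT hKT hκ hn1 hn2
  have hη1 : T⁻¹ ≤ 1 := inv_le_one_of_one_le₀ hT
  obtain ⟨hn4, hΔ, hb1, hb2⟩ := h1 lam T⁻¹ n hl hle hη1 hKT hn1 hn2
  choose k hk using fun l => tr1_near hn4 (hκ l)
  obtain ⟨q1, q2, q3, q4⟩ := tr1_core d hM hμ hν lam E (T := T) (n := n) (by omega) hT κ k
    (Δ := 4 / (2 * (n : ℝ) + 1)) (ρ := lam ^ (-(K + 1)))
    (Real.rpow_nonneg hl.le _) (by positivity) hk
  exact ⟨k, fun l => (hk l).trans hΔ, q1, q2, q3.trans hb1, q4.trans hb2⟩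

theorem transfer (d : ℕ) {μ : Measure ℝ} [IsProbabilityMeasure μ] {M : ℝ} (hM : 0 ≤ M)
    (hμ : μ (Set.Icc (-M) M)ᶜ = 0) {R s2 : ℝ} (hν : BLaw (μ.map fun x => x - ∫ t, t ∂μ) R s2) :
    ∃ lam1 : ℝ, 0 < lam1 ∧ lam1 ≤ 1 ∧ ∀ (lam T E : ℝ) (κ : Fin d → ℝ), 0 < lam → lam ≤ lam1 →
      1 ≤ T → lam ^ 3 ≤ T⁻¹ → (∀ l, |κ l| ≤ 1) →
      ∃ (n : ℕ) (k : Tor d n), lam ^ (-(40 : ℝ)) ≤ 2 * (n : ℝ) + 1 ∧
        2 * (n : ℝ) + 1 ≤ lam ^ (-(43 : ℝ)) ∧ (∀ l, |ang n (k l) - κ l| ≤ lam ^ 10) ∧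
        wE d μ M lam (wk κ) T E ≠ ⊤ ∧ wE d μ M lam (fun _ => 1) T E ≠ ⊤ ∧
        |(wE d μ M lam (wk κ) T E).toReal - T⁻¹ / Real.pi *
          ((rhok (μ.map fun x => x - ∫ t, t ∂μ) d ⟨lam, n, E - lam * ∫ t, t ∂μ, T⁻¹⟩ 0).re -
          (rhok (μ.map fun x => x - ∫ t, t ∂μ) d ⟨lam, n, E - lam * ∫ t, t ∂μ, T⁻¹⟩ k).re)| ≤
            lam ∧
        |(wE d μ M lam (fun _ => 1) T E).toReal - 1 / Real.pi *
          (gb (μ.map fun x => x - ∫ t, t ∂μ) d ⟨lam, n, E - lam * ∫ t, t ∂μ, T⁻¹⟩).im| ≤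
            lam := by
  obtain ⟨l1, l10, l11, h1⟩ := tr1_main d hM hμ hν (K := 3) (cb := 43) le_rfl
  refine ⟨min l1 (1 / 7), by positivity, (min_le_left _ _).trans l11, ?_⟩
  intro lam T E κ hl hle hT hT3 hκ
  have hl1 : lam ≤ 1 / 7 := hle.trans (min_le_right _ _)
  have hu : 7 ≤ lam⁻¹ := by
    rw [le_inv_comm₀ (by norm_num) hl]
    linarith
  obtain ⟨n, e1, e2, e3⟩ := p1x_n hu
  have hneg : ∀ a : ℕ, lam ^ (-(a : ℝ)) = lam⁻¹ ^ a := by
    intro a
    rw [Real.rpow_neg hl.le, Real.rpow_natCast, inv_pow]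
  have e1' : lam ^ (-(40 : ℝ)) ≤ 2 * (n : ℝ) + 1 := by
    have := hneg 40
    push_cast at this
    rw [this]
    exact e1
  have e2' : 2 * (n : ℝ) + 1 ≤ lam ^ (-(43 : ℝ)) := by
    have := hneg 43
    push_cast at this
    rw [this]
    linarith
  have e4 : lam ^ (-(3 * 3 + 5 : ℝ)) ≤ 2 * (n : ℝ) + 1 := by
    refine le_trans ?_ e1'
    apply Real.rpow_le_rpow_of_exponent_ge hl (by linarith)
    norm_num
  have e5 : lam ^ (3 : ℝ) ≤ T⁻¹ := by
    have : lam ^ (3 : ℝ) = lam ^ 3 := by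
      rw [← Real.rpow_natCast]
      norm_num
    rw [this]
    exact hT3
  obtain ⟨k, k1, k2, k3, k4, k5⟩ := h1 lam T E κ n hl (hle.trans (min_le_left _ _)) hT e5 hκ e4 e2'
  refine ⟨n, k, e1', e2', fun l => (k1 l).trans ?_, k2, k3, k4, k5⟩
  rw [← Real.rpow_natCast lam 10]
  apply Real.rpow_le_rpow_of_exponent_ge hl (by linarith)
  norm_num

end Pool.Agent.QDF
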