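import Pool.Agent.QDF.Tr1
import Pool.Agent.QDF.BLawG
import Pool.Agent.BK3.FC3
import Pool.Agent.BK3.FC4
import Pool.Agent.BK.FB344

/-! QDF/Win. Energy-resolved convergence in a window (compare `ptX`, `mainX3`, `mainX4` in
`BK3/FinX.lean` for the construction of the context `c`).

`winX`: given the free bounds on `[lo',hi']`, `lo' < lo`, `hi < hi'`. As in `ptX` take
`e = (3-A-2y0)/100`, `p ≥ 10000 d/e`, `lo1 = (lo'+lo)/2`, `hi1 = (hi+hi')/2`,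
`c = ⟨d,p,lo1,hi1,lo',hi',κF,A,θ,y0,e,10000 d⟩`. With `m = ∫ t dμ`, `π = ⟨lam,n,E - lam m, 1/T⟩`:
`π ∈ c.PT lam1` (`1/T ≥ lam^A`, `1/T ≤ lam^a' ≤ κF/2`, `E - lam m ∈ [lo1,hi1]` for small `lam`),
`π.eta ≤ lam^(2+s)`, `s = a'-2`, `|E - π.E| = lam|m|` (`b = |m|`), `κ_l = lam/√T ξ_l = lam √(1/T) ξ_l`,
`|κ_l| ≤ lam^(1+a'/2) K ≤ 1`. `transfer`, `rho_zero` and `rho_conv` (with `ε/4`), `1/π ≤ 1`.
`win3` : `freeC3` and `freeB4` (`BK/FB344.lean`), `θ = 1/6`, `y0 = 0`, `d ≥ 4`, `A < 3`.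
`win4` : `freeC4`, `θ = 1/4`, `y0 = (A-2)/4`, `d ≥ 3`, `A < 8/3`. -/

open MeasureTheory Finset Matrix Pool.Agent.BK Pool.Agent.BK3 Pool.Agent.Helper3.Anderson
open Pool.Agent.Helper3.TG
open scoped ENNReal

noncomputable section

namespace Pool.Agent.QDF

/-- Energy-resolved convergence on `[lo,hi]` for times between `lam^(-a')` and `lam^(-A)`. -/
def WinC (d : ℕ) (μ : Measure ℝ) [IsProbabilityMeasure μ] (M v a' A lo hi : ℝ) : Prop :=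
  ∀ K ε : ℝ, 0 < ε → ∃ lam0 : ℝ, 0 < lam0 ∧ lam0 ≤ 1 ∧ ∀ lam T : ℝ, 0 < lam → lam ≤ lam0 →
    lam ^ (-a') ≤ T → T ≤ lam ^ (-A) → ∀ E : ℝ, lo ≤ E → E ≤ hi →
    (∀ w : Site d → ℝ, (∀ x, 0 ≤ w x ∧ w x ≤ 2) → wE d μ M lam w T E ≠ ⊤) ∧
    |(wE d μ M lam (fun _ => 1) T E).toReal - g0 d E / Real.pi| ≤ ε ∧
    ∀ ξ : Fin d → ℝ, (∀ l, |ξ l| ≤ K) →
      |(wE d μ M lam (wk fun l => lam / √T * ξ l) T E).toReal -
        g0 d E / Real.pi * (1 - 1 / (1 + DD d v E * x2 ξ))| ≤ ε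

theorem winX {μ : Measure ℝ} [IsProbabilityMeasure μ] {M v : ℝ} (hM : 0 ≤ M)
    (hμ : μ (Set.Icc (-M) M)ᶜ = 0) (hv : v = ∫ t, (t - ∫ s, s ∂μ) ^ 2 ∂μ) (hv0 : 0 < v)
    {d : ℕ} (hd : 3 ≤ d) {lo' hi' lo hi A a' θ y0 κF : ℝ}
    (hF : FreeC d (1 / (1 / 2 - θ)) κF lo' hi') (hlo : lo' < lo) (hhi : hi < hi')
    (ha : 2 < a') (hA : a' ≤ A) (hθ : 1 / 6 ≤ θ) (hθ' : θ ≤ 1 / 4) (hy : 0 ≤ y0)
    (hgain : 0 ≤ 1 - θ * (2 + A) + 4 * θ * y0) (hroom : 0 < 3 - A - 2 * y0) :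
    WinC d μ M v a' A lo hi := by
  intro K ε hε
  obtain ⟨R, hν⟩ := bLaw_gen hμ hv hv0
  obtain ⟨m, hm⟩ : ∃ m : ℝ, m = ∫ t, t ∂μ := ⟨_, rfl⟩
  obtain ⟨e, he⟩ : ∃ e : ℝ, e = (3 - A - 2 * y0) / 100 := ⟨_, rfl⟩
  have he0 : 0 < e := by rw [he]; linarith
  obtain ⟨p, hp⟩ := exists_nat_ge (10000 * (d : ℝ) / e)
  obtain ⟨lo1, hlo1⟩ : ∃ lo1 : ℝ, lo1 = (lo' + lo) / 2 := ⟨_, rfl⟩
  obtain ⟨hi1, hhi1⟩ : ∃ hi1 : ℝ, hi1 = (hi + hi') / 2 := ⟨_, rfl⟩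
  have hκF := hF.kap
  have hA3 : A < 3 := by linarith
  set c : Cx := ⟨d, p, lo1, hi1, lo', hi', κF, A, θ, y0, e, 10000 * d⟩ with hcdef
  have hc : c.Ok := by
    refine ⟨hd, he0, by linarith, by linarith, hy, hθ, hθ', hgain, ?_, ?_, le_rfl, ?_, ?_, hF⟩
    · change 100 * e ≤ 3 - A - 2 * y0
      linarith
    · change 10000 * (d : ℝ) ≤ e * p
      rw [div_le_iff₀ he0] at hp
      linarith
    · change lo' < lo1
      linarith
    · change hi1 < hi'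
      linarith
  obtain ⟨l1, l10, l11, hl1⟩ := transfer d hM hμ hν
  obtain ⟨l2, l20, l21, hl2⟩ := rho_conv hν c hc (s := a' - 2) (b := |m|) (K := |K|)
    (ε := ε / 4) (by linarith) (abs_nonneg _) (abs_nonneg _) (by positivity)
  obtain ⟨l3, l30, l31, hl3⟩ := sm_one (2 / κF) (show 0 < a' by linarith)
  obtain ⟨g, hg⟩ : ∃ g : ℝ, g = min (lo - lo1) (hi1 - hi) := ⟨_, rfl⟩
  have hg1 : g ≤ lo - lo1 := hg ▸ min_le_left _ _
  have hg2 : g ≤ hi1 - hi := hg ▸ min_le_right _ _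
  have hg0 : 0 < g := by
    rw [hg]
    exact lt_min (by linarith) (by linarith)
  obtain ⟨l4, hl4⟩ : ∃ l4 : ℝ, l4 = min (g / (1 + |m|)) (min (1 / (1 + |K|)) (ε / 4)) := ⟨_, rfl⟩
  have l40 : 0 < l4 := by rw [hl4]; positivity
  refine ⟨min (min l1 l2) (min l3 l4), by positivity,
    (min_le_left _ _).trans ((min_le_left _ _).trans l11), ?_⟩
  intro lam T hlam hle hT1 hT2 E hE1 hE2
  have m1 : lam ≤ l1 := hle.trans ((min_le_left _ _).trans (min_le_left _ _))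
  have m2 : lam ≤ l2 := hle.trans ((min_le_left _ _).trans (min_le_right _ _))
  have m3 : lam ≤ l3 := hle.trans ((min_le_right _ _).trans (min_le_left _ _))
  have m4 : lam ≤ l4 := hle.trans ((min_le_right _ _).trans (min_le_right _ _))
  have n1 : lam ≤ g / (1 + |m|) := m4.trans (by rw [hl4]; exact min_le_left _ _)
  have n2 : lam ≤ 1 / (1 + |K|) := m4.trans (by
    rw [hl4]; exact (min_le_right _ _).trans (min_le_left _ _))
  have n3 : lam ≤ ε / 4 := m4.trans (by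
    rw [hl4]; exact (min_le_right _ _).trans (min_le_right _ _))
  have hlam1 : lam ≤ 1 := m1.trans l11
  have hT0 : 0 < T := lt_of_lt_of_le (rp_pos hlam _) hT1
  have h1T : 1 ≤ T := by
    refine le_trans ?_ hT1
    rw [Real.rpow_neg hlam.le]
    exact (one_le_inv₀ (rp_pos hlam _)).2 (Real.rpow_le_one hlam.le hlam1 (by linarith))
  have hTinv1 : T⁻¹ ≤ lam ^ a' := by
    rw [Real.rpow_neg hlam.le] at hT1
    have := inv_anti₀ (inv_pos.2 (rp_pos hlam a')) hT1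
    rwa [inv_inv] at this
  have hTinv2 : lam ^ A ≤ T⁻¹ := by
    rw [Real.rpow_neg hlam.le] at hT2
    have := inv_anti₀ hT0 hT2
    rwa [inv_inv] at this
  have hTinv3 : lam ^ 3 ≤ T⁻¹ := by
    refine le_trans ?_ hTinv2
    have h1 := rp_anti hlam hlam1 hA3.le
    rw [show (3 : ℝ) = ((3 : ℕ) : ℝ) by norm_num, Real.rpow_natCast] at h1
    exact h1
  have hlm : |lam * m| ≤ g := by
    rw [abs_mul, abs_of_pos hlam]
    rw [le_div_iff₀ (by positivity)] at n1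
    nlinarith [abs_nonneg m]
  have hlm' := abs_le.1 hlm
  have hPT : ∀ n : ℕ, lam ^ (-(40 : ℝ)) ≤ 2 * (n : ℝ) + 1 →
      2 * (n : ℝ) + 1 ≤ lam ^ (-(43 : ℝ)) →
      (⟨lam, n, E - lam * m, T⁻¹⟩ : Par) ∈ c.PT l2 := by
    intro n hn1 hn2
    refine ⟨hlam, m2, hn1, hn2, ?_, ?_, hTinv2, ?_⟩
    · change lo1 ≤ E - lam * m
      linarith
    · change E - lam * m ≤ hi1
      linarith
    · change T⁻¹ ≤ κF / 2
      have h3 := hl3 lam hlam m3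
      rw [div_mul_eq_mul_div, div_le_one hκF] at h3
      linarith
  have hηs : T⁻¹ ≤ lam ^ (2 + (a' - 2)) := by
    rw [show 2 + (a' - 2) = a' by ring]
    exact hTinv1
  have hE0 : |E - (E - lam * m)| ≤ |m| * lam := by
    rw [sub_sub_cancel, abs_mul, abs_of_pos hlam]
    linarith
  have hπ0 := Real.pi_pos
  have hπ1 : 1 ≤ Real.pi := by linarith [Real.pi_gt_three]
  refine ⟨fun w hw => (tr1_fin d hM hT0 w hw).1, ?_, ?_⟩
  · obtain ⟨n, k, hn1, hn2, -, -, -, -, hw1⟩ := hl1 lam T E (fun _ => 0) hlam m1 h1T hTinv3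
      (fun l => by simp)
    have h1 := (hl2 _ (hPT n hn1 hn2) hηs E hE0).1
    rw [← hm] at hw1
    have h2 : |1 / Real.pi * (gb (μ.map fun x => x - m) d ⟨lam, n, E - lam * m, T⁻¹⟩).im -
        g0 d E / Real.pi| ≤ ε / 4 := by
      have e1 : 1 / Real.pi * (gb (μ.map fun x => x - m) d ⟨lam, n, E - lam * m, T⁻¹⟩).im -
        g0 d E / Real.pi = ((gb (μ.map fun x => x - m) d ⟨lam, n, E - lam * m, T⁻¹⟩).im -
        g0 d E) / Real.pi := by ring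
      rw [e1, abs_div, abs_of_pos hπ0]
      rw [← hm] at h1
      exact (div_le_self (abs_nonneg _) hπ1).trans h1
    have h3 := abs_sub_le (wE d μ M lam (fun _ => 1) T E).toReal
      (1 / Real.pi * (gb (μ.map fun x => x - m) d ⟨lam, n, E - lam * m, T⁻¹⟩).im)
      (g0 d E / Real.pi)
    linarith
  · intro ξ hξ
    have hξ' : ∀ l, |ξ l| ≤ |K| := fun l => (hξ l).trans (le_abs_self K)
    have hsT : 1 ≤ √T := Real.one_le_sqrt.2 h1T
    have hκ1 : ∀ l, |lam / √T * ξ l| ≤ 1 := by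
      intro l
      rw [abs_mul, abs_div, abs_of_pos hlam, abs_of_pos (by linarith : 0 < √T)]
      have h1 : lam / √T ≤ lam := div_le_self hlam.le hsT
      rw [le_div_iff₀ (by positivity)] at n2
      calc lam / √T * |ξ l| ≤ lam * |K| := mul_le_mul h1 (hξ' l) (abs_nonneg _) hlam.le
        _ ≤ 1 := by nlinarith
    obtain ⟨n, k, hn1, hn2, hk, -, -, hw1, -⟩ := hl1 lam T E (fun l => lam / √T * ξ l) hlam m1
      h1T hTinv3 hκ1
    obtain ⟨h1, h2⟩ := hl2 _ (hPT n hn1 hn2) hηs E hE0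
    have hk' : ∀ l, |ang n (k l) - lam * √(T⁻¹) * ξ l| ≤ lam ^ 10 := by
      intro l
      rw [Real.sqrt_inv, ← div_eq_mul_inv]
      exact hk l
    have h3 := h2 ξ hξ' k hk'
    have h4 := rho_zero hν d ⟨lam, n, E - lam * m, T⁻¹⟩ (inv_pos.2 hT0)
    rw [← hm] at hw1 h1 h3 h4
    change T⁻¹ * (rhok (μ.map fun x => x - m) d ⟨lam, n, E - lam * m, T⁻¹⟩ 0).re =
      (gb (μ.map fun x => x - m) d ⟨lam, n, E - lam * m, T⁻¹⟩).im at h4
    change |(gb (μ.map fun x => x - m) d ⟨lam, n, E - lam * m, T⁻¹⟩).im - g0 d E| ≤ ε / 4 at h1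
    change |T⁻¹ * (rhok (μ.map fun x => x - m) d ⟨lam, n, E - lam * m, T⁻¹⟩ k).re -
      g0 d E / (1 + DD d v E * x2 ξ)| ≤ ε / 4 at h3
    have e1 : T⁻¹ / Real.pi * ((rhok (μ.map fun x => x - m) d ⟨lam, n, E - lam * m, T⁻¹⟩ 0).re -
        (rhok (μ.map fun x => x - m) d ⟨lam, n, E - lam * m, T⁻¹⟩ k).re) -
        g0 d E / Real.pi * (1 - 1 / (1 + DD d v E * x2 ξ)) =
        (((gb (μ.map fun x => x - m) d ⟨lam, n, E - lam * m, T⁻¹⟩).im - g0 d E) -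
        (T⁻¹ * (rhok (μ.map fun x => x - m) d ⟨lam, n, E - lam * m, T⁻¹⟩ k).re -
          g0 d E / (1 + DD d v E * x2 ξ))) / Real.pi := by
      rw [← h4]
      ring
    have h5 : |T⁻¹ / Real.pi * ((rhok (μ.map fun x => x - m) d ⟨lam, n, E - lam * m, T⁻¹⟩ 0).re -
        (rhok (μ.map fun x => x - m) d ⟨lam, n, E - lam * m, T⁻¹⟩ k).re) -
        g0 d E / Real.pi * (1 - 1 / (1 + DD d v E * x2 ξ))| ≤ ε / 2 := by
      rw [e1, abs_div, abs_of_pos hπ0]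
      refine (div_le_self (abs_nonneg _) hπ1).trans ?_
      refine (abs_sub _ _).trans ?_
      linarith
    have h6 := abs_sub_le (wE d μ M lam (wk fun l => lam / √T * ξ l) T E).toReal
      (T⁻¹ / Real.pi * ((rhok (μ.map fun x => x - m) d ⟨lam, n, E - lam * m, T⁻¹⟩ 0).re -
        (rhok (μ.map fun x => x - m) d ⟨lam, n, E - lam * m, T⁻¹⟩ k).re))
      (g0 d E / Real.pi * (1 - 1 / (1 + DD d v E * x2 ξ)))
    linarith

theorem win {μ : Measure ℝ} [IsProbabilityMeasure μ] {M v : ℝ} (hM : 0 ≤ M)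
    (hμ : μ (Set.Icc (-M) M)ᶜ = 0) (hv : v = ∫ t, (t - ∫ s, s ∂μ) ^ 2 ∂μ) (hv0 : 0 < v)
    {d : ℕ} (hd : 3 ≤ d) {lo hi A a' : ℝ} (hlo : 0 < lo) (hhi : hi < 4 * d)
    (ha : 2 < a') (hA : a' ≤ A) (hAd : (A < 3 ∧ 4 ≤ d) ∨ A < 8 / 3) :
    WinC d μ M v a' A lo hi := by
  obtain ⟨b, hb⟩ : ∃ b : ℝ, b = min (min lo (4 * d - hi)) 1 / 2 := ⟨_, rfl⟩
  have h0 : 0 < min (min lo (4 * d - hi)) 1 := lt_min (lt_min hlo (by linarith)) one_pos
  have hb0 : 0 < b := by rw [hb]; linarith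
  have hb1 : b ≤ 1 := by
    have := min_le_right (min lo (4 * d - hi)) 1
    rw [hb]
    linarith
  have hblo : b < lo := by
    have := (min_le_left (min lo (4 * d - hi)) 1).trans (min_le_left _ _)
    rw [hb]
    linarith
  have hbhi : hi < 4 * d - b := by
    have := (min_le_left (min lo (4 * d - hi)) 1).trans (min_le_right _ _)
    linarith
  rcases hAd with ⟨hA3, hd4⟩ | hA8
  · obtain ⟨κF, hFC⟩ := freeC3 (by omega) (freeB4 (b := b) hb0 hb1 hd4)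
    exact winX hM hμ hv hv0 hd (θ := 1 / 6) (y0 := 0) hFC hblo hbhi ha hA le_rfl (by norm_num)
      le_rfl (by linarith) (by linarith)
  · obtain ⟨κF, hFC⟩ := freeC4 hd hb0 hb1
    exact winX hM hμ hv hv0 hd (θ := 1 / 4) (y0 := (A - 2) / 4) hFC hblo hbhi ha hA
      (by norm_num) le_rfl (by linarith) (by linarith) (by linarith)

end Pool.Agent.QDF
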